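import Mathlib

set_option autoImplicit false

/-!
# Systems of places of a field over a constant field, with the product formula
-/

namespace Pool.Agent.H92.RP

/-- A system of (normalised discrete) places of the field `K`, trivial on the constant field `k`,
satisfying the product formula.  The value `v p 0` is irrelevant. -/
structure Places (k K : Type) [Field k] [Field K] [Algebra k K] where
  ι : Type
  v : ι → K → ℤ
  mul : ∀ p a b, a ≠ 0 → b ≠ 0 → v p (a * b) = v p a + v p b
  add : ∀ p a b, a ≠ 0 → b ≠ 0 → a + b ≠ 0 → min (v p a) (v p b) ≤ v p (a + b)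
  const : ∀ p (a : k), a ≠ 0 → v p (algebraMap k K a) = 0
  fin : ∀ a, a ≠ 0 → {p | v p a ≠ 0}.Finite
  prod : ∀ a, a ≠ 0 → ∑ᶠ p, v p a = 0
  unif : ∀ p, ∃ a, a ≠ 0 ∧ v p a = 1

namespace Places

variable {k K : Type} [Field k] [Field K] [Algebra k K] (pl : Places k K)

/-- `a` is zero or has value at least `n` at the place `p`. -/
def ge (p : pl.ι) (n : ℤ) (a : K) : Prop := a ≠ 0 → n ≤ pl.v p a

variable {pl} {p : pl.ι} {n m : ℤ} {a b : K}

theorem ge_zero (p : pl.ι) (n : ℤ) : pl.ge p n 0 := fun h => absurd rfl h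

theorem ge.mono (h : pl.ge p n a) (hmn : m ≤ n) : pl.ge p m a := fun ha => hmn.trans (h ha)

theorem v_one (p : pl.ι) : pl.v p 1 = 0 := by
  have := pl.mul p 1 1 one_ne_zero one_ne_zero
  rw [mul_one] at this
  linarith

theorem v_neg_one (p : pl.ι) : pl.v p (-1) = 0 := by
  have h := pl.mul p (-1) (-1) (neg_ne_zero.2 one_ne_zero) (neg_ne_zero.2 one_ne_zero)
  rw [neg_mul_neg, mul_one, v_one] at h
  linarith

theorem v_neg (p : pl.ι) (a : K) (ha : a ≠ 0) : pl.v p (-a) = pl.v p a := by
  have h := pl.mul p (-1) a (neg_ne_zero.2 one_ne_zero) ha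
  rw [v_neg_one, neg_one_mul] at h
  linarith

theorem ge.add (ha : pl.ge p n a) (hb : pl.ge p n b) : pl.ge p n (a + b) := by
  intro h
  by_cases ha0 : a = 0
  · subst ha0
    rw [zero_add] at h ⊢
    exact hb h
  by_cases hb0 : b = 0
  · subst hb0
    rw [add_zero] at h ⊢
    exact ha h
  exact (le_min (ha ha0) (hb hb0)).trans (pl.add p a b ha0 hb0 h)

theorem ge.neg (ha : pl.ge p n a) : pl.ge p n (-a) := by
  intro h
  have ha0 : a ≠ 0 := neg_ne_zero.1 h
  rw [v_neg p a ha0]
  exact ha ha0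

theorem ge.sub (ha : pl.ge p n a) (hb : pl.ge p n b) : pl.ge p n (a - b) := by
  rw [sub_eq_add_neg]
  exact ha.add hb.neg

theorem ge.mul (ha : pl.ge p n a) (hb : pl.ge p m b) : pl.ge p (n + m) (a * b) := by
  intro h
  have ha0 : a ≠ 0 := left_ne_zero_of_mul h
  have hb0 : b ≠ 0 := right_ne_zero_of_mul h
  rw [pl.mul p a b ha0 hb0]
  exact add_le_add (ha ha0) (hb hb0)

theorem ge.sum {ι : Type*} (s : Finset ι) (f : ι → K) (h : ∀ i ∈ s, pl.ge p n (f i)) :
    pl.ge p n (∑ i ∈ s, f i) := by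
  classical
  induction s using Finset.induction_on with
  | empty => simpa using ge_zero p n
  | insert i s hi ih =>
    rw [Finset.sum_insert hi]
    exact (h i (Finset.mem_insert_self _ _)).add (ih fun j hj => h j (Finset.mem_insert_of_mem hj))

theorem ge_algebraMap (p : pl.ι) (c : k) : pl.ge p 0 (algebraMap k K c) := by
  intro h
  have hc : c ≠ 0 := by
    rintro rfl
    exact h (map_zero _)
  rw [pl.const p c hc]

theorem ge_one (p : pl.ι) : pl.ge p 0 1 := by
  have := ge_algebraMap (pl := pl) p 1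
  rwa [map_one] at this

theorem v_inv (p : pl.ι) (a : K) (ha : a ≠ 0) : pl.v p a⁻¹ = -pl.v p a := by
  have h := pl.mul p a a⁻¹ ha (inv_ne_zero ha)
  rw [mul_inv_cancel₀ ha, v_one] at h
  linarith

theorem v_div (p : pl.ι) (a b : K) (ha : a ≠ 0) (hb : b ≠ 0) :
    pl.v p (a / b) = pl.v p a - pl.v p b := by
  rw [div_eq_mul_inv, pl.mul p a b⁻¹ ha (inv_ne_zero hb), v_inv p b hb]
  ring

theorem v_pow (p : pl.ι) (a : K) (ha : a ≠ 0) (N : ℕ) : pl.v p (a ^ N) = N * pl.v p a := by
  induction N with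
  | zero => simp [v_one]
  | succ N ih =>
    rw [pow_succ, pl.mul p _ _ (pow_ne_zero _ ha) ha, ih]
    push_cast
    ring

theorem ge.pow (ha : pl.ge p n a) (N : ℕ) : pl.ge p (N * n) (a ^ N) := by
  intro h
  by_cases hN : N = 0
  · subst hN
    simp [v_one]
  have ha0 : a ≠ 0 := by
    rintro rfl
    exact h (zero_pow hN)
  rw [v_pow p a ha0]
  exact mul_le_mul_of_nonneg_left (ha ha0) (Nat.cast_nonneg N)

/-- The value of a sum with a strictly dominating term. -/
theorem v_add_eq (p : pl.ι) (a b : K) (ha : a ≠ 0) (hb : pl.ge p (pl.v p a + 1) b) :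
    a + b ≠ 0 ∧ pl.v p (a + b) = pl.v p a := by
  by_cases hb0 : b = 0
  · subst hb0
    simp [ha]
  have hb1 := hb hb0
  have hab : a + b ≠ 0 := by
    intro h
    have h1 : b = -a := by linear_combination h
    rw [h1, v_neg p a ha] at hb1
    linarith
  refine ⟨hab, le_antisymm ?_ ?_⟩
  · by_contra hlt
    have h2 : a = (a + b) + (-b) := by ring
    have h3 := pl.add p (a + b) (-b) hab (neg_ne_zero.2 hb0) (by rw [← h2]; exact ha)
    rw [← h2, v_neg p b hb0] at h3
    rcases min_le_iff.1 h3 with h4 | h4 <;> omega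
  · refine le_trans ?_ (pl.add p a b ha hb0 hab)
    exact le_min le_rfl (by omega)

end Places

end Pool.Agent.H92.RP
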