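import Mathlib
import Pool.Agent.H13.Mult
import Pool.Agent.H92.RP.Places

set_option autoImplicit false

/-!
# Reflection principle: the basic definitions

Throughout `k` is a field, plane curves are given by polynomials `G : MvPolynomial (Fin 2) k`.
-/

namespace Pool.Agent.H92.RP

open Pool.Agent.H13

variable {k : Type} [Field k]

/-- The leading polynomial of `G` at `P` in degree `N`: the part of degree `N` of
`G(X + P)` evaluated at `(1, Z)`. -/
noncomputable def lfp (N : ℕ) (P : Fin 2 → k) (G : MvPolynomial (Fin 2) k) : Polynomial k :=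
  ∑ b ∈ Finset.range (N + 1), Polynomial.monomial b ((tr P G).coeff (expo (N - b, b)))

/-- The top polynomial of `G` in degree `d`: the part of degree `d` evaluated at `(1, Z)`. -/
noncomputable def topp (d : ℕ) (G : MvPolynomial (Fin 2) k) : Polynomial k :=
  ∑ b ∈ Finset.range (d + 1), Polynomial.monomial b (G.coeff (expo (d - b, b)))

/-- Restriction to the vertical line `X = a`. -/
noncomputable def vres (a : k) : MvPolynomial (Fin 2) k →ₐ[k] Polynomial k :=
  MvPolynomial.aeval ![Polynomial.C a, Polynomial.X]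

/-- Derivative in the direction `w`. -/
noncomputable def dw (w : Fin 2 → k) (G : MvPolynomial (Fin 2) k) : MvPolynomial (Fin 2) k :=
  MvPolynomial.C (w 0) * MvPolynomial.pderiv 0 G + MvPolynomial.C (w 1) * MvPolynomial.pderiv 1 G

/-- The data of a curve `C` of degree `3M` with ordinary `M`-fold points at `P 0, …, P 8`, smooth
elsewhere, with `3M` distinct points at infinity (not on the `Y`-axis), such that the vertical
lines through the points are otherwise transversal, and of a cubic `f` meeting `C` only at the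
points `P i`, in directions different from those of `C`; `w` is the tangent direction of `f = 0`
at `P 8`. -/
structure HCurve (M : ℕ) (f C : MvPolynomial (Fin 2) k) (P : Fin 9 → Fin 2 → k)
    (w : Fin 2 → k) : Prop where
  M_pos : 0 < M
  deg : C ∈ Vd k (3 * M)
  prime : Prime C
  top_deg : (topp (3 * M) C).natDegree = 3 * M
  top_sep : (topp (3 * M) C).Separable
  xinj : Function.Injective fun i => P i 0
  vanish : ∀ i, C ∈ Iord (P i) M
  lead_deg : ∀ i, (lfp M (P i) C).natDegree = M
  lead_sep : ∀ i, (lfp M (P i) C).Separable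
  fibre : ∀ i, ∃ R : Polynomial k, vres (P i 0) C =
    (Polynomial.X - Polynomial.C (P i 1)) ^ M * R ∧ R.Separable ∧ R.eval (P i 1) ≠ 0
  smooth : ∀ Q : Fin 2 → k, MvPolynomial.eval Q C = 0 → (∀ i, Q ≠ P i) →
    MvPolynomial.eval Q (MvPolynomial.pderiv 0 C) ≠ 0 ∨
      MvPolynomial.eval Q (MvPolynomial.pderiv 1 C) ≠ 0
  fdeg : f ∈ Vd k 3
  ftop : ∀ z, (topp (3 * M) C).eval z = 0 → (topp 3 f).eval z ≠ 0
  fC : ∀ Q : Fin 2 → k, MvPolynomial.eval Q f = 0 → MvPolynomial.eval Q C = 0 → ∃ i, Q = P i
  fP : ∀ i, MvPolynomial.eval (P i) f = 0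
  flead : ∀ i z, (lfp M (P i) C).eval z = 0 → (lfp 1 (P i) f).eval z ≠ 0
  fw : MvPolynomial.eval (P 8) (dw w f) = 0
  fY : MvPolynomial.eval (P 8) (MvPolynomial.pderiv 1 f) ≠ 0
  w0 : w 0 ≠ 0

/-! ### Laurent series -/

/-- `a ∈ s ^ m k[[s]]` -/
def lge (m : ℤ) (a : LaurentSeries k) : Prop := ∀ i, i < m → a.coeff i = 0

/-- the variable `s` of the field of Laurent series -/
noncomputable abbrev ss (k : Type) [Field k] : LaurentSeries k := HahnSeries.single 1 1

/-- evaluation of polynomials at a pair of Laurent series -/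
noncomputable def lev (a b : LaurentSeries k) : MvPolynomial (Fin 2) k →+* LaurentSeries k :=
  MvPolynomial.eval₂Hom (HahnSeries.C : k →+* LaurentSeries k) ![a, b]

/-! ### Curves moving in a family -/

/-- The ideal of the polynomials in `t` with coefficients in `k[X, Y]` which vanish to order `m`
at the moving point `P + t w`. -/
noncomputable def Imov (P w : Fin 2 → k) (m : ℕ) :
    Ideal (Polynomial (MvPolynomial (Fin 2) k)) :=
  Ideal.span {Polynomial.C (MvPolynomial.X 0 - MvPolynomial.C (P 0)) -
      Polynomial.C (MvPolynomial.C (w 0)) * Polynomial.X,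
    Polynomial.C (MvPolynomial.X 1 - MvPolynomial.C (P 1)) -
      Polynomial.C (MvPolynomial.C (w 1)) * Polynomial.X} ^ m

/-- The symbol `∑ i ≤ j, φ (H i) w ^ (j - i)`. -/
noncomputable def symb {K : Type} [Field K] (φ : MvPolynomial (Fin 2) k →+* K) (j : ℕ)
    (H : ℕ → MvPolynomial (Fin 2) k) : Polynomial K :=
  ∑ i ∈ Finset.range (j + 1), Polynomial.monomial (j - i) (φ (H i))

end Pool.Agent.H92.RP
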