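import Mathlib
import Pool.Agent.H13.Genus
import Pool.Agent.H92.RP.Defs

set_option autoImplicit false

/-!
# RP-H0a: leading polynomials, top polynomials, vertical restrictions

`lfp N P G` is the part of degree `N` of `tr P G = G(X + P)` evaluated at `(1, Z)`, `topp d G` the
part of degree `d` of `G` evaluated at `(1, Z)`, `vres a G = G(a, Z)`.

PROOFS.  `lfp_coeff`: coefficient of `Z^b` (`b ≤ N`) is the coefficient of `X^(N-b) Y^b` in
`tr P G`.  Everything else is coefficient comparison.
* `lfp_mul`: for `G ∈ Iord P a`, `H ∈ Iord P b` the coefficient of `X^(a+b-c) Y^c` in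
  `tr P G * tr P H` is the sum over pairs of monomials (`MvPolynomial.coeff_mul`); only pairs with
  degrees exactly `a` and `b` contribute (degree `< a` resp. `< b` vanish).  Slicker: `lfp N P G`
  is obtained from the substitution `X ↦ s, Y ↦ s Z`, i.e. the ring homomorphism
  `Θ : MvPolynomial (Fin 2) k → k[Z][s]`; for `G ∈ Iord P a` the polynomial `Θ (tr P G)` is
  divisible by `s^a` and `lfp a P G` is its coefficient of `s^a`.  Similarly `topp` via the
  coefficient of `s^d`.
* `lfp_eq_zero_iff`: `mem_Iord'` and `expo_surj`.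
* `lfp_pderiv1`, `lfp_pderiv0`: `pderiv_tr`; coefficient of `X^a Y^b` in `∂_Y` is `(b+1)` times
  that of `X^a Y^(b+1)`; `∂_X` and the Euler relation.
* `pderiv_mem`: in `H13/Genus.lean` (`pderiv_mem_Iord`).
* `topp_*`: the same at infinity.  `vres_*`: `MvPolynomial.aeval`.
-/

namespace Pool.Agent.H92.RP

open Pool.Agent.H13 Polynomial

variable {k : Type} [Field k]

theorem lfpA_coeff_ite (N : ℕ) (P : Fin 2 → k) (G : MvPolynomial (Fin 2) k) (b : ℕ) :
    (lfp N P G).coeff b = if b ≤ N then (tr P G).coeff (expo (N - b, b)) else 0 := by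
  unfold lfp
  rw [finsetSum_coeff]
  simp only [coeff_monomial]
  rw [Finset.sum_ite_eq']
  simp only [Finset.mem_range]
  by_cases h : b ≤ N
  · rw [if_pos (by omega), if_pos h]
  · rw [if_neg (by omega), if_neg h]

theorem lfpA_expo_add (a b c d : ℕ) : expo (a, b) + expo (c, d) = expo (a + c, b + d) := by
  ext i
  fin_cases i <;> simp

theorem lfp_coeff (N : ℕ) (P : Fin 2 → k) (G : MvPolynomial (Fin 2) k) (b : ℕ) (hb : b ≤ N) :
    (lfp N P G).coeff b = (tr P G).coeff (expo (N - b, b)) := by
  rw [lfpA_coeff_ite, if_pos hb]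

theorem lfp_natDegree (N : ℕ) (P : Fin 2 → k) (G : MvPolynomial (Fin 2) k) :
    (lfp N P G).natDegree ≤ N := by
  rw [natDegree_le_iff_coeff_eq_zero]
  intro b hb
  rw [lfpA_coeff_ite, if_neg (by omega)]

theorem lfp_add (N : ℕ) (P : Fin 2 → k) (G H : MvPolynomial (Fin 2) k) :
    lfp N P (G + H) = lfp N P G + lfp N P H := by
  ext b
  rw [coeff_add, lfpA_coeff_ite, lfpA_coeff_ite, lfpA_coeff_ite, map_add, MvPolynomial.coeff_add]
  split_ifs <;> simp

theorem lfp_C_mul (N : ℕ) (P : Fin 2 → k) (c : k) (G : MvPolynomial (Fin 2) k) :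
    lfp N P (MvPolynomial.C c * G) = C c * lfp N P G := by
  ext b
  rw [coeff_C_mul, lfpA_coeff_ite, lfpA_coeff_ite, map_mul, tr_C, MvPolynomial.coeff_C_mul]
  split_ifs <;> simp

theorem lfp_mul (a b : ℕ) (P : Fin 2 → k) (G H : MvPolynomial (Fin 2) k) (hG : G ∈ Iord P a)
    (hH : H ∈ Iord P b) : lfp (a + b) P (G * H) = lfp a P G * lfp b P H := by
  rw [mem_Iord'] at hG hH
  ext c
  rw [lfpA_coeff_ite, coeff_mul, map_mul]
  by_cases hc : c ≤ a + b
  · rw [if_pos hc, MvPolynomial.coeff_mul]
    have key : ∀ x ∈ Finset.HasAntidiagonal.antidiagonal (expo (a + b - c, c)),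
        (tr P G).coeff x.1 * (tr P H).coeff x.2 ≠ 0 →
        x.1 1 ≤ a ∧ x.2 1 ≤ b ∧ x.1 1 + x.2 1 = c ∧ x.1 = expo (a - x.1 1, x.1 1) ∧
          x.2 = expo (b - x.2 1, x.2 1) := by
      intro x hx hne
      rw [Finset.HasAntidiagonal.mem_antidiagonal] at hx
      have h1 : a ≤ x.1.degree := by
        by_contra h
        exact hne (by rw [hG _ (by omega), zero_mul])
      have h2 : b ≤ x.2.degree := by
        by_contra h
        exact hne (by rw [hH _ (by omega), mul_zero])
      have h3 : x.1.degree + x.2.degree = a + b := by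
        rw [← map_add, hx, expo_degree]
        simp only
        omega
      have h4 : x.1.degree = x.1 0 + x.1 1 := by
        conv_lhs => rw [← expo_surj x.1, expo_degree]
      have h5 : x.2.degree = x.2 0 + x.2 1 := by
        conv_lhs => rw [← expo_surj x.2, expo_degree]
      have h6 : x.1 1 + x.2 1 = c := by
        have := DFunLike.congr_fun hx 1
        simpa using this
      refine ⟨by omega, by omega, h6, ?_, ?_⟩
      · conv_lhs => rw [← expo_surj x.1]
        congr 2
        omega
      · conv_lhs => rw [← expo_surj x.2]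
        congr 2
        omega
    refine Finset.sum_bij_ne_zero (fun x _ _ => (x.1 1, x.2 1)) ?_ ?_ ?_ ?_
    · intro x hx hne
      obtain ⟨h1, h2, h3, h4, h5⟩ := key x hx hne
      rw [Finset.HasAntidiagonal.mem_antidiagonal]
      exact h3
    · intro x hx hne y hy hne' h
      obtain ⟨h1, h2, h3, h4, h5⟩ := key x hx hne
      obtain ⟨h1', h2', h3', h4', h5'⟩ := key y hy hne'
      simp only [Prod.mk.injEq] at h
      apply Prod.ext
      · rw [h4, h4', h.1]
      · rw [h5, h5', h.2]
    · intro y hy hne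
      rw [Finset.HasAntidiagonal.mem_antidiagonal] at hy
      rw [lfpA_coeff_ite, lfpA_coeff_ite] at hne
      have h1 : y.1 ≤ a := by
        by_contra h
        exact hne (by rw [if_neg h, zero_mul])
      have h2 : y.2 ≤ b := by
        by_contra h
        exact hne (by rw [if_neg h, mul_zero])
      rw [if_pos h1, if_pos h2] at hne
      refine ⟨(expo (a - y.1, y.1), expo (b - y.2, y.2)), ?_, hne, ?_⟩
      · rw [Finset.HasAntidiagonal.mem_antidiagonal, lfpA_expo_add]
        congr 2
        · omega
      · simp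
    · intro x hx hne
      obtain ⟨h1, h2, h3, h4, h5⟩ := key x hx hne
      simp only
      rw [lfpA_coeff_ite, lfpA_coeff_ite, if_pos h1, if_pos h2, ← h4, ← h5]
  · rw [if_neg hc]
    symm
    refine Finset.sum_eq_zero fun y hy => ?_
    rw [Finset.HasAntidiagonal.mem_antidiagonal] at hy
    rw [lfpA_coeff_ite, lfpA_coeff_ite]
    by_cases h1 : y.1 ≤ a
    · rw [if_neg (show ¬ y.2 ≤ b by omega), mul_zero]
    · rw [if_neg h1, zero_mul]

theorem lfp_pow (a : ℕ) (P : Fin 2 → k) (G : MvPolynomial (Fin 2) k) (hG : G ∈ Iord P a)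
    (n : ℕ) : lfp (a * n) P (G ^ n) = lfp a P G ^ n := by
  induction n with
  | zero =>
    ext b
    rw [lfpA_coeff_ite, mul_zero, pow_zero, pow_zero, map_one, coeff_one]
    by_cases hb : b = 0
    · subst hb
      have h0 : expo (0 - 0, 0) = 0 := by
        ext i
        fin_cases i <;> simp
      rw [if_pos le_rfl, if_pos rfl, h0, MvPolynomial.coeff_zero_one]
    · rw [if_neg (by omega), if_neg (by omega)]
  | succ n ih =>
    rw [pow_succ, Nat.mul_succ, lfp_mul (a * n) a P (G ^ n) G (pow_mem_Iord hG n) hG, ih, pow_succ]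

theorem lfp_eq_zero_iff (N : ℕ) (P : Fin 2 → k) (G : MvPolynomial (Fin 2) k)
    (hG : G ∈ Iord P N) : lfp N P G = 0 ↔ G ∈ Iord P (N + 1) := by
  rw [mem_Iord'] at hG ⊢
  constructor
  · intro h s hs
    by_cases hs2 : s.degree < N
    · exact hG s hs2
    · have h4 : s.degree = s 0 + s 1 := by
        conv_lhs => rw [← expo_surj s, expo_degree]
      have h1 : s 1 ≤ N := by omega
      have h2 : s = expo (N - s 1, s 1) := by
        conv_lhs => rw [← expo_surj s]
        congr 2
        omega
      have h3 := lfp_coeff N P G (s 1) h1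
      rw [h, coeff_zero, ← h2] at h3
      exact h3.symm
  · intro h
    ext b
    rw [lfpA_coeff_ite, coeff_zero]
    split_ifs with hb
    · apply h
      rw [expo_degree]
      simp only
      omega
    · rfl

theorem lfp_pderiv1 (N : ℕ) (P : Fin 2 → k) (G : MvPolynomial (Fin 2) k)
    (hG : G ∈ Iord P (N + 1)) :
    lfp N P (MvPolynomial.pderiv 1 G) = derivative (lfp (N + 1) P G) := by
  ext b
  rw [lfpA_coeff_ite, coeff_derivative, lfpA_coeff_ite, ← pderiv_tr, MvPolynomial.coeff_pderiv]
  by_cases hb : b ≤ N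
  · rw [if_pos hb, if_pos (by omega)]
    have h1 : expo (N - b, b) + Finsupp.single 1 1 = expo (N + 1 - (b + 1), b + 1) := by
      ext i
      fin_cases i
      · simp
      · simp
    rw [h1, expo_one]
  · rw [if_neg hb, if_neg (by omega), zero_mul]

theorem lfp_pderiv0 (N : ℕ) (P : Fin 2 → k) (G : MvPolynomial (Fin 2) k)
    (hG : G ∈ Iord P (N + 1)) :
    lfp N P (MvPolynomial.pderiv 0 G) =
      C ((N + 1 : ℕ) : k) * lfp (N + 1) P G - X * derivative (lfp (N + 1) P G) := by
  ext b
  have hX : (X * derivative (lfp (N + 1) P G)).coeff b = (b : k) * (lfp (N + 1) P G).coeff b := by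
    rcases b with _ | b
    · rw [mul_coeff_zero, coeff_X_zero]
      simp
    · rw [coeff_X_mul, coeff_derivative]
      push_cast
      ring
  rw [coeff_sub, coeff_C_mul, hX, lfpA_coeff_ite, ← pderiv_tr, MvPolynomial.coeff_pderiv,
    lfpA_coeff_ite]
  by_cases hb : b ≤ N
  · rw [if_pos hb, if_pos (by omega)]
    have h1 : expo (N - b, b) + Finsupp.single 0 1 = expo (N + 1 - b, b) := by
      ext i
      fin_cases i
      · simp
        omega
      · simp
    rw [h1, expo_zero]
    simp only
    rw [Nat.cast_sub hb]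
    push_cast
    ring
  · rw [if_neg hb]
    by_cases hb2 : b ≤ N + 1
    · have hb3 : b = N + 1 := by omega
      rw [if_pos hb2, hb3]
      ring
    · rw [if_neg hb2]
      ring

/-- the value of the leading polynomial of a function vanishing at `P`, in degree one -/
theorem lfp_one (P : Fin 2 → k) (G : MvPolynomial (Fin 2) k) (z : k) :
    (lfp 1 P G).eval z = MvPolynomial.eval P (MvPolynomial.pderiv 0 G) +
      MvPolynomial.eval P (MvPolynomial.pderiv 1 G) * z := by
  have key : ∀ i : Fin 2, MvPolynomial.eval P (MvPolynomial.pderiv i G) =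
      MvPolynomial.coeff (Finsupp.single i 1) (tr P G) := by
    intro i
    rw [← constantCoeff_tr, ← pderiv_tr, MvPolynomial.constantCoeff_eq,
      MvPolynomial.coeff_pderiv]
    simp
  have h0 : expo (1 - 0, 0) = Finsupp.single 0 1 := by
    ext i
    fin_cases i <;> simp
  have h1 : expo (1 - 1, 1) = Finsupp.single 1 1 := by
    ext i
    fin_cases i <;> simp
  rw [key, key, lfp, Finset.sum_range_succ, Finset.sum_range_one, h0, h1]
  simp

end Pool.Agent.H92.RP
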