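import Mathlib
import Pool.Agent.H13.Genus
import Pool.Agent.H92.RP.Defs

set_option autoImplicit false

/-!
# RP-H0b: (the `topp` and `vres` part) leading polynomials, top polynomials, vertical restrictions

`lfp N P G` is the part of degree `N` of `tr P G = G(X + P)` evaluated at `(1, Z)`, `topp d G` the
part of degree `d` of `G` evaluated at `(1, Z)`, `vres a G = G(a, Z)`.

PROOFS.  `lfp_coeff`: coefficient of `Z^b` (`b ≤ N`) is the coefficient of `X^(N-b) Y^b` in
`tr P G`.  Everything else is coefficient comparison.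
* `lfp_mul`: for `G ∈ Iord P a`, `H ∈ Iord P b` the coefficient of `X^(a+b-c) Y^c` in
  `tr P G * tr P H` is the sum over pairs of monomials (`MvPolynomial.coeff_mul`); only pairs with
  degrees exactly `a` and `b` contribute (degree `< a` resp. `< b` vanish).  Slicker: `lfp N P G`
  is obtained from the substitution `X ↦ s, Y ↦ s Z`, i.e. the ring homomorphism
  `Θ : MvPolynomial (Fin 2) k → k[Z][s]`; for `G ∈ Iord P a` the polynomial `Θ (tr P G)` is
  divisible by `s^a` and `lfp a P G` is its coefficient of `s^a`.  Similarly `topp` via the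
  coefficient of `s^d`.
* `lfp_eq_zero_iff`: `mem_Iord'` and `expo_surj`.
* `lfp_pderiv1`, `lfp_pderiv0`: `pderiv_tr`; coefficient of `X^a Y^b` in `∂_Y` is `(b+1)` times
  that of `X^a Y^(b+1)`; `∂_X` and the Euler relation.
* `pderiv_mem`: in `H13/Genus.lean` (`pderiv_mem_Iord`).
* `topp_*`: the same at infinity.  `vres_*`: `MvPolynomial.aeval`.
-/

namespace Pool.Agent.H92.RP

open Pool.Agent.H13 Polynomial

variable {k : Type} [Field k]

theorem lfpB_coeff_ite (d : ℕ) (G : MvPolynomial (Fin 2) k) (b : ℕ) :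
    (topp d G).coeff b = if b ≤ d then G.coeff (expo (d - b, b)) else 0 := by
  unfold topp
  rw [finsetSum_coeff]
  simp only [coeff_monomial]
  rw [Finset.sum_ite_eq']
  simp only [Finset.mem_range]
  by_cases h : b ≤ d
  · rw [if_pos (by omega), if_pos h]
  · rw [if_neg (by omega), if_neg h]

theorem lfpB_degree (s : Fin 2 →₀ ℕ) : s.degree = s 0 + s 1 := by
  conv_lhs => rw [← expo_surj s, expo_degree]

theorem lfpB_coeff_zero {d : ℕ} {G : MvPolynomial (Fin 2) k} (hG : G ∈ Vd k d)
    {s : Fin 2 →₀ ℕ} (hs : d < s.degree) : G.coeff s = 0 := by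
  rw [mem_Vd] at hG
  apply MvPolynomial.coeff_eq_zero_of_totalDegree_lt
  refine lt_of_le_of_lt hG ?_
  have e : ∑ i ∈ s.support, s i = s.degree := rfl
  rw [e]
  exact hs

theorem lfpB_mem_Vd {d : ℕ} {G : MvPolynomial (Fin 2) k}
    (h : ∀ s : Fin 2 →₀ ℕ, d < s.degree → G.coeff s = 0) : G ∈ Vd k d := by
  rw [mem_Vd]
  unfold MvPolynomial.totalDegree
  refine Finset.sup_le fun s hs => ?_
  by_contra hlt
  have hlt2 : d < s.degree := by
    have e : (s.sum fun _ e => e) = s.degree := rfl
    rw [e] at hlt
    omega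
  exact (MvPolynomial.mem_support_iff.1 hs) (h s hlt2)

theorem topp_coeff (d : ℕ) (G : MvPolynomial (Fin 2) k) (b : ℕ) (hb : b ≤ d) :
    (topp d G).coeff b = G.coeff (expo (d - b, b)) := by
  rw [lfpB_coeff_ite, if_pos hb]

theorem topp_natDegree (d : ℕ) (G : MvPolynomial (Fin 2) k) : (topp d G).natDegree ≤ d := by
  rw [natDegree_le_iff_coeff_eq_zero]
  intro b hb
  rw [lfpB_coeff_ite, if_neg (by omega)]

theorem topp_add (d : ℕ) (G H : MvPolynomial (Fin 2) k) :
    topp d (G + H) = topp d G + topp d H := by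
  ext b
  rw [coeff_add, lfpB_coeff_ite, lfpB_coeff_ite, lfpB_coeff_ite, MvPolynomial.coeff_add]
  split_ifs <;> simp

theorem topp_C_mul (d : ℕ) (c : k) (G : MvPolynomial (Fin 2) k) :
    topp d (MvPolynomial.C c * G) = C c * topp d G := by
  ext b
  rw [coeff_C_mul, lfpB_coeff_ite, lfpB_coeff_ite, MvPolynomial.coeff_C_mul]
  split_ifs <;> simp

theorem topp_mul (a b : ℕ) (G H : MvPolynomial (Fin 2) k) (hG : G ∈ Vd k a) (hH : H ∈ Vd k b) :
    topp (a + b) (G * H) = topp a G * topp b H := by
  ext c
  rw [lfpB_coeff_ite, coeff_mul]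
  by_cases hc : c ≤ a + b
  · rw [if_pos hc, MvPolynomial.coeff_mul]
    have key : ∀ x ∈ Finset.HasAntidiagonal.antidiagonal (expo (a + b - c, c)),
        G.coeff x.1 * H.coeff x.2 ≠ 0 →
        x.1 1 ≤ a ∧ x.2 1 ≤ b ∧ x.1 1 + x.2 1 = c ∧ x.1 = expo (a - x.1 1, x.1 1) ∧
          x.2 = expo (b - x.2 1, x.2 1) := by
      intro x hx hne
      rw [Finset.HasAntidiagonal.mem_antidiagonal] at hx
      have h1 : x.1.degree ≤ a := by
        by_contra h
        exact hne (by rw [lfpB_coeff_zero hG (by omega), zero_mul])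
      have h2 : x.2.degree ≤ b := by
        by_contra h
        exact hne (by rw [lfpB_coeff_zero hH (by omega), mul_zero])
      have h3 : x.1.degree + x.2.degree = a + b := by
        rw [← map_add, hx, expo_degree]
        simp only
        omega
      have h4 := lfpB_degree x.1
      have h5 := lfpB_degree x.2
      have h6 : x.1 1 + x.2 1 = c := by
        have := DFunLike.congr_fun hx 1
        simpa using this
      refine ⟨by omega, by omega, h6, ?_, ?_⟩
      · conv_lhs => rw [← expo_surj x.1]
        congr 2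
        omega
      · conv_lhs => rw [← expo_surj x.2]
        congr 2
        omega
    refine Finset.sum_bij_ne_zero (fun x _ _ => (x.1 1, x.2 1)) ?_ ?_ ?_ ?_
    · intro x hx hne
      obtain ⟨h1, h2, h3, h4, h5⟩ := key x hx hne
      rw [Finset.HasAntidiagonal.mem_antidiagonal]
      exact h3
    · intro x hx hne y hy hne' h
      obtain ⟨h1, h2, h3, h4, h5⟩ := key x hx hne
      obtain ⟨h1', h2', h3', h4', h5'⟩ := key y hy hne'
      simp only [Prod.mk.injEq] at h
      apply Prod.ext
      · rw [h4, h4', h.1]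
      · rw [h5, h5', h.2]
    · intro y hy hne
      rw [Finset.HasAntidiagonal.mem_antidiagonal] at hy
      rw [lfpB_coeff_ite, lfpB_coeff_ite] at hne
      have h1 : y.1 ≤ a := by
        by_contra h
        exact hne (by rw [if_neg h, zero_mul])
      have h2 : y.2 ≤ b := by
        by_contra h
        exact hne (by rw [if_neg h, mul_zero])
      rw [if_pos h1, if_pos h2] at hne
      refine ⟨(expo (a - y.1, y.1), expo (b - y.2, y.2)), ?_, hne, ?_⟩
      · rw [Finset.HasAntidiagonal.mem_antidiagonal]
        ext i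
        fin_cases i
        · simp
          omega
        · simp
          omega
      · simp
    · intro x hx hne
      obtain ⟨h1, h2, h3, h4, h5⟩ := key x hx hne
      simp only
      rw [lfpB_coeff_ite, lfpB_coeff_ite, if_pos h1, if_pos h2, ← h4, ← h5]
  · rw [if_neg hc]
    symm
    refine Finset.sum_eq_zero fun y hy => ?_
    rw [Finset.HasAntidiagonal.mem_antidiagonal] at hy
    rw [lfpB_coeff_ite, lfpB_coeff_ite]
    by_cases h1 : y.1 ≤ a
    · rw [if_neg (show ¬ y.2 ≤ b by omega), mul_zero]
    · rw [if_neg h1, zero_mul]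

theorem lfpB_pow_mem {a : ℕ} {G : MvPolynomial (Fin 2) k} (hG : G ∈ Vd k a) (n : ℕ) :
    G ^ n ∈ Vd k (a * n) := by
  rw [mem_Vd] at hG ⊢
  refine (MvPolynomial.totalDegree_pow G n).trans ?_
  rw [mul_comm]
  exact Nat.mul_le_mul_right n hG

theorem topp_pow (a : ℕ) (G : MvPolynomial (Fin 2) k) (hG : G ∈ Vd k a) (n : ℕ) :
    topp (a * n) (G ^ n) = topp a G ^ n := by
  induction n with
  | zero =>
    ext b
    rw [lfpB_coeff_ite, mul_zero, pow_zero, pow_zero, coeff_one]
    by_cases hb : b = 0
    · subst hb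
      have h0 : expo (0 - 0, 0) = 0 := by
        ext i
        fin_cases i <;> simp
      rw [if_pos le_rfl, if_pos rfl, h0, MvPolynomial.coeff_zero_one]
    · rw [if_neg (by omega), if_neg (by omega)]
  | succ n ih =>
    rw [pow_succ, Nat.mul_succ, topp_mul (a * n) a (G ^ n) G (lfpB_pow_mem hG n) hG, ih, pow_succ]

theorem topp_pderiv1 (d : ℕ) (G : MvPolynomial (Fin 2) k) :
    topp d (MvPolynomial.pderiv 1 G) = derivative (topp (d + 1) G) := by
  ext b
  rw [lfpB_coeff_ite, coeff_derivative, lfpB_coeff_ite, MvPolynomial.coeff_pderiv]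
  by_cases hb : b ≤ d
  · rw [if_pos hb, if_pos (by omega)]
    have h1 : expo (d - b, b) + Finsupp.single 1 1 = expo (d + 1 - (b + 1), b + 1) := by
      ext i
      fin_cases i
      · simp
      · simp
    rw [h1, expo_one]
  · rw [if_neg hb, if_neg (by omega), zero_mul]

theorem pderiv_mem_Vd (i : Fin 2) (d : ℕ) (G : MvPolynomial (Fin 2) k) (hG : G ∈ Vd k (d + 1)) :
    MvPolynomial.pderiv i G ∈ Vd k d := by
  apply lfpB_mem_Vd
  intro s hs
  rw [MvPolynomial.coeff_pderiv, lfpB_coeff_zero hG, zero_mul]
  rw [map_add, Finsupp.degree_single]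
  omega

theorem vres_eval (a y : k) (G : MvPolynomial (Fin 2) k) :
    (vres a G).eval y = MvPolynomial.eval ![a, y] G := by
  induction G using MvPolynomial.induction_on with
  | C c => simp [vres]
  | add p q hp hq => rw [map_add, eval_add, hp, hq, map_add]
  | mul_X p i hp =>
    rw [map_mul, eval_mul, hp, map_mul]
    fin_cases i <;> simp [vres]

theorem vres_pderiv1 (a : k) (G : MvPolynomial (Fin 2) k) :
    vres a (MvPolynomial.pderiv 1 G) = derivative (vres a G) := by
  induction G using MvPolynomial.induction_on with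
  | C c => simp [vres]
  | add p q hp hq => rw [map_add, map_add, map_add, derivative_add, hp, hq]
  | mul_X p i hp =>
    rw [Derivation.leibniz, map_add, smul_eq_mul, smul_eq_mul, map_mul, map_mul, map_mul,
      derivative_mul, hp]
    fin_cases i
    · simp [vres, MvPolynomial.pderiv_X_of_ne]
      ring
    · simp [vres, MvPolynomial.pderiv_X_self]
      ring

theorem lfpB_vres_eq (f g : k[X]) (G : MvPolynomial (Fin 2) k) :
    MvPolynomial.aeval ![f, g] G = ∑ s ∈ G.support, C (G.coeff s) * (f ^ s 0 * g ^ s 1) := by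
  rw [MvPolynomial.aeval_def, MvPolynomial.eval₂_eq']
  refine Finset.sum_congr rfl fun s _ => ?_
  rw [Fin.prod_univ_two]
  rfl

theorem lfpB_vres_coeff (a : k) (G : MvPolynomial (Fin 2) k) (j : ℕ) :
    (vres a G).coeff j = ∑ s ∈ G.support, if s 1 = j then G.coeff s * a ^ s 0 else 0 := by
  unfold vres
  rw [lfpB_vres_eq, finsetSum_coeff]
  refine Finset.sum_congr rfl fun s _ => ?_
  rw [← C_pow, ← mul_assoc, ← C_mul, coeff_C_mul, coeff_X_pow]
  by_cases h : s 1 = j
  · rw [if_pos h, if_pos h.symm, mul_one]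
  · rw [if_neg h, if_neg (fun e => h e.symm), mul_zero]

/-- if `G` has degree `≤ d` and the coefficient of `Y^d` is nonzero, the restriction to any vertical
line has degree `d` and the same leading coefficient -/
theorem vres_natDegree (a : k) (d : ℕ) (G : MvPolynomial (Fin 2) k) (hG : G ∈ Vd k d)
    (h : (topp d G).coeff d ≠ 0) :
    (vres a G).natDegree = d ∧ (vres a G).leadingCoeff = (topp d G).coeff d := by
  have h0 : (topp d G).coeff d = G.coeff (expo (0, d)) := by
    rw [topp_coeff d G d le_rfl, Nat.sub_self]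
  have hc : (vres a G).coeff d = (topp d G).coeff d := by
    rw [lfpB_vres_coeff, h0]
    have hmem : expo (0, d) ∈ G.support := by
      rw [MvPolynomial.mem_support_iff, ← h0]
      exact h
    rw [Finset.sum_eq_single_of_mem _ hmem]
    · simp
    · intro s hs hne
      by_cases h1 : s 1 = d
      · exfalso
        have h2 : s.degree ≤ d := by
          by_contra hlt
          exact (MvPolynomial.mem_support_iff.1 hs) (lfpB_coeff_zero hG (by omega))
        rw [lfpB_degree] at h2
        apply hne
        rw [← expo_surj s]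
        congr 2
        omega
      · rw [if_neg h1]
  have hle : (vres a G).natDegree ≤ d := by
    rw [natDegree_le_iff_coeff_eq_zero]
    intro j hj
    rw [lfpB_vres_coeff]
    refine Finset.sum_eq_zero fun s hs => ?_
    by_cases h1 : s 1 = j
    · exfalso
      apply MvPolynomial.mem_support_iff.1 hs
      apply lfpB_coeff_zero hG
      rw [lfpB_degree]
      omega
    · rw [if_neg h1]
  have hd : (vres a G).natDegree = d := by
    apply le_antisymm hle
    apply le_natDegree_of_ne_zero
    rw [hc]
    exact h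
  refine ⟨hd, ?_⟩
  unfold leadingCoeff
  rw [hd, hc]

theorem vres_dvd (P : Fin 2 → k) (N : ℕ) (G : MvPolynomial (Fin 2) k) (hG : G ∈ Iord P N) :
    (X - C (P 1)) ^ N ∣ vres (P 0) G := by
  rw [mem_Iord'] at hG
  have e : vres (P 0) G = MvPolynomial.aeval ![(0 : k[X]), X - C (P 1)] (tr P G) := by
    have e1 : (MvPolynomial.aeval ![(0 : k[X]), X - C (P 1)] :
        MvPolynomial (Fin 2) k →ₐ[k] k[X]).comp (tr P) = vres (P 0) := by
      apply MvPolynomial.algHom_ext
      intro i
      fin_cases i
      · simp [vres]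
      · simp [vres]
    exact (DFunLike.congr_fun e1 G).symm
  rw [e, lfpB_vres_eq]
  refine Finset.dvd_sum fun s hs => ?_
  apply Dvd.dvd.mul_left
  by_cases h0 : s 0 = 0
  · have h1 : N ≤ s 1 := by
      by_contra hlt
      apply MvPolynomial.mem_support_iff.1 hs
      apply hG
      rw [lfpB_degree]
      omega
    exact Dvd.dvd.mul_left (pow_dvd_pow _ h1) _
  · rw [zero_pow h0, zero_mul]
    exact dvd_zero _

end Pool.Agent.H92.RP
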