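import Mathlib
import Pool.Agent.H13.Param
import Pool.Agent.H92.RP.Lfp

set_option autoImplicit false

/-!
# RP-E1a: the nodal cubic `Y² = X² (X + 1)` and its parametrisation

`pt t = (t² - 1, t³ - t)`, node at `t = 1, -1`; `rho G = G(t² - 1, t³ - t) ∈ k[t]`.
The group structure is `v = (t - 1)/(t + 1)` (multiplicative).

PROOFS (see `H13/Param.lean` for `th`, `th_dvd`, `th_natDegree`, `prod_dvd`, `sum_mult_le`,
`eq_prod_of_degree`, `natDegree_prod`).
* `rho_coeff`: a monomial `X^a Y^b`, `a + b ≤ d`, goes to a monic polynomial of degree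
  `2a + 3b ≤ 3d`, with equality iff `a = 0`, `b = d`.
* `rho_eq_zero`: `f₀` is monic of degree `2` in `Y`: divide `G = f₀ Q + A(X) + B(X) Y`
  (division in `k[X][Y]`, or by induction replacing `Y²` by `X³ + X²`); `rho` of the remainder is
  `A(t²-1) + (t³ - t) B(t² - 1)`, an even plus an odd polynomial in `t` (use that
  `characteristic ≠ 2`, or compare degrees: `2 deg A` is even, `3 + 2 deg B` is odd), so it vanishes
  only for `A = B = 0`.
* `prime_f₀`: from `rho_eq_zero` (kernel of a homomorphism to a domain), `f₀` not a unit (it vanishes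
  at `pt t`), `f₀ ≠ 0`.
* `f₀_quot`: degrees and multiplicities add (`totalDegree_mul_of_isDomain`, `mult_mul`,
  `mem_Iord_iff_le_mult`); the multiplicity of `f₀` at `pt t` is `1` as `∂_Y f₀ = 2 t (t² - 1) ≠ 0`
  (if it were in `Iord 2` then `pderiv_mem_Iord` gives a contradiction).
* `rho_node`: `pt 1 = pt (-1) = (0, 0)`, `th_eval`.
* `rho_lead_iff`: write `G(P + (X, Y)) = ∑_{i+j ≥ N} c_{ij} X^i Y^j` and substitute
  `X = (t² - 1) - P 0 = (t - t₀)(t + t₀)`, `Y = (t - t₀)(t² + t t₀ + t₀² - 1)`: the result is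
  `(t - t₀)^N (∑_{i+j=N} c_{ij} (2 t₀)^i (3 t₀² - 1)^j + (t - t₀)(…))`, and
  `∑_{i+j=N} c_{ij} w₀^i w₁^j = w₀^N (lfp N P G)(w₁/w₀)`.
* `rel`: `rho G` is divisible by the product of the `(X - t i)^(μ i)` (`prod_dvd`, `th_dvd`), so
  `∑ μ ≤ 3 d`.  In case of equality `rho G = κ ∏ (X - t i)^(μ i)`, `κ ≠ 0`
  (`eq_prod_of_degree`); `rho_node` gives `∏ (1 - t i)^(μ i) = ∏ (-1 - t i)^(μ i)`, so
  `∏ ((t i - 1)/(t i + 1))^(μ i) = 1`; the coefficient of `X^(3d)` is `κ` (`rho_coeff`).
-/

namespace Pool.Agent.H92.RP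

open Pool.Agent.H13 Polynomial

variable {k : Type} [Field k]

/-- the nodal cubic -/
noncomputable def f₀ (k : Type) [Field k] : MvPolynomial (Fin 2) k :=
  MvPolynomial.X 1 ^ 2 - MvPolynomial.X 0 ^ 2 - MvPolynomial.X 0 ^ 3

/-- its parametrisation -/
def pt (t : k) : Fin 2 → k := ![t ^ 2 - 1, t ^ 3 - t]

/-- restriction to the nodal cubic -/
noncomputable def rho (k : Type) [Field k] : MvPolynomial (Fin 2) k →ₐ[k] k[X] :=
  th (X ^ 2 - 1) (X ^ 3 - X)

theorem rho_eval (t : k) (G : MvPolynomial (Fin 2) k) :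
    (rho k G).eval t = MvPolynomial.eval (pt t) G := by
  have h : ![(X ^ 2 - 1 : k[X]).eval t, (X ^ 3 - X : k[X]).eval t] = pt t := by
    simp [pt]
  rw [rho, th_eval, h]

theorem rho_f₀ : rho k (f₀ k) = 0 := by
  rw [rho, f₀, map_sub, map_sub, map_pow, map_pow, map_pow, th_X0, th_X1]
  ring

theorem f₀_mem : f₀ k ∈ Vd k 3 := by
  rw [mem_Vd, f₀]
  refine (MvPolynomial.totalDegree_sub _ _).trans (max_le ?_ ?_)
  · refine (MvPolynomial.totalDegree_sub _ _).trans (max_le ?_ ?_)
    · rw [MvPolynomial.totalDegree_X_pow]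
      norm_num
    · rw [MvPolynomial.totalDegree_X_pow]
      norm_num
  · rw [MvPolynomial.totalDegree_X_pow]

theorem topp_f₀ : topp 3 (f₀ k) = -1 := by
  have h : ∀ (i : Fin 2) (n a b : ℕ), (Finsupp.single i n = expo (a, b)) ↔
      ((if i = 0 then n else 0) = a ∧ (if i = 1 then n else 0) = b) := by
    intro i n a b
    rw [Finsupp.ext_iff, Fin.forall_fin_two, expo_zero, expo_one, Finsupp.single_apply,
      Finsupp.single_apply]
  unfold topp f₀
  simp only [Finset.sum_range_succ, Finset.sum_range_zero, MvPolynomial.coeff_sub,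
    MvPolynomial.coeff_X_pow, h]
  norm_num

theorem rho_natDegree (d : ℕ) (G : MvPolynomial (Fin 2) k) (hG : G ∈ Vd k d) :
    (rho k G).natDegree ≤ 3 * d := by
  have hx : (X ^ 2 - 1 : k[X]).natDegree ≤ 3 :=
    (show (X ^ 2 - 1 : k[X]).natDegree ≤ 2 by compute_degree).trans (by norm_num)
  have hy : (X ^ 3 - X : k[X]).natDegree ≤ 3 := by compute_degree
  exact (th_natDegree hx hy G).trans (Nat.mul_le_mul_left _ (mem_Vd.1 hG))

theorem rho_coeff (d : ℕ) (G : MvPolynomial (Fin 2) k) (hG : G ∈ Vd k d) :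
    (rho k G).coeff (3 * d) = (topp d G).coeff d := by
  have hm : (X ^ 3 - X : k[X]).Monic := by monicity!
  have hn : (X ^ 3 - X : k[X]).natDegree = 3 := by compute_degree!
  have hx : (X ^ 2 - 1 : k[X]).natDegree ≤ 2 := by compute_degree
  have hr : (topp d G).coeff d = G.coeff (expo (0, d)) := by
    unfold topp
    rw [finsetSum_coeff, Finset.sum_eq_single d]
    · rw [coeff_monomial, if_pos rfl, Nat.sub_self]
    · intro b _ hb
      rw [coeff_monomial, if_neg hb]
    · intro h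
      exact absurd (Finset.mem_range.mpr (by omega)) h
  rw [hr]
  conv_lhs => rw [G.as_sum]
  rw [map_sum, finsetSum_coeff]
  have hterm : ∀ s ∈ G.support, (rho k (MvPolynomial.monomial s (G.coeff s))).coeff (3 * d) =
      if s = expo (0, d) then G.coeff s else 0 := by
    intro s hs
    rw [rho, th, MvPolynomial.aeval_monomial, Finsupp.prod_fintype _ _ (by intro; simp),
      Fin.prod_univ_two]
    simp only [Matrix.cons_val_zero, Matrix.cons_val_one, algebraMap_eq]
    rw [coeff_C_mul]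
    have h1 : s 0 + s 1 ≤ d := by
      have h2 := (MvPolynomial.le_totalDegree hs).trans (mem_Vd.1 hG)
      change s.degree ≤ d at h2
      rwa [Finsupp.degree_eq_sum, Fin.sum_univ_two] at h2
    split_ifs with he
    · rw [he, expo_zero, expo_one, pow_zero, one_mul]
      have h3 : ((X ^ 3 - X : k[X]) ^ d).coeff (3 * d) = 1 := by
        have h4 := (hm.pow d).coeff_natDegree
        rwa [hm.natDegree_pow, hn, mul_comm] at h4
      rw [h3, mul_one]
    · rw [coeff_eq_zero_of_natDegree_lt, mul_zero]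
      have h5 : ((X ^ 2 - 1 : k[X]) ^ s 0 * (X ^ 3 - X) ^ s 1).natDegree ≤ s 0 * 2 + s 1 * 3 := by
        refine natDegree_mul_le.trans (add_le_add ?_ ?_)
        · exact natDegree_pow_le.trans (Nat.mul_le_mul_left _ hx)
        · exact natDegree_pow_le.trans (Nat.mul_le_mul_left _ hn.le)
      refine lt_of_le_of_lt h5 ?_
      have h6 : ¬ (s 0 = 0 ∧ s 1 = d) := by
        rintro ⟨a, b⟩
        apply he
        rw [← expo_surj s, a, b]
      omega
  rw [Finset.sum_congr rfl hterm, Finset.sum_ite_eq']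
  split_ifs with h
  · rfl
  · exact (MvPolynomial.notMem_support_iff.mp h).symm

theorem rho_dvd (t : k) (m : ℕ) (G : MvPolynomial (Fin 2) k) (hG : G ∈ Iord (pt t) m) :
    (X - C t) ^ m ∣ rho k G :=
  th_dvd (by simp [pt]) (by simp [pt]) hG

theorem rho_node (G : MvPolynomial (Fin 2) k) : (rho k G).eval 1 = (rho k G).eval (-1) := by
  rw [rho_eval, rho_eval]
  congr 2
  simp [pt]
  ring

theorem f₀_pderiv0 (t : k) : MvPolynomial.eval (pt t) (MvPolynomial.pderiv 0 (f₀ k)) =
    - ((t ^ 2 - 1) * (3 * t ^ 2 - 1)) := by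
  simp [f₀, pt, MvPolynomial.pderiv_X]
  ring

theorem f₀_pderiv1 (t : k) : MvPolynomial.eval (pt t) (MvPolynomial.pderiv 1 (f₀ k)) =
    2 * (t ^ 3 - t) := by
  simp [f₀, pt, MvPolynomial.pderiv_X]

end Pool.Agent.H92.RP
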