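import Mathlib
import Pool.Agent.H13.Param
import Pool.Agent.H92.RP.Lfp
import Pool.Agent.H92.RP.NodalA

set_option autoImplicit false

/-!
# RP-E1b: the nodal cubic `Y² = X² (X + 1)` and its parametrisation

`pt t = (t² - 1, t³ - t)`, node at `t = 1, -1`; `rho G = G(t² - 1, t³ - t) ∈ k[t]`.
The group structure is `v = (t - 1)/(t + 1)` (multiplicative).

PROOFS (see `H13/Param.lean` for `th`, `th_dvd`, `th_natDegree`, `prod_dvd`, `sum_mult_le`,
`eq_prod_of_degree`, `natDegree_prod`).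
* `rho_coeff`: a monomial `X^a Y^b`, `a + b ≤ d`, goes to a monic polynomial of degree
  `2a + 3b ≤ 3d`, with equality iff `a = 0`, `b = d`.
* `rho_eq_zero`: `f₀` is monic of degree `2` in `Y`: divide `G = f₀ Q + A(X) + B(X) Y`
  (division in `k[X][Y]`, or by induction replacing `Y²` by `X³ + X²`); `rho` of the remainder is
  `A(t²-1) + (t³ - t) B(t² - 1)`, an even plus an odd polynomial in `t` (use that
  `characteristic ≠ 2`, or compare degrees: `2 deg A` is even, `3 + 2 deg B` is odd), so it vanishes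
  only for `A = B = 0`.
* `prime_f₀`: from `rho_eq_zero` (kernel of a homomorphism to a domain), `f₀` not a unit (it vanishes
  at `pt t`), `f₀ ≠ 0`.
* `f₀_quot`: degrees and multiplicities add (`totalDegree_mul_of_isDomain`, `mult_mul`,
  `mem_Iord_iff_le_mult`); the multiplicity of `f₀` at `pt t` is `1` as `∂_Y f₀ = 2 t (t² - 1) ≠ 0`
  (if it were in `Iord 2` then `pderiv_mem_Iord` gives a contradiction).
* `rho_node`: `pt 1 = pt (-1) = (0, 0)`, `th_eval`.
* `rho_lead_iff`: write `G(P + (X, Y)) = ∑_{i+j ≥ N} c_{ij} X^i Y^j` and substitute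
  `X = (t² - 1) - P 0 = (t - t₀)(t + t₀)`, `Y = (t - t₀)(t² + t t₀ + t₀² - 1)`: the result is
  `(t - t₀)^N (∑_{i+j=N} c_{ij} (2 t₀)^i (3 t₀² - 1)^j + (t - t₀)(…))`, and
  `∑_{i+j=N} c_{ij} w₀^i w₁^j = w₀^N (lfp N P G)(w₁/w₀)`.
* `rel`: `rho G` is divisible by the product of the `(X - t i)^(μ i)` (`prod_dvd`, `th_dvd`), so
  `∑ μ ≤ 3 d`.  In case of equality `rho G = κ ∏ (X - t i)^(μ i)`, `κ ≠ 0`
  (`eq_prod_of_degree`); `rho_node` gives `∏ (1 - t i)^(μ i) = ∏ (-1 - t i)^(μ i)`, so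
  `∏ ((t i - 1)/(t i + 1))^(μ i) = 1`; the coefficient of `X^(3d)` is `κ` (`rho_coeff`).
-/

namespace Pool.Agent.H92.RP

open Pool.Agent.H13 Polynomial

variable {k : Type} [Field k]

theorem nodal_rho_X0 : rho k (MvPolynomial.X 0) = X ^ 2 - 1 := th_X0 _ _

theorem nodal_rho_X1 : rho k (MvPolynomial.X 1) = X ^ 3 - X := th_X1 _ _

theorem nodal_rho_C (c : k) : rho k (MvPolynomial.C c) = C c := th_C _ _ c

theorem nodal_rho_aeval (A : k[X]) :
    rho k (Polynomial.aeval (MvPolynomial.X 0 : MvPolynomial (Fin 2) k) A) =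
      A.comp (X ^ 2 - 1) := by
  rw [← Polynomial.aeval_algHom_apply, nodal_rho_X0, Polynomial.aeval_def, Polynomial.comp]
  rfl

/-- division by the nodal cubic -/
theorem nodal_division (G : MvPolynomial (Fin 2) k) :
    ∃ (Q : MvPolynomial (Fin 2) k) (A B : k[X]),
      G = f₀ k * Q + Polynomial.aeval (MvPolynomial.X 0 : MvPolynomial (Fin 2) k) A +
        Polynomial.aeval (MvPolynomial.X 0 : MvPolynomial (Fin 2) k) B * MvPolynomial.X 1 := by
  induction G using MvPolynomial.induction_on with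
  | C a =>
    refine ⟨0, C a, 0, ?_⟩
    rw [Polynomial.aeval_C, map_zero, mul_zero, zero_mul, zero_add, add_zero]
    rfl
  | add p q hp hq =>
    obtain ⟨Q, A, B, h⟩ := hp
    obtain ⟨Q', A', B', h'⟩ := hq
    refine ⟨Q + Q', A + A', B + B', ?_⟩
    rw [map_add, map_add, h, h']
    ring
  | mul_X p i hp =>
    obtain ⟨Q, A, B, h⟩ := hp
    fin_cases i
    · refine ⟨Q * MvPolynomial.X 0, A * X, B * X, ?_⟩
      rw [map_mul, map_mul, Polynomial.aeval_X, h]
      show _ * MvPolynomial.X 0 = _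
      ring
    · refine ⟨Q * MvPolynomial.X 1 +
        Polynomial.aeval (MvPolynomial.X 0 : MvPolynomial (Fin 2) k) B,
        B * (X ^ 2 + X ^ 3), A, ?_⟩
      rw [map_mul, map_add, map_pow, map_pow, Polynomial.aeval_X, h]
      show _ * MvPolynomial.X 1 = _
      unfold f₀
      ring

theorem nodal_natDegree_q : (X ^ 2 - 1 : k[X]).natDegree = 2 := by
  have h : (X ^ 2 - 1 : k[X]) = X ^ 2 - C 1 := by rw [C_1]
  rw [h, natDegree_X_pow_sub_C]

theorem rho_eq_zero [CharZero k] (G : MvPolynomial (Fin 2) k) (h : rho k G = 0) :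
    f₀ k ∣ G := by
  obtain ⟨Q, A, B, hG⟩ := nodal_division G
  have h1 : A.comp (X ^ 2 - 1) + B.comp (X ^ 2 - 1) * (X ^ 3 - X) = 0 := by
    have h2 := congrArg (rho k) hG
    rw [h, map_add, map_add, map_mul, map_mul, rho_f₀, zero_mul, zero_add, nodal_rho_aeval,
      nodal_rho_aeval, nodal_rho_X1] at h2
    exact h2.symm
  have hne : ∀ D : k[X], D ≠ 0 → D.comp (X ^ 2 - 1) ≠ 0 := by
    intro D hD h0
    rcases Polynomial.comp_eq_zero_iff.mp h0 with h3 | ⟨_, h3⟩
    · exact hD h3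
    · have h4 := congrArg natDegree h3
      rw [nodal_natDegree_q, natDegree_C] at h4
      omega
  have hy : (X ^ 3 - X : k[X]).natDegree = 3 := by
    have h3 : (X ^ 3 - X : k[X]) = X * (X ^ 2 - 1) := by ring
    rw [h3, natDegree_X_mul (by
      intro h0
      have := nodal_natDegree_q (k := k)
      rw [h0, natDegree_zero] at this
      omega), nodal_natDegree_q]
  have hy0 : (X ^ 3 - X : k[X]) ≠ 0 := by
    intro h0
    rw [h0, natDegree_zero] at hy
    omega
  have hB : B = 0 := by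
    by_contra hB
    have h3 : A.comp (X ^ 2 - 1) = -(B.comp (X ^ 2 - 1) * (X ^ 3 - X)) := by
      linear_combination h1
    have h4 := congrArg natDegree h3
    rw [natDegree_neg, natDegree_mul (hne B hB) hy0, natDegree_comp, natDegree_comp,
      nodal_natDegree_q, hy] at h4
    omega
  have hA : A = 0 := by
    by_contra hA
    rw [hB, zero_comp, zero_mul, add_zero] at h1
    exact hne A hA h1
  refine ⟨Q, ?_⟩
  rw [hG, hA, hB, map_zero, zero_mul, add_zero, add_zero]

theorem nodal_f₀_ne_zero : f₀ k ≠ 0 := by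
  intro h
  have h1 := congrArg (MvPolynomial.eval ![0, 1]) h
  simp [f₀] at h1

theorem prime_f₀ [CharZero k] : Prime (f₀ k) := by
  refine ⟨nodal_f₀_ne_zero, ?_, ?_⟩
  · intro h
    have h1 := h.map (rho k)
    rw [rho_f₀] at h1
    exact not_isUnit_zero h1
  · rintro a b ⟨c, hc⟩
    have h1 := congrArg (rho k) hc
    rw [map_mul, map_mul, rho_f₀, zero_mul, mul_eq_zero] at h1
    rcases h1 with h | h
    · exact Or.inl (rho_eq_zero a h)
    · exact Or.inr (rho_eq_zero b h)

/-- dividing by `f₀` lowers the degree by three and the multiplicities at smooth points by one -/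
theorem f₀_quot [CharZero k] (Q : MvPolynomial (Fin 2) k) :
    (∀ d, f₀ k * Q ∈ Vd k (d + 3) → Q ∈ Vd k d) ∧
    (∀ (t : k) (m : ℕ), t ≠ 0 → t ^ 2 ≠ 1 → f₀ k * Q ∈ Iord (pt t) m → Q ∈ Iord (pt t) (m - 1)) := by
  have hdeg : 3 ≤ (f₀ k).totalDegree := by
    have h1 : (topp 3 (f₀ k)).coeff 0 = (f₀ k).coeff (expo (3, 0)) := by
      unfold topp
      rw [finsetSum_coeff]
      simp only [coeff_monomial]
      rw [Finset.sum_ite_eq']
      simp
    rw [topp_f₀] at h1
    have h2 : (f₀ k).coeff (expo (3, 0)) ≠ 0 := by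
      rw [← h1]
      simp
    have h3 := MvPolynomial.le_totalDegree (MvPolynomial.mem_support_iff.mpr h2)
    have h4 : ((expo (3, 0)).sum fun _ e => e) = (expo (3, 0)).degree := rfl
    rw [h4, expo_degree] at h3
    exact h3
  constructor
  · intro d h
    by_cases hQ : Q = 0
    · rw [hQ]
      exact Submodule.zero_mem _
    · rw [mem_Vd] at h ⊢
      rw [MvPolynomial.totalDegree_mul_of_isDomain nodal_f₀_ne_zero hQ] at h
      omega
  · intro t m ht0 ht1 h
    by_cases hQ : Q = 0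
    · rw [hQ]
      exact Ideal.zero_mem _
    · have hf : mult (pt t) (f₀ k) ≤ 1 := by
        by_contra hcon
        have h1 : f₀ k ∈ Iord (pt t) 2 :=
          (mem_Iord_iff_le_mult nodal_f₀_ne_zero).2 (by omega)
        have h2 := pderiv_mem_Iord 1 h1
        rw [mem_Iord_one, f₀_pderiv1] at h2
        have h3 : (2 : k) * (t * (t ^ 2 - 1)) = 0 := by linear_combination h2
        rcases mul_eq_zero.mp h3 with h4 | h4
        · exact two_ne_zero h4
        · rcases mul_eq_zero.mp h4 with h5 | h5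
          · exact ht0 h5
          · exact ht1 (sub_eq_zero.mp h5)
      rw [mem_Iord_iff_le_mult (mul_ne_zero nodal_f₀_ne_zero hQ),
        mult_mul nodal_f₀_ne_zero hQ] at h
      rw [mem_Iord_iff_le_mult hQ]
      omega

theorem nodal_hom_sum (G : MvPolynomial (Fin 2) k) (N : ℕ) (a b : k)
    (hG : ∀ m ∈ G.support, N ≤ m.degree) :
    ∑ m ∈ G.support, G.coeff m * (0 ^ (m.degree - N) * (a ^ (m 0) * b ^ (m 1))) =
      ∑ j ∈ Finset.range (N + 1), G.coeff (expo (N - j, j)) * (a ^ (N - j) * b ^ j) := by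
  classical
  have hdeg : ∀ m : Fin 2 →₀ ℕ, m.degree = m 0 + m 1 := by
    intro m
    conv_lhs => rw [← expo_surj m, expo_degree]
  have h1 : ∑ m ∈ (Finset.range (N + 1)).image (fun j => expo (N - j, j)),
      G.coeff m * (a ^ (m 0) * b ^ (m 1)) =
      ∑ j ∈ Finset.range (N + 1), G.coeff (expo (N - j, j)) * (a ^ (N - j) * b ^ j) := by
    rw [Finset.sum_image]
    · refine Finset.sum_congr rfl fun j _ => ?_
      rw [expo_zero, expo_one]
    · intro i _ j _ hij
      have := DFunLike.congr_fun hij 1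
      simpa using this
  rw [← h1]
  have h2 : ∑ m ∈ G.support, G.coeff m * (0 ^ (m.degree - N) * (a ^ (m 0) * b ^ (m 1))) =
      ∑ m ∈ G.support.filter (fun m => m.degree = N), G.coeff m * (a ^ (m 0) * b ^ (m 1)) := by
    rw [Finset.sum_filter]
    refine Finset.sum_congr rfl fun m hm => ?_
    have h3 := hG m hm
    split_ifs with h4
    · rw [h4, Nat.sub_self, pow_zero, one_mul]
    · rw [zero_pow (by omega), zero_mul, mul_zero]
  rw [h2]
  refine Finset.sum_subset ?_ ?_
  · intro m hm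
    obtain ⟨_, hm2⟩ := Finset.mem_filter.mp hm
    have h3 := hdeg m
    rw [Finset.mem_image]
    refine ⟨m 1, Finset.mem_range.mpr (by omega), ?_⟩
    conv_rhs => rw [← expo_surj m]
    congr 2
    omega
  · intro m hm hm2
    obtain ⟨j, hj, rfl⟩ := Finset.mem_image.mp hm
    have hj' := Finset.mem_range.mp hj
    have h3 : expo (N - j, j) ∉ G.support := by
      intro h4
      apply hm2
      rw [Finset.mem_filter]
      refine ⟨h4, ?_⟩
      rw [expo_degree]
      simp only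
      omega
    rw [MvPolynomial.notMem_support_iff.mp h3, zero_mul]

theorem rho_lead_iff (t : k) (ht : 2 * t ≠ 0) (N : ℕ) (G : MvPolynomial (Fin 2) k)
    (hG : G ∈ Iord (pt t) N) :
    (X - C t) ^ (N + 1) ∣ rho k G ↔ (lfp N (pt t) G).eval ((3 * t ^ 2 - 1) / (2 * t)) = 0 := by
  rw [mem_Iord'] at hG
  have hsup : ∀ m ∈ (tr (pt t) G).support, N ≤ m.degree := by
    intro m hm
    by_contra h
    exact MvPolynomial.mem_support_iff.mp hm (hG m (by omega))
  obtain ⟨α, hα⟩ : ∃ α : k[X], α = (X - C t) * (X + C t) := ⟨_, rfl⟩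
  obtain ⟨β, hβ⟩ : ∃ β : k[X], β = (X - C t) * (X ^ 2 + C t * X + C (t ^ 2 - 1)) := ⟨_, rfl⟩
  have hα2 : X ^ 2 - 1 = α + C (t ^ 2 - 1) := by
    rw [hα, C_sub, C_pow, C_1]
    ring
  have hβ2 : X ^ 3 - X = β + C (t ^ 3 - t) := by
    rw [hβ, C_sub, C_sub, C_pow, C_pow, C_1]
    ring
  have hcomp : rho k G = MvPolynomial.aeval ![α, β] (tr (pt t) G) := by
    have h : rho k = (MvPolynomial.aeval ![α, β]).comp (tr (pt t)) := by
      apply MvPolynomial.algHom_ext
      intro i
      rw [AlgHom.comp_apply, tr_X, map_add, MvPolynomial.aeval_X, MvPolynomial.aeval_C]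
      match i with
      | 0 =>
        rw [nodal_rho_X0, hα2]
        rfl
      | 1 =>
        rw [nodal_rho_X1, hβ2]
        rfl
    exact DFunLike.congr_fun h G
  set H : k[X] := ∑ m ∈ (tr (pt t) G).support, C ((tr (pt t) G).coeff m) *
    ((X - C t) ^ (m.degree - N) * ((X + C t) ^ (m 0) *
      (X ^ 2 + C t * X + C (t ^ 2 - 1)) ^ (m 1))) with hH
  have hfac : rho k G = (X - C t) ^ N * H := by
    rw [hcomp, hH, MvPolynomial.aeval_def, MvPolynomial.eval₂_eq', Finset.mul_sum]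
    refine Finset.sum_congr rfl fun m hm => ?_
    rw [Fin.prod_univ_two, Polynomial.algebraMap_eq]
    simp only [Matrix.cons_val_zero, Matrix.cons_val_one]
    rw [hα, hβ]
    have hd : m.degree = m 0 + m 1 := by
      conv_lhs => rw [← expo_surj m, expo_degree]
    have h2 : (X - C t) ^ (m 0) * (X - C t) ^ (m 1) =
        (X - C t) ^ N * (X - C t) ^ (m.degree - N) := by
      rw [← pow_add, ← pow_add, ← hd]
      congr 1
      have := hsup m hm
      omega
    rw [mul_pow, mul_pow]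
    linear_combination (C ((tr (pt t) G).coeff m) * (X + C t) ^ (m 0) *
      (X ^ 2 + C t * X + C (t ^ 2 - 1)) ^ (m 1)) * h2
  have hXt : (X - C t : k[X]) ≠ 0 := X_sub_C_ne_zero t
  have h1 : (X - C t) ^ (N + 1) ∣ rho k G ↔ H.eval t = 0 := by
    rw [hfac, pow_succ, mul_dvd_mul_iff_left (pow_ne_zero N hXt), dvd_iff_isRoot]
    rfl
  rw [h1]
  have h3 : H.eval t = ∑ j ∈ Finset.range (N + 1), (tr (pt t) G).coeff (expo (N - j, j)) *
      ((2 * t) ^ (N - j) * (3 * t ^ 2 - 1) ^ j) := by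
    rw [← nodal_hom_sum (tr (pt t) G) N (2 * t) (3 * t ^ 2 - 1) hsup, hH, eval_finsetSum]
    refine Finset.sum_congr rfl fun m _ => ?_
    rw [eval_mul, eval_mul, eval_mul, eval_pow, eval_pow, eval_pow]
    have e1 : eval t (X - C t) = 0 := by simp
    have e2 : eval t (X + C t) = 2 * t := by simp; ring
    have e3 : eval t (X ^ 2 + C t * X + C (t ^ 2 - 1)) = 3 * t ^ 2 - 1 := by simp; ring
    rw [e1, e2, e3, eval_C]
  have h4 : (2 * t) ^ N * (lfp N (pt t) G).eval ((3 * t ^ 2 - 1) / (2 * t)) = H.eval t := by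
    rw [h3, lfp, eval_finsetSum, Finset.mul_sum]
    refine Finset.sum_congr rfl fun j hj => ?_
    have hj' := Finset.mem_range.mp hj
    rw [eval_monomial, div_pow]
    have h5 : (2 * t) ^ N = (2 * t) ^ (N - j) * (2 * t) ^ j := by
      rw [← pow_add]
      congr 1
      omega
    rw [h5]
    have h6 : (2 * t) ^ j ≠ 0 := pow_ne_zero j ht
    field_simp
  rw [← h4]
  constructor
  · intro h
    exact (mul_eq_zero.mp h).resolve_left (pow_ne_zero N ht)
  · intro h
    rw [h, mul_zero]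

theorem rel {r : ℕ} (t : Fin r → k) (ht : Function.Injective t) (h1 : ∀ i, t i ≠ 1)
    (h2 : ∀ i, t i ≠ -1) (d : ℕ) (μ : Fin r → ℕ) (G : MvPolynomial (Fin 2) k) (hG : G ∈ Vd k d)
    (hμ : ∀ i, G ∈ Iord (pt (t i)) (μ i)) (h0 : rho k G ≠ 0) :
    ∑ i, μ i ≤ 3 * d ∧ (∑ i, μ i = 3 * d → ∏ i, ((t i - 1) / (t i + 1)) ^ μ i = 1 ∧
      ∃ κ : k, κ ≠ 0 ∧ rho k G = C κ * ∏ i, (X - C (t i)) ^ μ i) := by
  have hdvd : ∀ i, (X - C (t i)) ^ μ i ∣ rho k G := fun i => rho_dvd (t i) (μ i) G (hμ i)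
  have hdeg := rho_natDegree d G hG
  refine ⟨(sum_mult_le t ht μ (rho k G) h0 hdvd).trans hdeg, fun heq => ?_⟩
  obtain ⟨κ, hκ, hκG⟩ := eq_prod_of_degree t ht μ (rho k G) h0 hdvd (by omega)
  refine ⟨?_, κ, hκ, hκG⟩
  have hnode := rho_node G
  rw [hκG, eval_mul, eval_mul, eval_C, eval_C, eval_prod, eval_prod] at hnode
  have h3 := mul_left_cancel₀ hκ hnode
  have h4 : ∏ i, ((t i - 1) / (t i + 1)) ^ μ i =
      ∏ i, (eval 1 ((X - C (t i)) ^ μ i) / eval (-1) ((X - C (t i)) ^ μ i)) := by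
    refine Finset.prod_congr rfl fun i _ => ?_
    rw [eval_pow, eval_pow, ← div_pow]
    congr 1
    rw [eval_sub, eval_sub, eval_X, eval_X, eval_C, eval_C]
    have h5 : t i + 1 ≠ 0 := fun h => h2 i (eq_neg_of_add_eq_zero_left h)
    have h6 : -1 - t i ≠ 0 := by
      intro h
      apply h5
      linear_combination -h
    rw [div_eq_div_iff h5 h6]
    ring
  rw [h4, Finset.prod_div_distrib, h3, div_self]
  rw [Finset.prod_ne_zero_iff]
  intro i _
  rw [eval_pow]
  refine pow_ne_zero _ ?_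
  rw [eval_sub, eval_X, eval_C]
  intro h
  apply h2 i
  linear_combination -h

end Pool.Agent.H92.RP
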