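import Mathlib
import Pool.Agent.H92.RP.Nodal

set_option autoImplicit false

/-!
# RP-E2: the special points on the nodal cubic

`v 0, …, v 8` (and `v 9`) are nonzero elements of `k` with `(∏_{i<9} v i)^M = 1` and no other
multiplicative relations; the points are `PP v i = pt (tt (v i))`, `tt v = (1 + v)/(1 - v)`.

PROOFS.
* `tt_facts`: elementary (`v ≠ 0, 1`, `v i * v j ≠ 1`, in particular `v i ≠ -1`):
  `tt v = 1 ↔ v = 0`, `tt v ≠ -1`, `(tt v - 1)/(tt v + 1) = v`, `tt v = 0 ↔ v = -1`,
  `tt a + tt b = 0 ↔ a b = 1`, `tt` injective.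
* `PP_xinj`: `t² = t'²` iff `t = ± t'`.
* `exists_vdata`: `ζ` a primitive `M`-th root of unity in `k` (`k` algebraically closed of
  characteristic `0`: `HasEnoughRootsOfUnity`/`IsAlgClosed` … `IsPrimitiveRoot` exists),
  `π_0, …, π_8` distinct primes (`Nat.nth Nat.Prime`), `v i = π_i` for `i < 8`,
  `v 8 = ζ / (π_0 ⋯ π_7)`, `v 9 = π_8`.  Relation `∏ v i ^ μ i = 1`:
  `ζ^(μ 8) ∏_{i<8} π_i^(μ i - μ 8) π_8^(μ 9) = 1`; raise to the power `M` (or take a
  multiplicative character): `∏ π_i^(M (μ i - μ 8)) π_8^(M μ 9) = 1` in `ℚ ⊆ k`, so by unique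
  factorisation `μ i = μ 8` for `i < 8`, `μ 9 = 0`; then `ζ^(μ 8) = 1`, so `M ∣ μ 8`.
  `v i ≠ 0, 1`: `v 8 = 1` would give a relation `μ = e_8` (excluded since then `μ 0 = μ 8`);
  `v i * v j = 1` is the relation `μ = e_i + e_j`: excluded in the same way (not all of
  `μ 0, …, μ 8` are equal); injective: `v i = v j` for `i, j` primes: distinct; `v 8 = v i`: then
  `ζ = π_0 ⋯ π_7 π_i`, raise to the `M`-th power: `1 = (…)^M > 1`; `v 8 = v 9` the same.
-/

namespace Pool.Agent.H92.RP

open Pool.Agent.H13 Polynomial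

variable {k : Type} [Field k]

/-- parameter of the point with multiplicative coordinate `v` -/
noncomputable def tt (v : k) : k := (1 + v) / (1 - v)

structure VData (M : ℕ) (v : Fin 10 → k) : Prop where
  M_pos : 0 < M
  ne_zero : ∀ i, v i ≠ 0
  ne_one : ∀ i, v i ≠ 1
  mul_ne_one : ∀ i j, v i * v j ≠ 1
  inj : Function.Injective v
  rel1 : (∏ i : Fin 9, v i.castSucc) ^ M = 1
  rel2 : ∀ μ : Fin 10 → ℕ, ∏ i, v i ^ μ i = 1 →
    μ 9 = 0 ∧ ∃ a, ∀ i : Fin 9, μ i.castSucc = M * a

/-- the special points -/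
noncomputable def PP (v : Fin 10 → k) (i : Fin 10) : Fin 2 → k := pt (tt (v i))

theorem tt_facts [CharZero k] {M : ℕ} {v : Fin 10 → k} (V : VData M v) :
    (∀ i, tt (v i) ≠ 1) ∧ (∀ i, tt (v i) ≠ -1) ∧ (∀ i, tt (v i) ≠ 0) ∧
    (∀ i, (tt (v i) - 1) / (tt (v i) + 1) = v i) ∧ (∀ i j, tt (v i) + tt (v j) ≠ 0) ∧
    Function.Injective fun i => tt (v i) := by
  have h2 : (2 : k) ≠ 0 := two_ne_zero
  have h1 : ∀ i, (1 : k) - v i ≠ 0 := fun i h => V.ne_one i (sub_eq_zero.mp h).symm
  have e1 : ∀ i, tt (v i) - 1 = 2 * v i / (1 - v i) := by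
    intro i
    unfold tt
    rw [div_sub_one (h1 i)]
    congr 1
    ring
  have e2 : ∀ i, tt (v i) + 1 = 2 / (1 - v i) := by
    intro i
    unfold tt
    rw [div_add_one (h1 i)]
    congr 1
    ring
  refine ⟨?_, ?_, ?_, ?_, ?_, ?_⟩
  · intro i h
    have e := e1 i
    rw [h, sub_self] at e
    exact div_ne_zero (mul_ne_zero h2 (V.ne_zero i)) (h1 i) e.symm
  · intro i h
    have e := e2 i
    rw [h, neg_add_cancel] at e
    exact div_ne_zero h2 (h1 i) e.symm
  · intro i h
    unfold tt at h
    rw [div_eq_zero_iff] at h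
    rcases h with h | h
    · apply V.mul_ne_one i i
      have : v i = -1 := by linear_combination h
      rw [this]
      ring
    · exact h1 i h
  · intro i
    rw [e1, e2]
    have := h1 i
    field_simp
  · intro i j h
    have e : tt (v i) + tt (v j) = 2 * (1 - v i * v j) / ((1 - v i) * (1 - v j)) := by
      unfold tt
      rw [div_add_div _ _ (h1 i) (h1 j)]
      congr 1
      ring
    rw [e] at h
    refine div_ne_zero (mul_ne_zero h2 ?_) (mul_ne_zero (h1 i) (h1 j)) h
    intro h3
    exact V.mul_ne_one i j (sub_eq_zero.mp h3).symm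
  · intro i j h
    simp only at h
    unfold tt at h
    rw [div_eq_div_iff (h1 i) (h1 j)] at h
    apply V.inj
    have h3 : 2 * (v i - v j) = 0 := by linear_combination h
    exact sub_eq_zero.mp ((mul_eq_zero.mp h3).resolve_left h2)

theorem PP_xinj [CharZero k] {M : ℕ} {v : Fin 10 → k} (V : VData M v) :
    Function.Injective fun i => PP v i 0 := by
  intro i j h
  obtain ⟨-, -, -, -, h5, h6⟩ := tt_facts V
  simp only [PP, pt, Matrix.cons_val_zero] at h
  have e : (tt (v i) - tt (v j)) * (tt (v i) + tt (v j)) = 0 := by linear_combination h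
  have e2 := (mul_eq_zero.mp e).resolve_right (h5 i j)
  exact h6 (sub_eq_zero.mp e2)

/-- the remaining conditions follow from the relations -/
theorem VData.mk' {M : ℕ} {v : Fin 10 → k} (hM : 0 < M) (h0 : ∀ i, v i ≠ 0)
    (rel1 : (∏ i : Fin 9, v i.castSucc) ^ M = 1)
    (rel2 : ∀ μ : Fin 10 → ℕ, ∏ i, v i ^ μ i = 1 →
      μ 9 = 0 ∧ ∃ a, ∀ i : Fin 9, μ i.castSucc = M * a) : VData M v := by
  have hsum : ∀ μ : Fin 10 → ℕ, ∏ i, v i ^ μ i = 1 → ∃ a, ∑ i, μ i = 9 * a := by
    intro μ hμ
    obtain ⟨h9, a, ha⟩ := rel2 μ hμ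
    refine ⟨M * a, ?_⟩
    rw [Fin.sum_univ_castSucc, Finset.sum_congr rfl (fun i _ => ha i)]
    have : μ (Fin.last 9) = 0 := h9
    rw [this]
    simp
  refine ⟨hM, h0, ?_, ?_, ?_, rel1, rel2⟩
  · intro i hi
    obtain ⟨a, ha⟩ := hsum (Pi.single i 1) (by
      rw [Finset.prod_eq_single i]
      · simp [hi]
      · intro j _ hj
        simp [Pi.single_eq_of_ne hj]
      · simp)
    rw [Finset.sum_pi_single'] at ha
    simp at ha
    omega
  · intro i j hij
    obtain ⟨a, ha⟩ := hsum (Pi.single i 1 + Pi.single j 1) (by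
      simp only [Pi.add_apply, pow_add, Finset.prod_mul_distrib]
      rw [Finset.prod_eq_single i, Finset.prod_eq_single j]
      · simpa using hij
      · intro l _ hl
        simp [Pi.single_eq_of_ne hl]
      · simp
      · intro l _ hl
        simp [Pi.single_eq_of_ne hl]
      · simp)
    simp only [Pi.add_apply, Finset.sum_add_distrib] at ha
    rw [Finset.sum_pi_single', Finset.sum_pi_single'] at ha
    simp at ha
    omega
  · have key : ∀ i j : Fin 10, i ≠ j → j ≠ 9 → v i ≠ v j := by
      intro i j hij hj9 hv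
      set μ : Fin 10 → ℕ := fun l => if l = 9 then 0 else M with hμ
      have h1 : ∏ l, v l ^ μ l = 1 := by
        rw [Fin.prod_univ_castSucc]
        have e1 : μ (Fin.last 9) = 0 := by simp [hμ, Fin.last]
        have e2 : ∀ l : Fin 9, μ l.castSucc = M := by
          intro l
          have : l.castSucc ≠ 9 := by
            intro h
            have := congrArg Fin.val h
            simp at this
            omega
          simp [hμ, this]
        rw [e1, pow_zero, mul_one, ← rel1, ← Finset.prod_pow]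
        exact Finset.prod_congr rfl (fun l _ => by rw [e2])
      have hsplit : ∀ ν : Fin 10 → ℕ, ∏ l, v l ^ ν l =
          v i ^ ν i * (v j ^ ν j * ∏ l ∈ (Finset.univ.erase i).erase j, v l ^ ν l) := by
        intro ν
        rw [Finset.mul_prod_erase (Finset.univ.erase i) (fun l => v l ^ ν l)
          (Finset.mem_erase.mpr ⟨hij.symm, Finset.mem_univ j⟩),
          Finset.mul_prod_erase Finset.univ (fun l => v l ^ ν l) (Finset.mem_univ i)]
      have hμj : μ j = M := by simp [hμ, hj9]
      set μ' : Fin 10 → ℕ := Function.update (Function.update μ i (μ i + M)) j 0 with hμ'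
      have e1 : μ' i = μ i + M := by
        rw [hμ', Function.update_of_ne hij, Function.update_self]
      have e2 : μ' j = 0 := by rw [hμ', Function.update_self]
      have e3 : ∏ l ∈ (Finset.univ.erase i).erase j, v l ^ μ' l =
          ∏ l ∈ (Finset.univ.erase i).erase j, v l ^ μ l := by
        apply Finset.prod_congr rfl
        intro l hl
        rw [Finset.mem_erase, Finset.mem_erase] at hl
        rw [hμ', Function.update_of_ne hl.1, Function.update_of_ne hl.2.1]
      have h2 : ∏ l, v l ^ μ' l = 1 := by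
        rw [← h1, hsplit μ', hsplit μ, e1, e2, e3, hμj, pow_add, pow_zero, hv]
        ring
      obtain ⟨h9, a, ha⟩ := rel2 μ' h2
      by_cases hi9 : i = 9
      · subst hi9
        rw [e1] at h9
        omega
      · have hi : ∃ i' : Fin 9, i'.castSucc = i := by
          refine ⟨⟨i.val, ?_⟩, ?_⟩
          · have := i.isLt
            have h : i.val ≠ 9 := fun h => hi9 (Fin.ext h)
            omega
          · exact Fin.ext rfl
        have hj : ∃ j' : Fin 9, j'.castSucc = j := by
          refine ⟨⟨j.val, ?_⟩, ?_⟩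
          · have := j.isLt
            have h : j.val ≠ 9 := fun h => hj9 (Fin.ext h)
            omega
          · exact Fin.ext rfl
        obtain ⟨i', hi'⟩ := hi
        obtain ⟨j', hj'⟩ := hj
        have a1 := ha i'
        have a2 := ha j'
        rw [hi', e1] at a1
        rw [hj', e2] at a2
        omega
    intro i j hv
    by_contra hij
    by_cases hj9 : j = 9
    · have hi9 : i ≠ 9 := fun h => hij (h.trans hj9.symm)
      exact key j i (Ne.symm hij) hi9 hv.symm
    · exact key i j hij hj9 hv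

theorem exists_vdata [CharZero k] [IsAlgClosed k] (M : ℕ) (hM : 0 < M) :
    ∃ v : Fin 10 → k, VData M v := by
  have : NeZero M := ⟨hM.ne'⟩
  have : NeZero (M : k) := ⟨by exact_mod_cast hM.ne'⟩
  obtain ⟨ζ, hζ⟩ := HasEnoughRootsOfUnity.exists_primitiveRoot k M
  have hζ0 : ζ ≠ 0 := hζ.ne_zero hM.ne'
  obtain ⟨p, hp⟩ : ∃ p : ℕ → ℕ, p = Nat.nth Nat.Prime := ⟨_, rfl⟩
  have hpp : ∀ i, (p i).Prime := by
    intro i
    rw [hp]
    exact Nat.nth_mem_of_infinite Nat.infinite_setOfPred_prime i
  have hpi : Function.Injective p := by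
    rw [hp]
    exact Nat.nth_injective Nat.infinite_setOfPred_prime
  have hp0 : ∀ i, (p i : k) ≠ 0 := fun i => by exact_mod_cast (hpp i).ne_zero
  set W : k := ∏ i ∈ Finset.range 8, (p i : k) with hW
  have hW0 : W ≠ 0 := Finset.prod_ne_zero_iff.mpr fun i _ => hp0 i
  let v : Fin 10 → k := fun i => if (i : ℕ) < 8 then (p i : k) else
    if (i : ℕ) = 8 then ζ * W⁻¹ else (p 8 : k)
  have v9 : v (Fin.last 9) = p 8 := by simp [v, Fin.last]
  have v8 : v (Fin.last 8).castSucc = ζ * W⁻¹ := by simp [v, Fin.last]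
  have vi : ∀ i : Fin 8, v i.castSucc.castSucc = p i := by
    intro i
    have := i.isLt
    simp [v, this]
  refine ⟨v, VData.mk' hM ?_ ?_ ?_⟩
  · intro i
    simp only [v]
    split_ifs
    · exact hp0 _
    · exact mul_ne_zero hζ0 (inv_ne_zero hW0)
    · exact hp0 _
  · rw [Fin.prod_univ_castSucc, v8, Finset.prod_congr rfl (fun i _ => vi i)]
    have e : ∏ i : Fin 8, (p i : k) = W := by
      rw [hW, ← Fin.prod_univ_eq_prod_range (fun i => (p i : k)) 8]
    rw [e]
    have e2 : W * (ζ * W⁻¹) = ζ := by field_simp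
    rw [e2, hζ.pow_eq_one]
  · intro μ hμ
    rw [Fin.prod_univ_castSucc, Fin.prod_univ_castSucc, v9, v8,
      Finset.prod_congr rfl (fun i _ => by rw [vi i])] at hμ
    set m8 := μ (Fin.last 8).castSucc with hm8
    set m9 := μ (Fin.last 9) with hm9
    -- the relation without inverses
    have h1 : (∏ i : Fin 8, (p i : k) ^ μ i.castSucc.castSucc) * ζ ^ m8 * (p 8 : k) ^ m9 = W ^ m8 := by
      have : (ζ * W⁻¹) ^ m8 * W ^ m8 = ζ ^ m8 := by
        rw [← mul_pow]
        congr 1
        field_simp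
      calc (∏ i : Fin 8, (p i : k) ^ μ i.castSucc.castSucc) * ζ ^ m8 * (p 8 : k) ^ m9
          = ((∏ i : Fin 8, (p i : k) ^ μ i.castSucc.castSucc) * (ζ * W⁻¹) ^ m8 * (p 8 : k) ^ m9)
            * W ^ m8 := by rw [← this]; ring
        _ = W ^ m8 := by rw [hμ, one_mul]
    have e : W = ∏ i : Fin 8, (p i : k) := by
      rw [hW, ← Fin.prod_univ_eq_prod_range (fun i => (p i : k)) 8]
    have h2 : (∏ i : Fin 8, (p i : k) ^ (μ i.castSucc.castSucc * M)) * (p 8 : k) ^ (m9 * M) =
        ∏ i : Fin 8, (p i : k) ^ (m8 * M) := by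
      have := congrArg (· ^ M) h1
      simp only [mul_pow, ← pow_mul, ← Finset.prod_pow] at this
      rw [mul_comm m8 M, pow_mul ζ, hζ.pow_eq_one, one_pow, mul_one] at this
      rw [this, e, Finset.prod_pow, mul_comm m8 M]
    have h3 : (∏ i : Fin 8, p i ^ (μ i.castSucc.castSucc * M)) * p 8 ^ (m9 * M) =
        ∏ i : Fin 8, p i ^ (m8 * M) := by
      exact_mod_cast h2
    have hfac : ∀ (ν : Fin 8 → ℕ) (q : ℕ), (∏ i : Fin 8, p i ^ ν i).factorization q =
        ∑ i : Fin 8, if p i = q then ν i else 0 := by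
      intro ν q
      rw [Nat.factorization_prod (fun (i : Fin 8) _ => pow_ne_zero (ν i) (hpp (i : ℕ)).ne_zero),
        Finsupp.finsetSum_apply]
      apply Finset.sum_congr rfl
      intro i _
      rw [(hpp i).factorization_pow, Finsupp.single_apply]
    have hne : ∀ ν : Fin 8 → ℕ, (∏ i : Fin 8, p i ^ ν i) ≠ 0 := fun ν =>
      Finset.prod_ne_zero_iff.mpr fun i _ => pow_ne_zero _ (hpp i).ne_zero
    have h4 := congrArg Nat.factorization h3
    rw [Nat.factorization_mul (hne _) (pow_ne_zero _ (hpp 8).ne_zero),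
      (hpp 8).factorization_pow] at h4
    have h5 : ∀ q, (∑ i : Fin 8, if p i = q then μ i.castSucc.castSucc * M else 0) +
        (if p 8 = q then m9 * M else 0) = ∑ i : Fin 8, if p i = q then m8 * M else 0 := by
      intro q
      have := DFunLike.congr_fun h4 q
      rw [Finsupp.add_apply, hfac, hfac, Finsupp.single_apply] at this
      exact this
    have m90 : m9 = 0 := by
      have h6 := h5 (p 8)
      have hz : ∀ i : Fin 8, ¬ p i = p 8 := by
        intro i hi
        have := hpi hi
        have := i.isLt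
        omega
      simp only [hz, if_false, Finset.sum_const_zero, if_true, zero_add] at h6
      exact (Nat.mul_eq_zero.mp h6).resolve_right hM.ne'
    have mi : ∀ i : Fin 8, μ i.castSucc.castSucc = m8 := by
      intro i
      have h6 := h5 (p i)
      have hz : ∀ j : Fin 8, (p j = p i ↔ j = i) := by
        intro j
        constructor
        · intro h
          exact Fin.ext (hpi h)
        · rintro rfl
          rfl
      have hz8 : ¬ p 8 = p i := by
        intro h
        have := hpi h
        have := i.isLt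
        omega
      simp only [hz, hz8, if_false, add_zero, Finset.sum_ite_eq', Finset.mem_univ, if_true] at h6
      exact Nat.eq_of_mul_eq_mul_right hM h6
    have h7 : ζ ^ m8 = 1 := by
      rw [m90, pow_zero, mul_one, Finset.prod_congr rfl (fun i _ => by rw [mi i]),
        Finset.prod_pow, ← e] at h1
      exact mul_left_cancel₀ (pow_ne_zero m8 hW0) (by rw [h1, mul_one])
    obtain ⟨a, ha⟩ := (hζ.pow_eq_one_iff_dvd m8).mp h7
    refine ⟨m90, a, ?_⟩
    intro i
    refine Fin.lastCases ?_ ?_ i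
    · exact ha
    · intro i
      rw [mi i]
      exact ha

end Pool.Agent.H92.RP
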