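import Mathlib
import Pool.Agent.H13.Genus
import Pool.Agent.H13.ConeA
import Pool.Agent.H92.RP.VData

set_option autoImplicit false

/-!
# RP-G1: classes orthogonal to `K` are nef for ten special points on the nodal cubic

PROOF.  First `m0 i ≥ 0`: by Cauchy-Schwarz `(∑_{j ≠ i} m0 j)² ≤ 9 ∑_{j≠i} m0 j² ≤ 9 d0²`, so
`3 d0 - m0 i ≤ 3 d0`.
By `span_of_hasCurve` (`H13/ConeA.lean`) with `K = {x | ∑ m0 i x.2 i ≤ d0 x.1}` (a submodule over
the nonnegative reals) it is enough to treat `(1; 0)`, `(0; -e_i)` (`m0 i ≥ 0`) and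
`(deg g; mult g)` for a prime polynomial `g`.  Let `e = totalDegree g`, `μ i = mult (PP v i) g`.
(a) `f₀ ∣ g`: then `g` is associated to `f₀` (`prime_f₀`), `e ≥ 3`... precisely `e = 3` and
    `μ i ≤ 1` (`f₀` has a nonzero `Y`-derivative at `PP v i`), so
    `∑ m0 i μ i ≤ ∑ m0 i = 3 d0 = d0 e`.
(b) `rho g ≠ 0` (`rho_eq_zero`).  By `rel` (with `r = 10`, `t i = tt (v i)`, `tt_facts`)
    `∑ μ i ≤ 3 e`.  If equality, `∏ v i ^ μ i = 1` and `V.rel2` gives `μ 9 = 0`,
    `μ i = M a =: μ` for `i < 9`, and `9 μ = 3 e`, `e = 3 μ`: then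
    `∑ m0 i μ i = μ (3 d0 - m0 9) ≤ 3 μ d0 = e d0`.
    If `a := 3 e - ∑ μ i ≥ 1`: `genus_bound` (some partial derivative is nonzero in
    characteristic `0`: a prime polynomial is not constant; for `pderiv 0 = pderiv 1 = 0` it would
    be constant) gives `∑ μ i (μ i - 1) ≤ (e-1)(e-2)`, i.e.
    `e² - ∑ μ i² ≥ 3 e - ∑ μ i - 2 = a - 2`.  Then
    `(e + 3a)² - ∑ (μ i + a)² = e² - ∑ μ i² + a² ≥ a² + a - 2 ≥ 0` (all ten points:
    `∑ a² = 10 a²`, `6 a e - 2 a ∑ μ = 2 a (3e - ∑ μ) = 2a²`), so by Cauchy-Schwarz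
    `∑ m0 i (μ i + a) ≤ d0 (e + 3a)` and subtracting `a ∑ m0 i = 3 a d0` gives the claim.
-/

namespace Pool.Agent.H92.RP

open Pool.Agent.H13

/-- Cauchy-Schwarz: classes orthogonal to `K` have nonnegative multiplicities. -/
theorem nef_m0_nonneg (d0 : ℝ) (m0 : Fin 10 → ℝ)
    (h0 : 0 ≤ d0) (hsum : ∑ i, m0 i = 3 * d0) (hsq : ∑ i, m0 i ^ 2 ≤ d0 ^ 2) (i : Fin 10) :
    0 ≤ m0 i := by
  by_contra hcon
  push Not at hcon
  have h5 := sq_sum_le_card_mul_sum_sq (s := (Finset.univ : Finset (Fin 10)).erase i)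
      (f := fun i => m0 i)
  rw [Finset.card_erase_of_mem (Finset.mem_univ i)] at h5
  simp only [Finset.card_univ, Fintype.card_fin] at h5
  have e1 := Finset.sum_erase_add Finset.univ m0 (Finset.mem_univ i)
  have e2 := Finset.sum_erase_add Finset.univ (fun i => m0 i ^ 2) (Finset.mem_univ i)
  have e3 : ∑ j ∈ Finset.univ.erase i, m0 j = 3 * d0 - m0 i := by linarith
  rw [e3] at h5
  have e4 : ∑ j ∈ Finset.univ.erase i, m0 j ^ 2 ≤ d0 ^ 2 - m0 i ^ 2 := by
    linarith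
  have e5 : (((10 - 1 : ℕ) : ℝ)) = 9 := by norm_num
  rw [e5] at h5
  nlinarith [mul_nonneg h0 (neg_nonneg.2 hcon.le), mul_pos_of_neg_of_neg hcon hcon]

/-- the inequality for a curve which is not the nodal cubic, strict case -/
theorem nef_strict (d0 : ℝ) (m0 : Fin 10 → ℝ)
    (h0 : 0 ≤ d0) (hsum : ∑ i, m0 i = 3 * d0) (hsq : ∑ i, m0 i ^ 2 ≤ d0 ^ 2) (e : ℕ)
    (μ : Fin 10 → ℕ) (h1 : ∑ i, μ i < 3 * e)
    (h2 : ∑ i, (μ i : ℤ) * (μ i - 1) ≤ ((e : ℤ) - 1) * (e - 2)) :
    ∑ i, m0 i * μ i ≤ d0 * e := by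
  obtain ⟨a, ha⟩ := Nat.exists_eq_add_of_lt h1
  have h2' : ∑ i, ((μ i : ℝ) ^ 2 - μ i) ≤ ((e : ℝ) - 1) * (e - 2) := by
    have : ((∑ i, (μ i : ℤ) * (μ i - 1) : ℤ) : ℝ) ≤ (((e : ℤ) - 1) * (e - 2) : ℤ) := by
      exact_mod_cast h2
    push_cast at this
    refine le_trans (le_of_eq ?_) this
    exact Finset.sum_congr rfl fun i _ => by ring
  rw [Finset.sum_sub_distrib] at h2'
  have ha' : (3 : ℝ) * e = ∑ i, (μ i : ℝ) + (a + 1) := by
    have : ((3 * e : ℕ) : ℝ) = ((∑ i, μ i + a + 1 : ℕ) : ℝ) := by rw [ha]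
    push_cast at this
    linarith
  set b : ℝ := a + 1 with hb
  have hb1 : 1 ≤ b := by
    have : (0 : ℝ) ≤ a := Nat.cast_nonneg _
    linarith
  set s := ∑ i, (μ i : ℝ) with hs
  have hcs := Finset.sum_mul_sq_le_sq_mul_sq Finset.univ m0 (fun i => (μ i : ℝ) + b)
  have e1 : ∑ i, ((μ i : ℝ) + b) ^ 2 = ∑ i, (μ i : ℝ) ^ 2 + 2 * b * s + 10 * b ^ 2 := by
    have : ∀ i, ((μ i : ℝ) + b) ^ 2 = (μ i : ℝ) ^ 2 + 2 * b * μ i + b ^ 2 := by intro i; ring
    rw [Finset.sum_congr rfl fun i _ => this i, Finset.sum_add_distrib, Finset.sum_add_distrib,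
      ← Finset.mul_sum]
    simp only [Finset.sum_const, Finset.card_univ, Fintype.card_fin, nsmul_eq_mul]
    push_cast
    ring
  have e2 : ∑ i, m0 i * ((μ i : ℝ) + b) = ∑ i, m0 i * μ i + 3 * d0 * b := by
    have : ∀ i, m0 i * ((μ i : ℝ) + b) = m0 i * μ i + b * m0 i := by intro i; ring
    rw [Finset.sum_congr rfl fun i _ => this i, Finset.sum_add_distrib, ← Finset.mul_sum, hsum]
    ring
  have e3 : ∑ i, ((μ i : ℝ) + b) ^ 2 ≤ (e + 3 * b) ^ 2 := by
    rw [e1]
    have : s = 3 * e - b := by linarith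
    rw [this] at h2' ⊢
    nlinarith
  rw [e2] at hcs
  have e4 : (∑ i, m0 i * μ i + 3 * d0 * b) ^ 2 ≤ (d0 * (e + 3 * b)) ^ 2 := by
    calc _ ≤ (∑ i, m0 i ^ 2) * ∑ i, ((μ i : ℝ) + b) ^ 2 := hcs
      _ ≤ d0 ^ 2 * (e + 3 * b) ^ 2 := by
        apply mul_le_mul hsq e3 (Finset.sum_nonneg fun _ _ => sq_nonneg _) (sq_nonneg _)
      _ = _ := by ring
  have e5 : 0 ≤ d0 * (e + 3 * b) := by
    apply mul_nonneg h0
    have : (0 : ℝ) ≤ e := Nat.cast_nonneg _
    linarith
  have e6 := (abs_le_of_sq_le_sq' e4 e5).2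
  nlinarith

variable {k : Type} [Field k] [IsAlgClosed k] [CharZero k]

theorem nn_exists_pderiv_ne {g : MvPolynomial (Fin 2) k} (hg : Prime g) :
    ∃ j, MvPolynomial.pderiv j g ≠ 0 := by
  by_contra hcon
  push Not at hcon
  have h1 := totalDegree_pos_of_prime hg
  have h2 : g.totalDegree = 0 := by
    rw [MvPolynomial.totalDegree_eq_zero_iff_eq_C]
    ext s
    rw [MvPolynomial.coeff_C]
    split_ifs with hs
    · rw [← hs]
    · obtain ⟨i, hi⟩ : ∃ i, s i ≠ 0 := by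
        by_contra h
        push Not at h
        exact hs (Finsupp.ext fun i => (h i).symm)
      have h3 : MvPolynomial.coeff (s - Finsupp.single i 1) (MvPolynomial.pderiv i g) = 0 := by
        rw [hcon i, MvPolynomial.coeff_zero]
      have h4 : s - Finsupp.single i 1 + Finsupp.single i 1 = s := by
        apply tsub_add_cancel_of_le
        rw [Finsupp.single_le_iff]
        omega
      rw [MvPolynomial.coeff_pderiv, h4] at h3
      rcases mul_eq_zero.1 h3 with h | h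
      · exact h
      · exact absurd h (Nat.cast_add_one_ne_zero _)
  omega

theorem nn_mult_f₀_le {M : ℕ} {v : Fin 10 → k} (V : VData M v) (i : Fin 10) :
    mult (PP v i) (f₀ k) ≤ 1 := by
  obtain ⟨t1, t2, t3, -⟩ := tt_facts V
  by_contra hcon
  push Not at hcon
  have h0 : f₀ k ≠ 0 := (prime_f₀ (k := k)).ne_zero
  have h1 : f₀ k ∈ Iord (PP v i) 2 := (mem_Iord_iff_le_mult h0).2 hcon
  have h2 := pderiv_mem_Iord 1 h1
  rw [mem_Iord_one] at h2
  have h3 := f₀_pderiv1 (tt (v i))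
  change MvPolynomial.eval (pt (tt (v i))) _ = 0 at h2
  rw [h2] at h3
  have h4 : (2 : k) * (tt (v i) * (tt (v i) - 1) * (tt (v i) + 1)) = 0 := by
    rw [h3]; ring
  have h5 := (mul_eq_zero.1 h4).resolve_left two_ne_zero
  rcases mul_eq_zero.1 h5 with h6 | h6
  · rcases mul_eq_zero.1 h6 with h7 | h7
    · exact t3 i h7
    · exact t1 i (sub_eq_zero.1 h7)
  · exact t2 i (eq_neg_of_add_eq_zero_left h6)

theorem nn_totalDegree_f₀_ge : 3 ≤ (f₀ k).totalDegree := by
  have h := topp_f₀ (k := k)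
  have h1 := congrArg (fun p => Polynomial.coeff p 0) h
  simp only [topp, Polynomial.finsetSum_coeff, Polynomial.coeff_monomial, Polynomial.coeff_neg,
    Polynomial.coeff_one_zero] at h1
  rw [Finset.sum_eq_single 0 (by intro b _ hb; rw [if_neg hb]) (by simp)] at h1
  rw [if_pos rfl] at h1
  have h2 : MvPolynomial.coeff (expo (3 - 0, 0)) (f₀ k) ≠ 0 := by
    rw [h1]
    exact neg_ne_zero.2 one_ne_zero
  have h3 := MvPolynomial.le_totalDegree (MvPolynomial.mem_support_iff.2 h2)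
  have e1 : ((expo (3 - 0, 0)).sum fun _ e => e) = (expo (3 - 0, 0)).degree := rfl
  rw [e1, expo_degree] at h3
  simpa using h3

theorem nodal_nef_prime {M : ℕ} {v : Fin 10 → k} (V : VData M v) (d0 : ℝ) (m0 : Fin 10 → ℝ)
    (h0 : 0 ≤ d0) (hsum : ∑ i, m0 i = 3 * d0) (hsq : ∑ i, m0 i ^ 2 ≤ d0 ^ 2)
    (g : MvPolynomial (Fin 2) k) (hg : Prime g) :
    ∑ i, m0 i * (mult (PP v i) g : ℝ) ≤ d0 * (g.totalDegree : ℝ) := by
  have hm0 := nef_m0_nonneg d0 m0 h0 hsum hsq
  by_cases hf : f₀ k ∣ g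
  · obtain ⟨u, rfl⟩ := hf
    have hu : IsUnit u := (hg.irreducible.isUnit_or_isUnit rfl).resolve_left
      (prime_f₀ (k := k)).not_isUnit
    have hf0 := (prime_f₀ (k := k)).ne_zero
    rw [MvPolynomial.totalDegree_mul_of_isDomain hf0 hu.ne_zero, (mult_unit (P := 0) hu).2,
      add_zero]
    calc ∑ i, m0 i * (mult (PP v i) (f₀ k * u) : ℝ) ≤ ∑ i, m0 i * 1 := by
          apply Finset.sum_le_sum
          intro i _
          apply mul_le_mul_of_nonneg_left _ (hm0 i)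
          rw [mult_mul hf0 hu.ne_zero, (mult_unit (P := PP v i) hu).1, add_zero]
          exact_mod_cast nn_mult_f₀_le V i
      _ = d0 * 3 := by
          simp only [mul_one]
          rw [hsum]
          ring
      _ ≤ d0 * ((f₀ k).totalDegree : ℝ) := by
          apply mul_le_mul_of_nonneg_left _ h0
          exact_mod_cast nn_totalDegree_f₀_ge (k := k)
  · have hr : rho k g ≠ 0 := fun h => hf (rho_eq_zero g h)
    obtain ⟨t1, t2, t3, t4, t5, t6⟩ := tt_facts V
    obtain ⟨r1, r2⟩ := rel (fun i => tt (v i)) t6 t1 t2 g.totalDegree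
      (fun i => mult (PP v i) g) g (mem_Vd.2 le_rfl) (fun i => mem_mult hg.ne_zero) hr
    rcases r1.eq_or_lt with h | h
    · have h3 := (r2 h).1
      simp only [t4] at h3
      obtain ⟨h4, a, h5⟩ := V.rel2 _ h3
      rw [Fin.sum_univ_castSucc] at h hsum ⊢
      have h4' : mult (PP v (Fin.last 9)) g = 0 := h4
      rw [h4'] at h ⊢
      rw [Finset.sum_congr rfl fun i _ => h5 i] at h
      simp only [Finset.sum_const, Finset.card_univ, Fintype.card_fin, smul_eq_mul] at h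
      have e1 : ∑ i : Fin 9, m0 i.castSucc * (mult (PP v i.castSucc) g : ℝ) =
          (M * a : ℕ) * ∑ i : Fin 9, m0 i.castSucc := by
        rw [Finset.mul_sum]
        apply Finset.sum_congr rfl
        intro i _
        rw [h5 i, mul_comm]
      rw [e1]
      have e2 : g.totalDegree = 3 * (M * a) := by omega
      rw [e2]
      push_cast
      have e3 : ∑ i : Fin 9, m0 i.castSucc ≤ 3 * d0 := by
        have := hm0 (Fin.last 9)
        linarith
      have e4 : (0 : ℝ) ≤ (M : ℝ) * a := by positivity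
      nlinarith [mul_le_mul_of_nonneg_left e3 e4]
    · obtain ⟨j, hj⟩ := nn_exists_pderiv_ne hg
      have hinj : Function.Injective (PP v) := fun i j hij =>
        PP_xinj V (congrFun hij 0)
      have hgen := genus_bound (PP v) hinj g g.totalDegree hg rfl (fun i => mult (PP v i) g)
        (fun i => mem_mult hg.ne_zero) j hj
      exact nef_strict d0 m0 h0 hsum hsq _ _ h hgen

theorem nodal_nef {M : ℕ} {v : Fin 10 → k} (V : VData M v) (d0 : ℝ) (m0 : Fin 10 → ℝ)
    (h0 : 0 ≤ d0) (hsum : ∑ i, m0 i = 3 * d0) (hsq : ∑ i, m0 i ^ 2 ≤ d0 ^ 2) (d : ℕ)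
    (m : Fin 10 → ℕ) (h : HasCurve (PP v) d m) : ∑ i, m0 i * m i ≤ d0 * d := by
  have hm0 := nef_m0_nonneg d0 m0 h0 hsum hsq
  let K : Submodule {c : ℝ // 0 ≤ c} (ℝ × (Fin 10 → ℝ)) :=
    { carrier := {x | ∑ i, m0 i * x.2 i ≤ d0 * x.1}
      add_mem' := by
        intro x y hx hy
        simp only [Set.mem_ofPred_eq, Prod.snd_add, Prod.fst_add, Pi.add_apply] at *
        have : ∑ i, m0 i * (x.2 i + y.2 i) = ∑ i, m0 i * x.2 i + ∑ i, m0 i * y.2 i := by
          rw [← Finset.sum_add_distrib]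
          exact Finset.sum_congr rfl fun i _ => by ring
        rw [this]
        linarith
      zero_mem' := by simp
      smul_mem' := by
        intro c x hx
        simp only [Set.mem_ofPred_eq] at *
        have hs : c • x = c.1 • x := rfl
        rw [hs]
        simp only [Prod.smul_snd, Prod.smul_fst, Pi.smul_apply, smul_eq_mul]
        have : ∑ i, m0 i * (c.1 * x.2 i) = c.1 * ∑ i, m0 i * x.2 i := by
          rw [Finset.mul_sum]
          exact Finset.sum_congr rfl fun i _ => by ring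
        rw [this]
        have := mul_le_mul_of_nonneg_left hx c.2
        linarith }
  have hK : ∀ x, x ∈ K ↔ ∑ i, m0 i * x.2 i ≤ d0 * x.1 := fun x => Iff.rfl
  have := span_of_hasCurve (PP v) K (by rw [hK]; simpa using h0)
    (fun i => by
      rw [hK]
      simp only [mul_zero]
      rw [Finset.sum_eq_single i]
      · simpa using hm0 i
      · intro j _ hj
        rw [Pi.single_eq_of_ne hj, mul_zero]
      · intro h
        exact absurd (Finset.mem_univ i) h)
    (fun g hg => by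
      rw [hK]
      exact nodal_nef_prime V d0 m0 h0 hsum hsq g hg) d m h
  rw [hK] at this
  exact this

end Pool.Agent.H92.RP
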