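import Mathlib
import Pool.Agent.H13.Sep

set_option autoImplicit false

/-!
# RP-G6: the linear algebra of the reflections and the final inequality

`kk y = 3 d - ∑_{i<9} m_i`; `wt M S i` (`i ≥ 9`) is `2M - 1` or `1` for `i = 9` (`i ∈ S` or not) and
`2M` or `0` for `i ≥ 10`.  `InL`: `m_i = wt M S i * kk y` for `i ≥ 9`.

Let `k = kk y`, `a i = (M-1) k` if `i = 9 ∈ S`, `M k` if `i ∈ S`, `i ≥ 10`, and `0` if `i ∉ S`;
`A = ∑ a i`, `y0 = (y.1 - 6 M A; y.2 i - 2 M A (i < 9), k)` (ten coordinates, `i = 9` last).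
-/

namespace Pool.Agent.H92.RP

open Pool.Agent.H13

/-- `3 d - m_0 - … - m_8` -/
noncomputable def kk {n : ℕ} (hn : 9 ≤ n) (y : ℝ × (Fin n → ℝ)) : ℝ :=
  3 * y.1 - ∑ i : Fin 9, y.2 (Fin.castLE hn i)

/-- the coefficients of the linear subspace -/
noncomputable def wt {n : ℕ} (M : ℕ) (S : Finset (Fin n)) (i : Fin n) : ℝ :=
  if (i : ℕ) = 9 then (if i ∈ S then 2 * M - 1 else 1) else (if i ∈ S then 2 * M else 0)

/-- `y` lies in the ten-dimensional linear space `L_{M,S}` -/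
def InL {n : ℕ} (hn : 9 ≤ n) (M : ℕ) (S : Finset (Fin n)) (y : ℝ × (Fin n → ℝ)) : Prop :=
  ∀ i : Fin n, 9 ≤ (i : ℕ) → y.2 i = wt M S i * kk hn y

theorem numA_sum_split9 {r : ℕ} (f : Fin (9 + r) → ℝ) : ∑ i, f i =
    ∑ i : Fin 9, f (Fin.castLE (by omega) i) + ∑ i : Fin r, f (Fin.natAdd 9 i) := by
  rw [Fin.sum_univ_add]
  rfl

theorem numA_sum_split {r : ℕ} (f : Fin (10 + r) → ℝ) : ∑ i, f i =
    ∑ i : Fin 9, f (Fin.castLE (by omega) i) + f ⟨9, by omega⟩ +
      ∑ i : Fin r, f (Fin.natAdd 10 i) := by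
  rw [Fin.sum_univ_add, Fin.sum_univ_castSucc]
  rfl

theorem kk_nonneg {n : ℕ} (hn : 9 ≤ n) (y : ℝ × (Fin n → ℝ)) (hy : y ∈ Pos n) :
    0 ≤ kk hn y := by
  obtain ⟨r, rfl⟩ := Nat.exists_eq_add_of_le hn
  obtain ⟨h1, h2⟩ := hy
  have h3 := numA_sum_split9 (fun i => y.2 i ^ 2)
  have h4 : 0 ≤ ∑ i : Fin r, y.2 (Fin.natAdd 9 i) ^ 2 :=
    Finset.sum_nonneg fun _ _ => sq_nonneg _
  have h5 := sq_sum_le_card_mul_sum_sq (s := (Finset.univ : Finset (Fin 9)))
    (f := fun i => y.2 (Fin.castLE hn i))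
  simp only [Finset.card_univ, Fintype.card_fin] at h5
  unfold kk
  by_contra hcon
  push Not at hcon
  have h6 : (∑ i : Fin 9, y.2 (Fin.castLE hn i)) ^ 2 ≤ 9 * y.1 ^ 2 := by
    push_cast at h5
    linarith
  nlinarith

/-- the coefficient of the letter `C_l` in the reflection -/
noncomputable def la {n : ℕ} (M : ℕ) (S : Finset (Fin n)) (k : ℝ) (i : Fin n) : ℝ :=
  if i ∈ S then (if (i : ℕ) = 9 then (M - 1) * k else M * k) else 0

theorem y0_facts {n : ℕ} (hn : 10 ≤ n) (M : ℕ) (hM : 1 ≤ M) (S : Finset (Fin n))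
    (hS : ∀ l ∈ S, 9 ≤ (l : ℕ)) (y : ℝ × (Fin n → ℝ))
    (hy : InL (by omega) M S y) (hp : y ∈ Pos n) :
    ∃ (d0 : ℝ) (m0 : Fin 10 → ℝ), 0 ≤ d0 ∧ ∑ i, m0 i = 3 * d0 ∧ ∑ i, m0 i ^ 2 ≤ d0 ^ 2 ∧
      (∀ i, 0 ≤ m0 i) ∧ m0 9 = kk (by omega : 9 ≤ n) y ∧
      y.1 = d0 + 6 * M * ∑ i, la M S (kk (by omega : 9 ≤ n) y) i ∧
      ∀ i : Fin 9, y.2 (Fin.castLE (by omega) i) =
        m0 i.castSucc + 2 * M * ∑ i, la M S (kk (by omega : 9 ≤ n) y) i := by
  have hk := kk_nonneg (by omega : 9 ≤ n) y hp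
  obtain ⟨r, rfl⟩ := Nat.exists_eq_add_of_le hn
  obtain ⟨h1, h2⟩ := hp
  have hkdef : kk (by omega : 9 ≤ 10 + r) y =
    3 * y.1 - ∑ i : Fin 9, y.2 (Fin.castLE (by omega) i) := rfl
  set k := kk (by omega : 9 ≤ 10 + r) y with hkk
  set A := ∑ i, la M S k i with hA
  -- the square sum
  have hsq : k ^ 2 + 4 * M * k * A = y.2 ⟨9, by omega⟩ ^ 2 +
      ∑ i : Fin r, y.2 (Fin.natAdd 10 i) ^ 2 := by
    have e0 : ∑ i : Fin 9, la M S k (Fin.castLE (by omega : 9 ≤ 10 + r) i) = 0 := by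
      apply Finset.sum_eq_zero
      intro i _
      have : Fin.castLE (by omega : 9 ≤ 10 + r) i ∉ S := by
        intro hcon
        have := hS _ hcon
        simp at this
        omega
      rw [la, if_neg this]
    have e1 : A = la M S k ⟨9, by omega⟩ + ∑ i : Fin r, la M S k (Fin.natAdd 10 i) := by
      rw [hA, numA_sum_split, e0, zero_add]
    have e2 : ∀ i : Fin r, y.2 (Fin.natAdd 10 i) ^ 2 = 4 * M * k * la M S k (Fin.natAdd 10 i) := by
      intro i
      have hne : ((Fin.natAdd 10 i : Fin (10 + r)) : ℕ) ≠ 9 := by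
        simp
        omega
      rw [hy (Fin.natAdd 10 i) (by simp; omega), wt, la, if_neg hne, if_neg hne]
      split_ifs <;> ring
    have e3 : y.2 ⟨9, by omega⟩ ^ 2 = k ^ 2 + 4 * M * k * la M S k ⟨9, by omega⟩ := by
      rw [hy ⟨9, by omega⟩ (by simp), wt, la, if_pos rfl, if_pos rfl]
      split_ifs <;> ring
    rw [Finset.sum_congr rfl fun i _ => e2 i, ← Finset.mul_sum, e3, e1]
    ring
  have hsum : ∑ i : Fin 9, y.2 (Fin.castLE (by omega) i) = 3 * y.1 - k := by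
    rw [hkdef]; ring
  have hall := numA_sum_split (fun i => y.2 i ^ 2)
  set d0 := y.1 - 6 * M * A with hd0
  set m0 : Fin 10 → ℝ := Fin.snoc (α := fun _ => ℝ)
    (fun i : Fin 9 => y.2 (Fin.castLE (by omega) i) - 2 * M * A) k with hm0
  have m0c : ∀ i : Fin 9, m0 i.castSucc = y.2 (Fin.castLE (by omega) i) - 2 * M * A := by
    intro i
    rw [hm0]
    exact Fin.snoc_castSucc (α := fun _ => ℝ) _ _ _
  have m0l : m0 (Fin.last 9) = k := by
    rw [hm0]
    exact Fin.snoc_last (α := fun _ => ℝ) _ _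
  have s1 : ∑ i, m0 i = 3 * d0 := by
    rw [Fin.sum_univ_castSucc, m0l, Finset.sum_congr rfl fun i _ => m0c i,
      Finset.sum_sub_distrib, hsum]
    simp only [Finset.sum_const, Finset.card_univ, Fintype.card_fin, nsmul_eq_mul]
    push_cast
    rw [hd0]
    ring
  have s2 : ∑ i, m0 i ^ 2 ≤ d0 ^ 2 := by
    rw [Fin.sum_univ_castSucc, m0l, Finset.sum_congr rfl fun i _ => by rw [m0c i]]
    have e : ∑ i : Fin 9, (y.2 (Fin.castLE (by omega) i) - 2 * M * A) ^ 2 =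
        ∑ i : Fin 9, y.2 (Fin.castLE (by omega) i) ^ 2 -
        4 * M * A * ∑ i : Fin 9, y.2 (Fin.castLE (by omega) i) + 9 * (2 * M * A) ^ 2 := by
      have : ∀ i : Fin 9, (y.2 (Fin.castLE (by omega) i) - 2 * M * A) ^ 2 =
        y.2 (Fin.castLE (by omega) i) ^ 2 - 4 * M * A * y.2 (Fin.castLE (by omega) i) +
          (2 * M * A) ^ 2 := by intro i; ring
      rw [Finset.sum_congr rfl fun i _ => this i, Finset.sum_add_distrib,
        Finset.sum_sub_distrib, ← Finset.mul_sum]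
      simp only [Finset.sum_const, Finset.card_univ, Fintype.card_fin, nsmul_eq_mul]
      push_cast
      ring
    rw [e, hsum, hd0]
    nlinarith
  have d0n : 0 ≤ d0 := by
    rcases hk.eq_or_lt with hk0 | hk0
    · have : A = 0 := by
        rw [hA]
        apply Finset.sum_eq_zero
        intro i _
        rw [la, ← hk0]
        split_ifs <;> ring
      rw [hd0, this]
      simpa using h1
    · have h5 := sq_sum_le_card_mul_sum_sq (s := (Finset.univ : Finset (Fin 9)))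
        (f := fun i => m0 i.castSucc)
      simp only [Finset.card_univ, Fintype.card_fin] at h5
      rw [Fin.sum_univ_castSucc, m0l] at s1 s2
      push_cast at h5
      have e1 : ∑ i : Fin 9, m0 i.castSucc = 3 * d0 - k := by linarith
      rw [e1] at h5
      have e2 : 10 * k * k ≤ 6 * d0 * k := by nlinarith
      have e3 := le_of_mul_le_mul_right e2 hk0
      linarith
  have m0n : ∀ i, 0 ≤ m0 i := by
    intro i
    by_contra hcon
    push Not at hcon
    have h5 := sq_sum_le_card_mul_sum_sq (s := (Finset.univ : Finset (Fin 10)).erase i)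
        (f := fun i => m0 i)
    rw [Finset.card_erase_of_mem (Finset.mem_univ i)] at h5
    simp only [Finset.card_univ, Fintype.card_fin] at h5
    have e1 := Finset.sum_erase_add Finset.univ m0 (Finset.mem_univ i)
    have e2 := Finset.sum_erase_add Finset.univ (fun i => m0 i ^ 2) (Finset.mem_univ i)
    have e3 : ∑ j ∈ Finset.univ.erase i, m0 j = 3 * d0 - m0 i := by linarith
    rw [e3] at h5
    have e4 : ∑ j ∈ Finset.univ.erase i, m0 j ^ 2 ≤ d0 ^ 2 - m0 i ^ 2 := by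
      linarith
    have e5 : (((10 - 1 : ℕ) : ℝ)) = 9 := by norm_num
    rw [e5] at h5
    nlinarith [mul_nonneg d0n (neg_nonneg.2 hcon.le), mul_pos_of_neg_of_neg hcon hcon]
  refine ⟨d0, m0, d0n, s1, s2, m0n, m0l, by rw [hd0]; ring, fun i => by rw [m0c i]; ring⟩

end Pool.Agent.H92.RP
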