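import Mathlib
import Pool.Agent.H13.Transfer
import Pool.Agent.H92.RP.Defs

set_option autoImplicit false

/-!
# RP-G2: from a curve over `k(t)` through moving points to a family of curves over `k[t]`

PROOF.  `F ∈ MvPolynomial (Fin 2) (RatFunc k)`, nonzero, degree `≤ d`, `F ∈ Iord (P i + t w i) (m i)`.
Multiply by a common denominator of the coefficients and divide by the largest power of `t`
dividing all coefficients (or: choose `N : ℤ` such that `t^N F` has coefficients without pole at
`t = 0` and not all vanishing there; multiply by a denominator prime to `t`).  So we may assume that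
`F` is the image of `F₀ ∈ MvPolynomial (Fin 2) k[t]` with `F₀ mod t ≠ 0`.
Let `A = MvPolynomial (Fin 2) k`, `Φ : MvPolynomial (Fin 2) k[t] → A[t]` the isomorphism
(`X j ↦ C (X j)`, `k[t] → A[t]` the coefficient map) and `G := Φ F₀`.
* `G.coeff 0 = F₀ mod t ≠ 0`; `G.coeff i` has total degree `≤ d` (its coefficients are coefficients
  of the coefficients of `F₀`).
* multiplicities: `Tr_i F₀ := F₀(X + P i + t w i) ∈ MvPolynomial (Fin 2) k[t]` has no monomials of
  degree `< m i` (its image over `k(t)` is `tr (P i + t w i) F`, `mem_Iord'`, `map_trG`, and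
  `k[t] → RatFunc k` is injective), so `Tr_i F₀ ∈ (X 0, X 1)^(m i)`
  (`mem_pow_idealOfVars_iff'`); translating back,
  `F₀ ∈ (X 0 - P i 0 - t w i 0, X 1 - P i 1 - t w i 1)^(m i)`; apply `Φ` (`Ideal.map_pow`).
-/

namespace Pool.Agent.H92.RP

open Pool.Agent.H13

variable {k : Type} [Field k]

/-- the moving points `P i + t w i` over `k(t)` -/
noncomputable def movP {n : ℕ} (P w : Fin n → Fin 2 → k) : Fin n → Fin 2 → RatFunc k :=
  fun i j => RatFunc.C (P i j) + RatFunc.C (w i j) * RatFunc.X

/-! auxiliary statements -/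

attribute [local instance] MvPolynomial.algebraMvPolynomial in
private theorem clear_surj (F : MvPolynomial (Fin 2) (RatFunc k)) :
    ∃ (F₁ : MvPolynomial (Fin 2) (Polynomial k)) (r : RatFunc k), r ≠ 0 ∧
      MvPolynomial.map (algebraMap (Polynomial k) (RatFunc k)) F₁ = MvPolynomial.C r * F := by
  classical
  have hloc := MvPolynomial.isLocalization (σ := Fin 2) (nonZeroDivisors (Polynomial k))
    (RatFunc k)
  obtain ⟨⟨F₁, s⟩, hs⟩ := IsLocalization.surj (R := MvPolynomial (Fin 2) (Polynomial k))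
    (Submonoid.map (MvPolynomial.C : Polynomial k →+* MvPolynomial (Fin 2) (Polynomial k))
      (nonZeroDivisors (Polynomial k))) F
  obtain ⟨a, ha, has⟩ := s.2
  refine ⟨F₁, algebraMap (Polynomial k) (RatFunc k) a, ?_, ?_⟩
  · have h0 : a ≠ 0 := nonZeroDivisors.ne_zero ha
    intro h
    exact h0 (RatFunc.algebraMap_injective k (by rw [h, map_zero]))
  · have h1 : (algebraMap (MvPolynomial (Fin 2) (Polynomial k)) (MvPolynomial (Fin 2) (RatFunc k)))
        = MvPolynomial.map (algebraMap (Polynomial k) (RatFunc k)) := rfl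
    simp only at hs
    rw [h1, ← has] at hs
    rw [← hs, MvPolynomial.map_C, mul_comm]

private theorem clear_min (F : MvPolynomial (Fin 2) (RatFunc k)) :
    ∀ (N : ℕ) (F₁ : MvPolynomial (Fin 2) (Polynomial k)) (s : Fin 2 →₀ ℕ),
      F₁.coeff s ≠ 0 → (F₁.coeff s).natDegree = N →
      (∃ r : RatFunc k, r ≠ 0 ∧
        MvPolynomial.map (algebraMap (Polynomial k) (RatFunc k)) F₁ = MvPolynomial.C r * F) →
      ∃ (F₀ : MvPolynomial (Fin 2) (Polynomial k)) (r : RatFunc k), r ≠ 0 ∧
        MvPolynomial.map (algebraMap (Polynomial k) (RatFunc k)) F₀ = MvPolynomial.C r * F ∧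
        ∃ s, (F₀.coeff s).coeff 0 ≠ 0 := by
  intro N
  induction N with
  | zero =>
    intro F₁ s hs hN ⟨r, hr, h⟩
    refine ⟨F₁, r, hr, h, s, ?_⟩
    intro h0
    apply hs
    rw [Polynomial.eq_C_of_natDegree_eq_zero hN, h0, map_zero]
  | succ N ih =>
    intro F₁ s hs hN ⟨r, hr, h⟩
    by_cases hex : ∃ s, (F₁.coeff s).coeff 0 ≠ 0
    · exact ⟨F₁, r, hr, h, hex⟩
    · push Not at hex
      have hdvd : MvPolynomial.C (Polynomial.X : Polynomial k) ∣ F₁ := by
        rw [MvPolynomial.C_dvd_iff_dvd_coeff]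
        intro i
        exact Polynomial.X_dvd_iff.2 (hex i)
      obtain ⟨F₂, rfl⟩ := hdvd
      rw [MvPolynomial.coeff_C_mul] at hs hN
      have hs2 : F₂.coeff s ≠ 0 := right_ne_zero_of_mul hs
      rw [Polynomial.natDegree_X_mul hs2] at hN
      refine ih F₂ s hs2 (by omega) ⟨RatFunc.X⁻¹ * r, mul_ne_zero
        (inv_ne_zero RatFunc.X_ne_zero) hr, ?_⟩
      rw [map_mul, MvPolynomial.map_C, RatFunc.algebraMap_X] at h
      have h2 : (MvPolynomial.C (RatFunc.X⁻¹ : RatFunc k) : MvPolynomial (Fin 2) (RatFunc k)) *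
          (MvPolynomial.C RatFunc.X *
            MvPolynomial.map (algebraMap (Polynomial k) (RatFunc k)) F₂) =
          MvPolynomial.C (RatFunc.X⁻¹ : RatFunc k) * (MvPolynomial.C r * F) := by rw [h]
      rw [← mul_assoc, ← mul_assoc, ← map_mul, ← map_mul,
        inv_mul_cancel₀ RatFunc.X_ne_zero, map_one, one_mul] at h2
      exact h2

/-- `k[t][X, Y] → k[X, Y][t]` -/
private noncomputable def swp (k : Type) [Field k] :
    MvPolynomial (Fin 2) (Polynomial k) →+* Polynomial (MvPolynomial (Fin 2) k) :=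
  MvPolynomial.eval₂Hom (Polynomial.mapRingHom MvPolynomial.C)
    (fun j => Polynomial.C (MvPolynomial.X j))

private theorem swp_C (a : Polynomial k) :
    swp k (MvPolynomial.C a) = a.map MvPolynomial.C := by
  simp [swp]

private theorem swp_X (j : Fin 2) :
    swp k (MvPolynomial.X j) = Polynomial.C (MvPolynomial.X j) := by
  simp [swp]

private theorem swp_coeff (F : MvPolynomial (Fin 2) (Polynomial k)) (i : ℕ) (s : Fin 2 →₀ ℕ) :
    ((swp k F).coeff i).coeff s = (F.coeff s).coeff i := by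
  induction F using MvPolynomial.induction_on' with
  | monomial u a =>
    have h1 : (MvPolynomial.monomial u a : MvPolynomial (Fin 2) (Polynomial k)) =
        MvPolynomial.C a * (MvPolynomial.X 0 ^ u 0 * MvPolynomial.X 1 ^ u 1) := by
      rw [MvPolynomial.monomial_eq, Finsupp.prod_fintype _ _ (by intro; simp), Fin.prod_univ_two]
    have h2 : (MvPolynomial.monomial u (1 : k) : MvPolynomial (Fin 2) k) =
        (MvPolynomial.X 0 ^ u 0 * MvPolynomial.X 1 ^ u 1) := by
      rw [MvPolynomial.monomial_eq, Finsupp.prod_fintype _ _ (by intro; simp), Fin.prod_univ_two]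
      simp
    have h3 : swp k (MvPolynomial.monomial u a) =
        a.map MvPolynomial.C * Polynomial.C (MvPolynomial.monomial u (1 : k)) := by
      rw [h1, h2, map_mul, map_mul, map_pow, map_pow, swp_C, swp_X, swp_X, map_mul, map_pow,
        map_pow]
    rw [h3, Polynomial.coeff_mul_C, Polynomial.coeff_map, MvPolynomial.coeff_C_mul,
      MvPolynomial.coeff_monomial, MvPolynomial.coeff_monomial]
    split_ifs <;> simp
  | add p q hp hq =>
    rw [map_add, Polynomial.coeff_add, MvPolynomial.coeff_add, hp, hq, MvPolynomial.coeff_add,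
      Polynomial.coeff_add]

private theorem trG_neg_trG {R : Type*} [CommRing R] (Q : Fin 2 → R)
    (f : MvPolynomial (Fin 2) R) : trG (-Q) (trG Q f) = f := by
  have : (trG (-Q)).comp (trG Q) = AlgHom.id R _ := by
    ext i
    simp [trG]
  exact DFunLike.congr_fun this f

theorem clear_denoms {n : ℕ} (P w : Fin n → Fin 2 → k) (d : ℕ) (m : Fin n → ℕ)
    (h : HasCurve (movP P w) d m) :
    ∃ G : Polynomial (MvPolynomial (Fin 2) k), G.coeff 0 ≠ 0 ∧ (∀ i, G.coeff i ∈ Vd k d) ∧
      ∀ i, G ∈ Imov (P i) (w i) (m i) := by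
  classical
  obtain ⟨F, hF0, hFd, hFm⟩ := h
  obtain ⟨F₁, r₁, hr₁, hF₁⟩ := clear_surj F
  have hF₁0 : F₁ ≠ 0 := by
    rintro rfl
    rw [map_zero] at hF₁
    have := mul_ne_zero ((map_ne_zero_iff _ (MvPolynomial.C_injective (Fin 2) (RatFunc k))).2 hr₁)
      hF0
    exact this hF₁.symm
  obtain ⟨s₁, hs₁⟩ := MvPolynomial.ne_zero_iff.1 hF₁0
  obtain ⟨F₀, r, hr, hF₀, s₀, hs₀⟩ := clear_min F _ F₁ s₁ hs₁ rfl ⟨r₁, hr₁, hF₁⟩
  have hcoef : ∀ s, algebraMap (Polynomial k) (RatFunc k) (F₀.coeff s) = r * F.coeff s := by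
    intro s
    have := congrArg (MvPolynomial.coeff s) hF₀
    rwa [MvPolynomial.coeff_map, MvPolynomial.coeff_C_mul] at this
  refine ⟨swp k F₀, ?_, ?_, ?_⟩
  · intro h0
    apply hs₀
    rw [← swp_coeff, h0, MvPolynomial.coeff_zero]
  · intro i
    rw [mem_Vd]
    rw [MvPolynomial.totalDegree, Finset.sup_le_iff]
    intro s hs
    have h1 : F.coeff s ≠ 0 := by
      intro h0
      rw [MvPolynomial.mem_support_iff, swp_coeff] at hs
      apply hs
      have h2 : F₀.coeff s = 0 := by
        apply RatFunc.algebraMap_injective k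
        rw [hcoef, h0, mul_zero, map_zero]
      rw [h2, Polynomial.coeff_zero]
    exact (MvPolynomial.le_totalDegree (MvPolynomial.mem_support_iff.2 h1)).trans hFd
  · intro i
    set Q : Fin 2 → Polynomial k := fun j => Polynomial.C (P i j) +
      Polynomial.C (w i j) * Polynomial.X with hQ
    have hQ2 : (fun j => algebraMap (Polynomial k) (RatFunc k) (Q j)) = movP P w i := by
      funext j
      simp only [hQ, movP, map_add, map_mul, RatFunc.algebraMap_C, RatFunc.algebraMap_X]
    have h1 : trG Q F₀ ∈ MvPolynomial.idealOfVars (Fin 2) (Polynomial k) ^ (m i) := by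
      rw [MvPolynomial.mem_pow_idealOfVars_iff']
      intro s hs
      apply RatFunc.algebraMap_injective k
      rw [map_zero, ← MvPolynomial.coeff_map, map_trG, hQ2, hF₀, map_mul, ← tr_eq_trG, tr_C,
        MvPolynomial.coeff_C_mul, mem_Iord'.1 (hFm i) s hs, mul_zero]
    set θ : MvPolynomial (Fin 2) (Polynomial k) →+* Polynomial (MvPolynomial (Fin 2) k) :=
      (swp k).comp (trG (-Q)).toRingHom with hθ
    have h2 : θ (trG Q F₀) = swp k F₀ := by
      change swp k (trG (-Q) (trG Q F₀)) = _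
      rw [trG_neg_trG]
    rw [← h2]
    have h3 := Ideal.mem_map_of_mem θ h1
    rw [Ideal.map_pow] at h3
    refine Ideal.pow_right_mono ?_ (m i) h3
    rw [Ideal.map_span, Ideal.span_le]
    rintro _ ⟨_, ⟨j, rfl⟩, rfl⟩
    have h4 : θ (MvPolynomial.X j) = Polynomial.C (MvPolynomial.X j -
        MvPolynomial.C (P i j)) - Polynomial.C (MvPolynomial.C (w i j)) * Polynomial.X := by
      change swp k (trG (-Q) (MvPolynomial.X j)) = _
      rw [trG, MvPolynomial.aeval_X, map_add, swp_X, swp_C]
      simp only [hQ, Pi.neg_apply, Polynomial.map_neg, Polynomial.map_add, Polynomial.map_mul,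
        Polynomial.map_C, Polynomial.map_X, map_sub]
      ring
    rw [SetLike.mem_coe, h4]
    apply Ideal.subset_span
    fin_cases j
    · exact Or.inl rfl
    · exact Or.inr rfl

/-- the special fibre -/
theorem coeff_zero_mem (P w : Fin 2 → k) (m : ℕ) (G : Polynomial (MvPolynomial (Fin 2) k))
    (h : G ∈ Imov P w m) : G.coeff 0 ∈ Iord P m := by
  rw [mem_Iord]
  set θ : Polynomial (MvPolynomial (Fin 2) k) →+* MvPolynomial (Fin 2) k :=
    (tr P).toRingHom.comp Polynomial.constantCoeff with hθ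
  have h1 : tr P (G.coeff 0) = θ G := rfl
  rw [h1]
  have h3 := Ideal.mem_map_of_mem θ h
  rw [Imov, Ideal.map_pow] at h3
  refine Ideal.pow_right_mono ?_ m h3
  rw [Ideal.map_span, Ideal.span_le]
  rintro _ ⟨g, hg, rfl⟩
  have h4 : ∀ j : Fin 2, θ (Polynomial.C (MvPolynomial.X j - MvPolynomial.C (P j)) -
      Polynomial.C (MvPolynomial.C (w j)) * Polynomial.X) = MvPolynomial.X j := by
    intro j
    change tr P (Polynomial.constantCoeff _) = _
    rw [map_sub, map_mul]
    simp
  rcases hg with rfl | rfl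
  · rw [SetLike.mem_coe, h4]
    exact Ideal.subset_span ⟨0, rfl⟩
  · rw [SetLike.mem_coe, h4]
    exact Ideal.subset_span ⟨1, rfl⟩

end Pool.Agent.H92.RP
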