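import Mathlib
import Pool.Agent.H92.RP.VData

/-!
# RP-E3: dimensions of spaces of curves with multiple points at the special points

`VV v e μ`: polynomials of degree `≤ 3e` with multiplicity `≥ μ i` at `PP v i` (`i < 9`).
`μA e = (e, …, e, e - 1)`, `μB e = (e, …, e)`.

PROOFS.  `t i = tt (v i)`, see `tt_facts` and `Nodal.lean`.
* `dim_lower`: the linear map `Vd k (3e) → ∏_i (triF (μ i) → k)`, `G ↦ (jet (PP i) (μ i) G)_i`
  has kernel `VV` (`jet_eq_zero_iff`); rank-nullity, `finrank_Vd`,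
  `finrank (triF N → k) = tri N`.
* For `μA e` (`e ≥ 1`) the lower bound is `tri(3e+1) - 8 tri(e) - tri(e-1) = e + 1`
  (`two_mul_tri`), for `μB e` we only need the upper bound.
* `rho_VV`: for `G ∈ VV (μA e)` (`e ≥ 1`), `rho G = D * (α X + β)`,
  `D = ∏_{i<8} (X - t i)^e (X - t 8)^(e-1)` (degree `9e - 1`; `prod_dvd`, `rho_natDegree`), and
  `rho_node` is a nontrivial linear condition on `(α, β)`: `D(1)(α + β) = D(-1)(β - α)`,
  `D(±1) ≠ 0`.  So `rho (VV)` has dimension `≤ 1`.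
* `VV_ker`: if `rho G = 0` then `G = f₀ G'` (`rho_eq_zero`) with `G' ∈ VV (μA (e-1))`
  (`f₀_quot`).  So `dim VV(μA e) ≤ dim VV(μA (e-1)) + 1`; `VV(μA 0)` = constants, dimension `1`.
  Hence `finrank_VA : finrank (VV (μA e)) ≤ e + 1`, and with `dim_lower` equality.
* `exists_U`: for `e ≥ 1` there is `U ∈ VV (μA e)` with `rho U ≠ 0`: otherwise
  `VV (μA e) = f₀ * VV (μA (e-1))` would have dimension `≤ e`.
-/

set_option autoImplicit false

namespace Pool.Agent.H92.RP

open Pool.Agent.H13 Polynomial Module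

variable {k : Type} [Field k]

/-- curves of degree `≤ 3e` with multiplicity `≥ μ i` at the special points -/
noncomputable def VV (v : Fin 10 → k) (e : ℕ) (μ : Fin 9 → ℕ) :
    Submodule k (MvPolynomial (Fin 2) k) :=
  Vd k (3 * e) ⊓ ⨅ i : Fin 9, (Iord (PP v i.castSucc) (μ i)).restrictScalars k

def μA (e : ℕ) (i : Fin 9) : ℕ := if i = 8 then e - 1 else e

def μB (e : ℕ) (_ : Fin 9) : ℕ := e

theorem mem_VV (v : Fin 10 → k) (e : ℕ) (μ : Fin 9 → ℕ) (G : MvPolynomial (Fin 2) k) :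
    G ∈ VV v e μ ↔ G ∈ Vd k (3 * e) ∧ ∀ i : Fin 9, G ∈ Iord (PP v i.castSucc) (μ i) := by
  simp [VV, Submodule.mem_iInf]

theorem VV_le (v : Fin 10 → k) (e : ℕ) (μ : Fin 9 → ℕ) : VV v e μ ≤ Vd k (3 * e) := inf_le_left

instance finite_VV (v : Fin 10 → k) (e : ℕ) (μ : Fin 9 → ℕ) : FiniteDimensional k (VV v e μ) :=
  Submodule.finiteDimensional_of_le (VV_le v e μ)

theorem dim_lower (v : Fin 10 → k) (e : ℕ) (μ : Fin 9 → ℕ) :
    tri (3 * e + 1) ≤ finrank k (VV v e μ) + ∑ i, tri (μ i) := by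
  let L : Vd k (3 * e) →ₗ[k] (∀ i : Fin 9, triF (μ i) → k) :=
    LinearMap.pi fun i => (jet (PP v i.castSucc) (μ i)).comp (Vd k (3 * e)).subtype
  have h1 := LinearMap.finrank_range_add_finrank_ker L
  have h2 : finrank k (LinearMap.range L) ≤ ∑ i, tri (μ i) := by
    refine (Submodule.finrank_le _).trans ?_
    rw [Module.finrank_pi_fintype]
    refine Finset.sum_le_sum fun i _ => ?_
    rw [Module.finrank_fintype_fun_eq_card, Fintype.card_coe]
    exact le_rfl
  have h3 : LinearMap.ker L = (VV v e μ).comap (Vd k (3 * e)).subtype := by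
    ext G
    rw [LinearMap.mem_ker, Submodule.mem_comap, mem_VV]
    constructor
    · intro h
      refine ⟨G.2, fun i => ?_⟩
      rw [← jet_eq_zero_iff]
      exact congrFun h i
    · rintro ⟨-, h⟩
      funext i
      have := h i
      rw [← jet_eq_zero_iff] at this
      exact this
  have h4 : finrank k (LinearMap.ker L) = finrank k (VV v e μ) := by
    rw [h3]
    exact (Submodule.comapSubtypeEquivOfLe (VV_le v e μ)).finrank_eq
  rw [finrank_Vd, h4] at h1
  omega

theorem μA_succ (e : ℕ) (i : Fin 9) : μA (e + 1) i - 1 = μA e i := by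
  unfold μA
  split_ifs <;> omega

theorem VV_ker [CharZero k] {M : ℕ} {v : Fin 10 → k} (V : VData M v) (e : ℕ)
    (μ μ' : Fin 9 → ℕ) (hμ : ∀ i, μ i - 1 = μ' i) (G : MvPolynomial (Fin 2) k)
    (hG : G ∈ VV v (e + 1) μ) (h0 : rho k G = 0) :
    ∃ Q ∈ VV v e μ', f₀ k * Q = G := by
  obtain ⟨F1, F2, F3, -, -, -⟩ := tt_facts V
  obtain ⟨Q, hQ⟩ := rho_eq_zero G h0
  obtain ⟨q1, q2⟩ := f₀_quot Q
  rw [mem_VV, hQ] at hG
  refine ⟨Q, ?_, hQ.symm⟩
  rw [mem_VV]
  refine ⟨q1 _ ?_, fun i => ?_⟩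
  · have : 3 * e + 3 = 3 * (e + 1) := by ring
    rw [this]
    exact hG.1
  · rw [← hμ i]
    refine q2 _ _ (F3 _) ?_ (hG.2 i)
    intro h
    have h' : (tt (v i.castSucc) - 1) * (tt (v i.castSucc) + 1) = 0 := by linear_combination h
    rcases mul_eq_zero.1 h' with h | h
    · exact F1 _ (sub_eq_zero.1 h)
    · exact F2 _ (eq_neg_of_add_eq_zero_left h)

/-- the linear map `G ↦ f₀ G` -/
noncomputable def mulf (k : Type) [Field k] : MvPolynomial (Fin 2) k →ₗ[k] MvPolynomial (Fin 2) k :=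
  LinearMap.mulLeft k (f₀ k)

theorem VV_ker_le [CharZero k] {M : ℕ} {v : Fin 10 → k} (V : VData M v) (e : ℕ)
    (μ μ' : Fin 9 → ℕ) (hμ : ∀ i, μ i - 1 = μ' i) (W : Submodule k (MvPolynomial (Fin 2) k))
    (hW : W ≤ VV v (e + 1) μ) (h0 : ∀ G ∈ W, rho k G = 0) :
    finrank k W ≤ finrank k (VV v e μ') := by
  have h1 : W ≤ (VV v e μ').map (mulf k) := by
    intro G hG
    obtain ⟨Q, hQ, he⟩ := VV_ker V e μ μ' hμ G (hW hG) (h0 G hG)
    exact ⟨Q, hQ, he⟩
  exact (Submodule.finrank_mono h1).trans (Submodule.finrank_map_le _ _)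

theorem finrank_le_ker_add (W : Submodule k (MvPolynomial (Fin 2) k)) [FiniteDimensional k W]
    (u : k[X]) (h : ∀ G ∈ W, ∃ c : k, c • u = rho k G) :
    finrank k W ≤ finrank k (W ⊓ LinearMap.ker (rho k).toLinearMap : Submodule k _) + 1 := by
  let R : W →ₗ[k] k[X] := (rho k).toLinearMap.domRestrict W
  have h1 := LinearMap.finrank_range_add_finrank_ker R
  have h2 : finrank k (LinearMap.range R) ≤ 1 := by
    have h3 : LinearMap.range R ≤ Submodule.span k {u} := by
      rintro _ ⟨G, rfl⟩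
      obtain ⟨c, hc⟩ := h G.1 G.2
      rw [Submodule.mem_span_singleton]
      exact ⟨c, hc⟩
    refine (Submodule.finrank_mono h3).trans ?_
    refine (finrank_span_le_card _).trans ?_
    simp
  have h4 : finrank k (LinearMap.ker R) =
      finrank k (W ⊓ LinearMap.ker (rho k).toLinearMap : Submodule k _) := by
    have h5 : (LinearMap.ker R).map W.subtype = W ⊓ LinearMap.ker (rho k).toLinearMap := by
      ext G
      constructor
      · rintro ⟨G', hG', rfl⟩
        exact ⟨G'.2, hG'⟩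
      · rintro ⟨h6, h7⟩
        exact ⟨⟨G, h6⟩, h7, rfl⟩
    rw [← h5, Submodule.finrank_map_subtype_eq]
  omega

theorem sum_μA (e : ℕ) (he : 1 ≤ e) : ∑ i, μA e i = 9 * e - 1 := by
  simp only [μA, Fin.sum_univ_succ, Fin.sum_univ_zero]
  simp only [Fin.reduceSucc, Fin.ext_iff]
  norm_num [Fin.ext_iff]
  omega

theorem rho_VV [CharZero k] {M : ℕ} {v : Fin 10 → k} (V : VData M v) (e : ℕ) (he : 1 ≤ e) :
    ∃ u : k[X], ∀ G ∈ VV v e (μA e), ∃ c : k, c • u = rho k G := by
  obtain ⟨F1, F2, F3, -, -, F6⟩ := tt_facts V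
  have hinj : Function.Injective fun i : Fin 9 => tt (v i.castSucc) := fun i j h => by
    have := F6 h
    exact Fin.castSucc_injective _ this
  obtain ⟨D, hD⟩ : ∃ D : k[X], D = ∏ i : Fin 9, (X - C (tt (v i.castSucc))) ^ μA e i := ⟨_, rfl⟩
  have hDm : D.Monic := by rw [hD]; exact monic_prod _ _
  have hDd : D.natDegree = 9 * e - 1 := by rw [hD, Pool.Agent.H13.natDegree_prod, sum_μA e he]
  obtain ⟨a, ha⟩ : ∃ a, D.eval 1 = a := ⟨_, rfl⟩
  obtain ⟨b, hb⟩ : ∃ b, D.eval (-1) = b := ⟨_, rfl⟩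
  have ha0 : a ≠ 0 := by
    rw [← ha, hD, eval_prod]
    refine Finset.prod_ne_zero_iff.2 fun i _ => ?_
    rw [eval_pow, eval_sub, eval_X, eval_C]
    exact pow_ne_zero _ (sub_ne_zero.2 (F1 _).symm)
  refine ⟨D * (C (b - a) * X + C (a + b)), fun G hG => ?_⟩
  rw [mem_VV] at hG
  have hdvd : D ∣ rho k G := by
    rw [hD]
    exact prod_dvd _ hinj _ _ fun i => rho_dvd _ _ _ (hG.2 i)
  obtain ⟨H, hH⟩ := hdvd
  have hHd : H.natDegree ≤ 1 := by
    by_cases h0 : H = 0
    · rw [h0]; simp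
    · have h1 := rho_natDegree _ G hG.1
      rw [hH, hDm.natDegree_mul' h0, hDd] at h1
      omega
  obtain ⟨α, β, hαβ⟩ := exists_eq_X_add_C_of_natDegree_le_one hHd
  have hnode := rho_node G
  rw [hH, hαβ] at hnode
  simp only [eval_mul, eval_add, eval_C, eval_X, ha, hb] at hnode
  have hlin : α * (a + b) = β * (b - a) := by linear_combination hnode
  obtain ⟨c, hc1, hc2⟩ : ∃ c : k, c * (b - a) = α ∧ c * (a + b) = β := by
    by_cases hab : a + b = 0
    · have hb' : b = -a := by linear_combination hab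
      have h2a : (2 : k) * a ≠ 0 := mul_ne_zero two_ne_zero ha0
      have hβ : β = 0 := by
        rw [hab, mul_zero, hb'] at hlin
        have h3 : (2 * a) * β = 0 := by linear_combination hlin
        exact (mul_eq_zero.1 h3).resolve_left h2a
      have hba : b - a ≠ 0 := by
        rw [hb']
        intro h
        apply h2a
        linear_combination -h
      refine ⟨α / (b - a), div_mul_cancel₀ _ hba, ?_⟩
      rw [hab, mul_zero, hβ]
    · refine ⟨β / (a + b), ?_, div_mul_cancel₀ _ hab⟩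
      rw [div_mul_eq_mul_div, ← hlin, mul_div_cancel_right₀ _ hab]
  refine ⟨c, ?_⟩
  rw [hH, hαβ, smul_eq_C_mul, ← hc1, ← hc2, C_mul, C_mul]
  ring

theorem finrank_VA [CharZero k] {M : ℕ} {v : Fin 10 → k} (V : VData M v) (e : ℕ) :
    finrank k (VV v e (μA e)) = e + 1 := by
  have hup : ∀ e, finrank k (VV v e (μA e)) ≤ e + 1 := by
    intro e
    induction e with
    | zero =>
      refine (Submodule.finrank_mono (VV_le v 0 _)).trans ?_
      rw [finrank_Vd]
      have := two_mul_tri (3 * 0 + 1)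
      omega
    | succ e ih =>
      obtain ⟨u, hu⟩ := rho_VV V (e + 1) (by omega)
      have h1 := finrank_le_ker_add (VV v (e + 1) (μA (e + 1))) u hu
      have h2 := VV_ker_le V e (μA (e + 1)) (μA e) (μA_succ e)
        (VV v (e + 1) (μA (e + 1)) ⊓ LinearMap.ker (rho k).toLinearMap) inf_le_left
        (fun G hG => hG.2)
      omega
  refine le_antisymm (hup e) ?_
  have h1 := dim_lower v e (μA e)
  rcases Nat.eq_zero_or_pos e with rfl | he
  · have h2 : ∑ i, tri (μA 0 i) = 0 := by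
      refine Finset.sum_eq_zero fun i _ => ?_
      have h3 : μA 0 i = 0 := by unfold μA; split_ifs <;> rfl
      rw [h3]
      have := two_mul_tri 0
      omega
    have h3 := two_mul_tri (3 * 0 + 1)
    omega
  · obtain ⟨e, rfl⟩ : ∃ m, e = m + 1 := ⟨e - 1, by omega⟩
    have h2 : ∑ i, tri (μA (e + 1) i) = 8 * tri (e + 1) + tri e := by
      simp only [μA, Fin.sum_univ_succ, Fin.sum_univ_zero]
      norm_num [Fin.ext_iff]
      ring
    have h3 := two_mul_tri (3 * (e + 1) + 1)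
    have h4 := two_mul_tri (e + 1)
    have h5 := two_mul_tri e
    rw [h2] at h1
    nlinarith

theorem exists_U [CharZero k] {M : ℕ} {v : Fin 10 → k} (V : VData M v) (e : ℕ) (he : 1 ≤ e) :
    ∃ U ∈ VV v e (μA e), rho k U ≠ 0 := by
  obtain ⟨e, rfl⟩ : ∃ m, e = m + 1 := ⟨e - 1, by omega⟩
  by_contra hcon
  push Not at hcon
  have h2 := VV_ker_le V e (μA (e + 1)) (μA e) (μA_succ e) (VV v (e + 1) (μA (e + 1))) le_rfl hcon
  rw [finrank_VA V, finrank_VA V] at h2
  omega

end Pool.Agent.H92.RP
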