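import Mathlib
import Pool.Agent.H92.RP.PenDim

set_option autoImplicit false

/-!
# RP-E3b: curves with multiplicity `e` at all nine points, `e < M`

PROOF (see also `PenDim.lean`).
* `finrank_VB`: for `e < M`, `finrank (VV (μB e)) ≤ 1`: for `1 ≤ e < M` and `G ∈ VV (μB e)`,
  `rho G ≠ 0` would by `rel` (`∑ μ = 9 e`) give `(∏_{i<9} v i)^e = 1`, against `rel2`
  (`μ = (e, …, e, 0)`: `M ∣ e`).  So `G = f₀ G'` with `G' ∈ VV (μB (e-1))`; induction, `e = 0`:
  constants.
-/

namespace Pool.Agent.H92.RP

open Pool.Agent.H13 Polynomial Module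

variable {k : Type} [Field k]

theorem finrank_VB [CharZero k] {M : ℕ} {v : Fin 10 → k} (V : VData M v) (e : ℕ) (he : e < M) :
    finrank k (VV v e (μB e)) ≤ 1 := by
  obtain ⟨f1, f2, f3, f4, f5, f6⟩ := tt_facts V
  induction e with
  | zero =>
    -- constants
    have hle : VV v 0 (μB 0) ≤ Submodule.span k {(1 : MvPolynomial (Fin 2) k)} := by
      intro G hG
      rw [mem_VV, mem_Vd, mul_zero, Nat.le_zero, MvPolynomial.totalDegree_eq_zero_iff_eq_C] at hG
      rw [Submodule.mem_span_singleton]
      refine ⟨G.coeff 0, ?_⟩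
      rw [MvPolynomial.smul_eq_C_mul, mul_one]
      exact hG.1.symm
    refine (Submodule.finrank_mono hle).trans ?_
    exact (finrank_span_le_card _).trans (by simp)
  | succ e ih =>
    have hker : ∀ G ∈ VV v (e + 1) (μB (e + 1)), rho k G = 0 := by
      intro G hG
      by_contra h0
      rw [mem_VV] at hG
      have ht_inj : Function.Injective fun i : Fin 9 => tt (v i.castSucc) :=
        fun i j h => Fin.castSucc_injective _ (f6 h)
      obtain ⟨-, r2⟩ := rel (fun i : Fin 9 => tt (v i.castSucc)) ht_inj (fun i => f1 _)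
        (fun i => f2 _) (3 * (e + 1)) (μB (e + 1)) G hG.1 hG.2 h0
      obtain ⟨r3, -⟩ := r2 (by simp [μB]; ring)
      have h9 : ∀ i : Fin 9, ¬ i.castSucc = (9 : Fin 10) := by
        intro i h
        have h1 := congrArg Fin.val h
        have h2 := i.isLt
        simp at h1
        omega
      obtain ⟨-, c, hc⟩ := V.rel2 (fun j => if j = 9 then 0 else e + 1) (by
        rw [Fin.prod_univ_castSucc]
        have e1 : (Fin.last 9 : Fin 10) = 9 := rfl
        rw [e1, if_pos rfl, pow_zero, mul_one, ← r3]
        exact Finset.prod_congr rfl (fun i _ => by rw [if_neg (h9 i), f4]; rfl))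
      have h1 := hc 0
      rw [if_neg (h9 0)] at h1
      rcases Nat.eq_zero_or_pos c with h2 | h2
      · rw [h2, mul_zero] at h1
        omega
      · have h3 : M * 1 ≤ M * c := Nat.mul_le_mul_left M h2
        omega
    -- division by the cubic
    have hle : VV v (e + 1) (μB (e + 1)) ≤
        (VV v e (μB e)).map (LinearMap.mulLeft k (f₀ k)) := by
      intro G hG
      obtain ⟨Q, rfl⟩ := rho_eq_zero G (hker G hG)
      rw [mem_VV] at hG
      obtain ⟨q1, q2⟩ := f₀_quot Q
      refine ⟨Q, ?_, rfl⟩
      rw [SetLike.mem_coe, mem_VV]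
      refine ⟨q1 (3 * e) ?_, fun i => ?_⟩
      · have := hG.1
        rwa [mul_add, mul_one] at this
      · have h1 := q2 (tt (v i.castSucc)) (e + 1) (f3 _) (by
          intro h
          have h2 : (tt (v i.castSucc) - 1) * (tt (v i.castSucc) + 1) = 0 := by
            linear_combination h
          rcases mul_eq_zero.mp h2 with h | h
          · exact f1 _ (sub_eq_zero.mp h)
          · exact f2 _ (eq_neg_of_add_eq_zero_left h)) (hG.2 i)
        exact h1
    have hfin : Module.Finite k (VV v e (μB e)) := by
      have : VV v e (μB e) ≤ Vd k (3 * e) := inf_le_left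
      exact Submodule.finiteDimensional_of_le this
    refine (Submodule.finrank_mono hle).trans ?_
    refine (Submodule.finrank_map_le _ _).trans ?_
    exact ih (by omega)

end Pool.Agent.H92.RP
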