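import Mathlib
import Pool.Agent.H92.RP.PenDimB

set_option autoImplicit false

/-!
# RP-E4: the second generator of the Halphen pencil

`c` of degree `≤ 3M` with multiplicity `≥ M` at the nine points and `rho c ≠ 0`.

PROOF.  `U` from `exists_U` with `e = M`.  As in `rel`/`rho_VV`, `rho U = D (α X + β)`, with
`D = ∏_{i<8} (X - t i)^M (X - t 8)^(M-1)`.  The node condition `D(1)(α+β) = D(-1)(β-α)` and
`D(1)/D(-1) = ∏_{i<8} v_i^M v_8^(M-1) = 1/v_8` (as `(1-t)/(-1-t) = (t-1)/(t+1) = v`, `rel1`) give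
`(α + β) = v_8 (β - α)`, so `α (1 + v_8) = β (v_8 - 1)`; `α = 0` would give `β = 0`, `rho U = 0`;
so `α ≠ 0` and `-β/α = (1 + v_8)/(1 - v_8) = t 8`: `rho U = α ∏_{i<9} (X - t i)^M`.  In
particular `(X - t 8)^M ∣ rho U`.
Case `M = 1`: `U` vanishes at `PP 8` since `(X - t 8) ∣ rho U` (`rho_eval`, `mem_Iord_one`); take
`c = U`.
Case `M ≥ 2`: by `rho_lead_iff` (with `N = M - 1`) the leading polynomial
`A := lfp (M-1) (PP 8) U` vanishes at the slope `z₀ = (3 t² - 1)/(2t)`, `t = t 8`, i.e. it is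
divisible by `lfp 1 (PP 8) f₀ = f_X + f_Y Z` (`lfp_one`, whose only root is `z₀`: `f₀_pderiv0/1`):
`A = (f_X + f_Y Z) A'` with `deg A' ≤ M - 2` (`deg A ≤ M - 1`, `f_Y ≠ 0`).
The linear map `lfp (M-2) (PP 8) : VV (μA (M-1)) → {polynomials of degree ≤ M-2}` has kernel
`⊆ VV (μB (M-1))` (`lfp_eq_zero_iff`), of dimension `≤ 1` (`finrank_VB`, `M - 1 < M`), and
`dim VV (μA (M-1)) = M` (`finrank_VA`), so its rank is `≥ M - 1 = dim` of the target: surjective.
Take `U' ∈ VV (μA (M-1))` with `lfp (M-2) (PP 8) U' = A'` and `c := U - f₀ U'`.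
Degree `≤ 3M`; at `PP i`, `i < 8`: `f₀ U'` has multiplicity `≥ 1 + (M - 1)`; at `PP 8`: both
`U`, `f₀ U'` have multiplicity `≥ M - 1` and the same leading polynomial (`lfp_mul`), so
`c ∈ Iord M` (`lfp_eq_zero_iff`).  `rho c = rho U`.
-/

namespace Pool.Agent.H92.RP

open Pool.Agent.H13 Polynomial

variable {k : Type} [Field k]

theorem prod_muA {A : Type*} [CommMonoid A] (f : Fin 9 → A) (M : ℕ) (hM : 0 < M) :
    (∏ i, f i ^ μA M i) * f 8 = ∏ i, f i ^ M := by
  have h : ∀ i : Fin 9, f i ^ M = f i ^ μA M i * (if i = 8 then f i else 1) := by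
    intro i
    unfold μA
    split_ifs with h
    · rw [← pow_succ]
      congr 1
      omega
    · rw [mul_one]
  rw [Finset.prod_congr rfl fun i _ => h i, Finset.prod_mul_distrib]
  congr 1
  simp

theorem muA_eight (M : ℕ) : μA M 8 = M - 1 := by
  unfold μA
  rw [if_pos rfl]

theorem VV_eight {v : Fin 10 → k} {e : ℕ} {μ : Fin 9 → ℕ} {G : MvPolynomial (Fin 2) k}
    (h : G ∈ VV v e μ) : G ∈ Iord (PP v 8) (μ 8) := by
  have h1 := ((mem_VV _ _ _ _).1 h).2 8
  have h8 : ((8 : Fin 9).castSucc : Fin 10) = 8 := rfl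
  rwa [h8] at h1

theorem sum_muA (M : ℕ) (hM : 0 < M) : ∑ i, μA M i + 1 = 9 * M := by
  unfold μA
  simp [Fin.sum_univ_succ]
  omega

theorem rho_U [CharZero k] {M : ℕ} {v : Fin 10 → k} (V : VData M v)
    (U : MvPolynomial (Fin 2) k) (hU : U ∈ VV v M (μA M)) (h0 : rho k U ≠ 0) :
    ∃ κ : k, κ ≠ 0 ∧ rho k U = C κ * ∏ i : Fin 9, (X - C (tt (v i.castSucc))) ^ M := by
  obtain ⟨t1, tm1, t0, tv, tadd, tinj⟩ := tt_facts V
  rw [mem_VV] at hU
  obtain ⟨hUd, hUi⟩ := hU
  let t : Fin 9 → k := fun i => tt (v i.castSucc)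
  have htinj : Function.Injective t := fun i j h => Fin.castSucc_injective _ (tinj h)
  have hdvd : ∏ i, (X - C (t i)) ^ μA M i ∣ rho k U :=
    prod_dvd t htinj (μA M) _ fun i => rho_dvd (t i) _ U (hUi i)
  obtain ⟨E, hE⟩ := hdvd
  have hE0 : E ≠ 0 := by
    rintro rfl
    exact h0 (by rw [hE, mul_zero])
  have hmon := monic_prod t (μA M)
  have hEd : E.natDegree ≤ 1 := by
    have h1 := rho_natDegree (3 * M) U hUd
    rw [hE, hmon.natDegree_mul' hE0, Pool.Agent.H13.natDegree_prod] at h1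
    have h2 := sum_muA M V.M_pos
    omega
  have hEe := eq_X_add_C_of_natDegree_le_one hEd
  set α := E.coeff 1 with hα
  set β := E.coeff 0 with hβ
  -- the node
  have hnode := rho_node U
  rw [hE, eval_mul, eval_mul, eval_prod, eval_prod] at hnode
  simp only [eval_pow, eval_sub, eval_X, eval_C] at hnode
  have hv : ∀ i, (1 - t i) = (-1 - t i) * v i.castSucc := by
    intro i
    have h1 := tv i.castSucc
    have h2 : t i + 1 ≠ 0 := fun h => tm1 i.castSucc (eq_neg_of_add_eq_zero_left h)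
    change (t i - 1) / (t i + 1) = _ at h1
    rw [div_eq_iff h2] at h1
    linear_combination -h1
  have hD : ∏ i, (1 - t i) ^ μA M i = (∏ i, (-1 - t i) ^ μA M i) *
      ∏ i : Fin 9, v i.castSucc ^ μA M i := by
    rw [← Finset.prod_mul_distrib]
    refine Finset.prod_congr rfl fun i _ => ?_
    rw [hv i, mul_pow]
  have hW := prod_muA (fun i : Fin 9 => v i.castSucc) M V.M_pos
  rw [Finset.prod_pow, V.rel1] at hW
  set W := ∏ i : Fin 9, v i.castSucc ^ μA M i with hWdef
  have h8 : ((8 : Fin 9).castSucc : Fin 10) = 8 := rfl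
  simp only [h8] at hW
  rw [hD] at hnode
  have hDne : ∏ i, (-1 - t i) ^ μA M i ≠ 0 := by
    refine Finset.prod_ne_zero_iff.2 fun i _ => pow_ne_zero _ ?_
    intro h
    exact tm1 i.castSucc (by
      change t i = -1
      linear_combination -h)
  have hWE : W * E.eval 1 = E.eval (-1) := by
    apply mul_left_cancel₀ hDne
    rw [← mul_assoc]
    exact hnode
  have hE1 : E.eval 1 = v 8 * E.eval (-1) := by
    rw [← hWE]
    linear_combination (-E.eval 1) * hW
  rw [hEe] at hE1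
  simp only [eval_add, eval_mul, eval_C, eval_X] at hE1
  have h1v : 1 - v 8 ≠ 0 := sub_ne_zero.2 (Ne.symm (V.ne_one 8))
  have hβ' : β = -α * t 8 := by
    change β = -α * ((1 + v 8) / (1 - v 8))
    field_simp
    linear_combination hE1
  have hα0 : α ≠ 0 := by
    intro h
    apply hE0
    rw [hEe, hβ', h]
    simp
  refine ⟨α, hα0, ?_⟩
  have hEf : E = C α * (X - C (t 8)) := by
    rw [hEe, hβ']
    simp only [map_mul, map_neg]
    ring
  have hP := prod_muA (fun i : Fin 9 => (X - C (t i) : k[X])) M V.M_pos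
  rw [hE, hEf, ← hP]
  ring

theorem lfp_f₀_pt (t : k) : lfp 1 (pt t) (f₀ k) =
    C (2 * (t ^ 3 - t)) * X + C (- ((t ^ 2 - 1) * (3 * t ^ 2 - 1))) := by
  have h := eq_X_add_C_of_natDegree_le_one (lfp_natDegree 1 (pt t) (f₀ k))
  have he : ∀ z, (lfp 1 (pt t) (f₀ k)).coeff 1 * z + (lfp 1 (pt t) (f₀ k)).coeff 0 =
      - ((t ^ 2 - 1) * (3 * t ^ 2 - 1)) + 2 * (t ^ 3 - t) * z := by
    intro z
    have h1 := lfp_one (pt t) (f₀ k) z
    rw [f₀_pderiv0, f₀_pderiv1] at h1
    rw [← h1]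
    conv_rhs => rw [h]
    simp
  have h0 := he 0
  have h1 := he 1
  rw [mul_zero, zero_add, mul_zero, add_zero] at h0
  rw [h0] at h1
  rw [h, h0]
  congr 3
  linear_combination h1

theorem f₀_mem_Iord (t : k) : f₀ k ∈ Iord (pt t) 1 := by
  rw [mem_Iord_one, ← rho_eval, rho_f₀, eval_zero]

/-- the leading polynomial as a linear map -/
noncomputable def lfpL (N : ℕ) (P : Fin 2 → k) : MvPolynomial (Fin 2) k →ₗ[k] k[X] where
  toFun := lfp N P
  map_add' := lfp_add N P
  map_smul' c G := by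
    rw [MvPolynomial.smul_eq_C_mul, lfp_C_mul, ← smul_eq_C_mul, RingHom.id_apply]

theorem lfpL_apply (N : ℕ) (P : Fin 2 → k) (G : MvPolynomial (Fin 2) k) :
    lfpL N P G = lfp N P G := rfl

theorem lfp_surj_abs {W : Type*} [AddCommGroup W] [Module k W] (V : Submodule k W)
    [FiniteDimensional k V] (N : Submodule k W) [FiniteDimensional k N]
    (F : W →ₗ[k] k[X]) (n : ℕ) (hN : ∀ x ∈ V, F x = 0 → x ∈ N) (hNr : Module.finrank k N ≤ 1)
    (hV : Module.finrank k V = n + 1) (hF : ∀ x ∈ V, F x ∈ degreeLT k n) (A : k[X])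
    (hA : A ∈ degreeLT k n) : ∃ x ∈ V, F x = A := by
  have hker : Module.finrank k (LinearMap.ker (F.domRestrict V)) ≤ 1 := by
    refine le_trans ?_ hNr
    refine LinearMap.finrank_le_finrank_of_injective (f := LinearMap.codRestrict N
      (V.subtype ∘ₗ (LinearMap.ker (F.domRestrict V)).subtype) ?_) ?_
    · rintro ⟨x, hx⟩
      exact hN x.1 x.2 hx
    · rintro ⟨⟨x, hx⟩, hx'⟩ ⟨⟨y, hy⟩, hy'⟩ h
      have h' : x = y := congrArg (fun z : N => (z : W)) h
      subst h'
      rfl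
  have hrn := LinearMap.finrank_range_add_finrank_ker (F.domRestrict V)
  rw [hV] at hrn
  have hfd : Module.finrank k (degreeLT k n) = n := by
    rw [(degreeLTEquiv k n).finrank_eq, Module.finrank_pi, Fintype.card_fin]
  have _ : FiniteDimensional k (degreeLT k n) :=
    Module.Finite.equiv (degreeLTEquiv k n).symm
  have hle : LinearMap.range (F.domRestrict V) ≤ degreeLT k n := by
    rintro _ ⟨x, rfl⟩
    exact hF x.1 x.2
  have heq : LinearMap.range (F.domRestrict V) = degreeLT k n := by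
    apply Submodule.eq_of_le_of_finrank_le hle
    rw [hfd]
    omega
  rw [← heq] at hA
  obtain ⟨x, hx⟩ := hA
  exact ⟨x.1, x.2, hx⟩

theorem lfp_surj [CharZero k] {M : ℕ} {v : Fin 10 → k} (V : VData M v) (m : ℕ) (hm : m + 2 = M)
    (A : k[X]) (hA : A.natDegree ≤ m) :
    ∃ G ∈ VV v (m + 1) (μA (m + 1)), lfp m (PP v 8) G = A := by
  have hd : ∀ B : k[X], B.natDegree ≤ m → B ∈ degreeLT k (m + 1) := by
    intro B hB
    rw [mem_degreeLT]
    refine lt_of_le_of_lt (degree_le_of_natDegree_le hB) ?_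
    exact_mod_cast Nat.lt_succ_self m
  refine lfp_surj_abs (VV v (m + 1) (μA (m + 1))) (VV v (m + 1) (μB (m + 1)))
    (lfpL m (PP v 8)) (m + 1) ?_ (finrank_VB V (m + 1) (by omega)) (finrank_VA V (m + 1)) ?_ A
    (hd A hA)
  · intro G hG hG'
    rw [lfpL_apply] at hG'
    obtain ⟨h1, h2⟩ := (mem_VV _ _ _ _).1 hG
    rw [mem_VV]
    refine ⟨h1, fun i => ?_⟩
    by_cases hi : i = 8
    · have h3 := VV_eight hG
      rw [muA_eight, Nat.add_sub_cancel] at h3
      have h4 := (lfp_eq_zero_iff m (PP v 8) G h3).1 hG'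
      have h5 : (i.castSucc : Fin 10) = 8 := by
        rw [hi]
        rfl
      rw [h5, μB]
      exact h4
    · have h3 := h2 i
      rwa [μA, if_neg hi] at h3
  · intro G _
    rw [lfpL_apply]
    exact hd _ (lfp_natDegree m _ G)

theorem exists_pencil [CharZero k] {M : ℕ} {v : Fin 10 → k} (V : VData M v) :
    ∃ c : MvPolynomial (Fin 2) k, c ∈ Vd k (3 * M) ∧ (∀ i : Fin 9, c ∈ Iord (PP v i.castSucc) M) ∧
      ∃ κ : k, κ ≠ 0 ∧ rho k c = C κ * ∏ i : Fin 9, (X - C (tt (v i.castSucc))) ^ M := by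
  obtain ⟨U, hU, hU0⟩ := exists_U V M V.M_pos
  have hκ := rho_U V U hU hU0
  obtain ⟨t1, tm1, t0, tv, tadd, tinj⟩ := tt_facts V
  obtain ⟨hUd, hUi⟩ := (mem_VV _ _ _ _).1 hU
  have h8 : ((8 : Fin 9).castSucc : Fin 10) = 8 := rfl
  have hdvd : (X - C (tt (v 8))) ^ M ∣ rho k U := by
    obtain ⟨κ, -, h⟩ := hκ
    rw [h]
    refine Dvd.dvd.mul_left ?_ _
    have h9 := Finset.dvd_prod_of_mem (fun i : Fin 9 => (X - C (tt (v i.castSucc))) ^ M)
      (Finset.mem_univ 8)
    simp only [h8] at h9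
    exact h9
  have hne : ∀ i : Fin 9, i ≠ 8 → U ∈ Iord (PP v i.castSucc) M := by
    intro i hi
    have h := hUi i
    rwa [μA, if_neg hi] at h
  have hU8 : U ∈ Iord (PP v 8) (M - 1) := by
    have h := VV_eight hU
    rwa [muA_eight] at h
  rcases Nat.lt_or_ge M 2 with hM | hM
  · have hM1 : M = 1 := by
      have := V.M_pos
      omega
    subst hM1
    refine ⟨U, hUd, fun i => ?_, hκ⟩
    by_cases hi : i = 8
    · subst hi
      rw [h8, mem_Iord_one]
      change MvPolynomial.eval (pt (tt (v 8))) U = 0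
      rw [← rho_eval]
      rw [pow_one] at hdvd
      exact dvd_iff_isRoot.1 hdvd
    · exact hne i hi
  · obtain ⟨m, rfl⟩ : ∃ m, M = m + 2 := ⟨M - 2, by omega⟩
    set t := tt (v 8) with ht
    have ht0 : t ≠ 0 := t0 8
    have ht1 : t ≠ 1 := t1 8
    have htm : t ≠ -1 := tm1 8
    have h2t : 2 * t ≠ 0 := mul_ne_zero two_ne_zero ht0
    have hPP : PP v 8 = pt t := rfl
    have hU8' : U ∈ Iord (pt t) (m + 1) := by
      rw [← hPP]
      exact hU8
    have hroot := (rho_lead_iff t h2t (m + 1) U hU8').1 hdvd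
    set z := (3 * t ^ 2 - 1) / (2 * t) with hz
    obtain ⟨A₁, hA₁⟩ := dvd_iff_isRoot.2 hroot
    set b : k := 2 * (t ^ 3 - t) with hb
    have hb0 : b ≠ 0 := by
      have : b = 2 * t * ((t - 1) * (t + 1)) := by rw [hb]; ring
      rw [this]
      refine mul_ne_zero h2t (mul_ne_zero (sub_ne_zero.2 ht1) ?_)
      intro h
      exact htm (eq_neg_of_add_eq_zero_left h)
    have hlf : lfp 1 (pt t) (f₀ k) = C b * (X - C z) := by
      have hbz : - ((t ^ 2 - 1) * (3 * t ^ 2 - 1)) = - (b * z) := by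
        have h1 : z * (2 * t) = 3 * t ^ 2 - 1 := div_mul_cancel₀ _ h2t
        rw [hb]
        linear_combination (t ^ 2 - 1) * h1
      have hCb : (C b * C z : k[X]) = C (b * z) := C_mul.symm
      rw [lfp_f₀_pt, hbz, C_neg, ← hb]
      linear_combination hCb
    have hA₁d : A₁.natDegree ≤ m := by
      by_cases h0 : A₁ = 0
      · rw [h0]; simp
      · have h1 := lfp_natDegree (m + 1) (pt t) U
        rw [hA₁, (monic_X_sub_C z).natDegree_mul' h0, natDegree_X_sub_C] at h1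
        omega
    obtain ⟨G, hG, hGl⟩ := lfp_surj V m rfl (C b⁻¹ * A₁)
      ((natDegree_C_mul_le _ _).trans hA₁d)
    obtain ⟨hGd, hGi⟩ := (mem_VV _ _ _ _).1 hG
    have hG8 : G ∈ Iord (pt t) m := by
      have h := VV_eight hG
      rw [muA_eight, Nat.add_sub_cancel] at h
      rw [← hPP]
      exact h
    have hfG8 : f₀ k * G ∈ Iord (pt t) (m + 1) := by
      rw [add_comm]
      exact mul_mem_Iord (f₀_mem_Iord t) hG8
    refine ⟨U - f₀ k * G, ?_, fun i => ?_, ?_⟩
    · refine Submodule.sub_mem _ hUd ?_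
      rw [mem_Vd] at *
      have h1 := mem_Vd.1 (f₀_mem (k := k))
      refine (MvPolynomial.totalDegree_mul _ _).trans ?_
      omega
    · by_cases hi : i = 8
      · subst hi
        rw [h8, hPP, show m + 2 = m + 1 + 1 from rfl]
        rw [← lfp_eq_zero_iff (m + 1) (pt t) _ (Ideal.sub_mem _ hU8' hfG8)]
        have h1 : U - f₀ k * G = U + MvPolynomial.C (-1) * (f₀ k * G) := by
          rw [MvPolynomial.C_neg, MvPolynomial.C_1]
          ring
        have h2 : lfp (m + 1) (pt t) (f₀ k * G) = lfp 1 (pt t) (f₀ k) * lfp m (pt t) G := by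
          rw [← lfp_mul 1 m (pt t) (f₀ k) G (f₀_mem_Iord t) hG8, add_comm]
        have h3 : lfp m (pt t) G = C b⁻¹ * A₁ := by
          rw [← hPP]
          exact hGl
        have h4 : (C b * C b⁻¹ : k[X]) = 1 := by
          rw [← C_mul, mul_inv_cancel₀ hb0, C_1]
        rw [h1, lfp_add, lfp_C_mul, h2, h3, hA₁, hlf, C_neg, C_1]
        linear_combination (-(X - C z) * A₁) * h4
      · have h1 := hGi i
        rw [μA, if_neg hi] at h1
        refine Ideal.sub_mem _ (hne i hi) ?_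
        rw [show m + 2 = 1 + (m + 1) by omega]
        exact mul_mem_Iord (f₀_mem_Iord _) h1
    · rw [map_sub, map_mul, rho_f₀, zero_mul, sub_zero]
      exact hκ

end Pool.Agent.H92.RP
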