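import Mathlib
import Pool.Agent.H92.RP.VData

set_option autoImplicit false

/-!
# RP-F2: irreducibility

PROOF.  `C ≠ 0`; `C` vanishes at `PP v 0` (`M ≥ 1`), so it is not a unit (`mult_unit`).
`MvPolynomial (Fin 2) k` is a UFD, so it is enough to show that `C` is irreducible
(`UniqueFactorizationMonoid.irreducible_iff_prime`).
Put `t i = tt (v i.castSucc)` (`tt_facts`), so `pt (t i) = PP v i.castSucc`.
`totalDegree C = 3M`: if it were `d' < 3M`, `rel` (degree `d'`, `μ i = M`) gives `9M ≤ 3d'`.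
Let `C = G * H` with `a = deg G`, `b = deg H`, `a + b = 3M` (`totalDegree_mul_of_isDomain`).
`mult (PP i) C = M` (`hI`, `hl`, `mem_Iord_iff_le_mult`), so
`mult G + mult H = M` at each of the nine points (`mult_mul`).  `rho G`, `rho H ≠ 0`.  By `rel`
`∑ mult G ≤ 3a`, `∑ mult H ≤ 3b`; the sum is `9M = 3(a+b)`, so both are equalities and
`∏ v_i ^ (mult_i G) = 1` (`rel`, `tt_facts`).  `V.rel2` for `μ = (mult_i G, 0)`
(`Fin.prod_univ_castSucc`): `mult_i G = M * a'` for all `i`.  As `mult_i G ≤ M`: `a' = 0` or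
`a' = 1`.  If `a' = 0` then `3 a = 0`, `G` is constant, a unit.  If `a' = 1`,
`mult_i H = 0`, `b = 0`, `H` is a unit.
-/

namespace Pool.Agent.H92.RP

open Pool.Agent.H13

variable {k : Type} [Field k] [CharZero k]

theorem prime_of_mult {M : ℕ} {v : Fin 10 → k} (V : VData M v) (C : MvPolynomial (Fin 2) k)
    (hd : C ∈ Vd k (3 * M)) (hI : ∀ i : Fin 9, C ∈ Iord (PP v i.castSucc) M)
    (hl : ∀ i : Fin 9, C ∉ Iord (PP v i.castSucc) (M + 1)) (hr : rho k C ≠ 0) : Prime C := by
  obtain ⟨f1, f2, -, f4, -, f6⟩ := tt_facts V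
  have hMp := V.M_pos
  have hC0 : C ≠ 0 := by
    rintro rfl
    exact hr (map_zero _)
  have ht_inj : Function.Injective fun i : Fin 9 => tt (v i.castSucc) :=
    fun i j h => Fin.castSucc_injective _ (f6 h)
  have hrel : ∀ (d : ℕ) (G : MvPolynomial (Fin 2) k), G ∈ Vd k d → rho k G ≠ 0 →
      ∑ i : Fin 9, mult (PP v i.castSucc) G ≤ 3 * d ∧
        (∑ i : Fin 9, mult (PP v i.castSucc) G = 3 * d →
          ∏ i : Fin 9, v i.castSucc ^ mult (PP v i.castSucc) G = 1) := by
    intro d G hG h0
    have hG0 : G ≠ 0 := by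
      rintro rfl
      exact h0 (map_zero _)
    obtain ⟨r1, r2⟩ := rel (fun i : Fin 9 => tt (v i.castSucc)) ht_inj (fun i => f1 _)
      (fun i => f2 _) d (fun i => mult (PP v i.castSucc) G) G hG (fun i => mem_mult hG0) h0
    refine ⟨r1, fun h => ?_⟩
    obtain ⟨r3, -⟩ := r2 h
    rw [← r3]
    exact Finset.prod_congr rfl (fun i _ => by rw [f4])
  have hmC : ∀ i : Fin 9, mult (PP v i.castSucc) C = M := by
    intro i
    have a := (mem_Iord_iff_le_mult hC0).1 (hI i)
    have b : ¬ M + 1 ≤ mult (PP v i.castSucc) C :=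
      fun h => hl i ((mem_Iord_iff_le_mult hC0).2 h)
    omega
  have hdeg : C.totalDegree = 3 * M := by
    apply le_antisymm (mem_Vd.1 hd)
    have h1 := (hrel _ C (mem_Vd.2 le_rfl) hr).1
    rw [Finset.sum_congr rfl (fun i _ => hmC i)] at h1
    simp only [Finset.sum_const, Finset.card_univ, Fintype.card_fin, smul_eq_mul] at h1
    omega
  have hunit : ∀ G : MvPolynomial (Fin 2) k, G ≠ 0 → G.totalDegree = 0 → IsUnit G := by
    intro G hG0 h
    rw [MvPolynomial.totalDegree_eq_zero_iff_eq_C] at h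
    rw [h]
    apply IsUnit.map
    rw [isUnit_iff_ne_zero]
    intro h2
    rw [h2, map_zero] at h
    exact hG0 h
  rw [← UniqueFactorizationMonoid.irreducible_iff_prime]
  refine ⟨?_, ?_⟩
  · intro hu
    have h1 := mult_unit (P := PP v (Fin.castSucc (0 : Fin 9))) hu
    rw [hmC] at h1
    omega
  · intro G H hGH
    have hG0 : G ≠ 0 := by
      rintro rfl
      exact hC0 (by rw [hGH, zero_mul])
    have hH0 : H ≠ 0 := by
      rintro rfl
      exact hC0 (by rw [hGH, mul_zero])
    have hrG : rho k G ≠ 0 := fun h => hr (by rw [hGH, map_mul, h, zero_mul])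
    have hrH : rho k H ≠ 0 := fun h => hr (by rw [hGH, map_mul, h, mul_zero])
    have hmul : ∀ i : Fin 9, mult (PP v i.castSucc) G + mult (PP v i.castSucc) H = M := by
      intro i
      rw [← mult_mul hG0 hH0, ← hGH, hmC]
    have hdd : G.totalDegree + H.totalDegree = 3 * M := by
      rw [← MvPolynomial.totalDegree_mul_of_isDomain hG0 hH0, ← hGH, hdeg]
    obtain ⟨a1, a2⟩ := hrel _ G (mem_Vd.2 le_rfl) hrG
    obtain ⟨b1, b2⟩ := hrel _ H (mem_Vd.2 le_rfl) hrH
    have hs : ∑ i : Fin 9, mult (PP v i.castSucc) G + ∑ i : Fin 9, mult (PP v i.castSucc) H =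
        9 * M := by
      rw [← Finset.sum_add_distrib, Finset.sum_congr rfl (fun i _ => hmul i)]
      simp
    have a3 := a2 (by omega)
    have h9 : ∀ i : Fin 9, ¬ i.castSucc = (9 : Fin 10) := by
      intro i h
      have h1 := congrArg Fin.val h
      have h2 := i.isLt
      simp at h1
      omega
    obtain ⟨-, c, hc⟩ := V.rel2 (fun j => if j = 9 then 0 else mult (PP v j) G) (by
      rw [Fin.prod_univ_castSucc]
      have e1 : (Fin.last 9 : Fin 10) = 9 := rfl
      rw [e1, if_pos rfl, pow_zero, mul_one, ← a3]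
      exact Finset.prod_congr rfl (fun i _ => by rw [if_neg (h9 i)]))
    have hc' : ∀ i : Fin 9, mult (PP v i.castSucc) G = M * c := by
      intro i
      have h1 := hc i
      rwa [if_neg (h9 i)] at h1
    rcases Nat.eq_zero_or_pos c with hc0 | hcp
    · left
      apply hunit G hG0
      subst hc0
      rw [Finset.sum_congr rfl (fun i _ => hc' i)] at hs a1
      rw [mul_zero, Finset.sum_const_zero, zero_add] at hs
      omega
    · right
      apply hunit H hH0
      have hz : ∀ i : Fin 9, mult (PP v i.castSucc) H = 0 := by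
        intro i
        have h1 := hmul i
        rw [hc' i] at h1
        have h2 : M * 1 ≤ M * c := Nat.mul_le_mul_left M hcp
        omega
      rw [Finset.sum_congr rfl (fun i _ => hz i), Finset.sum_const_zero, add_zero] at hs
      omega

end Pool.Agent.H92.RP
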