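import Mathlib
import Pool.Agent.H92.RP.VData

set_option autoImplicit false

/-!
# RP-F0: base change from `k` to a larger field `k₁`

All statements are coefficient comparisons: `bm = MvPolynomial.map (algebraMap k k₁)`.
* `tr_bm`: `tr (algebraMap ∘ P) (bm G) = bm (tr P G)` (algebra homomorphisms agreeing on `X i`; or
  `MvPolynomial.induction_on`).
* `bm_mem_Iord`: `mem_Iord'`, `tr_bm`, `coeff_map`, injectivity for the reverse direction.
* `bm_mem_Vd`: `totalDegree_map_le`.
* `PP_map`: `pt`, `tt` commute with field homomorphisms.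
* `VData.map`: all conditions are preserved by the injective homomorphism `k → k₁`.
-/

namespace Pool.Agent.H92.RP

open Pool.Agent.H13 Polynomial

variable {k k₁ : Type} [Field k] [Field k₁] [Algebra k k₁]

/-- base change of polynomials -/
noncomputable def bm (k k₁ : Type) [Field k] [Field k₁] [Algebra k k₁] :
    MvPolynomial (Fin 2) k →+* MvPolynomial (Fin 2) k₁ :=
  MvPolynomial.map (algebraMap k k₁)

/-- base change of points -/
def bp (k₁ : Type) [Field k₁] [Algebra k k₁] (P : Fin 2 → k) : Fin 2 → k₁ :=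
  fun i => algebraMap k k₁ (P i)

theorem tr_bm (P : Fin 2 → k) (G : MvPolynomial (Fin 2) k) :
    tr (bp k₁ P) (bm k k₁ G) = bm k k₁ (tr P G) := by
  induction G using MvPolynomial.induction_on with
  | C a => simp [bm]
  | add p q hp hq => rw [map_add, map_add, map_add, map_add, hp, hq]
  | mul_X p i hp =>
    rw [map_mul, map_mul, map_mul, map_mul, hp]
    simp [bm, bp]

theorem bm_eval (P : Fin 2 → k) (G : MvPolynomial (Fin 2) k) :
    MvPolynomial.eval (bp k₁ P) (bm k k₁ G) = algebraMap k k₁ (MvPolynomial.eval P G) := by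
  rw [← constantCoeff_tr, ← constantCoeff_tr, tr_bm, bm, MvPolynomial.constantCoeff_map]

theorem bm_mem_Iord (P : Fin 2 → k) (m : ℕ) (G : MvPolynomial (Fin 2) k) :
    bm k k₁ G ∈ Iord (bp k₁ P) m ↔ G ∈ Iord P m := by
  rw [mem_Iord', mem_Iord', tr_bm]
  simp only [bm, MvPolynomial.coeff_map, map_eq_zero]

theorem bm_mem_Vd (d : ℕ) (G : MvPolynomial (Fin 2) k) (hG : G ∈ Vd k d) :
    bm k k₁ G ∈ Vd k₁ d := by
  rw [mem_Vd] at hG ⊢
  exact (Finset.sup_mono (MvPolynomial.support_map_subset _ _)).trans hG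

theorem bm_pderiv (i : Fin 2) (G : MvPolynomial (Fin 2) k) :
    MvPolynomial.pderiv i (bm k k₁ G) = bm k k₁ (MvPolynomial.pderiv i G) := by
  rw [bm, MvPolynomial.pderiv_map]

theorem lfp_bm (N : ℕ) (P : Fin 2 → k) (G : MvPolynomial (Fin 2) k) :
    lfp N (bp k₁ P) (bm k k₁ G) = (lfp N P G).map (algebraMap k k₁) := by
  unfold lfp
  rw [Polynomial.map_sum]
  refine Finset.sum_congr rfl fun b _ => ?_
  rw [Polynomial.map_monomial, tr_bm, bm, MvPolynomial.coeff_map]

theorem topp_bm (N : ℕ) (G : MvPolynomial (Fin 2) k) :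
    topp N (bm k k₁ G) = (topp N G).map (algebraMap k k₁) := by
  unfold topp
  rw [Polynomial.map_sum]
  refine Finset.sum_congr rfl fun b _ => ?_
  rw [Polynomial.map_monomial, bm, MvPolynomial.coeff_map]

theorem vres_bm (a : k) (G : MvPolynomial (Fin 2) k) :
    vres (algebraMap k k₁ a) (bm k k₁ G) = (vres a G).map (algebraMap k k₁) := by
  induction G using MvPolynomial.induction_on with
  | C a => simp [bm, vres]
  | add p q hp hq => rw [map_add, map_add, map_add, Polynomial.map_add, hp, hq]
  | mul_X p i hp =>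
    rw [map_mul, map_mul, map_mul, Polynomial.map_mul, hp]
    congr 1
    match i with
    | 0 => simp [bm, vres]
    | 1 => simp [bm, vres]

theorem rho_bm (G : MvPolynomial (Fin 2) k) :
    rho k₁ (bm k k₁ G) = (rho k G).map (algebraMap k k₁) := by
  induction G using MvPolynomial.induction_on with
  | C a => rw [bm, MvPolynomial.map_C, rho, rho, th_C, th_C, Polynomial.map_C]
  | add p q hp hq => rw [map_add, map_add, map_add, Polynomial.map_add, hp, hq]
  | mul_X p i hp =>
    rw [map_mul, map_mul, map_mul, Polynomial.map_mul, hp]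
    congr 1
    match i with
    | 0 => rw [bm, MvPolynomial.map_X, rho, rho, th_X0, th_X0]; simp
    | 1 => rw [bm, MvPolynomial.map_X, rho, rho, th_X1, th_X1]; simp

theorem f₀_bm : bm k k₁ (f₀ k) = f₀ k₁ := by
  simp [bm, f₀]

theorem PP_map (v : Fin 10 → k) (i : Fin 10) :
    bp k₁ (PP v i) = PP (fun i => algebraMap k k₁ (v i)) i := by
  funext j
  match j with
  | 0 => simp [bp, PP, pt, tt]
  | 1 => simp [bp, PP, pt, tt]

theorem VData.map {M : ℕ} {v : Fin 10 → k} (V : VData M v) :
    VData M (fun i => algebraMap k k₁ (v i)) := by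
  refine ⟨V.M_pos, ?_, ?_, ?_, ?_, ?_, ?_⟩
  · intro i
    rw [Ne, map_eq_zero]
    exact V.ne_zero i
  · intro i h
    rw [← map_one (algebraMap k k₁)] at h
    exact V.ne_one i ((algebraMap k k₁).injective h)
  · intro i j h
    rw [← map_mul, ← map_one (algebraMap k k₁)] at h
    exact V.mul_ne_one i j ((algebraMap k k₁).injective h)
  · exact (algebraMap k k₁).injective.comp V.inj
  · rw [← map_prod, ← map_pow, V.rel1, map_one]
  · intro μ h
    apply V.rel2 μ
    apply (algebraMap k k₁).injective
    rw [map_one, ← h, map_prod]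
    exact Finset.prod_congr rfl (fun i _ => map_pow _ _ _)

end Pool.Agent.H92.RP
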