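import Mathlib
import Pool.Agent.H92.RP.BaseCh

set_option autoImplicit false

/-!
# RP-F1: separability of the members of a pencil for a transcendental parameter

PROOF of `separable_pencil`.  Let `q = p + τ r` (over `k₁`).  `q ≠ 0`: otherwise comparing a nonzero
coefficient of `r` gives `τ ∈ k` (if `r = 0` then `p` is a unit, `q ≠ 0`).  If `q` is not separable
then `q` and `q'` have a common root `θ ∈ k₁` (`k₁` algebraically closed; `IsCoprime` fails).  Then
`(p r' - p' r)(θ) = 0`, since `p = -τ r`, `p' = -τ r'` at `θ`.  If the polynomial `p r' - p' r` over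
`k` is nonzero, `θ` is algebraic over `k`, so `θ ∈ k`; then `p(θ) + τ r(θ) = 0` with `τ ∉ k` gives
`r(θ) = 0 = p(θ)`, against coprimality.  If `p r' = p' r` then `r ∣ r'` (coprime), so `r' = 0`
by degree, `r` is constant, `r = c`; also `p ∣ p'`, `p` is constant; so `q` is a nonzero constant,
which is separable.
-/

namespace Pool.Agent.H92.RP

open Polynomial

variable {k k₁ : Type} [Field k] [IsAlgClosed k] [CharZero k] [Field k₁] [IsAlgClosed k₁]
  [Algebra k k₁]

theorem not_root_pencil (p r : k[X]) (τ : k₁) (hτ : τ ∉ Set.range (algebraMap k k₁)) (z : k)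
    (h : r.eval z ≠ 0) :
    (p.map (algebraMap k k₁) + C τ * r.map (algebraMap k k₁)).eval (algebraMap k k₁ z) ≠ 0 := by
  intro h0
  apply hτ
  rw [eval_add, eval_mul, eval_C, eval_map_algebraMap, eval_map_algebraMap,
    aeval_algebraMap_apply, aeval_algebraMap_apply, coe_aeval_eq_eval] at h0
  have hr : algebraMap k k₁ (r.eval z) ≠ 0 := by
    rw [Ne, map_eq_zero]
    exact h
  refine ⟨-(p.eval z) / r.eval z, ?_⟩
  rw [map_div₀, map_neg, div_eq_iff hr]
  linear_combination -h0

omit [IsAlgClosed k] [CharZero k] in
theorem sepL_deriv_of_dvd (p : k[X]) (h : p ∣ derivative p) : derivative p = 0 := by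
  by_contra hd
  have hp : p ≠ 0 := by
    rintro rfl
    exact hd derivative_zero
  have h1 := degree_le_of_dvd h hd
  exact absurd (degree_derivative_lt hp) (not_lt.mpr h1)

theorem separable_pencil (p r : k[X]) (h : IsCoprime p r) (τ : k₁)
    (hτ : τ ∉ Set.range (algebraMap k k₁)) :
    (p.map (algebraMap k k₁) + C τ * r.map (algebraMap k k₁)).Separable := by
  unfold Polynomial.Separable
  rw [isCoprime_iff_aeval_ne_zero_of_isAlgClosed k₁ k₁]
  by_contra hcon
  push Not at hcon
  obtain ⟨θ, h1, h2⟩ := hcon
  rw [coe_aeval_eq_eval] at h1 h2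
  rw [derivative_add, derivative_C_mul, derivative_map, derivative_map, eval_add, eval_mul,
    eval_C] at h2
  have h1' := h1
  rw [eval_add, eval_mul, eval_C] at h1'
  by_cases hW : p * derivative r - derivative p * r = 0
  · have hr : derivative r = 0 := by
      apply sepL_deriv_of_dvd
      apply h.symm.dvd_of_dvd_mul_left
      exact ⟨derivative p, by linear_combination hW⟩
    have hp : derivative p = 0 := by
      apply sepL_deriv_of_dvd
      apply h.dvd_of_dvd_mul_right
      exact ⟨derivative r, by linear_combination -hW⟩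
    obtain ⟨a, rfl⟩ : ∃ a, p = C a :=
      ⟨_, eq_C_of_natDegree_eq_zero (Polynomial.derivative_eq_zero.mp hp)⟩
    obtain ⟨b, rfl⟩ : ∃ b, r = C b :=
      ⟨_, eq_C_of_natDegree_eq_zero (Polynomial.derivative_eq_zero.mp hr)⟩
    by_cases hb : b = 0
    · subst hb
      rw [map_C, map_C, eval_C, map_zero, C_0, eval_zero, mul_zero, add_zero, map_eq_zero] at h1'
      subst h1'
      rw [C_0, isCoprime_self] at h
      exact not_isUnit_zero h
    · have h3 := not_root_pencil (C a) (C b) τ hτ 0 (by rwa [eval_C])
      rw [map_C, map_C, eval_add, eval_mul, eval_C, eval_C, eval_C] at h3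
      rw [map_C, map_C, eval_C, eval_C] at h1'
      exact h3 h1'
  · have h3 : ((p * derivative r - derivative p * r).map (algebraMap k k₁)).eval θ = 0 := by
      rw [Polynomial.map_sub, Polynomial.map_mul, Polynomial.map_mul, eval_sub, eval_mul, eval_mul]
      linear_combination (eval θ (map (algebraMap k k₁) (derivative r))) * h1' -
        (eval θ (map (algebraMap k k₁) r)) * h2
    have h4 : θ ∈ ((p * derivative r - derivative p * r).map (algebraMap k k₁)).roots := by
      rw [mem_roots']
      refine ⟨?_, h3⟩
      rwa [Ne, Polynomial.map_eq_zero]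
    rw [(IsAlgClosed.splits (p * derivative r - derivative p * r)).roots_map (algebraMap k k₁),
      Multiset.mem_map] at h4
    obtain ⟨z, -, rfl⟩ := h4
    have h5 : r.eval z = 0 := by
      by_contra h5
      exact not_root_pencil p r τ hτ z h5 h1
    have h6 : p.eval z = 0 := by
      have e : eval ((algebraMap k k₁) z) (map (algebraMap k k₁) r) = 0 := by
        rw [eval_map_algebraMap, aeval_algebraMap_apply, coe_aeval_eq_eval, h5, map_zero]
      rw [e, mul_zero, add_zero, eval_map_algebraMap, aeval_algebraMap_apply, coe_aeval_eq_eval,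
        map_eq_zero] at h1'
      exact h1'
    obtain ⟨a, b, hab⟩ := h
    have h7 := congrArg (eval z) hab
    rw [eval_add, eval_mul, eval_mul, h5, h6, mul_zero, mul_zero, add_zero, eval_one] at h7
    exact zero_ne_one h7

end Pool.Agent.H92.RP
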