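import Mathlib

set_option autoImplicit false

/-!
# RP-H3a: Hensel's lemma for power series

PROOF.
* `hensel_ps`: Newton iteration / successive approximation.  Construct the coefficients of `η`
  one by one: suppose `η_m` (a polynomial of degree `< m`, `m ≥ 1`, constant term `z₀`) satisfies
  `s^m ∣ Q(η_m)`; put `η_{m+1} = η_m + c s^m`; then
  `Q(η_m + c s^m) ≡ Q(η_m) + c s^m Q'(η_m) (mod s^(m+1))` (Taylor, `Polynomial.evalAddFactors` or
  `Polynomial.eval_add`...), and `Q'(η_m) ≡ Q₀'(z₀) ≠ 0 (mod s)`, so a unique `c` works.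
  The limit: `η := PowerSeries.mk (coefficients)`; `s^m ∣ Q(η)` for all `m`, so `Q(η) = 0`.
  Alternative: Mathlib has `IsAdicComplete (span {X}) (PowerSeries k)`, hence `HenselianRing`, but
  only for MONIC polynomials; a non-monic `Q` can be reduced to the monic case by the substitution
  used in the proof of (Stacks 04GG) or one uses the Newton iteration directly.
-/

namespace Pool.Agent.H92.RP

open Polynomial

variable {k : Type} [Field k]

theorem hensel_ps (Q : Polynomial (PowerSeries k)) (z₀ : k)
    (h0 : (Q.map PowerSeries.constantCoeff).eval z₀ = 0)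
    (h1 : (derivative (Q.map PowerSeries.constantCoeff)).eval z₀ ≠ 0) :
    ∃ η : PowerSeries k, Q.eval η = 0 ∧ PowerSeries.constantCoeff η = z₀ := by
  have hmap : ∀ (R : Polynomial (PowerSeries k)) (y : PowerSeries k),
      PowerSeries.constantCoeff (R.eval y) =
        (R.map PowerSeries.constantCoeff).eval (PowerSeries.constantCoeff y) := by
    intro R y
    rw [eval_map, eval₂_at_apply]
  set u : PowerSeries k :=
    PowerSeries.C ((derivative (Q.map PowerSeries.constantCoeff)).eval z₀)⁻¹ with hu
  obtain ⟨x, hx0, hxs⟩ : ∃ x : ℕ → PowerSeries k, x 0 = PowerSeries.C z₀ ∧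
      ∀ n, x (n + 1) = x n - u * Q.eval (x n) :=
    ⟨fun n => Nat.rec (PowerSeries.C z₀) (fun _ y => y - u * Q.eval y) n, rfl, fun _ => rfl⟩
  have hc : ∀ n, PowerSeries.constantCoeff (x n) = z₀ ∧ PowerSeries.X ^ (n + 1) ∣ Q.eval (x n) := by
    intro n
    induction n with
    | zero =>
      have e : PowerSeries.constantCoeff (x 0) = z₀ := by rw [hx0]; simp
      refine ⟨e, ?_⟩
      rw [zero_add, pow_one, PowerSeries.X_dvd_iff, hmap, e, h0]
    | succ n ih =>
      obtain ⟨ih1, ih2⟩ := ih
      have hQ0 : PowerSeries.constantCoeff (Q.eval (x n)) = 0 := by rw [hmap, ih1, h0]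
      refine ⟨?_, ?_⟩
      · rw [hxs, map_sub, map_mul, hQ0, mul_zero, sub_zero, ih1]
      · obtain ⟨r, hr⟩ := binomExpansion Q (x n) (-(u * Q.eval (x n)))
        rw [← sub_eq_add_neg, ← hxs] at hr
        have e : Q.eval (x (n + 1)) = Q.eval (x n) * (1 - u * (derivative Q).eval (x n)) +
            Q.eval (x n) ^ 2 * (r * u ^ 2) := by
          rw [hr]; ring
        rw [e]
        apply dvd_add
        · rw [pow_succ]
          apply mul_dvd_mul ih2
          rw [PowerSeries.X_dvd_iff, map_sub, map_mul, hmap, ih1, ← derivative_map, map_one, hu,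
            PowerSeries.constantCoeff_C, inv_mul_cancel₀ h1, sub_self]
        · apply Dvd.dvd.mul_right
          calc PowerSeries.X ^ (n + 1 + 1) ∣ (PowerSeries.X ^ (n + 1)) ^ 2 := by
                rw [← pow_mul]
                exact pow_dvd_pow _ (by omega)
            _ ∣ Q.eval (x n) ^ 2 := pow_dvd_pow_of_dvd ih2 2
  have hco : ∀ i n, i ≤ n → PowerSeries.coeff i (x n) = PowerSeries.coeff i (x i) := by
    intro i n hin
    induction n, hin using Nat.le_induction with
    | base => rfl
    | succ n hn ih =>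
      rw [hxs, map_sub, ih, sub_eq_self]
      exact PowerSeries.X_pow_dvd_iff.mp (Dvd.dvd.mul_left (hc n).2 u) i (by omega)
  set η : PowerSeries k := PowerSeries.mk fun n => PowerSeries.coeff n (x n) with hη
  have hd : ∀ n, PowerSeries.X ^ (n + 1) ∣ η - x n := by
    intro n
    rw [PowerSeries.X_pow_dvd_iff]
    intro i hi
    rw [map_sub, hη, PowerSeries.coeff_mk, hco i n (by omega), sub_self]
  refine ⟨η, ?_, ?_⟩
  · ext n
    have h3 : PowerSeries.X ^ (n + 1) ∣ Q.eval η := by
      have e : Q.eval η = (Q.eval η - Q.eval (x n)) + Q.eval (x n) := by ring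
      rw [e]
      exact dvd_add ((hd n).trans (sub_dvd_eval_sub _ _ Q)) (hc n).2
    rw [PowerSeries.X_pow_dvd_iff.mp h3 n (by omega)]
    simp
  · have h4 := hd 0
    rw [zero_add, pow_one, PowerSeries.X_dvd_iff, map_sub, (hc 0).1, sub_eq_zero] at h4
    exact h4

end Pool.Agent.H92.RP
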