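import Mathlib
import Pool.Agent.H92.RP.Defs

set_option autoImplicit false

/-!
# RP-B4: Laurent series

`lge m a` means `a ∈ s^m k[[s]]`.

PROOFS.
* `lge_iff`: `HahnSeries.coeff_eq_zero_of_lt_order`, `HahnSeries.coeff_order_ne_zero`.
* `lge_mul`: `HahnSeries.coeff_mul` (antidiagonal sum, every term vanishes); or via orders.
* `lge_ofPS`, `exists_ofPS`: a Laurent series with `lge 0` is a power series.
-/

namespace Pool.Agent.H92.RP

variable {k : Type} [Field k]

theorem lge_iff (m : ℤ) (a : LaurentSeries k) (ha : a ≠ 0) : lge m a ↔ m ≤ a.order := by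
  constructor
  · intro h
    by_contra hlt
    push Not at hlt
    exact ha (HahnSeries.coeff_order_eq_zero.1 (h _ hlt))
  · intro h i hi
    exact HahnSeries.coeff_eq_zero_of_lt_order (lt_of_lt_of_le hi h)

theorem lge_zero (m : ℤ) : lge m (0 : LaurentSeries k) := fun _ _ => rfl

theorem lge.mono {m n : ℤ} {a : LaurentSeries k} (h : lge m a) (hn : n ≤ m) : lge n a :=
  fun i hi => h i (by omega)

theorem lge.add {m : ℤ} {a b : LaurentSeries k} (ha : lge m a) (hb : lge m b) :
    lge m (a + b) := by
  intro i hi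
  rw [HahnSeries.coeff_add, ha i hi, hb i hi, add_zero]

theorem lge.neg {m : ℤ} {a : LaurentSeries k} (ha : lge m a) : lge m (-a) := by
  intro i hi
  rw [HahnSeries.coeff_neg, ha i hi, neg_zero]

theorem lge.mul {m n : ℤ} {a b : LaurentSeries k} (ha : lge m a) (hb : lge n b) :
    lge (m + n) (a * b) := by
  intro i hi
  rw [HahnSeries.coeff_mul]
  refine Finset.sum_eq_zero fun ij hij => ?_
  have h3 := (Finset.mem_antidiagonal.1 hij).2.2
  by_cases h1 : ij.1 < m
  · rw [ha _ h1, zero_mul]
  · rw [hb ij.2 (by omega), mul_zero]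

theorem lge.sum {ι : Type*} (S : Finset ι) (m : ℤ) (f : ι → LaurentSeries k)
    (h : ∀ i ∈ S, lge m (f i)) : lge m (∑ i ∈ S, f i) := by
  classical
  induction S using Finset.induction_on with
  | empty => simpa using lge_zero m
  | insert a s ha ih =>
    rw [Finset.sum_insert ha]
    exact (h a (Finset.mem_insert_self a s)).add
      (ih fun i hi => h i (Finset.mem_insert_of_mem hi))

theorem lge_ofPS (a : PowerSeries k) : lge 0 (HahnSeries.ofPowerSeries ℤ k a) := by
  intro i hi
  rw [PowerSeries.coeff_coe, if_pos hi]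

theorem lge_single_mul (m : ℤ) (g : PowerSeries k) :
    lge m (HahnSeries.single m 1 * HahnSeries.ofPowerSeries ℤ k g : LaurentSeries k) := by
  intro i hi
  rw [HahnSeries.coeff_single_mul, lge_ofPS g (i - m) (by omega), mul_zero]

theorem exists_ofPS (m : ℤ) (a : LaurentSeries k) (h : lge m a) :
    ∃ g : PowerSeries k, a = HahnSeries.single m 1 * HahnSeries.ofPowerSeries ℤ k g := by
  refine ⟨PowerSeries.mk fun n => a.coeff (m + n), ?_⟩
  ext i
  rw [HahnSeries.coeff_single_mul, one_mul]
  rcases lt_or_ge i m with hi | hi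
  · rw [h i hi, lge_ofPS _ _ (by omega)]
  · obtain ⟨n, hn⟩ := Int.eq_ofNat_of_zero_le (sub_nonneg.2 hi)
    rw [hn, LaurentSeries.coeff_coe_powerSeries, PowerSeries.coeff_mk]
    congr 1
    omega

/-- order of `s^m g`, `g(0) ≠ 0` -/
theorem order_single_mul (m : ℤ) (g : PowerSeries k) (hg : PowerSeries.constantCoeff g ≠ 0) :
    (HahnSeries.single m 1 * HahnSeries.ofPowerSeries ℤ k g : LaurentSeries k) ≠ 0 ∧
      (HahnSeries.single m 1 * HahnSeries.ofPowerSeries ℤ k g : LaurentSeries k).order = m := by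
  have hc : (HahnSeries.single m 1 * HahnSeries.ofPowerSeries ℤ k g : LaurentSeries k).coeff m
      ≠ 0 := by
    rw [HahnSeries.coeff_single_mul, one_mul, sub_self]
    have h0 := LaurentSeries.coeff_coe_powerSeries g 0
    rw [Nat.cast_zero] at h0
    rw [h0, PowerSeries.coeff_zero_eq_constantCoeff_apply]
    exact hg
  have hne : (HahnSeries.single m 1 * HahnSeries.ofPowerSeries ℤ k g : LaurentSeries k) ≠ 0 := by
    intro h
    apply hc
    rw [h]
    rfl
  refine ⟨hne, le_antisymm (HahnSeries.order_le_of_coeff_ne_zero hc) ?_⟩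
  exact (lge_iff m _ hne).1 (lge_single_mul m g)

theorem order_mul' (a b : LaurentSeries k) (ha : a ≠ 0) (hb : b ≠ 0) :
    (a * b).order = a.order + b.order := by
  apply HahnSeries.order_mul_of_ne_zero
  exact mul_ne_zero (HahnSeries.leadingCoeff_ne_zero.2 ha) (HahnSeries.leadingCoeff_ne_zero.2 hb)

theorem order_add' (a b : LaurentSeries k) (hab : a + b ≠ 0) :
    min a.order b.order ≤ (a + b).order :=
  HahnSeries.min_order_le_order_add hab

theorem order_C (c : k) : (HahnSeries.C c : LaurentSeries k).order = 0 :=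
  HahnSeries.order_C

end Pool.Agent.H92.RP
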