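import Mathlib
import Pool.Agent.H92.RP.Lfp
import Pool.Agent.H92.RP.Laur

/-!
# RP-H3b: evaluation of polynomials at power series branches

PROOFS.
* `lev_lead`: `lev a b G` with `a = P 0 + s`, `b = P 1 + s η`: `lev a b G = lev s (s η) (tr P G)`,
  and `tr P G = ∑ c_{ij} X^i Y^j` with `i + j ≥ N` only, so this is
  `∑ c_{ij} s^(i+j) η^j = s^N ∑ c_{ij} s^(i+j-N) η^j`; the constant coefficient of the second factor
  is `∑_{i+j=N} c_{ij} η(0)^j = (lfp N P G).eval (η(0))`.
* `lev_top`: `∑ c_{ij} s^(-i-j) η^j = s^(-d) ∑ c_{ij} s^(d-i-j) η^j`.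
* `lev_const`: constant coefficient of `G(x₀ + s, η)` is `G(x₀, η(0))`.
-/

set_option autoImplicit false

namespace Pool.Agent.H92.RP

open Pool.Agent.H13 Polynomial

variable {k : Type} [Field k]

/-- the branch `X = P 0 + s`, `Y = P 1 + s η` -/
noncomputable abbrev lvP (P : Fin 2 → k) (η : PowerSeries k) :
    MvPolynomial (Fin 2) k →+* LaurentSeries k :=
  lev (HahnSeries.C (P 0) + ss k) (HahnSeries.C (P 1) + ss k * HahnSeries.ofPowerSeries ℤ k η)

/-- the branch `X = x₀ + s`, `Y = η` -/
noncomputable abbrev lvX (x₀ : k) (η : PowerSeries k) :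
    MvPolynomial (Fin 2) k →+* LaurentSeries k :=
  lev (HahnSeries.C x₀ + ss k) (HahnSeries.ofPowerSeries ℤ k η)

/-- the branch at infinity `X = s⁻¹`, `Y = s⁻¹ η` -/
noncomputable abbrev lvI (η : PowerSeries k) : MvPolynomial (Fin 2) k →+* LaurentSeries k :=
  lev (HahnSeries.single (-1) 1) (HahnSeries.single (-1) 1 * HahnSeries.ofPowerSeries ℤ k η)

theorem sum_degree_eq (N : ℕ) (H : MvPolynomial (Fin 2) k) (c : k) :
    ∑ d ∈ H.support, H.coeff d * (if d 0 + d 1 = N then 1 else 0) * c ^ (d 1) =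
      ∑ b ∈ Finset.range (N + 1), H.coeff (expo (N - b, b)) * c ^ b := by
  classical
  symm
  refine Finset.sum_bij_ne_zero (fun b _ _ => expo (N - b, b)) ?_ ?_ ?_ ?_
  · intro b _ h2
    rw [MvPolynomial.mem_support_iff]
    intro h
    apply h2
    rw [h, zero_mul]
  · intro a _ _ b _ _ h
    have := expo_inj h
    exact (Prod.mk.inj this).2
  · intro d hd h
    have h1 : d 0 + d 1 = N := by
      by_contra hne
      apply h
      rw [if_neg hne, mul_zero, zero_mul]
    have h2 : expo (N - d 1, d 1) = d := by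
      rw [← expo_surj d]
      simp only [expo_zero, expo_one]
      congr 2
      omega
    refine ⟨d 1, Finset.mem_range.2 (by omega), ?_, h2⟩
    rw [h2]
    rw [if_pos h1, mul_one] at h
    exact h
  · intro b hb _
    rw [Finset.mem_range] at hb
    simp only [expo_zero, expo_one]
    rw [if_pos (by omega), mul_one]

theorem lev_sum (ε M : ℤ) (N : ℕ) (H : MvPolynomial (Fin 2) k) (η : PowerSeries k)
    (E : (Fin 2 →₀ ℕ) → ℕ) (hE : ∀ d ∈ H.support, M + E d = ε * ((d 0 + d 1 : ℕ) : ℤ))
    (hE0 : ∀ d ∈ H.support, E d = 0 ↔ d 0 + d 1 = N) : ∃ g : PowerSeries k,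
      PowerSeries.constantCoeff g = ∑ b ∈ Finset.range (N + 1),
        H.coeff (expo (N - b, b)) * (PowerSeries.constantCoeff η) ^ b ∧
      lev (HahnSeries.single ε 1) (HahnSeries.single ε 1 * HahnSeries.ofPowerSeries ℤ k η) H =
        HahnSeries.single M 1 * HahnSeries.ofPowerSeries ℤ k g := by
  classical
  refine ⟨∑ d ∈ H.support, PowerSeries.C (H.coeff d) * PowerSeries.X ^ (E d) * η ^ (d 1), ?_, ?_⟩
  · rw [← sum_degree_eq, map_sum]
    refine Finset.sum_congr rfl fun d hd => ?_
    rw [map_mul, map_mul, map_pow, map_pow, PowerSeries.constantCoeff_C,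
      PowerSeries.constantCoeff_X, zero_pow_eq]
    by_cases h : d 0 + d 1 = N
    · rw [if_pos h, if_pos ((hE0 d hd).2 h)]
    · rw [if_neg h, if_neg fun h' => h ((hE0 d hd).1 h')]
  · unfold lev
    rw [MvPolynomial.coe_eval₂Hom, MvPolynomial.eval₂_eq', map_sum, Finset.mul_sum]
    refine Finset.sum_congr rfl fun d hd => ?_
    rw [Fin.prod_univ_two, map_mul, map_mul, map_pow (HahnSeries.ofPowerSeries ℤ k) η,
      HahnSeries.ofPowerSeries_C, HahnSeries.ofPowerSeries_X_pow]
    simp only [Matrix.cons_val_zero, Matrix.cons_val_one]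
    have h1 : (HahnSeries.single M (1 : k) : LaurentSeries k) *
        HahnSeries.single ((E d : ℕ) : ℤ) 1 = (HahnSeries.single ε 1) ^ (d 0 + d 1) := by
      rw [HahnSeries.single_mul_single, HahnSeries.single_pow, one_pow, one_mul, hE d hd]
      congr 1
      rw [nsmul_eq_mul, mul_comm]
    rw [mul_pow]
    calc _ = HahnSeries.C (H.coeff d) * ((HahnSeries.single ε 1) ^ (d 0 + d 1)) *
        (HahnSeries.ofPowerSeries ℤ k η) ^ (d 1) := by rw [pow_add]; ring
      _ = _ := by rw [← h1]; ring

theorem lev_lead (P : Fin 2 → k) (N : ℕ) (G : MvPolynomial (Fin 2) k) (hG : G ∈ Iord P N)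
    (η : PowerSeries k) : ∃ g : PowerSeries k,
      PowerSeries.constantCoeff g = (lfp N P G).eval (PowerSeries.constantCoeff η) ∧
      lvP P η G = HahnSeries.single (N : ℤ) 1 * HahnSeries.ofPowerSeries ℤ k g := by
  rw [mem_Iord'] at hG
  have hdeg : ∀ d ∈ (tr P G).support, N ≤ d 0 + d 1 := by
    intro d hd
    by_contra hlt
    rw [MvPolynomial.mem_support_iff] at hd
    apply hd
    apply hG
    rw [← expo_surj d, expo_degree]
    simp only
    omega
  obtain ⟨g, hg1, hg2⟩ := lev_sum 1 N N (tr P G) η (fun d => d 0 + d 1 - N)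
    (fun d hd => by have := hdeg d hd; push_cast [Nat.cast_sub this]; ring)
    (fun d hd => by have := hdeg d hd; omega)
  refine ⟨g, ?_, ?_⟩
  · rw [hg1, lfp, eval_finset_sum]
    refine Finset.sum_congr rfl fun b _ => ?_
    rw [eval_monomial]
  · rw [← hg2]
    have h : lvP P η = (lev (HahnSeries.single 1 1)
        (HahnSeries.single 1 1 * HahnSeries.ofPowerSeries ℤ k η)).comp
          (tr P : MvPolynomial (Fin 2) k →+* MvPolynomial (Fin 2) k) := by
      refine MvPolynomial.ringHom_ext ?_ ?_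
      · intro c
        simp [lev]
      · intro i
        fin_cases i
        · simp [lev, add_comm]
        · simp [lev, add_comm]
    rw [h]
    rfl

theorem lev_top (d : ℕ) (G : MvPolynomial (Fin 2) k) (hG : G ∈ Vd k d)
    (η : PowerSeries k) : ∃ g : PowerSeries k,
      PowerSeries.constantCoeff g = (topp d G).eval (PowerSeries.constantCoeff η) ∧
      lvI η G = HahnSeries.single (-(d : ℤ)) 1 * HahnSeries.ofPowerSeries ℤ k g := by
  rw [mem_Vd] at hG
  have hdeg : ∀ e ∈ G.support, e 0 + e 1 ≤ d := by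
    intro e he
    have h1 := MvPolynomial.le_totalDegree he
    have h2 : (e.sum fun _ x => x) = e.degree := rfl
    rw [h2] at h1
    have h3 := expo_degree (e 0, e 1)
    rw [expo_surj] at h3
    simp only at h3
    omega
  obtain ⟨g, hg1, hg2⟩ := lev_sum (-1) (-(d : ℤ)) d G η (fun e => d - (e 0 + e 1))
    (fun e he => by have := hdeg e he; push_cast [Nat.cast_sub this]; ring)
    (fun e he => by have := hdeg e he; omega)
  refine ⟨g, ?_, hg2⟩
  rw [hg1, topp, eval_finset_sum]
  refine Finset.sum_congr rfl fun b _ => ?_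
  rw [eval_monomial]

theorem lev_const (x₀ : k) (G : MvPolynomial (Fin 2) k) (η : PowerSeries k) :
    ∃ g : PowerSeries k,
      PowerSeries.constantCoeff g = (vres x₀ G).eval (PowerSeries.constantCoeff η) ∧
      lvX x₀ η G = HahnSeries.ofPowerSeries ℤ k g := by
  refine ⟨MvPolynomial.eval₂Hom (PowerSeries.C : k →+* PowerSeries k)
    ![PowerSeries.C x₀ + PowerSeries.X, η] G, ?_, ?_⟩
  · have h : (PowerSeries.constantCoeff : PowerSeries k →+* k).comp
        (MvPolynomial.eval₂Hom (PowerSeries.C : k →+* PowerSeries k)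
          ![PowerSeries.C x₀ + PowerSeries.X, η]) =
        (Polynomial.evalRingHom (PowerSeries.constantCoeff η)).comp
          (vres x₀ : MvPolynomial (Fin 2) k →+* Polynomial k) := by
      refine MvPolynomial.ringHom_ext ?_ ?_
      · intro c
        simp [vres]
      · intro i
        fin_cases i
        · simp [vres]
        · simp [vres]
    exact RingHom.congr_fun h G
  · have h : lvX x₀ η = (HahnSeries.ofPowerSeries ℤ k).comp
        (MvPolynomial.eval₂Hom (PowerSeries.C : k →+* PowerSeries k)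
          ![PowerSeries.C x₀ + PowerSeries.X, η]) := by
      refine MvPolynomial.ringHom_ext ?_ ?_
      · intro c
        simp [lev, HahnSeries.ofPowerSeries_C]
      · intro i
        fin_cases i
        · simp [lev, HahnSeries.ofPowerSeries_C, HahnSeries.ofPowerSeries_X]
        · simp [lev]
    rw [h]
    rfl

end Pool.Agent.H92.RP
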