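import Mathlib
import Pool.Agent.H92.RP.HensA
import Pool.Agent.H92.RP.LevL

set_option autoImplicit false

/-!
# RP-H3c: existence of power series branches

PROOFS.
* `exists_branch_lead`: apply `hensel_ps` to
  `Q(Z) = ∑ c_{ij} s^(i+j-M) Z^j ∈ k[[s]][Z]` (`c_{ij}` the coefficients of `tr P C`), whose
  reduction mod `s` is `lfp M P C`; then `lev (P 0 + s) (P 1 + s η) C = s^M Q(η) = 0`.
* `exists_branch_simple`: `Q(Z) = C(x₀ + s, Z)`, reduction `vres x₀ C`.
* `exists_branch_top`: `Q(Z) = ∑ c_{ij} s^(d-i-j) Z^j`, reduction `topp d C`.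
-/

namespace Pool.Agent.H92.RP

open Pool.Agent.H13 Polynomial

variable {k : Type} [Field k]

/-- the polynomial `∑ c_m s ^ (e m) Z ^ (m 1)` -/
noncomputable def hensQ (G : MvPolynomial (Fin 2) k) (e : (Fin 2 →₀ ℕ) → ℕ) :
    Polynomial (PowerSeries k) :=
  ∑ m ∈ G.support, Polynomial.monomial (m 1) (PowerSeries.X ^ (e m) * PowerSeries.C (G.coeff m))

theorem hensQ_eval (G : MvPolynomial (Fin 2) k) (e : (Fin 2 →₀ ℕ) → ℕ) (η : PowerSeries k) :
    (hensQ G e).eval η =
      ∑ m ∈ G.support, PowerSeries.X ^ (e m) * PowerSeries.C (G.coeff m) * η ^ (m 1) := by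
  unfold hensQ
  rw [eval_finsetSum]
  exact Finset.sum_congr rfl fun m _ => eval_monomial

theorem hensQ_map (G : MvPolynomial (Fin 2) k) (e : (Fin 2 →₀ ℕ) → ℕ) :
    (hensQ G e).map PowerSeries.constantCoeff =
      ∑ m ∈ G.support, Polynomial.monomial (m 1) (0 ^ (e m) * G.coeff m) := by
  unfold hensQ
  rw [Polynomial.map_sum]
  refine Finset.sum_congr rfl fun m _ => ?_
  rw [map_monomial, map_mul, map_pow, PowerSeries.constantCoeff_X, PowerSeries.constantCoeff_C]

theorem hensQ_coeff (G : MvPolynomial (Fin 2) k) (e : (Fin 2 →₀ ℕ) → ℕ) (N : ℕ)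
    (he : ∀ m ∈ G.support, (e m = 0 ↔ m.degree = N)) (b : ℕ) :
    ((hensQ G e).map PowerSeries.constantCoeff).coeff b =
      if b ≤ N then G.coeff (expo (N - b, b)) else 0 := by
  have hdeg : ∀ m : Fin 2 →₀ ℕ, m.degree = m 0 + m 1 := by
    intro m
    conv_lhs => rw [← expo_surj m, expo_degree]
  rw [hensQ_map, finsetSum_coeff]
  simp only [coeff_monomial]
  by_cases hb : b ≤ N
  · rw [if_pos hb, Finset.sum_eq_single (expo (N - b, b))]
    · rw [expo_one, if_pos rfl]
      by_cases hm : expo (N - b, b) ∈ G.support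
      · rw [(he _ hm).mpr (by rw [expo_degree]; simp only; omega), pow_zero, one_mul]
      · rw [MvPolynomial.notMem_support_iff.mp hm, mul_zero]
    · intro m hm hne
      split_ifs with h1
      · have h0 : e m ≠ 0 := by
          intro h0
          have h2 := (he m hm).mp h0
          apply hne
          rw [hdeg] at h2
          rw [← expo_surj m]
          congr 2
          omega
        rw [zero_pow h0, zero_mul]
      · rfl
    · intro hm
      rw [MvPolynomial.notMem_support_iff.mp hm, mul_zero]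
      split_ifs <;> rfl
  · rw [if_neg hb]
    refine Finset.sum_eq_zero fun m hm => ?_
    split_ifs with h1
    · have h0 : e m ≠ 0 := by
        intro h0
        have h2 := (he m hm).mp h0
        rw [hdeg] at h2
        omega
      rw [zero_pow h0, zero_mul]
    · rfl

theorem hens_lev_eq (a b : LaurentSeries k) (G : MvPolynomial (Fin 2) k) :
    lev a b G = ∑ m ∈ G.support, HahnSeries.C (G.coeff m) * (a ^ (m 0) * b ^ (m 1)) := by
  unfold lev
  rw [MvPolynomial.coe_eval₂Hom, MvPolynomial.eval₂_eq']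
  refine Finset.sum_congr rfl fun m _ => ?_
  rw [Fin.prod_univ_two]
  rfl

theorem hens_lvP (P : Fin 2 → k) (η : PowerSeries k) (C : MvPolynomial (Fin 2) k) :
    lvP P η C = lev (ss k) (ss k * HahnSeries.ofPowerSeries ℤ k η) (tr P C) := by
  have h : lvP P η = (lev (ss k) (ss k * HahnSeries.ofPowerSeries ℤ k η)).comp
      (tr P : MvPolynomial (Fin 2) k →+* MvPolynomial (Fin 2) k) := by
    apply MvPolynomial.ringHom_ext
    · intro r
      simp [lvP, lev]
    · intro i
      fin_cases i
      · simp [lvP, lev, add_comm]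
      · simp [lvP, lev, add_comm]
  exact DFunLike.congr_fun h C

theorem exists_branch_lead (P : Fin 2 → k) (M : ℕ) (C : MvPolynomial (Fin 2) k)
    (hC : C ∈ Iord P M) (z : k) (h0 : (lfp M P C).eval z = 0)
    (h1 : (derivative (lfp M P C)).eval z ≠ 0) :
    ∃ η : PowerSeries k, PowerSeries.constantCoeff η = z ∧ lvP P η C = 0 := by
  rw [mem_Iord'] at hC
  have hsup : ∀ m ∈ (tr P C).support, M ≤ m.degree := by
    intro m hm
    by_contra h
    exact MvPolynomial.mem_support_iff.mp hm (hC m (by omega))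
  have hmap : (hensQ (tr P C) fun m => m.degree - M).map PowerSeries.constantCoeff =
      lfp M P C := by
    ext b
    rw [hensQ_coeff (tr P C) _ M (fun m hm => by have := hsup m hm; omega) b]
    unfold lfp
    rw [finsetSum_coeff]
    simp only [coeff_monomial]
    rw [Finset.sum_ite_eq']
    simp only [Finset.mem_range]
    by_cases hb : b ≤ M
    · rw [if_pos hb, if_pos (by omega)]
    · rw [if_neg hb, if_neg (by omega)]
  obtain ⟨η, hη, hη0⟩ := hensel_ps (hensQ (tr P C) fun m => m.degree - M) z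
    (by rw [hmap]; exact h0) (by rw [hmap]; exact h1)
  refine ⟨η, hη0, ?_⟩
  have key : lvP P η C = ss k ^ M * HahnSeries.ofPowerSeries ℤ k
      ((hensQ (tr P C) fun m => m.degree - M).eval η) := by
    rw [hens_lvP, hens_lev_eq, hensQ_eval, map_sum, Finset.mul_sum]
    refine Finset.sum_congr rfl fun m hm => ?_
    have hd : m.degree = m 0 + m 1 := by
      conv_lhs => rw [← expo_surj m, expo_degree]
    have hM := hsup m hm
    obtain ⟨r, hr⟩ := Nat.exists_eq_add_of_le hM
    have hr2 : m.degree - M = r := by omega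
    rw [hr2, map_mul, map_mul, map_pow, map_pow, HahnSeries.ofPowerSeries_X,
      HahnSeries.ofPowerSeries_C, mul_pow]
    have e : ss k ^ (m 0) * ss k ^ (m 1) = ss k ^ M * ss k ^ r := by
      rw [← pow_add, ← pow_add, ← hd, hr]
    linear_combination (HahnSeries.C (MvPolynomial.coeff m (tr P C)) *
      (HahnSeries.ofPowerSeries ℤ k η) ^ (m 1)) * e
  rw [key, hη, map_zero, mul_zero]

theorem exists_branch_simple (x₀ : k) (C : MvPolynomial (Fin 2) k) (z : k)
    (h0 : (vres x₀ C).eval z = 0) (h1 : (derivative (vres x₀ C)).eval z ≠ 0) :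
    ∃ η : PowerSeries k, PowerSeries.constantCoeff η = z ∧ lvX x₀ η C = 0 := by
  let ψ : MvPolynomial (Fin 2) k →+* Polynomial (PowerSeries k) :=
    MvPolynomial.eval₂Hom ((Polynomial.C : PowerSeries k →+* Polynomial (PowerSeries k)).comp
      (PowerSeries.C : k →+* PowerSeries k))
      ![Polynomial.C (PowerSeries.C x₀ + PowerSeries.X), Polynomial.X]
  have hmap : (Polynomial.mapRingHom (PowerSeries.constantCoeff : PowerSeries k →+* k)).comp ψ =
      (vres x₀ : MvPolynomial (Fin 2) k →+* Polynomial k) := by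
    apply MvPolynomial.ringHom_ext
    · intro r
      simp [ψ, vres]
    · intro i
      fin_cases i
      · simp [ψ, vres]
      · simp [ψ, vres]
  have hmap' : (ψ C).map PowerSeries.constantCoeff = vres x₀ C := DFunLike.congr_fun hmap C
  obtain ⟨η, hη, hη0⟩ := hensel_ps (ψ C) z (by rw [hmap']; exact h0) (by rw [hmap']; exact h1)
  refine ⟨η, hη0, ?_⟩
  have hlv : lvX x₀ η = ((HahnSeries.ofPowerSeries ℤ k).comp (Polynomial.evalRingHom η)).comp ψ := by
    apply MvPolynomial.ringHom_ext
    · intro r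
      simp [ψ, lvX, lev]
    · intro i
      fin_cases i
      · simp [ψ, lvX, lev]
      · simp [ψ, lvX, lev]
  rw [hlv]
  show HahnSeries.ofPowerSeries ℤ k ((ψ C).eval η) = 0
  rw [hη, map_zero]

theorem exists_branch_top (d : ℕ) (C : MvPolynomial (Fin 2) k) (hC : C ∈ Vd k d) (z : k)
    (h0 : (topp d C).eval z = 0) (h1 : (derivative (topp d C)).eval z ≠ 0) :
    ∃ η : PowerSeries k, PowerSeries.constantCoeff η = z ∧ lvI η C = 0 := by
  have hsup : ∀ m ∈ C.support, m.degree ≤ d := by
    intro m hm
    rw [mem_Vd] at hC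
    exact (MvPolynomial.le_totalDegree hm).trans hC
  have hmap : (hensQ C fun m => d - m.degree).map PowerSeries.constantCoeff = topp d C := by
    ext b
    rw [hensQ_coeff C _ d (fun m hm => by have := hsup m hm; omega) b]
    unfold topp
    rw [finsetSum_coeff]
    simp only [coeff_monomial]
    rw [Finset.sum_ite_eq']
    simp only [Finset.mem_range]
    by_cases hb : b ≤ d
    · rw [if_pos hb, if_pos (by omega)]
    · rw [if_neg hb, if_neg (by omega)]
  obtain ⟨η, hη, hη0⟩ := hensel_ps (hensQ C fun m => d - m.degree) z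
    (by rw [hmap]; exact h0) (by rw [hmap]; exact h1)
  refine ⟨η, hη0, ?_⟩
  set τ : LaurentSeries k := HahnSeries.single (-1) 1 with hτ
  have hτs : τ * ss k = 1 := by
    rw [hτ, HahnSeries.single_mul_single]
    simp
  have key : lvI η C = τ ^ d * HahnSeries.ofPowerSeries ℤ k
      ((hensQ C fun m => d - m.degree).eval η) := by
    rw [show lvI η C = lev τ (τ * HahnSeries.ofPowerSeries ℤ k η) C from rfl, hens_lev_eq,
      hensQ_eval, map_sum, Finset.mul_sum]
    refine Finset.sum_congr rfl fun m hm => ?_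
    have hd : m.degree = m 0 + m 1 := by
      conv_lhs => rw [← expo_surj m, expo_degree]
    have hM := hsup m hm
    obtain ⟨r, hr⟩ := Nat.exists_eq_add_of_le hM
    have hr2 : d - m.degree = r := by omega
    rw [hr2, map_mul, map_mul, map_pow, map_pow, HahnSeries.ofPowerSeries_X,
      HahnSeries.ofPowerSeries_C, mul_pow]
    have e : τ ^ (m 0) * τ ^ (m 1) = τ ^ d * ss k ^ r := by
      rw [← pow_add, ← hd, hr, pow_add, mul_assoc, ← mul_pow, hτs, one_pow, mul_one]
    linear_combination (HahnSeries.C (MvPolynomial.coeff m C) *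
      (HahnSeries.ofPowerSeries ℤ k η) ^ (m 1)) * e
  rw [key, hη, map_zero, mul_zero]

end Pool.Agent.H92.RP
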