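import Mathlib
import Pool.Agent.H92.RP.Defs

set_option autoImplicit false

/-!
# RP-H1: the function field of a plane curve

`C ∈ k[X, Y]` prime of total degree `≤ n` with nonzero coefficient at `Y^n`, i.e.
`(topp n C).natDegree = n`, `n ≥ 1`.

PROOF of `exists_model`.  Let `toBi : MvPolynomial (Fin 2) k ≃ₐ[k] k[X][Y]`, `X 0 ↦ C X`,
`X 1 ↦ X` (bijective; e.g. `MvPolynomial.aeval ![C X, X]` with inverse built from
`Polynomial.eval₂`, or `MvPolynomial.finSuccEquiv`).  `toBi C` has degree `n` in `Y` with leading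
coefficient the constant `c := C.coeff (Y^n) ≠ 0` (total degree `≤ n`), so
`F := C(c⁻¹) * toBi C` is monic, prime, hence irreducible over `RatFunc k` (Gauss lemma,
`Polynomial.Monic.irreducible_iff_irreducible_map_fraction_map`).
`K := AdjoinRoot (F.map (algebraMap k[X] (RatFunc k)))` with
`φ := MvPolynomial.aeval ![algebraMap k[X] K X, root]`.
* `x`: by definition.  `finrank`: `n` (power basis).  `adj`: `AdjoinRoot.adjoinRoot_eq_top`.
* `ker`: `φ P = 0` iff `F.map` divides `(toBi P).map`; for monic `F` this is equivalent to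
  `F ∣ toBi P` (`Polynomial.map_dvd_map`/ division with remainder by the monic `F`), i.e. `C ∣ P`.
* `integral`: `F` is a monic equation.
* `deriv`: `minpoly (RatFunc k) root = F.map`, its derivative at the root is
  `c⁻¹ φ (pderiv 1 C)`.
* `elim`: if `C ∤ P` then `F.map` and `(toBi P).map` are coprime over `RatFunc k` (irreducible, not
  dividing), so there are `A, B` with `A F + B P = 1`; clear denominators.
* `surj`: every element of `K` is `∑ r_i root^i`, `r_i ∈ RatFunc k`; common denominator.
-/

namespace Pool.Agent.H92.RP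

open Polynomial Pool.Agent.H13

/-- `K` is the function field of the curve `C = 0`, of degree `n` over `k(X)`. -/
structure IsModel {k K : Type} [Field k] [Field K] [Algebra k K] [Algebra k[X] K]
    [IsScalarTower k k[X] K] [Algebra (RatFunc k) K] [IsScalarTower k[X] (RatFunc k) K]
    (n : ℕ) (C : MvPolynomial (Fin 2) k) (φ : MvPolynomial (Fin 2) k →ₐ[k] K) : Prop where
  x : φ (MvPolynomial.X 0) = algebraMap k[X] K X
  ker : ∀ P, φ P = 0 ↔ C ∣ P
  finrank : Module.finrank (RatFunc k) K = n
  adj : Algebra.adjoin (RatFunc k) {φ (MvPolynomial.X 1)} = ⊤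
  integral : IsIntegral k[X] (φ (MvPolynomial.X 1))
  deriv : ∃ c : k, c ≠ 0 ∧
    aeval (φ (MvPolynomial.X 1)) (derivative (minpoly (RatFunc k) (φ (MvPolynomial.X 1)))) =
      algebraMap k K c * φ (MvPolynomial.pderiv 1 C)
  elim : ∀ P, ¬ C ∣ P → ∃ (s : k[X]) (A B : MvPolynomial (Fin 2) k), s ≠ 0 ∧
    aeval (MvPolynomial.X 0) s = A * P + B * C
  surj : ∀ a : K, ∃ (s : k[X]) (A : MvPolynomial (Fin 2) k), s ≠ 0 ∧
    algebraMap k[X] K s * a = φ A

theorem model_coeff {k : Type} [Field k] (P : MvPolynomial (Fin 2) k) (i j : ℕ) :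
    (((Bivariate.equivMvPolynomial k).symm P).coeff i).coeff j = P.coeff (expo (j, i)) := by
  induction P using MvPolynomial.induction_on' with
  | monomial s a =>
    have h1 : MvPolynomial.monomial s a = MvPolynomial.C a *
        (MvPolynomial.X 0 ^ s 0 * MvPolynomial.X 1 ^ s 1 : MvPolynomial (Fin 2) k) := by
      rw [MvPolynomial.monomial_eq, Finsupp.prod_fintype _ _ (fun _ => pow_zero _),
        Fin.prod_univ_two]
    have h2 : (Bivariate.equivMvPolynomial k).symm (MvPolynomial.monomial s a) =
        C (C a * X ^ s 0) * X ^ s 1 := by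
      rw [h1]
      simp only [map_mul, map_pow, Bivariate.equivMvPolynomial_symm_C,
        Bivariate.equivMvPolynomial_symm_X_0, Bivariate.equivMvPolynomial_symm_X_1]
      ring
    rw [h2, coeff_C_mul_X_pow, MvPolynomial.coeff_monomial]
    by_cases hi : i = s 1
    · rw [if_pos hi, coeff_C_mul_X_pow]
      by_cases hj : j = s 0
      · rw [if_pos hj, if_pos]
        rw [hi, hj]
        exact (expo_surj s).symm
      · rw [if_neg hj, if_neg]
        intro h
        apply hj
        rw [h, expo_zero]
    · rw [if_neg hi, coeff_zero, if_neg]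
      intro h
      apply hi
      rw [h, expo_one]
  | add p q hp hq =>
    rw [map_add, coeff_add, coeff_add, MvPolynomial.coeff_add, hp, hq]

theorem model_aeval {k : Type} [Field k] (s : k[X]) :
    (Bivariate.equivMvPolynomial k) (C s) = aeval (MvPolynomial.X 0) s := by
  induction s using Polynomial.induction_on' with
  | add p q hp hq => rw [C_add, map_add, map_add, hp, hq]
  | monomial m a =>
    rw [← C_mul_X_pow_eq_monomial, C_mul, C_pow, map_mul, map_pow, map_mul, map_pow]
    simp [MvPolynomial.algebraMap_eq]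

theorem exists_model {k : Type} [Field k] (n : ℕ) (hn : 0 < n) (C : MvPolynomial (Fin 2) k)
    (hd : C ∈ Vd k n) (ht : (topp n C).natDegree = n) (hC : Prime C) :
    ∃ (K : Type) (_ : Field K) (_ : Algebra k K) (_ : Algebra k[X] K)
      (_ : IsScalarTower k k[X] K) (_ : Algebra (RatFunc k) K)
      (_ : IsScalarTower k[X] (RatFunc k) K) (_ : FiniteDimensional (RatFunc k) K)
      (φ : MvPolynomial (Fin 2) k →ₐ[k] K), IsModel n C φ := by
  set E := Bivariate.equivMvPolynomial k with hE
  set D := E.symm C with hD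
  have hdeg : ∀ i j, n < i + j → (D.coeff i).coeff j = 0 := by
    intro i j hij
    rw [hD, hE, model_coeff]
    by_contra h
    have h1 := MvPolynomial.le_totalDegree (MvPolynomial.mem_support_iff.mpr h)
    have h2 : (expo (j, i)).sum (fun _ e => e) = j + i := expo_degree (j, i)
    rw [h2] at h1
    have h3 := mem_Vd.mp hd
    omega
  set c₀ := C.coeff (expo (0, n)) with hc₀
  have hc0 : c₀ ≠ 0 := by
    have h1 : (topp n C).coeff n ≠ 0 := by
      have h2 : (topp n C).coeff (topp n C).natDegree ≠ 0 := by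
        rw [coeff_natDegree, Ne, leadingCoeff_eq_zero]
        intro h
        rw [h, natDegree_zero] at ht
        omega
      rwa [ht] at h2
    have h2 : (topp n C).coeff n = c₀ := by
      unfold topp
      rw [finsetSum_coeff, Finset.sum_eq_single n]
      · rw [coeff_monomial, if_pos rfl, Nat.sub_self]
      · intro b _ hb
        rw [coeff_monomial, if_neg hb]
      · intro h
        exact absurd (Finset.mem_range.mpr (Nat.lt_succ_self n)) h
    rwa [h2] at h1
  have hDn : D.coeff n = Polynomial.C c₀ := by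
    ext j
    rcases Nat.eq_zero_or_pos j with h | h
    · subst h
      rw [coeff_C_zero, hD, hE, model_coeff]
    · rw [hdeg n j (by omega), coeff_C, if_neg h.ne']
  have hDdeg : D.natDegree ≤ n := by
    rw [natDegree_le_iff_coeff_eq_zero]
    intro i hi
    ext j
    rw [hdeg i j (by omega), coeff_zero]
  set u : k[X][X] := Polynomial.C (Polynomial.C c₀⁻¹) with hu
  have huu : IsUnit u := by
    have h1 : IsUnit (c₀⁻¹) := (inv_ne_zero hc0).isUnit
    exact (h1.map Polynomial.C).map Polynomial.C
  set F := u * D with hF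
  have hFn : F.coeff n = 1 := by
    rw [hF, hu, coeff_C_mul, hDn, ← Polynomial.C_mul, inv_mul_cancel₀ hc0, Polynomial.C_1]
  have hFdeg : F.natDegree ≤ n := by
    rw [hF, hu]
    exact (natDegree_C_mul_le _ _).trans hDdeg
  have hFm : F.Monic := monic_of_natDegree_le_of_coeff_eq_one n hFdeg hFn
  have hFnd : F.natDegree = n := by
    refine le_antisymm hFdeg (le_natDegree_of_ne_zero ?_)
    rw [hFn]
    exact one_ne_zero
  have hDp : Prime D := (MulEquiv.prime_iff E.symm).mpr hC
  have hassoc : Associated D F := by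
    rw [hF, mul_comm]
    exact (associated_mul_unit_right D u huu)
  have hFp : Prime F := hassoc.prime hDp
  set G := F.map (algebraMap k[X] (RatFunc k)) with hG
  have hGi : Irreducible G := (hFm.irreducible_iff_irreducible_map_fraction_map).mp hFp.irreducible
  have hGm : G.Monic := hFm.map _
  have hG0 : G ≠ 0 := hGm.ne_zero
  have hinj : Function.Injective (algebraMap k[X] (RatFunc k)) := IsFractionRing.injective _ _
  have : Fact (Irreducible G) := ⟨hGi⟩
  have hfin : FiniteDimensional (RatFunc k) (AdjoinRoot G) := (AdjoinRoot.powerBasis hG0).finite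
  set φ : MvPolynomial (Fin 2) k →ₐ[k] AdjoinRoot G :=
    ((aeval (R := k[X]) (AdjoinRoot.root G)).restrictScalars k).comp E.symm.toAlgHom with hφ
  have hφ1 : ∀ P, φ P = aeval (AdjoinRoot.root G) (E.symm P) := fun P => rfl
  have hφ2 : ∀ Q : k[X][X], aeval (AdjoinRoot.root G) Q =
      AdjoinRoot.mk G (Q.map (algebraMap k[X] (RatFunc k))) := by
    intro Q
    rw [← AdjoinRoot.aeval_eq, aeval_map_algebraMap]
  have hφE : ∀ Q : k[X][X], φ (E Q) = aeval (AdjoinRoot.root G) Q := by
    intro Q
    rw [hφ1, AlgEquiv.symm_apply_apply]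
  have hX1 : φ (MvPolynomial.X 1) = AdjoinRoot.root G := by
    rw [hφ1, hE, Bivariate.equivMvPolynomial_symm_X_1, aeval_X]
  have hroot : aeval (AdjoinRoot.root G) F = 0 := by
    rw [hφ2, AdjoinRoot.mk_self]
  have hker : ∀ P, G ∣ (E.symm P).map (algebraMap k[X] (RatFunc k)) ↔ C ∣ P := by
    intro P
    rw [hG, map_dvd_map _ hinj hFm, ← hassoc.dvd_iff_dvd_left, hD]
    exact map_dvd_iff E.symm
  have hmin : minpoly (RatFunc k) (AdjoinRoot.root G) = G := by
    rw [AdjoinRoot.minpoly_root hG0, hGm.leadingCoeff, inv_one, Polynomial.C_1, mul_one]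
  refine ⟨AdjoinRoot G, inferInstance, inferInstance, inferInstance, inferInstance, inferInstance,
    inferInstance, hfin, φ, ?_⟩
  refine ⟨?_, ?_, ?_, ?_, ?_, ?_, ?_, ?_⟩
  · rw [hφ1, hE, Bivariate.equivMvPolynomial_symm_X_0, aeval_C]
  · intro P
    rw [hφ1, hφ2, AdjoinRoot.mk_eq_zero, hker]
  · rw [(AdjoinRoot.powerBasis hG0).finrank, AdjoinRoot.powerBasis_dim, hG,
      natDegree_map_eq_of_injective hinj, hFnd]
  · rw [hX1]
    exact AdjoinRoot.adjoinRoot_eq_top
  · rw [hX1]
    refine ⟨F, hFm, ?_⟩
    rw [← aeval_def]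
    exact hroot
  · refine ⟨c₀⁻¹, inv_ne_zero hc0, ?_⟩
    rw [hX1, hmin]
    have h1 : derivative G = (derivative F).map (algebraMap k[X] (RatFunc k)) := by
      rw [hG, derivative_map]
    have h2 : derivative F = u * derivative D := by
      rw [hF, hu, derivative_C_mul]
    have h3 : derivative D = E.symm (MvPolynomial.pderiv 1 C) := by
      rw [AlgEquiv.eq_symm_apply, hE, ← Bivariate.pderiv_one_equivMvPolynomial, hD, hE,
        AlgEquiv.apply_symm_apply]
    rw [h1, aeval_map_algebraMap, h2, map_mul, h3, ← hφ1]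
    congr 1
    rw [hu, aeval_C]
    exact (IsScalarTower.algebraMap_apply k k[X] (AdjoinRoot G) c₀⁻¹).symm
  · intro P hP
    have hnd : ¬ G ∣ (E.symm P).map (algebraMap k[X] (RatFunc k)) := fun h => hP ((hker P).mp h)
    obtain ⟨a, b, hab⟩ := (hGi.coprime_iff_not_dvd).mpr hnd
    obtain ⟨s₁, hs₁, ha⟩ := IsLocalization.integerNormalization_spec (nonZeroDivisors k[X]) a
    obtain ⟨s₂, hs₂, hb⟩ := IsLocalization.integerNormalization_spec (nonZeroDivisors k[X]) b
    set a' := IsLocalization.integerNormalization (nonZeroDivisors k[X]) a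
    set b' := IsLocalization.integerNormalization (nonZeroDivisors k[X]) b
    have hs₁0 : s₁ ≠ 0 := nonZeroDivisors.ne_zero hs₁
    have hs₂0 : s₂ ≠ 0 := nonZeroDivisors.ne_zero hs₂
    have h1 : Polynomial.C s₂ * a' * F + Polynomial.C s₁ * b' * E.symm P =
        Polynomial.C (s₁ * s₂) := by
      apply Polynomial.map_injective _ hinj
      rw [Polynomial.map_add, Polynomial.map_mul _ (q := F), Polynomial.map_mul _ (q := a'),
        Polynomial.map_mul _ (q := E.symm P), Polynomial.map_mul _ (q := b'),
        ha, hb, Polynomial.map_C, Polynomial.map_C, Polynomial.map_C,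
        ← hG, algebra_compatible_smul (RatFunc k) s₁, algebra_compatible_smul (RatFunc k) s₂,
        smul_eq_C_mul, smul_eq_C_mul, map_mul, Polynomial.C_mul]
      linear_combination (Polynomial.C (algebraMap k[X] (RatFunc k) s₁) *
        Polynomial.C (algebraMap k[X] (RatFunc k) s₂)) * hab
    have h2 := congrArg E h1
    rw [map_add, map_mul E _ F, map_mul E _ (E.symm P), AlgEquiv.apply_symm_apply, hF,
      map_mul E u D, hD, AlgEquiv.apply_symm_apply] at h2
    have h3 : E (Polynomial.C (s₁ * s₂)) = aeval (MvPolynomial.X 0) (s₁ * s₂) := model_aeval _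
    rw [h3] at h2
    exact ⟨s₁ * s₂, E (Polynomial.C s₁ * b'), E (Polynomial.C s₂ * a') * E u,
      mul_ne_zero hs₁0 hs₂0, by rw [← h2]; ring⟩
  · intro a
    obtain ⟨p, rfl⟩ := AdjoinRoot.mk_surjective a
    obtain ⟨s, hs, hp⟩ := IsLocalization.integerNormalization_spec (nonZeroDivisors k[X]) p
    refine ⟨s, E (IsLocalization.integerNormalization (nonZeroDivisors k[X]) p),
      nonZeroDivisors.ne_zero hs, ?_⟩
    rw [hφE, hφ2, hp, algebra_compatible_smul (RatFunc k) s, smul_eq_C_mul, map_mul]
    rfl

end Pool.Agent.H92.RP
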