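import Mathlib
import Pool.Agent.H92.RP.Model
import Pool.Agent.H92.RP.Laur

set_option autoImplicit false

/-!
# RP-H2: homomorphisms out of the function field

PROOFS.
* `phi_aeval`: `φ (aeval (X 0) s) = algebraMap k[X] K s`: both sides are `k`-algebra homomorphisms
  in `s` agreeing at `X` (`IsModel.x`; `IsScalarTower.toAlgHom k k[X] K`).
* `exists_lift`: first `θ P = 0 ↔ C ∣ P`: if `C ∣ P` then `θ P = 0`; if `C ∤ P` take
  `s = A P + B C` (`IsModel.elim`): `θ P = 0` would give `θ (aeval (X 0) s) = 0`, against `htr`.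
  So `θ` factors through the image of `φ`: define `σ a := θ A / θ (aeval (X 0) s)` for
  `algebraMap s * a = φ A` (`IsModel.surj`), well defined and a ring homomorphism because `φ` and
  `θ` have the same kernel.  Slicker: let `R := φ.range` (a subring of `K`), `K` is a fraction
  field of `R` (`surj`), `θ` induces an injective homomorphism `R → L`
  (`RingHom` lift through `φ`, surjective onto `R`), and `IsFractionRing.lift` extends it.
* `tr_series`: for a nonzero polynomial `s` and `a = x₀ + s` (a Laurent series of the form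
  constant + `ss`) or `a = s⁻¹` the value `s(a)` is nonzero: by `a - x₀` having order `1`
  (respectively `a` having order `-1`): take the lowest (highest) coefficient, or use that
  `s(a) = 0` implies `a` algebraic over the (image of) `k`, impossible since a nonzero polynomial
  relation has a unique term of lowest order.
* `lift_fin`, `lift_inf`: `exists_lift` with `θ = lev a b`.
-/

namespace Pool.Agent.H92.RP

open Polynomial Pool.Agent.H13

variable {k K : Type} [Field k] [Field K] [Algebra k K] [Algebra k[X] K]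
  [IsScalarTower k k[X] K] [Algebra (RatFunc k) K] [IsScalarTower k[X] (RatFunc k) K]
  {n : ℕ} {C : MvPolynomial (Fin 2) k} {φ : MvPolynomial (Fin 2) k →ₐ[k] K}

theorem phi_aeval (h : IsModel n C φ) (s : k[X]) :
    φ (aeval (MvPolynomial.X 0) s) = algebraMap k[X] K s := by
  have e : φ.comp (aeval (MvPolynomial.X 0 : MvPolynomial (Fin 2) k))
      = IsScalarTower.toAlgHom k k[X] K := by
    apply Polynomial.algHom_ext
    rw [AlgHom.comp_apply, aeval_X, h.x]
    rfl
  exact DFunLike.congr_fun e s

omit [Algebra k[X] K] [IsScalarTower k k[X] K] [Algebra (RatFunc k) K]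
  [IsScalarTower k[X] (RatFunc k) K] in
theorem lift_phi_C (φ : MvPolynomial (Fin 2) k →ₐ[k] K) (c : k) :
    φ (MvPolynomial.C c) = algebraMap k K c := by
  rw [← MvPolynomial.algebraMap_eq]
  exact φ.commutes c

theorem phi_integral (h : IsModel n C φ) (P : MvPolynomial (Fin 2) k) :
    IsIntegral k[X] (φ P) := by
  induction P using MvPolynomial.induction_on with
  | C a =>
    rw [lift_phi_C, IsScalarTower.algebraMap_apply k k[X] K]
    exact isIntegral_algebraMap
  | add p q hp hq =>
    rw [map_add]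
    exact hp.add hq
  | mul_X p i hp =>
    rw [map_mul]
    refine hp.mul ?_
    fin_cases i
    · change IsIntegral k[X] (φ (MvPolynomial.X 0))
      rw [h.x]
      exact isIntegral_algebraMap
    · exact h.integral

theorem exists_lift (h : IsModel n C φ) {L : Type} [Field L]
    (θ : MvPolynomial (Fin 2) k →+* L) (hC : θ C = 0)
    (htr : ∀ s : k[X], s ≠ 0 → θ (aeval (MvPolynomial.X 0) s) ≠ 0) :
    ∃ σ : K →+* L, ∀ P, σ (φ P) = θ P := by
  classical
  have hker : ∀ P, φ P = 0 → θ P = 0 := by
    intro P hP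
    obtain ⟨Q, rfl⟩ := (h.ker P).1 hP
    rw [map_mul, hC, zero_mul]
  have hker2 : ∀ P, θ P = 0 → φ P = 0 := by
    intro P hP
    by_contra hne
    have hnd : ¬ C ∣ P := fun hd => hne ((h.ker P).2 hd)
    obtain ⟨s, A, B, hs, e⟩ := h.elim P hnd
    apply htr s hs
    rw [e, map_add, map_mul, map_mul, hP, hC, mul_zero, mul_zero, add_zero]
  let f : MvPolynomial (Fin 2) k →+* φ.range := φ.rangeRestrict.toRingHom
  have hf : Function.Surjective f := φ.rangeRestrict_surjective
  have hfv : ∀ P, ((f P : φ.range) : K) = φ P := fun P => rfl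
  have hle : RingHom.ker f ≤ RingHom.ker θ := by
    intro P hP
    rw [RingHom.mem_ker] at hP ⊢
    apply hker
    rw [← hfv, hP]
    rfl
  let g : φ.range →+* L := RingHom.liftOfSurjective f hf ⟨θ, hle⟩
  have hg : ∀ P, g (f P) = θ P := fun P => RingHom.liftOfSurjective_comp_apply f hf ⟨θ, hle⟩ P
  have hginj : Function.Injective g := by
    rw [injective_iff_map_eq_zero]
    intro a ha
    obtain ⟨P, rfl⟩ := hf a
    rw [hg] at ha
    apply Subtype.ext
    rw [hfv, hker2 P ha]
    rfl
  have hfrac : IsFractionRing φ.range K := by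
    refine (isLocalization_iff _ _).2 ⟨?_, ?_, ?_⟩
    · rintro ⟨y, hy⟩
      have : (y : φ.range) ≠ 0 := nonZeroDivisors.ne_zero hy
      refine IsUnit.mk0 _ fun h0 => this (Subtype.ext h0)
    · intro z
      obtain ⟨s, A, hs, e⟩ := h.surj z
      have hsne : f (aeval (MvPolynomial.X 0) s) ≠ 0 := by
        intro h0
        apply htr s hs
        rw [← hg, h0, map_zero]
      refine ⟨(f A, ⟨f (aeval (MvPolynomial.X 0) s), mem_nonZeroDivisors_of_ne_zero hsne⟩), ?_⟩
      change z * φ (aeval (MvPolynomial.X 0) s) = φ A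
      rw [phi_aeval h, ← e, mul_comm]
    · intro x y hxy
      exact ⟨1, by rw [Subtype.ext hxy]⟩
  refine ⟨IsFractionRing.lift hginj, fun P => ?_⟩
  have e := IsFractionRing.lift_algebraMap (K := K) hginj (f P)
  rw [hg] at e
  exact e

theorem lift_single_ne {m : ℤ} (hm : m ≠ 0) (p : k[X]) (hp : p ≠ 0) :
    p.eval₂ (HahnSeries.C : k →+* LaurentSeries k) (HahnSeries.single m 1) ≠ 0 := by
  intro h0
  have h1 : (p.eval₂ (HahnSeries.C : k →+* LaurentSeries k) (HahnSeries.single m 1)).coeff
      (p.natDegree • m) = p.leadingCoeff := by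
    rw [Polynomial.eval₂_eq_sum_range, HahnSeries.coeff_sum,
      Finset.sum_eq_single_of_mem p.natDegree (Finset.mem_range.2 (Nat.lt_succ_self _))]
    · rw [HahnSeries.single_pow, HahnSeries.C_mul_eq_smul, HahnSeries.coeff_smul,
        HahnSeries.coeff_single_same, one_pow, smul_eq_mul, mul_one]
      rfl
    · intro i _ hi
      rw [HahnSeries.single_pow, HahnSeries.C_mul_eq_smul, HahnSeries.coeff_smul,
        HahnSeries.coeff_single_of_ne, smul_zero]
      intro e
      apply hi
      rw [nsmul_eq_mul, nsmul_eq_mul] at e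
      exact_mod_cast (mul_right_cancel₀ hm e).symm
  rw [h0, HahnSeries.coeff_zero] at h1
  exact hp (Polynomial.leadingCoeff_eq_zero.1 h1.symm)

theorem lift_lev_aeval (a b : LaurentSeries k) (s : k[X]) :
    lev a b (aeval (MvPolynomial.X 0) s) = s.eval₂ (HahnSeries.C : k →+* LaurentSeries k) a := by
  have e : (lev a b).comp (aeval (MvPolynomial.X 0 : MvPolynomial (Fin 2) k)).toRingHom
      = Polynomial.eval₂RingHom (HahnSeries.C : k →+* LaurentSeries k) a := by
    apply Polynomial.ringHom_ext
    · intro c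
      simp [lev, MvPolynomial.algebraMap_eq]
    · simp [lev]
  exact DFunLike.congr_fun e s

theorem lift_lev_X0 (a b : LaurentSeries k) : lev a b (MvPolynomial.X 0) = a := by
  simp [lev]

theorem lift_lev_C (a b : LaurentSeries k) (c : k) : lev a b (MvPolynomial.C c) = HahnSeries.C c := by
  simp [lev]

theorem lift_shift_ne (x₀ : k) (p : k[X]) (hp : p ≠ 0) :
    p.eval₂ (HahnSeries.C : k →+* LaurentSeries k) (HahnSeries.C x₀ + ss k) ≠ 0 := by
  have hq : p.comp (X + Polynomial.C x₀) ≠ 0 := by
    intro h0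
    apply hp
    have : (p.comp (X + Polynomial.C x₀)).comp (X - Polynomial.C x₀) = p := by
      rw [Polynomial.comp_assoc]
      simp
    rw [← this, h0, Polynomial.zero_comp]
  have h1 := lift_single_ne (k := k) (m := 1) one_ne_zero _ hq
  rw [Polynomial.eval₂_comp] at h1
  have e : (X + Polynomial.C x₀).eval₂ (HahnSeries.C : k →+* LaurentSeries k)
      (HahnSeries.single 1 1) = HahnSeries.C x₀ + ss k := by
    rw [Polynomial.eval₂_add, Polynomial.eval₂_X, Polynomial.eval₂_C, add_comm]
  rwa [e] at h1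

theorem lift_of_gen (h : IsModel n C φ) (a b : LaurentSeries k) (hb : lev a b C = 0)
    (hne : ∀ p : k[X], p ≠ 0 → p.eval₂ (HahnSeries.C : k →+* LaurentSeries k) a ≠ 0) :
    ∃ σ : K →+* LaurentSeries k, (∀ P, σ (φ P) = lev a b P) ∧
      (∀ c : k, σ (algebraMap k K c) = HahnSeries.C c) ∧
      σ (algebraMap k[X] K X) = a := by
  obtain ⟨σ, hσ⟩ := exists_lift h (lev a b) hb (fun s hs => by
    rw [lift_lev_aeval]
    exact hne s hs)
  refine ⟨σ, hσ, fun c => ?_, ?_⟩
  · rw [← lift_phi_C φ, hσ, lift_lev_C]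
  · rw [← h.x, hσ, lift_lev_X0]

theorem lift_fin (h : IsModel n C φ) (x₀ : k) (b : LaurentSeries k)
    (hb : lev (HahnSeries.C x₀ + ss k) b C = 0) :
    ∃ σ : K →+* LaurentSeries k, (∀ P, σ (φ P) = lev (HahnSeries.C x₀ + ss k) b P) ∧
      (∀ c : k, σ (algebraMap k K c) = HahnSeries.C c) ∧
      σ (algebraMap k[X] K X) = HahnSeries.C x₀ + ss k :=
  lift_of_gen h _ b hb (lift_shift_ne x₀)

theorem lift_inf (h : IsModel n C φ) (b : LaurentSeries k)
    (hb : lev (HahnSeries.single (-1) 1) b C = 0) :
    ∃ σ : K →+* LaurentSeries k, (∀ P, σ (φ P) = lev (HahnSeries.single (-1) 1) b P) ∧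
      (∀ c : k, σ (algebraMap k K c) = HahnSeries.C c) ∧
      σ (algebraMap k[X] K X) = HahnSeries.single (-1) 1 :=
  lift_of_gen h _ b hb (lift_single_ne (by norm_num))

end Pool.Agent.H92.RP
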