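import Mathlib
import Pool.Agent.H13.Genus
import Pool.Agent.H92.RP.Hensel
import Pool.Agent.H92.RP.Lift

set_option autoImplicit false

/-!
# RP-F3: a function with vanishing differential along a curve is constant along it

Let `g` be a prime polynomial with `g_Y ≠ 0`, and `c, f` polynomials, `g ∤ f`, such that `g` divides
`A = f c_X - M c f_X` and `B = f c_Y - M c f_Y`.  Then `g ∣ c + θ f^M` for some constant `θ`.

PROOF.  `g ∤ g_Y` (smaller degree: `totalDegree_pderiv_le`, `not_dvd_of_totalDegree_lt`), so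
`g ∤ g_Y f` (prime) and there is a point `a ∈ k²` with `g(a) = 0`, `g_Y(a) f(a) ≠ 0`
(`exists_points` in `H13/Genus.lean`).  `exists_branch_simple` (`vres_pderiv1`) gives
`η ∈ k[[s]]`, `η(0) = a 1`, `g(a 0 + s, η) = 0`; write `G^♭ = G(a 0 + s, η) ∈ k[[s]]` for the
restriction to the branch.  It is a ring homomorphism with
`d/ds G^♭ = (G_X)^♭ + (G_Y)^♭ η'` (induction over `G`; `PowerSeries.derivativeFun`/`PowerSeries.d⁄dX`).
`f^♭` has constant term `f(a) ≠ 0`, so it is invertible; let `h = c^♭ / (f^♭)^M`.
`(f^♭)^(M+1) h' = f^♭ (c^♭)' - M c^♭ (f^♭)' = A^♭ + B^♭ η' = 0`, so `h' = 0` and `h = - θ` is constant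
(characteristic `0`; coefficients).  So `(c + θ f^M)^♭ = 0`.
Finally `G^♭ = 0` implies `g ∣ G`: otherwise `g` and `G` are coprime in `k[X,Y]`; `g` has positive
degree in `Y`; Gauss: coprime in `k(X)[Y]`, so there is `0 ≠ s ∈ k[X]` in the ideal `(g, G)`, and
then `s(a 0 + s) = 0` in `k[[s]]`, impossible.
-/

namespace Pool.Agent.H92.RP

open Pool.Agent.H13

variable {k : Type} [Field k] [IsAlgClosed k] [CharZero k]

omit [IsAlgClosed k] [CharZero k] in
theorem constg_dvd (g G : MvPolynomial (Fin 2) k) (hg : Prime g)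
    (hgY : MvPolynomial.pderiv 1 g ≠ 0) (x₀ : k) (η : PowerSeries k)
    (h0 : lvX x₀ η g = 0) (h1 : lvX x₀ η G = 0) : g ∣ G := by
  open Polynomial in
  by_contra hP
  set E := Bivariate.equivMvPolynomial k with hE
  set D := E.symm g with hD
  have hEg : E D = g := E.apply_symm_apply g
  have hDp : Prime D := (MulEquiv.prime_iff E.symm).mpr hg
  have hDd : D.natDegree ≠ 0 := by
    intro h
    apply hgY
    have h2 := Bivariate.pderiv_one_equivMvPolynomial (R := k) D
    rw [← hE, hEg] at h2
    rw [h2, derivative_of_natDegree_zero h, map_zero]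
  have hprim : D.IsPrimitive := hDp.irreducible.isPrimitive hDd
  set D' := D.map (algebraMap k[X] (RatFunc k)) with hD'
  have hinj : Function.Injective (algebraMap k[X] (RatFunc k)) := IsFractionRing.injective _ _
  have hGi : Irreducible D' :=
    (hprim.irreducible_iff_irreducible_map_fraction_map (K := RatFunc k)).mp hDp.irreducible
  have hnd : ¬ D' ∣ (E.symm G).map (algebraMap k[X] (RatFunc k)) := by
    intro h
    apply hP
    have h2 : D ∣ E.symm G :=
      (hprim.dvd_iff_fraction_map_dvd_fraction_map (K := RatFunc k)).mpr h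
    exact (map_dvd_iff E.symm).mp h2
  obtain ⟨a, b, hab⟩ := (hGi.coprime_iff_not_dvd).mpr hnd
  obtain ⟨s₁, hs₁, ha⟩ := IsLocalization.integerNormalization_spec (nonZeroDivisors k[X]) a
  obtain ⟨s₂, hs₂, hb⟩ := IsLocalization.integerNormalization_spec (nonZeroDivisors k[X]) b
  set a' := IsLocalization.integerNormalization (nonZeroDivisors k[X]) a
  set b' := IsLocalization.integerNormalization (nonZeroDivisors k[X]) b
  have hs₁0 : s₁ ≠ 0 := nonZeroDivisors.ne_zero hs₁
  have hs₂0 : s₂ ≠ 0 := nonZeroDivisors.ne_zero hs₂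
  have h2 : Polynomial.C s₂ * a' * D + Polynomial.C s₁ * b' * E.symm G =
      Polynomial.C (s₁ * s₂) := by
    apply Polynomial.map_injective _ hinj
    rw [Polynomial.map_add, Polynomial.map_mul _ (q := D), Polynomial.map_mul _ (q := a'),
      Polynomial.map_mul _ (q := E.symm G), Polynomial.map_mul _ (q := b'),
      ha, hb, Polynomial.map_C, Polynomial.map_C, Polynomial.map_C,
      ← hD', algebra_compatible_smul (RatFunc k) s₁, algebra_compatible_smul (RatFunc k) s₂,
      smul_eq_C_mul, smul_eq_C_mul, map_mul, Polynomial.C_mul]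
    linear_combination (Polynomial.C (algebraMap k[X] (RatFunc k) s₁) *
      Polynomial.C (algebraMap k[X] (RatFunc k) s₂)) * hab
  have h3 := congrArg E h2
  rw [map_add, map_mul E _ D, map_mul E _ (E.symm G), hEg, AlgEquiv.apply_symm_apply] at h3
  have h4 : E (Polynomial.C (s₁ * s₂)) = aeval (MvPolynomial.X 0) (s₁ * s₂) := model_aeval _
  rw [h4] at h3
  have h5 := congrArg (lvX x₀ η) h3
  rw [map_add, map_mul (lvX x₀ η) _ g, map_mul (lvX x₀ η) _ G, h0, h1, mul_zero, mul_zero,
    add_zero, lift_lev_aeval] at h5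
  exact lift_shift_ne x₀ (s₁ * s₂) (mul_ne_zero hs₁0 hs₂0) h5.symm

/-- restriction to the branch -/
noncomputable def constg_β (x₀ : k) (η : PowerSeries k) :
    MvPolynomial (Fin 2) k →ₐ[k] PowerSeries k :=
  MvPolynomial.aeval ![PowerSeries.C x₀ + PowerSeries.X, η]

omit [IsAlgClosed k] [CharZero k] in
theorem constg_β_X0 (x₀ : k) (η : PowerSeries k) :
    constg_β x₀ η (MvPolynomial.X 0) = PowerSeries.C x₀ + PowerSeries.X := by
  simp [constg_β]

omit [IsAlgClosed k] [CharZero k] in
theorem constg_β_X1 (x₀ : k) (η : PowerSeries k) :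
    constg_β x₀ η (MvPolynomial.X 1) = η := by
  simp [constg_β]

omit [IsAlgClosed k] [CharZero k] in
theorem constg_β_C (x₀ : k) (η : PowerSeries k) (c : k) :
    constg_β x₀ η (MvPolynomial.C c) = PowerSeries.C c := by
  unfold constg_β
  rw [MvPolynomial.aeval_C]
  rfl

omit [IsAlgClosed k] [CharZero k] in
theorem constg_lvX (x₀ : k) (η : PowerSeries k) (G : MvPolynomial (Fin 2) k) :
    lvX x₀ η G = HahnSeries.ofPowerSeries ℤ k (constg_β x₀ η G) := by
  have e : lvX x₀ η = (HahnSeries.ofPowerSeries ℤ k).comp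
      (constg_β x₀ η : MvPolynomial (Fin 2) k →+* PowerSeries k) := by
    apply MvPolynomial.ringHom_ext
    · intro c
      rw [RingHom.comp_apply]
      change _ = HahnSeries.ofPowerSeries ℤ k (constg_β x₀ η (MvPolynomial.C c))
      rw [constg_β_C, lift_lev_C, HahnSeries.ofPowerSeries_C]
    · intro i
      rw [RingHom.comp_apply]
      change _ = HahnSeries.ofPowerSeries ℤ k (constg_β x₀ η (MvPolynomial.X i))
      fin_cases i
      · change lvX x₀ η (MvPolynomial.X 0) = HahnSeries.ofPowerSeries ℤ k
          (constg_β x₀ η (MvPolynomial.X 0))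
        rw [constg_β_X0, lift_lev_X0, map_add, HahnSeries.ofPowerSeries_C,
          HahnSeries.ofPowerSeries_X]
      · change lvX x₀ η (MvPolynomial.X 1) = HahnSeries.ofPowerSeries ℤ k
          (constg_β x₀ η (MvPolynomial.X 1))
        rw [constg_β_X1]
        simp [lev]
  exact DFunLike.congr_fun e G

omit [IsAlgClosed k] [CharZero k] in
theorem constg_deriv (x₀ : k) (η : PowerSeries k) (G : MvPolynomial (Fin 2) k) :
    PowerSeries.derivative k (constg_β x₀ η G) =
      constg_β x₀ η (MvPolynomial.pderiv 0 G) +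
        constg_β x₀ η (MvPolynomial.pderiv 1 G) * PowerSeries.derivative k η := by
  induction G using MvPolynomial.induction_on with
  | C c => rw [constg_β_C]; simp
  | add p q hp hq =>
    simp only [map_add, hp, hq]
    ring
  | mul_X p i hp =>
    rw [map_mul, Derivation.leibniz, hp, smul_eq_mul, smul_eq_mul, Derivation.leibniz,
      Derivation.leibniz, smul_eq_mul, smul_eq_mul, smul_eq_mul, smul_eq_mul, map_add, map_add,
      map_mul, map_mul, map_mul, map_mul]
    fin_cases i
    · change constg_β x₀ η p * PowerSeries.derivative k (constg_β x₀ η (MvPolynomial.X 0)) +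
        constg_β x₀ η (MvPolynomial.X 0) * _ = _ * constg_β x₀ η (MvPolynomial.pderiv 0
          (MvPolynomial.X 0)) + constg_β x₀ η (MvPolynomial.X 0) * _ +
          (_ * constg_β x₀ η (MvPolynomial.pderiv 1 (MvPolynomial.X 0)) +
            constg_β x₀ η (MvPolynomial.X 0) * _) * _
      rw [constg_β_X0, MvPolynomial.pderiv_X_self, MvPolynomial.pderiv_X_of_ne (by decide)]
      simp
      ring
    · change constg_β x₀ η p * PowerSeries.derivative k (constg_β x₀ η (MvPolynomial.X 1)) +
        constg_β x₀ η (MvPolynomial.X 1) * _ = _ * constg_β x₀ η (MvPolynomial.pderiv 0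
          (MvPolynomial.X 1)) + constg_β x₀ η (MvPolynomial.X 1) * _ +
          (_ * constg_β x₀ η (MvPolynomial.pderiv 1 (MvPolynomial.X 1)) +
            constg_β x₀ η (MvPolynomial.X 1) * _) * _
      rw [constg_β_X1, MvPolynomial.pderiv_X_self, MvPolynomial.pderiv_X_of_ne (by decide)]
      simp
      ring

theorem const_on_curve (g c f : MvPolynomial (Fin 2) k) (hg : Prime g)
    (hgY : MvPolynomial.pderiv 1 g ≠ 0) (hgf : ¬ g ∣ f) (M : ℕ)
    (hA : g ∣ f * MvPolynomial.pderiv 0 c - (M : MvPolynomial (Fin 2) k) * c *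
      MvPolynomial.pderiv 0 f)
    (hB : g ∣ f * MvPolynomial.pderiv 1 c - (M : MvPolynomial (Fin 2) k) * c *
      MvPolynomial.pderiv 1 f) :
    ∃ θ : k, g ∣ c + MvPolynomial.C θ * f ^ M := by
  have hu : ¬ g ∣ MvPolynomial.pderiv 1 g * f := by
    intro h
    rcases hg.dvd_or_dvd h with h | h
    · refine not_dvd_of_totalDegree_lt hgY ?_ h
      have h1 := totalDegree_pderiv_le 1 g
      have h2 := totalDegree_pos_of_prime hg
      omega
    · exact hgf h
  obtain ⟨Q, hQ0, hQ1⟩ := (infinite_points hg hu).nonempty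
  have hQe : ![Q 0, Q 1] = Q := by
    funext i
    fin_cases i <;> rfl
  rw [map_mul] at hQ1
  have hQY := left_ne_zero_of_mul hQ1
  have hQf := right_ne_zero_of_mul hQ1
  obtain ⟨η, hη, hηg⟩ := exists_branch_simple (Q 0) g (Q 1) (by rw [vres_eval, hQe, hQ0])
    (by rw [← vres_pderiv1, vres_eval, hQe]; exact hQY)
  set β := constg_β (Q 0) η with hβ
  have hβg : β g = 0 := by
    rw [constg_lvX] at hηg
    exact (map_eq_zero_iff _ HahnSeries.ofPowerSeries_injective).mp hηg
  have hdvd : ∀ G, g ∣ G → β G = 0 := by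
    rintro G ⟨q, rfl⟩
    rw [map_mul, hβg, zero_mul]
  have hconst : ∀ G, PowerSeries.constantCoeff (β G) = MvPolynomial.eval Q G := by
    intro G
    rw [hβ]
    induction G using MvPolynomial.induction_on with
    | C c => rw [constg_β_C]; simp
    | add p q hp hq => rw [map_add, map_add, map_add, hp, hq]
    | mul_X p i hp =>
      rw [map_mul, map_mul, map_mul, hp]
      congr 1
      fin_cases i
      · change PowerSeries.constantCoeff (constg_β (Q 0) η (MvPolynomial.X 0)) =
          MvPolynomial.eval Q (MvPolynomial.X 0)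
        rw [constg_β_X0]
        simp
      · change PowerSeries.constantCoeff (constg_β (Q 0) η (MvPolynomial.X 1)) =
          MvPolynomial.eval Q (MvPolynomial.X 1)
        rw [constg_β_X1, hη]
        simp
  set F := β f with hF
  have hF0 : PowerSeries.constantCoeff F ≠ 0 := by rw [hF, hconst]; exact hQf
  have hFne : F ≠ 0 := by
    intro h
    rw [h, map_zero] at hF0
    exact hF0 rfl
  set v := F⁻¹ with hv
  have hFv : F * v = 1 := PowerSeries.mul_inv_cancel F hF0
  set d := PowerSeries.derivative k with hd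
  set h := β c * v ^ M with hh
  have hhc : h * F ^ M = β c := by
    rw [hh, mul_assoc, ← mul_pow, mul_comm v F, hFv, one_pow, mul_one]
  have hnum : F * d (β c) - M * β c * d F = 0 := by
    have e1 := hdvd _ hA
    have e2 := hdvd _ hB
    rw [map_sub, map_mul, map_mul, map_mul, map_natCast] at e1 e2
    rw [hF, hd, hβ, constg_deriv, constg_deriv, ← hβ]
    linear_combination e1 + e2 * PowerSeries.derivative k η
  have hdh : d h = 0 := by
    have e1 := congrArg d hhc
    rw [Derivation.leibniz, smul_eq_mul, smul_eq_mul] at e1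
    have e2 : F * d (F ^ M) = M * F ^ M * d F := by
      rw [Derivation.leibniz_pow]
      rcases M with _ | m
      · simp
      · simp only [Nat.add_sub_cancel, nsmul_eq_mul, smul_eq_mul]
        rw [pow_succ]
        ring
    have e3 : F ^ (M + 1) * d h = 0 := by
      rw [pow_succ]
      linear_combination F * e1 - h * e2 + hnum - (M * d F) * hhc
    rcases mul_eq_zero.mp e3 with e4 | e4
    · exact absurd ((pow_eq_zero_iff (Nat.succ_ne_zero M)).mp e4) hFne
    · exact e4
  obtain ⟨θ, hθ⟩ : ∃ θ : k, h = PowerSeries.C θ := by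
    refine ⟨PowerSeries.constantCoeff h, ?_⟩
    ext n
    rcases n with _ | n
    · simp
    · have e1 := congrArg (PowerSeries.coeff n) hdh
      rw [hd, PowerSeries.coeff_derivative, map_zero] at e1
      have e2 : ((n : k) + 1) ≠ 0 := by exact_mod_cast Nat.succ_ne_zero n
      have e3 := (mul_eq_zero.mp e1).resolve_right e2
      rw [e3, PowerSeries.coeff_C, if_neg (Nat.succ_ne_zero n)]
  refine ⟨-θ, ?_⟩
  apply constg_dvd g _ hg hgY (Q 0) η hηg
  rw [constg_lvX, map_add, map_mul, map_pow, constg_β_C, ← hβ, ← hF, ← hhc, hθ, map_neg]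
  simp

end Pool.Agent.H92.RP
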