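import Mathlib
import Pool.Agent.H92.RP.ConstG
import Pool.Agent.H92.RP.BaseCh

set_option autoImplicit false

/-!
# RP-F4: Bertini: members of a pencil `c + τ f^M` with transcendental `τ` are smooth off `f = 0`

`hY`: the polynomial `B = f c_Y - M c f_Y` does not vanish identically on any vertical line.

PROOF.  Suppose `Q ∈ k₁²` has `f(Q) ≠ 0`, `C(Q) = 0`, `C_X(Q) = C_Y(Q) = 0`,
`C = c + τ f^M`.  Let `A = f c_X - M c f_X`, `B = f c_Y - M c f_Y ∈ k[X, Y]`.  From
`C_X = c_X + τ M f^(M-1) f_X` and `τ f^M = - c` at `Q`: `A(Q) = f c_X - M c f_X = 0`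
(multiply `f C_X` out: `f C_X = f c_X + τ M f^M f_X = f c_X - M c f_X`), similarly `B(Q) = 0`.
(0) If both coordinates of `Q` are in `k` then `τ = - c(Q)/f(Q)^M ∈ k`, contradiction with `hτ`.
(1) `B ≠ 0` by `hY`.  Let `g` be a prime factor of `B` vanishing at `Q`.  Claim: `g` divides every
    `G ∈ k[X,Y]` with `G(Q) = 0`.  Otherwise `g` and `G` have only finitely many common zeros in
    `k²` (Bezout), so by the Nullstellensatz a power of `∏ (X_j - s_j)` (over these zeros) is in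
    `(g, G)` and both coordinates of `Q` are in `k`, excluded by (0).
(2) `g_Y ≠ 0`: otherwise `g` is a polynomial in `X` alone (characteristic `0`), so
    `Q 0 ∈ k` and `B(Q 0, Y) ≠ 0` (`hY`) vanishes at `Q 1`, so `Q 1 ∈ k`, excluded by (0).
    `g ∤ f` since `f(Q) ≠ 0`.
(3) `const_on_curve`: `g ∣ c + θ f^M`, so `c(Q) + θ f(Q)^M = 0 = c(Q) + τ f(Q)^M` and `τ = θ`,
    contradiction.
-/

namespace Pool.Agent.H92.RP

open Pool.Agent.H13

variable {k k₁ : Type} [Field k] [IsAlgClosed k] [CharZero k] [Field k₁] [Algebra k k₁]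

omit [CharZero k] in
theorem SmoothC_root_mem (p : Polynomial k) (hp : p ≠ 0) (x : k₁)
    (hx : Polynomial.eval₂ (algebraMap k k₁) x p = 0) : x ∈ Set.range (algebraMap k k₁) := by
  have hs : (p.map (algebraMap k k₁)).Splits := (IsAlgClosed.splits p).map _
  have hr := (IsAlgClosed.splits p).roots_map (algebraMap k k₁)
  have hx' : x ∈ (p.map (algebraMap k k₁)).roots := by
    rw [Polynomial.mem_roots (Polynomial.map_ne_zero hp), Polynomial.IsRoot, Polynomial.eval_map]
    exact hx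
  rw [hr, Multiset.mem_map] at hx'
  obtain ⟨a, _, ha⟩ := hx'
  exact ⟨a, ha⟩

/-- evaluation of polynomials over `k` at a point of `k₁²` -/
noncomputable def SmoothC_ev (k : Type) {k₁ : Type} [Field k] [Field k₁] [Algebra k k₁]
    (Q : Fin 2 → k₁) : MvPolynomial (Fin 2) k →+* k₁ :=
  (MvPolynomial.eval Q).comp (bm k k₁)

omit [IsAlgClosed k] [CharZero k] in
theorem SmoothC_ev_X (Q : Fin 2 → k₁) (i : Fin 2) :
    SmoothC_ev k Q (MvPolynomial.X i) = Q i := by
  simp [SmoothC_ev, bm]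

omit [IsAlgClosed k] [CharZero k] in
theorem SmoothC_ev_C (Q : Fin 2 → k₁) (a : k) :
    SmoothC_ev k Q (MvPolynomial.C a) = algebraMap k k₁ a := by
  simp [SmoothC_ev, bm]

omit [IsAlgClosed k] [CharZero k] in
/-- finitely many common zeros -/
theorem SmoothC_finite (g G : MvPolynomial (Fin 2) k) (hg : Prime g) (hG : ¬ g ∣ G) :
    {P : Fin 2 → k | MvPolynomial.eval P g = 0 ∧ MvPolynomial.eval P G = 0}.Finite := by
  by_contra h
  obtain ⟨t, ht, htc⟩ := Set.Infinite.exists_subset_card_eq h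
    (g.totalDegree * G.totalDegree + 1)
  have e := t.equivFinOfCardEq htc
  have := bezout_points (fun i : Fin (g.totalDegree * G.totalDegree + 1) => (e.symm i).1)
    (fun a b hab => e.symm.injective (Subtype.ext hab)) g G _ _ hg rfl le_rfl hG (fun _ => 1 * 1)
    (fun i => LocalGe.of_mem (mem_Iord_one.2 (ht (e.symm i).2).1) (mem_Iord_one.2 (ht (e.symm i).2).2))
  simp at this

/-- a prime vanishing at a point outside `k²` divides every polynomial vanishing there -/
theorem SmoothC_dvd (g G : MvPolynomial (Fin 2) k) (hg : Prime g) (Q : Fin 2 → k₁)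
    (hgQ : SmoothC_ev k Q g = 0) (hGQ : SmoothC_ev k Q G = 0)
    (hQ : ¬ ∀ i, Q i ∈ Set.range (algebraMap k k₁)) : g ∣ G := by
  by_contra hG
  apply hQ
  intro j
  have hfin := SmoothC_finite g G hg hG
  have hmem : ∏ P ∈ hfin.toFinset, (MvPolynomial.X j - MvPolynomial.C (P j)) ∈
      (Ideal.span {g, G}).radical := by
    rw [← MvPolynomial.vanishingIdeal_zeroLocus_eq_radical (K := k)]
    intro P hP
    rw [MvPolynomial.mem_zeroLocus_iff] at hP
    have h1 : MvPolynomial.eval P g = 0 := by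
      have := hP g (Ideal.subset_span (by simp))
      rwa [MvPolynomial.aeval_eq_eval] at this
    have h2 : MvPolynomial.eval P G = 0 := by
      have := hP G (Ideal.subset_span (by simp))
      rwa [MvPolynomial.aeval_eq_eval] at this
    have hPm : P ∈ hfin.toFinset := by
      rw [Set.Finite.mem_toFinset]; exact ⟨h1, h2⟩
    rw [MvPolynomial.aeval_eq_eval]
    change MvPolynomial.eval P _ = 0
    rw [map_prod, Finset.prod_eq_zero hPm (by simp)]
  obtain ⟨N, hN⟩ := hmem
  have h0 : SmoothC_ev k Q ((∏ P ∈ hfin.toFinset,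
      (MvPolynomial.X j - MvPolynomial.C (P j))) ^ N) = 0 := by
    rw [Ideal.mem_span_pair] at hN
    obtain ⟨a, b, hab⟩ := hN
    rw [← hab, map_add, map_mul, map_mul, hgQ, hGQ, mul_zero, mul_zero, add_zero]
  rw [map_pow] at h0
  have h1 := eq_zero_of_pow_eq_zero h0
  rw [map_prod, Finset.prod_eq_zero_iff] at h1
  obtain ⟨P, _, hP⟩ := h1
  rw [map_sub, SmoothC_ev_X, SmoothC_ev_C, sub_eq_zero] at hP
  exact ⟨P j, hP.symm⟩

omit [IsAlgClosed k] in
/-- a polynomial with `G_Y = 0` is a polynomial in `X` -/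
theorem SmoothC_inX (G : MvPolynomial (Fin 2) k) (h : MvPolynomial.pderiv 1 G = 0) :
    ∃ p : Polynomial k, G = Polynomial.aeval (MvPolynomial.X 0) p := by
  have h0 : ∀ s ∈ G.support, s 1 = 0 := by
    intro s hs
    by_contra hne
    have h1 := congrArg (MvPolynomial.coeff (s - Finsupp.single 1 1)) h
    rw [MvPolynomial.coeff_pderiv, MvPolynomial.coeff_zero] at h1
    have h2 : s - Finsupp.single 1 1 + Finsupp.single 1 1 = s := by
      apply tsub_add_cancel_of_le
      rw [Finsupp.single_le_iff]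
      omega
    rw [h2] at h1
    rcases mul_eq_zero.1 h1 with h3 | h3
    · exact (MvPolynomial.mem_support_iff.1 hs) h3
    · have h4 : (((s - Finsupp.single 1 1 : Fin 2 →₀ ℕ) 1 : ℕ) + 1 : k) ≠ 0 :=
        Nat.cast_add_one_ne_zero _
      exact h4 h3
  refine ⟨∑ s ∈ G.support, Polynomial.monomial (s 0) (MvPolynomial.coeff s G), ?_⟩
  rw [map_sum]
  conv_lhs => rw [G.as_sum]
  refine Finset.sum_congr rfl fun s hs => ?_
  rw [Polynomial.aeval_monomial, MvPolynomial.monomial_eq, Finsupp.prod_fintype _ _ (by simp)]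
  rw [Fin.prod_univ_two, h0 s hs, pow_zero, mul_one]
  rfl

omit [IsAlgClosed k] [CharZero k] in
/-- evaluation at a point of `k²` -/
theorem SmoothC_ev_bp (P : Fin 2 → k) (G : MvPolynomial (Fin 2) k) :
    SmoothC_ev k (bp k₁ P) G = algebraMap k k₁ (MvPolynomial.eval P G) :=
  bm_eval P G

omit [IsAlgClosed k] [CharZero k] in
theorem SmoothC_vres (x₀ : k) (Q : Fin 2 → k₁) (hx : algebraMap k k₁ x₀ = Q 0)
    (G : MvPolynomial (Fin 2) k) :
    SmoothC_ev k Q G = Polynomial.eval₂ (algebraMap k k₁) (Q 1) (vres x₀ G) := by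
  have h : SmoothC_ev k Q = (Polynomial.eval₂RingHom (algebraMap k k₁) (Q 1)).comp
      (vres x₀ : MvPolynomial (Fin 2) k →+* Polynomial k) := by
    apply MvPolynomial.ringHom_ext
    · intro a
      rw [SmoothC_ev_C]
      simp [vres]
    · intro i
      rw [SmoothC_ev_X]
      fin_cases i
      · simp [vres, hx]
      · simp [vres]
  rw [h]
  rfl

omit [IsAlgClosed k] [CharZero k] in
/-- the equation for the partial derivatives -/
theorem SmoothC_eq (c f : MvPolynomial (Fin 2) k) (M : ℕ) (τ : k₁) (Q : Fin 2 → k₁) (i : Fin 2)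
    (hQ : MvPolynomial.eval Q (bm k k₁ c + MvPolynomial.C τ * bm k k₁ f ^ M) = 0)
    (hd : MvPolynomial.eval Q (MvPolynomial.pderiv i
        (bm k k₁ c + MvPolynomial.C τ * bm k k₁ f ^ M)) = 0) :
    SmoothC_ev k Q (f * MvPolynomial.pderiv i c - (M : MvPolynomial (Fin 2) k) * c *
      MvPolynomial.pderiv i f) = 0 := by
  simp only [SmoothC_ev, RingHom.comp_apply, map_sub, map_mul, map_natCast]
  rw [← bm_pderiv, ← bm_pderiv]
  rw [map_add, MvPolynomial.pderiv_C_mul, MvPolynomial.pderiv_pow] at hd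
  simp only [map_add, map_mul, map_pow, map_natCast, MvPolynomial.eval_C] at hQ hd
  rcases M with _ | M
  · simp at hd ⊢
    right; exact hd
  · simp only [Nat.add_sub_cancel] at hd
    linear_combination (MvPolynomial.eval Q (bm k k₁ f)) * hd -
      ((M + 1 : ℕ) : k₁) * (MvPolynomial.eval Q (MvPolynomial.pderiv i (bm k k₁ f))) * hQ

theorem smooth_pencil (c f : MvPolynomial (Fin 2) k) (M : ℕ)
    (hY : ∀ x₀ : k, vres x₀ (f * MvPolynomial.pderiv 1 c - (M : MvPolynomial (Fin 2) k) * c *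
      MvPolynomial.pderiv 1 f) ≠ 0)
    (τ : k₁) (hτ : τ ∉ Set.range (algebraMap k k₁)) (Q : Fin 2 → k₁)
    (hf : MvPolynomial.eval Q (bm k k₁ f) ≠ 0)
    (hQ : MvPolynomial.eval Q (bm k k₁ c + MvPolynomial.C τ * bm k k₁ f ^ M) = 0) :
    MvPolynomial.eval Q (MvPolynomial.pderiv 0
        (bm k k₁ c + MvPolynomial.C τ * bm k k₁ f ^ M)) ≠ 0 ∨
      MvPolynomial.eval Q (MvPolynomial.pderiv 1
        (bm k k₁ c + MvPolynomial.C τ * bm k k₁ f ^ M)) ≠ 0 := by
  by_contra hcon
  push Not at hcon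
  obtain ⟨hd0, hd1⟩ := hcon
  have hA := SmoothC_eq c f M τ Q 0 hQ hd0
  have hB := SmoothC_eq c f M τ Q 1 hQ hd1
  set A := f * MvPolynomial.pderiv 0 c - (M : MvPolynomial (Fin 2) k) * c *
      MvPolynomial.pderiv 0 f with hAdef
  set B := f * MvPolynomial.pderiv 1 c - (M : MvPolynomial (Fin 2) k) * c *
      MvPolynomial.pderiv 1 f with hBdef
  have hQ' : SmoothC_ev k Q c + τ * SmoothC_ev k Q f ^ M = 0 := by
    simpa [SmoothC_ev] using hQ
  have hf' : SmoothC_ev k Q f ≠ 0 := hf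
  -- (0)
  have h0 : ¬ ∀ i, Q i ∈ Set.range (algebraMap k k₁) := by
    intro h
    choose P hP using h
    have hPQ : bp k₁ P = Q := funext hP
    rw [← hPQ, SmoothC_ev_bp, SmoothC_ev_bp] at hQ'
    rw [← hPQ, SmoothC_ev_bp] at hf'
    apply hτ
    refine ⟨- MvPolynomial.eval P c / MvPolynomial.eval P f ^ M, ?_⟩
    rw [map_div₀, map_neg, map_pow, div_eq_iff (pow_ne_zero _ hf')]
    linear_combination -hQ'
  have hB0 : B ≠ 0 := by
    intro h
    apply hY 0
    rw [h, map_zero]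
  -- the prime `g`
  have hbot : RingHom.ker (SmoothC_ev k Q) ≠ ⊥ := by
    intro h
    have : B ∈ RingHom.ker (SmoothC_ev k Q) := hB
    rw [h, Ideal.mem_bot] at this
    exact hB0 this
  obtain ⟨g, hgm, hg⟩ := (RingHom.ker_isPrime (SmoothC_ev k Q)).exists_mem_prime_of_ne_bot hbot
  have hgQ : SmoothC_ev k Q g = 0 := hgm
  have hgA := SmoothC_dvd g A hg Q hgQ hA h0
  have hgB := SmoothC_dvd g B hg Q hgQ hB h0
  have hgY : MvPolynomial.pderiv 1 g ≠ 0 := by
    intro h
    obtain ⟨p, hp⟩ := SmoothC_inX g h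
    have hp0 : p ≠ 0 := by
      rintro rfl
      rw [map_zero] at hp
      exact hg.ne_zero hp
    have hpQ : Polynomial.eval₂ (algebraMap k k₁) (Q 0) p = 0 := by
      rw [hp, Polynomial.aeval_def, Polynomial.hom_eval₂, SmoothC_ev_X] at hgQ
      have e : (SmoothC_ev k Q).comp (algebraMap k (MvPolynomial (Fin 2) k)) =
          algebraMap k k₁ := by
        ext a
        exact SmoothC_ev_C Q a
      rwa [e] at hgQ
    obtain ⟨x₀, hx₀⟩ := SmoothC_root_mem p hp0 (Q 0) hpQ
    have h1 := SmoothC_vres x₀ Q hx₀ B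
    rw [hB] at h1
    have h2 := SmoothC_root_mem _ (hY x₀) (Q 1) h1.symm
    apply h0
    intro i
    fin_cases i
    · exact ⟨x₀, hx₀⟩
    · exact h2
  have hgf : ¬ g ∣ f := by
    rintro ⟨u, hu⟩
    apply hf'
    rw [hu, map_mul, hgQ, zero_mul]
  obtain ⟨θ, hθ⟩ := const_on_curve g c f hg hgY hgf M hgA hgB
  obtain ⟨u, hu⟩ := hθ
  have h1 := congrArg (SmoothC_ev k Q) hu
  rw [map_add, map_mul, map_mul, map_pow, SmoothC_ev_C, hgQ, zero_mul] at h1
  apply hτ
  refine ⟨θ, ?_⟩
  have h2 : (algebraMap k k₁ θ - τ) * SmoothC_ev k Q f ^ M = 0 := by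
    linear_combination h1 - hQ'
  rcases mul_eq_zero.1 h2 with h3 | h3
  · exact sub_eq_zero.1 h3
  · exact absurd h3 (pow_ne_zero _ hf')

end Pool.Agent.H92.RP
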