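import Mathlib
import Pool.Agent.H92.RP.Pencil
import Pool.Agent.H92.RP.SepL
import Pool.Agent.H92.RP.PrimeC
import Pool.Agent.H92.RP.SmoothC

set_option autoImplicit false

/-!
# RP-F5: facts about the pencil over `k` and the curve `C_τ = c + τ f₀^M` over `k₁`

`PenData` collects the properties of `c` (existence: `exists_pencil`).  Write `t i = tt (v i)`,
`P i = PP v i.castSucc = (t² - 1, t³ - t)`, `z i = (3 t² - 1)/(2 t)` (slope of the cubic).

PROOFS.
* `pd_top`: the coefficient of `Y^(3M)` in `c` is `κ ≠ 0` (`rho_coeff`; the product is monic of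
  degree `9M`), `natDegree (topp (3M) c) = 3M`.
* `pd_lead`: `(X - t i)^(M+1) ∤ rho c` (the other factors do not vanish at `t i`), so by
  `rho_lead_iff` `(lfp M (P i) c).eval (z i) ≠ 0`.
* `lfp_f₀`: `lfp 1 (P i) f₀` has the value `f_X + f_Y z` at `z` (`lfp_one`, `f₀_pderiv0/1`),
  `f_Y = 2 (t³ - t) ≠ 0`, and vanishes exactly at `z = z i`.
* `pd_neg`: `c(x_i, -y_i) = rho c (- t i) = κ ∏ (- t i - t j)^M ≠ 0` (`tt_facts`:
  `t i + t j ≠ 0`), since `pt (- t) = (t² - 1, -(t³ - t))`.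
* `pd_hY`: for the hypothesis `hY` of `smooth_pencil`: on the line `X = x₀`, `vres x₀ c` has degree
  `3M` and leading coefficient `κ` (`vres_natDegree`), `vres x₀ f₀ = Z² - x₀² - x₀³`; the coefficient
  of `Z^(3M+1)` of `f c' - M c f'` is `3M κ - 2M κ = M κ ≠ 0`.
-/

namespace Pool.Agent.H92.RP

open Pool.Agent.H13 Polynomial

variable {k : Type} [Field k]

structure PenData (M : ℕ) (v : Fin 10 → k) (c : MvPolynomial (Fin 2) k) (κ : k) : Prop where
  V : VData M v
  deg : c ∈ Vd k (3 * M)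
  van : ∀ i : Fin 9, c ∈ Iord (PP v i.castSucc) M
  κ_ne : κ ≠ 0
  rho : rho k c = C κ * ∏ i : Fin 9, (X - C (tt (v i.castSucc))) ^ M

variable [CharZero k] {M : ℕ} {v : Fin 10 → k} {c : MvPolynomial (Fin 2) k} {κ : k}

omit [CharZero k] in
theorem hck_monic (v : Fin 10 → k) (M : ℕ) :
    (∏ i : Fin 9, (X - C (tt (v i.castSucc))) ^ M).Monic :=
  monic_prod_of_monic _ _ fun _ _ => (monic_X_sub_C _).pow _

omit [CharZero k] in
theorem hck_natDegree (v : Fin 10 → k) (M : ℕ) :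
    (∏ i : Fin 9, (X - C (tt (v i.castSucc))) ^ M).natDegree = 3 * (3 * M) := by
  rw [natDegree_prod_of_monic _ _ fun _ _ => (monic_X_sub_C _).pow _]
  simp only [natDegree_pow, natDegree_X_sub_C, mul_one, Finset.sum_const, Finset.card_univ,
    Fintype.card_fin, smul_eq_mul]
  omega

theorem pd_top (D : PenData M v c κ) : (topp (3 * M) c).natDegree = 3 * M ∧
    (topp (3 * M) c).coeff (3 * M) = κ := by
  have h1 : (topp (3 * M) c).coeff (3 * M) = κ := by
    rw [← rho_coeff (3 * M) c D.deg, D.rho, coeff_C_mul]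
    have h2 := hck_natDegree v M
    rw [← h2, (hck_monic v M).coeff_natDegree, mul_one]
  refine ⟨le_antisymm (topp_natDegree _ _) ?_, h1⟩
  apply le_natDegree_of_ne_zero
  rw [h1]
  exact D.κ_ne

theorem pd_lead (D : PenData M v c κ) (i : Fin 9) :
    (lfp M (PP v i.castSucc) c).eval ((3 * tt (v i.castSucc) ^ 2 - 1) / (2 * tt (v i.castSucc))) ≠
      0 := by
  obtain ⟨_, _, h0, _, _, hinj⟩ := tt_facts D.V
  have h2 : 2 * tt (v i.castSucc) ≠ 0 := mul_ne_zero two_ne_zero (h0 _)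
  intro h
  have h3 := (rho_lead_iff (tt (v i.castSucc)) h2 M c (D.van i)).2 h
  rw [D.rho, ← Finset.mul_prod_erase Finset.univ _ (Finset.mem_univ i), pow_succ,
    mul_left_comm] at h3
  have h4 := (mul_dvd_mul_iff_left (pow_ne_zero M (X_sub_C_ne_zero (tt (v i.castSucc))))).1 h3
  rw [dvd_iff_isRoot, IsRoot, eval_mul, eval_C, eval_prod] at h4
  rcases mul_eq_zero.1 h4 with h5 | h5
  · exact D.κ_ne h5
  · obtain ⟨j, hj, hj0⟩ := Finset.prod_eq_zero_iff.1 h5
    rw [eval_pow, eval_sub, eval_X, eval_C] at hj0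
    have h6 := (pow_eq_zero_iff D.V.M_pos.ne').1 hj0
    have h7 : i.castSucc = j.castSucc := hinj (sub_eq_zero.1 h6)
    exact (Finset.mem_erase.1 hj).1 (Fin.castSucc_injective _ h7).symm

theorem lfp_f₀ (D : PenData M v c κ) (i : Fin 9) (z : k) :
    (lfp 1 (PP v i.castSucc) (f₀ k)).eval z = 0 ↔
      z = (3 * tt (v i.castSucc) ^ 2 - 1) / (2 * tt (v i.castSucc)) := by
  obtain ⟨h1, hm1, h0, _, _, _⟩ := tt_facts D.V
  rw [lfp_one, PP, f₀_pderiv0, f₀_pderiv1]
  set t := tt (v i.castSucc) with ht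
  have e1 : t ^ 2 - 1 ≠ 0 := by
    have : t ^ 2 - 1 = (t - 1) * (t + 1) := by ring
    rw [this]
    refine mul_ne_zero (sub_ne_zero.2 (h1 _)) ?_
    intro h
    exact hm1 i.castSucc (eq_neg_of_add_eq_zero_left h)
  have e2 : t ≠ 0 := h0 _
  have e3 : (2 : k) ≠ 0 := two_ne_zero
  rw [eq_div_iff (mul_ne_zero e3 e2)]
  constructor
  · intro h
    have h2 : (t ^ 2 - 1) * (z * (2 * t) - (3 * t ^ 2 - 1)) = 0 := by linear_combination h
    rcases mul_eq_zero.1 h2 with h3 | h3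
    · exact absurd h3 e1
    · exact sub_eq_zero.1 h3
  · intro h
    linear_combination (t ^ 2 - 1) * h

theorem f₀Y_ne (D : PenData M v c κ) (i : Fin 9) :
    MvPolynomial.eval (PP v i.castSucc) (MvPolynomial.pderiv 1 (f₀ k)) ≠ 0 := by
  obtain ⟨h1, hm1, h0, _, _, _⟩ := tt_facts D.V
  rw [PP, f₀_pderiv1]
  set t := tt (v i.castSucc) with ht
  have e1 : t ^ 3 - t = t * ((t - 1) * (t + 1)) := by ring
  rw [e1]
  refine mul_ne_zero two_ne_zero (mul_ne_zero (h0 _) (mul_ne_zero (sub_ne_zero.2 (h1 _)) ?_))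
  intro h
  exact hm1 i.castSucc (eq_neg_of_add_eq_zero_left h)

theorem pd_y_ne (D : PenData M v c κ) (i : Fin 9) : PP v i.castSucc 1 ≠ 0 := by
  have h := f₀Y_ne D i
  rw [PP, f₀_pderiv1] at h
  intro h0
  apply h
  have h2 : tt (v i.castSucc) ^ 3 - tt (v i.castSucc) = 0 := h0
  rw [h2, mul_zero]

theorem pd_neg (D : PenData M v c κ) (i : Fin 9) :
    MvPolynomial.eval ![PP v i.castSucc 0, - PP v i.castSucc 1] c ≠ 0 := by
  obtain ⟨_, _, _, _, hs, _⟩ := tt_facts D.V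
  have e : (![PP v i.castSucc 0, - PP v i.castSucc 1] : Fin 2 → k) =
      pt (- tt (v i.castSucc)) := by
    funext j
    fin_cases j
    · simp [PP, pt]
    · simp [PP, pt]
      ring
  rw [e, ← rho_eval, D.rho, eval_mul, eval_C, eval_prod]
  refine mul_ne_zero D.κ_ne (Finset.prod_ne_zero_iff.2 fun j _ => ?_)
  rw [eval_pow, eval_sub, eval_X, eval_C]
  apply pow_ne_zero
  intro h
  apply hs i.castSucc j.castSucc
  linear_combination -h

theorem vres_f₀ (v : Fin 10 → k) (i : Fin 9) :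
    vres (PP v i.castSucc 0) (f₀ k) =
      (X - C (PP v i.castSucc 1)) * (X + C (PP v i.castSucc 1)) := by
  have e0 : PP v i.castSucc 0 = tt (v i.castSucc) ^ 2 - 1 := rfl
  have e1 : PP v i.castSucc 1 = tt (v i.castSucc) ^ 3 - tt (v i.castSucc) := rfl
  rw [e0, e1]
  simp only [vres, f₀, map_sub, map_pow, MvPolynomial.aeval_X, Matrix.cons_val_zero,
    Matrix.cons_val_one, C_1]
  ring

theorem pd_hY (D : PenData M v c κ) (x₀ : k) :
    vres x₀ (f₀ k * MvPolynomial.pderiv 1 c - (M : MvPolynomial (Fin 2) k) * c *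
      MvPolynomial.pderiv 1 (f₀ k)) ≠ 0 := by
  have hM := D.V.M_pos
  obtain ⟨h1, h2⟩ := pd_top D
  have hκ : (topp (3 * M) c).coeff (3 * M) ≠ 0 := by
    rw [h2]
    exact D.κ_ne
  obtain ⟨h3, h4⟩ := vres_natDegree x₀ (3 * M) c D.deg hκ
  rw [h2] at h4
  have hf : vres x₀ (f₀ k) = X ^ 2 - C (x₀ ^ 2 + x₀ ^ 3) := by
    simp only [vres, f₀, map_sub, map_pow, MvPolynomial.aeval_X, Matrix.cons_val_zero,
      Matrix.cons_val_one, map_add]
    ring
  have hf' : vres x₀ (MvPolynomial.pderiv 1 (f₀ k)) = C 2 * X := by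
    rw [vres_pderiv1, hf, derivative_sub, derivative_C, sub_zero, derivative_X_pow]
    simp
  rw [map_sub, map_mul, map_mul, map_mul, map_natCast, vres_pderiv1, hf, hf']
  set u := vres x₀ c with hu
  intro h0
  have h5 := congrArg (fun p => coeff p (3 * M + 1)) h0
  simp only [coeff_zero] at h5
  have e1 : (X ^ 2 - C (x₀ ^ 2 + x₀ ^ 3)) * derivative u - (M : k[X]) * u * (C 2 * X) =
      X ^ 2 * derivative u - C (x₀ ^ 2 + x₀ ^ 3) * derivative u - C ((M : k) * 2) * (X * u) := by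
    rw [C_mul, C_eq_natCast]
    ring
  rw [e1, coeff_sub, coeff_sub, coeff_C_mul, coeff_C_mul, coeff_X_mul] at h5
  have e2 : 3 * M + 1 = (3 * M - 1) + 2 := by omega
  rw [e2, coeff_X_pow_mul, ← e2, coeff_derivative, coeff_derivative] at h5
  have e3 : 3 * M - 1 + 1 = 3 * M := by omega
  rw [e3] at h5
  have e4 : u.coeff (3 * M + 1 + 1) = 0 := by
    apply coeff_eq_zero_of_natDegree_lt
    omega
  rw [e4] at h5
  have e5 : ((3 * M - 1 : ℕ) : k) + 1 = 3 * M := by
    have : ((3 * M - 1 : ℕ) : k) + 1 = ((3 * M - 1 + 1 : ℕ) : k) := by push_cast; ring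
    rw [this, e3]
    push_cast
    ring
  rw [leadingCoeff, h3] at h4
  rw [e5, h4] at h5
  have h6 : (M : k) * κ = 0 := by linear_combination h5
  rcases mul_eq_zero.1 h6 with h7 | h7
  · exact hM.ne' (Nat.cast_eq_zero.1 h7)
  · exact D.κ_ne h7

end Pool.Agent.H92.RP
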