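import Mathlib
import Pool.Agent.H92.RP.HCk

set_option autoImplicit false

/-!
# RP-F6: the curve `C_τ = c + τ f₀^M`, `τ` transcendental, satisfies `HCurve`

`CC c M τ = bm c + τ f₀^M` over `k₁`; `P i = bp (PP v i.castSucc) = PP (v over k₁) i.castSucc`
(`PP_map`), `D₁` = the data over `k₁`.

PROOFS, field by field (`VData.map` gives the conditions over `k₁`):
* `deg`: `bm_mem_Vd`, `f₀_mem` and powers.
* `top`: `topp (3M) CC = (topp (3M) c) + τ (-1)^M` (`topp_add`, `topp_C_mul`, `topp_pow`,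
  `topp_f₀`, `topp_bm`): separable by `separable_pencil` with `p = topp c`, `r = (-1)^M` (a unit);
  degree `3M` with leading coefficient `κ` (`M > 0`).
* `xinj`: `PP_xinj` over `k₁`.
* `vanish`: `bm_mem_Iord`, and `f₀ ∈ Iord (P i) 1` so `f₀^M ∈ Iord M`.
* `lead`: `lfp M (P i) CC = lfp M c + τ (lfp 1 f₀)^M` (`lfp_add`, `lfp_C_mul`, `lfp_pow`,
  `lfp_bm`).  Coprime: the only root of `(lfp 1 f₀)^M` is `z i`, not a root of `lfp M c`
  (`pd_lead`, `lfp_f₀`; linear polynomial).  So separable; the coefficient of `Z^M` is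
  `a + τ f_Y^M` with `a ∈ k`, `f_Y ≠ 0`, nonzero since `τ ∉ k`; degree `≤ M` by `lfp_natDegree`.
* `fibre`: `vres (x_i) c = (Z - y_i)^M c̃` (`vres_dvd`), `vres f₀^M = (Z - y_i)^M (Z + y_i)^M`
  (`vres_f₀`), so `R = c̃ + τ (Z + y_i)^M`; coprime because
  `c(x_i, -y_i) = (-2 y_i)^M c̃(-y_i) ≠ 0` (`pd_neg`); `R(y_i) = c̃(y_i) + τ (2 y_i)^M ≠ 0` by
  `not_root_pencil` (`pd_y_ne`).
* `rho CC = rho (bm c) ≠ 0` (`rho_f₀`); `prime`: `prime_of_mult` over `k₁`
  (`CC ∉ Iord (M+1)` because `lfp M CC ≠ 0`, it has degree `M ≥ 1`).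
* `fC`: `f₀(Q) = 0`: then `Q = pt t` for some `t ∈ k₁`: if `Q 0 ≠ 0` take `t = Q 1 / Q 0`
  (`t² = Q 0 + 1` from `f₀(Q) = 0`), if `Q 0 = 0` then `Q 1 = 0` and `t = 1`.  Then
  `C(Q) = c(Q) = rho c (t) = κ ∏ (t - t i)^M = 0` (`rho_eval`), so `t = t i` for some `i`.
* `smooth`: if `f₀(Q) ≠ 0`: `smooth_pencil`, `pd_hY`.  If `f₀(Q) = 0`, `Q = P i` by `fC`.
* `fdeg`, `ftop` (`topp 3 f₀ = -1`), `fP` (`rho_eval`, `rho_f₀`), `flead`: a common root would be
  `z i ∈ k` (`lfp_f₀`), but there `lfp M CC = lfp M c ≠ 0`; `fw`: with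
  `w = (2 t, 3 t² - 1)`, `t = tt (v 8)`: `w 0 f_X + w 1 f_Y = 0` (`f₀_pderiv0`, `f₀_pderiv1`);
  `fY`: `f₀Y_ne`; `w0`: `2 t ≠ 0`.
-/

namespace Pool.Agent.H92.RP

open Pool.Agent.H13 Polynomial

variable {k k₁ : Type} [Field k] [IsAlgClosed k] [CharZero k] [Field k₁] [IsAlgClosed k₁]
  [CharZero k₁] [Algebra k k₁] {M : ℕ} {v : Fin 10 → k} {c : MvPolynomial (Fin 2) k} {κ : k}

/-- the curve `c + τ f₀^M` -/
noncomputable def CC (k₁ : Type) [Field k₁] [Algebra k k₁] (c : MvPolynomial (Fin 2) k) (M : ℕ)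
    (τ : k₁) : MvPolynomial (Fin 2) k₁ :=
  bm k k₁ c + MvPolynomial.C τ * f₀ k₁ ^ M

/-- the tangent direction at `PP v 8` -/
noncomputable def ww (k₁ : Type) [Field k₁] [Algebra k k₁] (v : Fin 10 → k) : Fin 2 → k₁ :=
  ![algebraMap k k₁ (2 * tt (v 8)), algebraMap k k₁ (3 * tt (v 8) ^ 2 - 1)]

omit [IsAlgClosed k] [CharZero k] in
theorem cck_coprime (p : k[X]) (a b : k) (hb : b ≠ 0) (h : p.eval (-a / b) ≠ 0) :
    IsCoprime p (C a + C b * X) := by
  have e : (C a + C b * X : k[X]) = C b * (X - C (-a / b)) := by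
    rw [mul_sub, ← C_mul, mul_div_cancel₀ _ hb, C_neg]
    ring
  rw [e, isCoprime_mul_unit_left_right (isUnit_C.2 (IsUnit.mk0 b hb))]
  apply IsCoprime.symm
  rw [(irreducible_X_sub_C (-a / b)).coprime_iff_not_dvd, dvd_iff_isRoot]
  exact h

omit [IsAlgClosed k] in
theorem cck_lfp1 (P : Fin 2 → k) (G : MvPolynomial (Fin 2) k) :
    lfp 1 P G = C (MvPolynomial.eval P (MvPolynomial.pderiv 0 G)) +
      C (MvPolynomial.eval P (MvPolynomial.pderiv 1 G)) * X := by
  apply Polynomial.funext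
  intro z
  rw [lfp_one, eval_add, eval_mul, eval_C, eval_C, eval_X]

omit [IsAlgClosed k] [CharZero k] in
theorem cck_f₀_mem (i : Fin 9) (v : Fin 10 → k) : f₀ k ∈ Iord (PP v i.castSucc) 1 := by
  rw [mem_Iord_one]
  unfold PP
  rw [← rho_eval, rho_f₀, eval_zero]

omit [IsAlgClosed k] [CharZero k] [IsAlgClosed k₁] [CharZero k₁] in
theorem cck_f₀_mem' (i : Fin 9) (v : Fin 10 → k) : f₀ k₁ ∈ Iord (bp k₁ (PP v i.castSucc)) 1 := by
  rw [← f₀_bm (k := k), bm_mem_Iord]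
  exact cck_f₀_mem i v

omit [IsAlgClosed k] [CharZero k] [IsAlgClosed k₁] [CharZero k₁] in
theorem cck_lfp (i : Fin 9) (v : Fin 10 → k) (τ : k₁) :
    lfp M (bp k₁ (PP v i.castSucc)) (CC k₁ c M τ) =
      (lfp M (PP v i.castSucc) c).map (algebraMap k k₁) +
        C τ * ((lfp 1 (PP v i.castSucc) (f₀ k)) ^ M).map (algebraMap k k₁) := by
  have h1 := lfp_pow 1 (bp k₁ (PP v i.castSucc)) (f₀ k₁) (cck_f₀_mem' i v) M
  rw [one_mul] at h1
  unfold CC
  rw [lfp_add, lfp_C_mul, lfp_bm, h1, Polynomial.map_pow,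
    ← lfp_bm 1 (PP v i.castSucc) (f₀ k), f₀_bm]

theorem CC_deg (D : PenData M v c κ) (τ : k₁) : CC k₁ c M τ ∈ Vd k₁ (3 * M) := by
  unfold CC
  refine Submodule.add_mem _ (bm_mem_Vd _ _ D.deg) ?_
  rw [MvPolynomial.C_mul']
  exact Submodule.smul_mem _ _ (lfpB_pow_mem f₀_mem M)

omit [IsAlgClosed k] [CharZero k] [IsAlgClosed k₁] [CharZero k₁] in
theorem cck_topp (τ : k₁) :
    topp (3 * M) (CC k₁ c M τ) = (topp (3 * M) c).map (algebraMap k k₁) +
        C τ * (((-1 : k[X]) ^ M).map (algebraMap k k₁)) := by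
  unfold CC
  rw [topp_add, topp_C_mul, topp_bm, topp_pow 3 _ f₀_mem M, topp_f₀, Polynomial.map_pow,
    Polynomial.map_neg, Polynomial.map_one]

theorem CC_top (D : PenData M v c κ) (τ : k₁) (hτ : τ ∉ Set.range (algebraMap k k₁)) :
    (topp (3 * M) (CC k₁ c M τ)).natDegree = 3 * M ∧
      (topp (3 * M) (CC k₁ c M τ)).Separable := by
  have hM := D.V.M_pos
  constructor
  · apply le_antisymm (topp_natDegree _ _)
    apply le_natDegree_of_ne_zero
    rw [cck_topp, coeff_add, coeff_C_mul, coeff_map, coeff_map, (pd_top D).2]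
    have h0 : ((-1 : k[X]) ^ M).coeff (3 * M) = 0 := by
      have e : ((-1 : k[X]) ^ M) = C ((-1) ^ M) := by
        rw [C_pow, C_neg, C_1]
      rw [e, coeff_C_of_ne_zero]
      omega
    rw [h0, map_zero, mul_zero, add_zero]
    intro h
    exact D.κ_ne ((map_eq_zero _).1 h)
  · rw [cck_topp]
    apply separable_pencil _ _ _ τ hτ
    exact (isCoprime_one_right.neg_right).pow_right

theorem CC_van (D : PenData M v c κ) (τ : k₁) (i : Fin 9) :
    CC k₁ c M τ ∈ Iord (bp k₁ (PP v i.castSucc)) M := by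
  unfold CC
  refine Ideal.add_mem _ ?_ (Ideal.mul_mem_left _ _ ?_)
  · rw [bm_mem_Iord]
    exact D.van i
  · have := pow_mem_Iord (cck_f₀_mem' (k₁ := k₁) i v) M
    rwa [one_mul] at this

theorem cck_root (D : PenData M v c κ) (i : Fin 9) :
    (lfp M (PP v i.castSucc) c).eval
      (-(MvPolynomial.eval (PP v i.castSucc) (MvPolynomial.pderiv 0 (f₀ k))) /
        MvPolynomial.eval (PP v i.castSucc) (MvPolynomial.pderiv 1 (f₀ k))) ≠ 0 := by
  have h := f₀Y_ne D i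
  have h1 : (lfp 1 (PP v i.castSucc) (f₀ k)).eval
      (-(MvPolynomial.eval (PP v i.castSucc) (MvPolynomial.pderiv 0 (f₀ k))) /
        MvPolynomial.eval (PP v i.castSucc) (MvPolynomial.pderiv 1 (f₀ k))) = 0 := by
    rw [lfp_one, mul_div_cancel₀ _ h]
    ring
  rw [lfp_f₀ D i] at h1
  rw [h1]
  exact pd_lead D i

theorem CC_lead (D : PenData M v c κ) (τ : k₁) (hτ : τ ∉ Set.range (algebraMap k k₁))
    (i : Fin 9) : (lfp M (bp k₁ (PP v i.castSucc)) (CC k₁ c M τ)).natDegree = M ∧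
      (lfp M (bp k₁ (PP v i.castSucc)) (CC k₁ c M τ)).Separable := by
  have hM := D.V.M_pos
  have hY := f₀Y_ne D i
  constructor
  · apply le_antisymm (lfp_natDegree _ _ _)
    apply le_natDegree_of_ne_zero
    rw [cck_lfp, coeff_add, coeff_C_mul, coeff_map, coeff_map]
    have h1 : ((lfp 1 (PP v i.castSucc) (f₀ k)) ^ M).coeff M =
        MvPolynomial.eval (PP v i.castSucc) (MvPolynomial.pderiv 1 (f₀ k)) ^ M := by
      have h2 := coeff_pow_of_natDegree_le (m := M)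
        (lfp_natDegree 1 (PP v i.castSucc) (f₀ k))
      rw [mul_one] at h2
      rw [h2, cck_lfp1, coeff_add, coeff_C_mul, coeff_X_one, coeff_C_of_ne_zero one_ne_zero]
      ring
    rw [h1]
    intro h0
    apply hτ
    have hY' : algebraMap k k₁
        (MvPolynomial.eval (PP v i.castSucc) (MvPolynomial.pderiv 1 (f₀ k)) ^ M) ≠ 0 := by
      rw [Ne, map_eq_zero]
      exact pow_ne_zero _ hY
    refine ⟨-((lfp M (PP v i.castSucc) c).coeff M) /
      MvPolynomial.eval (PP v i.castSucc) (MvPolynomial.pderiv 1 (f₀ k)) ^ M, ?_⟩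
    rw [map_div₀, map_neg, div_eq_iff hY']
    linear_combination -h0
  · rw [cck_lfp]
    apply separable_pencil _ _ _ τ hτ
    apply IsCoprime.pow_right
    rw [cck_lfp1]
    exact cck_coprime _ _ _ hY (cck_root D i)

theorem CC_flead (D : PenData M v c κ) (τ : k₁) (i : Fin 9) (z : k₁)
    (hz : (lfp M (bp k₁ (PP v i.castSucc)) (CC k₁ c M τ)).eval z = 0) :
    (lfp 1 (bp k₁ (PP v i.castSucc)) (f₀ k₁)).eval z ≠ 0 := by
  have hM := D.V.M_pos
  have hY := f₀Y_ne D i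
  have hY' : algebraMap k k₁
      (MvPolynomial.eval (PP v i.castSucc) (MvPolynomial.pderiv 1 (f₀ k))) ≠ 0 := by
    rw [Ne, map_eq_zero]
    exact hY
  intro h0
  have h1 := h0
  rw [← f₀_bm (k := k), lfp_bm, cck_lfp1, Polynomial.map_add, Polynomial.map_mul, map_C, map_C,
    map_X, eval_add, eval_mul, eval_C, eval_C, eval_X] at h1
  have h2 : z = algebraMap k k₁
      (-(MvPolynomial.eval (PP v i.castSucc) (MvPolynomial.pderiv 0 (f₀ k))) /
        MvPolynomial.eval (PP v i.castSucc) (MvPolynomial.pderiv 1 (f₀ k))) := by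
    rw [map_div₀, map_neg, eq_div_iff hY']
    linear_combination h1
  rw [cck_lfp, Polynomial.map_pow, ← lfp_bm 1, f₀_bm, eval_add, eval_mul, eval_pow, h0,
    zero_pow (by omega), mul_zero, add_zero, h2, eval_map_algebraMap, aeval_algebraMap_apply,
    coe_aeval_eq_eval, map_eq_zero] at hz
  exact cck_root D i hz

theorem CC_fibre (D : PenData M v c κ) (τ : k₁) (hτ : τ ∉ Set.range (algebraMap k k₁))
    (i : Fin 9) : ∃ R : Polynomial k₁, vres (bp k₁ (PP v i.castSucc) 0) (CC k₁ c M τ) =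
      (X - C (bp k₁ (PP v i.castSucc) 1)) ^ M * R ∧ R.Separable ∧
        R.eval (bp k₁ (PP v i.castSucc) 1) ≠ 0 := by
  have hM := D.V.M_pos
  obtain ⟨c', hc'⟩ := vres_dvd (PP v i.castSucc) M c (D.van i)
  have hy := pd_y_ne D i
  have hneg := pd_neg D i
  rw [← vres_eval, hc', eval_mul, eval_pow, eval_sub, eval_X, eval_C] at hneg
  have hc'ne : c'.eval (-(PP v i.castSucc 1)) ≠ 0 := right_ne_zero_of_mul hneg
  refine ⟨c'.map (algebraMap k k₁) +
    C τ * ((X + C (PP v i.castSucc 1)) ^ M).map (algebraMap k k₁), ?_, ?_, ?_⟩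
  · have hb : ∀ j, bp k₁ (PP v i.castSucc) j = algebraMap k k₁ (PP v i.castSucc j) :=
      fun _ => rfl
    have e1 : vres (algebraMap k k₁ (PP v i.castSucc 0)) (MvPolynomial.C τ) = C τ := by
      simp [vres]
    have e2 : vres (algebraMap k k₁ (PP v i.castSucc 0)) (f₀ k₁) =
        ((X - C (PP v i.castSucc 1)) * (X + C (PP v i.castSucc 1))).map (algebraMap k k₁) := by
      rw [← f₀_bm (k := k), vres_bm, vres_f₀]
    rw [hb, hb]
    unfold CC
    rw [map_add, map_mul, map_pow, e1, e2, vres_bm, hc', Polynomial.map_mul, Polynomial.map_mul,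
      Polynomial.map_pow, Polynomial.map_pow, Polynomial.map_sub, map_X, map_C, mul_pow]
    ring
  · apply separable_pencil _ _ _ τ hτ
    apply IsCoprime.pow_right
    have e3 : (X + C (PP v i.castSucc 1) : k[X]) =
        C (PP v i.castSucc 1) + C 1 * X := by
      rw [C_1, one_mul, add_comm]
    rw [e3]
    apply cck_coprime _ _ _ one_ne_zero
    rwa [div_one]
  · have := not_root_pencil c' ((X + C (PP v i.castSucc 1)) ^ M) τ hτ (PP v i.castSucc 1) (by
      rw [eval_pow, eval_add, eval_X, eval_C, ← two_mul]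
      exact pow_ne_zero _ (mul_ne_zero two_ne_zero hy))
    exact this

omit [IsAlgClosed k] [CharZero k] [IsAlgClosed k₁] [CharZero k₁] in
theorem cck_rho (hM : 0 < M) (τ : k₁) :
    rho k₁ (CC k₁ c M τ) = (rho k c).map (algebraMap k k₁) := by
  unfold CC
  rw [map_add, map_mul, map_pow, rho_f₀, zero_pow (by omega), mul_zero, add_zero, rho_bm]

theorem CC_rho (D : PenData M v c κ) (τ : k₁) : rho k₁ (CC k₁ c M τ) ≠ 0 := by
  rw [cck_rho D.V.M_pos, Ne, Polynomial.map_eq_zero, D.rho]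
  refine mul_ne_zero ?_ (Finset.prod_ne_zero_iff.2 fun i _ => pow_ne_zero _ (X_sub_C_ne_zero _))
  rw [Ne, C_eq_zero]
  exact D.κ_ne

theorem CC_fC (D : PenData M v c κ) (τ : k₁) (Q : Fin 2 → k₁)
    (h1 : MvPolynomial.eval Q (f₀ k₁) = 0) (h2 : MvPolynomial.eval Q (CC k₁ c M τ) = 0) :
    ∃ i : Fin 9, Q = bp k₁ (PP v i.castSucc) := by
  have hM := D.V.M_pos
  have h1' : Q 1 ^ 2 = Q 0 ^ 2 + Q 0 ^ 3 := by
    have : Q 1 ^ 2 - Q 0 ^ 2 - Q 0 ^ 3 = 0 := by
      rw [← h1, f₀]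
      simp
    linear_combination this
  obtain ⟨t, ht⟩ : ∃ t : k₁, Q = pt t := by
    by_cases h0 : Q 0 = 0
    · refine ⟨1, ?_⟩
      have h3 : Q 1 = 0 := by
        rw [h0] at h1'
        have : Q 1 ^ 2 = 0 := by rw [h1']; ring
        exact pow_eq_zero_iff (two_ne_zero) |>.1 this
      ext j
      fin_cases j
      · simp [pt, h0]
      · simp [pt, h3]
    · refine ⟨Q 1 / Q 0, ?_⟩
      have h3 : (Q 1 / Q 0) ^ 2 = Q 0 + 1 := by
        field_simp
        linear_combination h1'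
      ext j
      fin_cases j
      · change Q 0 = (Q 1 / Q 0) ^ 2 - 1
        rw [h3]
        ring
      · change Q 1 = (Q 1 / Q 0) ^ 3 - Q 1 / Q 0
        have h4 : (Q 1 / Q 0) ^ 3 - Q 1 / Q 0 = (Q 1 / Q 0) * ((Q 1 / Q 0) ^ 2 - 1) := by ring
        rw [h4, h3]
        field_simp
        ring
  rw [ht, ← rho_eval, cck_rho hM, D.rho, Polynomial.map_mul, map_C, Polynomial.map_prod, eval_mul,
    eval_C, eval_prod, mul_eq_zero, map_eq_zero] at h2
  rcases h2 with h2 | h2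
  · exact absurd h2 D.κ_ne
  · rw [Finset.prod_eq_zero_iff] at h2
    obtain ⟨i, -, hi⟩ := h2
    refine ⟨i, ?_⟩
    rw [Polynomial.map_pow, Polynomial.map_sub, map_X, map_C, eval_pow, eval_sub, eval_X, eval_C,
      pow_eq_zero_iff (by omega), sub_eq_zero] at hi
    rw [ht, hi]
    ext j
    fin_cases j
    · simp [bp, PP, pt]
    · simp [bp, PP, pt]

end Pool.Agent.H92.RP
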