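import Mathlib
import Pool.Agent.H92.RP.HCk1

set_option autoImplicit false

/-!
# RP-F7: `C_τ` satisfies `HCurve`

Assembly of `HCk1.lean`; the proofs of all fields are described in the header of `HCk1.lean`.

Status: complete (helper26).
-/

namespace Pool.Agent.H92.RP

open Pool.Agent.H13 Polynomial

variable {k k₁ : Type} [Field k] [IsAlgClosed k] [CharZero k] [Field k₁] [IsAlgClosed k₁]
  [CharZero k₁] [Algebra k k₁] {M : ℕ} {v : Fin 10 → k} {c : MvPolynomial (Fin 2) k} {κ : k}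

theorem hcurve (D : PenData M v c κ) (τ : k₁) (hτ : τ ∉ Set.range (algebraMap k k₁)) :
    HCurve M (f₀ k₁) (CC k₁ c M τ) (fun i : Fin 9 => bp k₁ (PP v i.castSucc)) (ww k₁ v) := by
  have hlead := CC_lead D τ hτ
  have hM := D.V.M_pos
  have hfP : ∀ i : Fin 9, MvPolynomial.eval (bp k₁ (PP v i.castSucc)) (f₀ k₁) = 0 := by
    intro i
    rw [← f₀_bm (k := k), bm_eval, PP, ← rho_eval, rho_f₀, eval_zero, map_zero]
  have h8 : (8 : Fin 9).castSucc = (8 : Fin 10) := rfl
  refine
    { M_pos := hM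
      deg := CC_deg D τ
      prime := ?_
      top_deg := (CC_top D τ hτ).1
      top_sep := (CC_top D τ hτ).2
      xinj := ?_
      vanish := CC_van D τ
      lead_deg := fun i => (hlead i).1
      lead_sep := fun i => (hlead i).2
      fibre := CC_fibre D τ hτ
      smooth := ?_
      fdeg := f₀_mem
      ftop := ?_
      fC := fun Q h1 h2 => CC_fC D τ Q h1 h2
      fP := hfP
      flead := fun i z hz => CC_flead D τ i z hz
      fw := ?_
      fY := ?_
      w0 := ?_ }
  · refine prime_of_mult (VData.map (k₁ := k₁) D.V) _ (CC_deg D τ) ?_ ?_ (CC_rho D τ)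
    · intro i
      rw [← PP_map]
      exact CC_van D τ i
    · intro i h
      rw [← PP_map] at h
      rw [← lfp_eq_zero_iff _ _ _ (CC_van D τ i)] at h
      have h1 := (hlead i).1
      rw [h, natDegree_zero] at h1
      omega
  · intro i j hij
    have h1 : PP v i.castSucc 0 = PP v j.castSucc 0 := (algebraMap k k₁).injective hij
    have h2 := PP_xinj D.V h1
    exact Fin.castSucc_injective 9 h2
  · intro Q hQ hne
    by_cases hf : MvPolynomial.eval Q (f₀ k₁) = 0
    · obtain ⟨i, hi⟩ := CC_fC D τ Q hf hQ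
      exact absurd hi (hne i)
    · have h := smooth_pencil c (f₀ k) M (pd_hY D) τ hτ Q (by rwa [f₀_bm])
      rw [f₀_bm] at h
      exact h hQ
  · intro z _
    rw [topp_f₀, eval_neg, eval_one]
    exact neg_ne_zero.mpr one_ne_zero
  · show MvPolynomial.eval (bp k₁ (PP v (8 : Fin 9).castSucc)) (dw (ww k₁ v) (f₀ k₁)) = 0
    rw [h8]
    rw [dw, map_add, map_mul, map_mul, MvPolynomial.eval_C, MvPolynomial.eval_C,
      ← f₀_bm (k := k), bm_pderiv, bm_pderiv, bm_eval, bm_eval, PP, f₀_pderiv0, f₀_pderiv1]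
    have w0 : ww k₁ v 0 = algebraMap k k₁ (2 * tt (v 8)) := rfl
    have w1 : ww k₁ v 1 = algebraMap k k₁ (3 * tt (v 8) ^ 2 - 1) := rfl
    rw [w0, w1, ← map_mul, ← map_mul, ← map_add]
    have : 2 * tt (v 8) * -((tt (v 8) ^ 2 - 1) * (3 * tt (v 8) ^ 2 - 1)) +
        (3 * tt (v 8) ^ 2 - 1) * (2 * (tt (v 8) ^ 3 - tt (v 8))) = 0 := by ring
    rw [this, map_zero]
  · show MvPolynomial.eval (bp k₁ (PP v (8 : Fin 9).castSucc))
      (MvPolynomial.pderiv 1 (f₀ k₁)) ≠ 0
    rw [← f₀_bm (k := k), bm_pderiv, bm_eval]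
    intro h
    exact f₀Y_ne D 8 ((map_eq_zero _).mp h)
  · have w0 : ww k₁ v 0 = algebraMap k k₁ (2 * tt (v 8)) := rfl
    rw [w0]
    intro h
    have h1 := (map_eq_zero _).mp h
    have h2 := (tt_facts D.V).2.2.1 8
    exact (mul_ne_zero two_ne_zero h2) h1

end Pool.Agent.H92.RP
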