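import Mathlib
import Pool.Agent.H13.Transfer
import Pool.Agent.H92.RP.HCk2

set_option autoImplicit false

/-!
# RP-G3: generic points and specialisation

PROOFS.
* `hasCurve_spec`: contrapositive, exactly as in `transfer_one` (`H13/Transfer.lean`): if there is no
  curve for `P`, some maximal minor `D ∈ ℤ[x_{ij}]` of the universal interpolation matrix is
  nonzero at `P` (`exists_minor`, `injective_of_not_hasCurve`), hence nonzero at `Q`, and
  `not_hasCurve_of_injective` shows that there is no curve for `Q`.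
* `exists_generic`: `k₁` = algebraic closure of the fraction field of
  `MvPolynomial (Fin n × Fin 2) k`, `q i j` = the image of `X (i, j)`;
  `aeval q` is the (injective) structure map.
* `spec_generic`: `hasCurve_spec` for `Q i = bp (P i)` (`i < 9`), `Q i = q i` (`i ≥ 9`): if
  `D(Q) = 0` for `D ∈ ℤ[x]`, let `D' ∈ k[x]` be obtained from `D` by substituting `P i j` for
  `x_{ij}`, `i < 9` (and `X (i,j)` for the others); then `aeval q D' = D(Q) = 0`, so `D' = 0` and
  `D(P) = D'(P) = 0`.
-/

namespace Pool.Agent.H92.RP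

open Pool.Agent.H13

theorem hasCurve_spec {k k' : Type} [Field k] [Field k'] {n : ℕ} (P : Fin n → Fin 2 → k)
    (Q : Fin n → Fin 2 → k')
    (h : ∀ D : MvPolynomial (Fin n × Fin 2) ℤ,
      MvPolynomial.eval₂ (Int.castRingHom k') (fun z => Q z.1 z.2) D = 0 →
        MvPolynomial.eval₂ (Int.castRingHom k) (fun z => P z.1 z.2) D = 0)
    (d : ℕ) (m : Fin n → ℕ) (hQ : HasCurve Q d m) : HasCurve P d m := by
  classical
  by_contra hP
  let φ : MvPolynomial (Fin n × Fin 2) ℤ →+* k :=
    MvPolynomial.eval₂Hom (Int.castRingHom k) (fun z => P z.1 z.2)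
  have hφ : ∀ i j, φ (MvPolynomial.X (i, j)) = P i j := by intro i j; simp [φ]
  obtain ⟨ρ, hρ⟩ := exists_minor ((UM n d m).map φ)
    (injective_of_not_hasCurve P d m φ hφ hP)
  set D : MvPolynomial (Fin n × Fin 2) ℤ := ((UM n d m).submatrix ρ id).det with hD
  have hφD : φ D ≠ 0 := by
    intro h0
    apply hρ
    have h1 : (((UM n d m).map φ).submatrix ρ id) = ((UM n d m).submatrix ρ id).map φ := rfl
    rw [h1]
    have h2 := RingHom.map_det φ ((UM n d m).submatrix ρ id)
    rw [← hD, h0] at h2
    exact h2.symm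
  let ψ : MvPolynomial (Fin n × Fin 2) ℤ →+* k' :=
    MvPolynomial.eval₂Hom (Int.castRingHom k') (fun z => Q z.1 z.2)
  have hψ : ∀ i j, ψ (MvPolynomial.X (i, j)) = Q i j := by intro i j; simp [ψ]
  have hψD : ψ D ≠ 0 := fun h0 => hφD (h D h0)
  refine not_hasCurve_of_injective Q d m ψ hψ ?_ hQ
  intro c hc
  have h1 : (((UM n d m).submatrix ρ id).map ψ).mulVec c = 0 := by
    funext r
    exact congrFun hc (ρ r)
  have h2 : (((UM n d m).submatrix ρ id).map ψ).det ≠ 0 := by
    have := RingHom.map_det ψ ((UM n d m).submatrix ρ id)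
    rw [← hD] at this
    have h3 : ψ.mapMatrix ((UM n d m).submatrix ρ id) =
      ((UM n d m).submatrix ρ id).map ψ := rfl
    rw [← h3, ← this]
    exact hψD
  exact Matrix.eq_zero_of_mulVec_eq_zero h2 h1

/-- all coordinates of the points `q i` are algebraically independent over `k` -/
def IsGeneric {k k₁ : Type} [Field k] [Field k₁] [Algebra k k₁] {n : ℕ}
    (q : Fin n → Fin 2 → k₁) : Prop :=
  ∀ D : MvPolynomial (Fin n × Fin 2) k, MvPolynomial.aeval (fun z => q z.1 z.2) D = 0 → D = 0

theorem exists_generic (k : Type) [Field k] (n : ℕ) :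
    ∃ (k₁ : Type) (_ : Field k₁) (_ : IsAlgClosed k₁) (_ : Algebra k k₁)
      (q : Fin n → Fin 2 → k₁), IsGeneric (k := k) q := by
  let F := FractionRing (MvPolynomial (Fin n × Fin 2) k)
  let ι : MvPolynomial (Fin n × Fin 2) k →+* AlgebraicClosure F :=
    (algebraMap F (AlgebraicClosure F)).comp (algebraMap (MvPolynomial (Fin n × Fin 2) k) F)
  have hι : Function.Injective ι :=
    (algebraMap F (AlgebraicClosure F)).injective.comp
      (IsFractionRing.injective (MvPolynomial (Fin n × Fin 2) k) F)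
  letI alg : Algebra k (AlgebraicClosure F) := (ι.comp MvPolynomial.C).toAlgebra
  have halg : ∀ c : k, algebraMap k (AlgebraicClosure F) c = ι (MvPolynomial.C c) := fun c => rfl
  refine ⟨AlgebraicClosure F, inferInstance, inferInstance, alg,
    fun i j => ι (MvPolynomial.X (i, j)), ?_⟩
  intro D hD
  have h1 : ∀ D : MvPolynomial (Fin n × Fin 2) k,
      MvPolynomial.aeval (R := k) (S₁ := AlgebraicClosure F)
        (fun z : Fin n × Fin 2 => ι (MvPolynomial.X (z.1, z.2))) D = ι D := by
    intro D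
    induction D using MvPolynomial.induction_on with
    | C a => rw [MvPolynomial.aeval_C, halg]
    | add p q hp hq => rw [map_add, map_add, hp, hq]
    | mul_X p j hp => rw [map_mul, map_mul, hp, MvPolynomial.aeval_X]
  rw [h1] at hD
  exact hι (by rw [hD, map_zero])

theorem spec_generic {k k₁ : Type} [Field k] [Field k₁] [Algebra k k₁] {n : ℕ}
    (q : Fin n → Fin 2 → k₁) (hq : IsGeneric (k := k) q) (P : Fin n → Fin 2 → k) (d : ℕ)
    (m : Fin n → ℕ)
    (h : HasCurve (fun i => if (i : ℕ) < 9 then bp k₁ (P i) else q i) d m) : HasCurve P d m := by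
  classical
  refine hasCurve_spec P _ ?_ d m h
  intro D hD
  set D' : MvPolynomial (Fin n × Fin 2) k :=
    MvPolynomial.eval₂Hom (Int.castRingHom (MvPolynomial (Fin n × Fin 2) k))
      (fun z : Fin n × Fin 2 => if (z.1 : ℕ) < 9 then MvPolynomial.C (P z.1 z.2)
        else MvPolynomial.X z) D with hD'
  have h1 : MvPolynomial.aeval (fun z : Fin n × Fin 2 => q z.1 z.2) D' = 0 := by
    have h2 := MvPolynomial.map_eval₂Hom (Int.castRingHom (MvPolynomial (Fin n × Fin 2) k))
      (fun z : Fin n × Fin 2 => if (z.1 : ℕ) < 9 then MvPolynomial.C (P z.1 z.2)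
        else MvPolynomial.X z)
      (MvPolynomial.aeval (R := k) (fun z : Fin n × Fin 2 => q z.1 z.2)).toRingHom D
    rw [← hD'] at h2
    have h3 : (MvPolynomial.aeval (R := k) (fun z : Fin n × Fin 2 => q z.1 z.2)).toRingHom D' =
      MvPolynomial.aeval (R := k) (fun z : Fin n × Fin 2 => q z.1 z.2) D' := rfl
    rw [h3] at h2
    rw [h2]
    rw [← hD]
    have h4 : ∀ z : Fin n × Fin 2,
        (MvPolynomial.aeval (R := k) (fun z : Fin n × Fin 2 => q z.1 z.2)).toRingHom
        (if (z.1 : ℕ) < 9 then MvPolynomial.C (P z.1 z.2) else MvPolynomial.X z) =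
        (if (z.1 : ℕ) < 9 then bp k₁ (P z.1) else q z.1) z.2 := by
      intro z
      change MvPolynomial.aeval (R := k) (fun z : Fin n × Fin 2 => q z.1 z.2) _ = _
      split_ifs
      · rw [MvPolynomial.aeval_C]
        rfl
      · rw [MvPolynomial.aeval_X]
    simp only [h4]
    have h5 : ((MvPolynomial.aeval (R := k) (fun z : Fin n × Fin 2 => q z.1 z.2)).toRingHom).comp
      (Int.castRingHom (MvPolynomial (Fin n × Fin 2) k)) = Int.castRingHom k₁ :=
      RingHom.ext_int _ _
    rw [h5]
    rfl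
  have h2 : D' = 0 := hq D' h1
  have h3 := MvPolynomial.map_eval₂Hom (Int.castRingHom (MvPolynomial (Fin n × Fin 2) k))
      (fun z : Fin n × Fin 2 => if (z.1 : ℕ) < 9 then MvPolynomial.C (P z.1 z.2)
        else MvPolynomial.X z)
      (MvPolynomial.eval (fun z : Fin n × Fin 2 => P z.1 z.2)) D
  rw [← hD', h2, map_zero] at h3
  have h4 : ∀ z : Fin n × Fin 2,
      (MvPolynomial.eval (fun z : Fin n × Fin 2 => P z.1 z.2))
      (if (z.1 : ℕ) < 9 then MvPolynomial.C (P z.1 z.2) else MvPolynomial.X z) =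
        P z.1 z.2 := by
    intro z
    split_ifs
    · rw [MvPolynomial.eval_C]
    · rw [MvPolynomial.eval_X]
  simp only [h4] at h3
  have h5 : (MvPolynomial.eval (fun z : Fin n × Fin 2 => P z.1 z.2)).comp
      (Int.castRingHom (MvPolynomial (Fin n × Fin 2) k)) = Int.castRingHom k :=
      RingHom.ext_int _ _
  rw [h5] at h3
  exact h3.symm

end Pool.Agent.H92.RP
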