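import Mathlib
import Pool.Agent.H92.RP.Generic

set_option autoImplicit false

/-!
# RP-G4: the members of the pencil through generic points

For a generic point `q l` let `τ l = - c(q l) / f₀(q l)^M`, so `C_{τ l}` passes through `q l`.

PROOFS.  Genericity: for `0 ≠ G ∈ k[X, Y]`, `eval (q l) (bm G) ≠ 0` (apply `IsGeneric` to
`rename (fun j => (l, j)) G`, injective).
* `gp_f₀`: `G = f₀`.
* `gp_τ`: if `τ l = algebraMap θ` then `(c + θ f₀^M)(q l) = 0`, so `c = - θ f₀^M` in `k[X, Y]`;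
  but `rho c ≠ 0 = rho f₀` (`D.rho`, `D.κ_ne`).
* `gp_zero`: by definition.
* `gp_pderiv`: `f₀ * pderiv 1 C_τ = f₀ c_Y + τ M f₀^M f_Y = f₀ c_Y - M c f_Y =: B` at `q l` (using
  `τ f₀^M = -c` there), and `B ≠ 0` in `k[X, Y]` by `pd_hY`.
* `gp_x`: `G = X 0 - C (PP v i 0)`.
* `gp_other`: for `l ≠ l'`, `C_{τ l}(q l') = 0` means
  `c(q l') f₀(q l)^M = c(q l) f₀(q l')^M`; by genericity this would be an identity between
  polynomials in independent variables `(X, Y)`, `(X', Y')`; specialise `(X', Y')` to a point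
  `b` of `f₀ = 0` with `c(b) ≠ 0` (e.g. the node `(0,0) = pt 1`: `rho c (1) ≠ 0`): `c(b) f₀^M = 0` in
  `k[X, Y]`, a contradiction.
-/

namespace Pool.Agent.H92.RP

open Pool.Agent.H13

variable {k k₁ : Type} [Field k] [IsAlgClosed k] [CharZero k] [Field k₁] [IsAlgClosed k₁]
  [Algebra k k₁] {M : ℕ} {v : Fin 10 → k} {c : MvPolynomial (Fin 2) k} {κ : k} {n : ℕ}

/-- the parameter of the member of the pencil through `q` -/
noncomputable def tauq (c : MvPolynomial (Fin 2) k) (M : ℕ) (q : Fin 2 → k₁) : k₁ :=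
  - MvPolynomial.eval q (bm k k₁ c) / MvPolynomial.eval q (f₀ k₁) ^ M

/-- evaluation at a generic point is injective -/
theorem gp_aeval (q : Fin n → Fin 2 → k₁) (hq : IsGeneric (k := k) q) (l : Fin n)
    (G : MvPolynomial (Fin 2) k) (hG : G ≠ 0) : MvPolynomial.eval (q l) (bm k k₁ G) ≠ 0 := by
  intro h
  apply hG
  have h1 : MvPolynomial.aeval (fun z : Fin n × Fin 2 => q z.1 z.2)
      (MvPolynomial.rename (fun j => (l, j)) G) = 0 := by
    rw [MvPolynomial.aeval_rename]
    rw [bm, MvPolynomial.eval_map] at h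
    exact h
  have h2 := hq _ h1
  have hinj : Function.Injective (fun j : Fin 2 => (l, j)) := fun a b hab =>
    (Prod.mk.inj hab).2
  exact (MvPolynomial.rename_injective _ hinj) (by rw [h2, map_zero])

theorem gp_f₀_ne (F : Type) [Field F] : f₀ F ≠ 0 := by
  intro h
  have h1 := congrArg (MvPolynomial.eval ![0, 1]) h
  simp [f₀] at h1

theorem gp_rho_ne (D : PenData M v c κ) : rho k c ≠ 0 := by
  rw [D.rho]
  apply mul_ne_zero
  · exact Polynomial.C_ne_zero.2 D.κ_ne
  · rw [Finset.prod_ne_zero_iff]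
    intro i _
    exact pow_ne_zero _ (Polynomial.X_sub_C_ne_zero _)

theorem gp_f₀ (q : Fin n → Fin 2 → k₁) (hq : IsGeneric (k := k) q) (l : Fin n) :
    MvPolynomial.eval (q l) (f₀ k₁) ≠ 0 := by
  rw [← f₀_bm (k := k)]
  exact gp_aeval q hq l _ (gp_f₀_ne k)

theorem gp_τ (D : PenData M v c κ) (q : Fin n → Fin 2 → k₁) (hq : IsGeneric (k := k) q)
    (l : Fin n) : tauq c M (q l) ∉ Set.range (algebraMap k k₁) := by
  rintro ⟨θ, hθ⟩
  have hf := gp_f₀ q hq l
  have hfM : MvPolynomial.eval (q l) (f₀ k₁) ^ M ≠ 0 := pow_ne_zero _ hf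
  rw [tauq, eq_div_iff hfM] at hθ
  have h1 : MvPolynomial.eval (q l) (bm k k₁ (c + MvPolynomial.C θ * f₀ k ^ M)) = 0 := by
    rw [map_add, map_mul, map_pow, f₀_bm, map_add, map_mul, map_pow]
    have h2 : MvPolynomial.eval (q l) (bm k k₁ (MvPolynomial.C θ)) = algebraMap k k₁ θ := by
      rw [bm, MvPolynomial.map_C, MvPolynomial.eval_C]
    rw [h2, hθ]
    ring
  have h3 : c + MvPolynomial.C θ * f₀ k ^ M = 0 := by
    by_contra hne
    exact gp_aeval q hq l _ hne h1
  have h4 := congrArg (rho k) h3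
  rw [map_add, map_mul, map_pow, rho_f₀, zero_pow D.V.M_pos.ne', mul_zero, add_zero,
    map_zero] at h4
  exact gp_rho_ne D h4

theorem gp_zero (q : Fin n → Fin 2 → k₁) (hq : IsGeneric (k := k) q) (l : Fin n) :
    MvPolynomial.eval (q l) (CC k₁ c M (tauq c M (q l))) = 0 := by
  have hf := gp_f₀ q hq l
  have hfM : MvPolynomial.eval (q l) (f₀ k₁) ^ M ≠ 0 := pow_ne_zero _ hf
  rw [CC, map_add, map_mul, map_pow, MvPolynomial.eval_C, tauq, div_mul_cancel₀ _ hfM,
    add_neg_cancel]

theorem gp_pderiv (D : PenData M v c κ) (q : Fin n → Fin 2 → k₁) (hq : IsGeneric (k := k) q)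
    (l : Fin n) :
    MvPolynomial.eval (q l) (MvPolynomial.pderiv 1 (CC k₁ c M (tauq c M (q l)))) ≠ 0 := by
  intro h
  have hf := gp_f₀ q hq l
  have hB : f₀ k * MvPolynomial.pderiv 1 c - (M : MvPolynomial (Fin 2) k) * c *
      MvPolynomial.pderiv 1 (f₀ k) ≠ 0 := by
    intro h0
    apply pd_hY D 0
    rw [h0, map_zero]
  apply gp_aeval q hq l _ hB
  have hz := gp_zero (c := c) (M := M) q hq l
  rw [CC, map_add, map_mul, map_pow, MvPolynomial.eval_C] at hz
  rw [CC, map_add, Derivation.leibniz, MvPolynomial.pderiv_C, smul_zero, add_zero,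
    Derivation.leibniz_pow] at h
  simp only [smul_eq_mul, nsmul_eq_mul, map_add, map_mul, map_pow, map_natCast,
    MvPolynomial.eval_C] at h
  have hM : MvPolynomial.eval (q l) (f₀ k₁) ^ M =
      MvPolynomial.eval (q l) (f₀ k₁) ^ (M - 1) * MvPolynomial.eval (q l) (f₀ k₁) := by
    rw [← pow_succ, Nat.sub_add_cancel D.V.M_pos]
  rw [map_sub, map_mul, map_mul, map_mul, map_natCast, ← bm_pderiv, ← bm_pderiv, f₀_bm,
    map_sub, map_mul, map_mul, map_mul, map_natCast]
  rw [hM] at hz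
  linear_combination (MvPolynomial.eval (q l) (f₀ k₁)) * h -
    (M : k₁) * (MvPolynomial.eval (q l) (MvPolynomial.pderiv 1 (f₀ k₁))) * hz

theorem gp_x (v : Fin 10 → k) (q : Fin n → Fin 2 → k₁) (hq : IsGeneric (k := k) q)
    (l : Fin n) (i : Fin 9) : bp k₁ (PP v i.castSucc) 0 ≠ q l 0 := by
  intro h
  have hne : (MvPolynomial.X 0 - MvPolynomial.C (PP v i.castSucc 0) :
      MvPolynomial (Fin 2) k) ≠ 0 := by
    intro h0
    have h1 := congrArg (MvPolynomial.eval ![PP v i.castSucc 0 + 1, 0]) h0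
    simp at h1
  apply gp_aeval q hq l _ hne
  rw [bm, map_sub, MvPolynomial.map_X, MvPolynomial.map_C, map_sub, MvPolynomial.eval_X,
    MvPolynomial.eval_C, ← h]
  exact sub_self _

theorem gp_other (D : PenData M v c κ) (q : Fin n → Fin 2 → k₁) (hq : IsGeneric (k := k) q)
    (l l' : Fin n) (hl : l ≠ l') :
    MvPolynomial.eval (q l') (CC k₁ c M (tauq c M (q l))) ≠ 0 := by
  intro h
  have hf := gp_f₀ q hq l
  have hfM : MvPolynomial.eval (q l) (f₀ k₁) ^ M ≠ 0 := pow_ne_zero _ hf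
  have hgen : ∀ (m : Fin n) (G : MvPolynomial (Fin 2) k),
      MvPolynomial.aeval (fun z : Fin n × Fin 2 => q z.1 z.2)
        (MvPolynomial.rename (fun j => (m, j)) G) = MvPolynomial.eval (q m) (bm k k₁ G) := by
    intro m G
    rw [MvPolynomial.aeval_rename, bm, MvPolynomial.eval_map]
    rfl
  set E : MvPolynomial (Fin n × Fin 2) k :=
    MvPolynomial.rename (fun j => (l', j)) c * MvPolynomial.rename (fun j => (l, j)) (f₀ k) ^ M -
    MvPolynomial.rename (fun j => (l, j)) c * MvPolynomial.rename (fun j => (l', j)) (f₀ k) ^ M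
    with hE
  have hE0 : MvPolynomial.aeval (fun z : Fin n × Fin 2 => q z.1 z.2) E = 0 := by
    rw [hE, map_sub, map_mul, map_mul, map_pow, map_pow, hgen, hgen, hgen, hgen, f₀_bm]
    rw [CC, map_add, map_mul, map_pow, MvPolynomial.eval_C, tauq] at h
    have h1 : (MvPolynomial.eval (q l') (bm k k₁ c) +
        -MvPolynomial.eval (q l) (bm k k₁ c) / MvPolynomial.eval (q l) (f₀ k₁) ^ M *
        MvPolynomial.eval (q l') (f₀ k₁) ^ M) * MvPolynomial.eval (q l) (f₀ k₁) ^ M = 0 := by
      rw [h, zero_mul]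
    rw [← h1]
    field_simp
    ring
  have hE1 := hq E hE0
  have hspec := congrArg (MvPolynomial.aeval (fun z : Fin n × Fin 2 =>
    if z.1 = l' then (MvPolynomial.C (pt (1 : k) z.2) : MvPolynomial (Fin 2) k)
    else MvPolynomial.X z.2)) hE1
  have hl' : ∀ G : MvPolynomial (Fin 2) k, MvPolynomial.aeval (fun z : Fin n × Fin 2 =>
      if z.1 = l' then (MvPolynomial.C (pt (1 : k) z.2) : MvPolynomial (Fin 2) k)
      else MvPolynomial.X z.2) (MvPolynomial.rename (fun j => (l', j)) G) =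
      MvPolynomial.C (MvPolynomial.eval (pt 1) G) := by
    intro G
    rw [MvPolynomial.aeval_rename]
    have h1 : (fun z : Fin n × Fin 2 =>
      if z.1 = l' then (MvPolynomial.C (pt (1 : k) z.2) : MvPolynomial (Fin 2) k)
      else MvPolynomial.X z.2) ∘ (fun j : Fin 2 => (l', j)) =
      fun j => MvPolynomial.C (pt (1 : k) j) := by
      funext j
      simp
    rw [h1]
    induction G using MvPolynomial.induction_on with
    | C a => simp [MvPolynomial.algebraMap_eq]
    | add p q hp hq => rw [map_add, map_add, map_add, hp, hq]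
    | mul_X p i hp => rw [map_mul, map_mul, map_mul, hp, MvPolynomial.aeval_X,
        MvPolynomial.eval_X]
  have hl1 : ∀ G : MvPolynomial (Fin 2) k, MvPolynomial.aeval (fun z : Fin n × Fin 2 =>
      if z.1 = l' then (MvPolynomial.C (pt (1 : k) z.2) : MvPolynomial (Fin 2) k)
      else MvPolynomial.X z.2) (MvPolynomial.rename (fun j => (l, j)) G) = G := by
    intro G
    rw [MvPolynomial.aeval_rename]
    have h1 : (fun z : Fin n × Fin 2 =>
      if z.1 = l' then (MvPolynomial.C (pt (1 : k) z.2) : MvPolynomial (Fin 2) k)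
      else MvPolynomial.X z.2) ∘ (fun j : Fin 2 => (l, j)) = MvPolynomial.X := by
      funext j
      simp [hl]
    rw [h1]
    exact MvPolynomial.aeval_X_left_apply G
  rw [hE, map_sub, map_mul, map_mul, map_pow, map_pow, hl', hl1, hl1, hl', map_zero] at hspec
  have hf0 : MvPolynomial.eval (pt (1 : k)) (f₀ k) = 0 := by
    rw [← rho_eval, rho_f₀, Polynomial.eval_zero]
  rw [hf0, map_zero, zero_pow D.V.M_pos.ne', mul_zero, sub_zero] at hspec
  rcases mul_eq_zero.1 hspec with h1 | h1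
  · have h2 : MvPolynomial.eval (pt (1 : k)) c = 0 := by
      have := congrArg (MvPolynomial.eval (0 : Fin 2 → k)) h1
      rwa [MvPolynomial.eval_C, map_zero] at this
    rw [← rho_eval, D.rho, Polynomial.eval_mul, Polynomial.eval_C, Polynomial.eval_prod] at h2
    rcases mul_eq_zero.1 h2 with h3 | h3
    · exact D.κ_ne h3
    · obtain ⟨i, _, hi⟩ := Finset.prod_eq_zero_iff.1 h3
      rw [Polynomial.eval_pow, Polynomial.eval_sub, Polynomial.eval_X, Polynomial.eval_C] at hi
      have h4 := pow_eq_zero_iff D.V.M_pos.ne' |>.1 hi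
      exact (tt_facts D.V).1 i.castSucc (sub_eq_zero.1 h4).symm
  · exact pow_ne_zero _ (gp_f₀_ne k) h1

end Pool.Agent.H92.RP
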