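import Mathlib
import Pool.Agent.H92.RP.Lift
import Pool.Agent.H92.RP.Hensel

set_option autoImplicit false

/-!
# RP-H5: all the branches of the curve that we need

For the curve `C` (see `HCurve`) with function field `K` (see `IsModel`, degree `n = 3 M`):
* `σ i j` (`i : Fin 9`, `j : Fin M`): the `M` branches through the point `P i`,
  `X = P i 0 + s`, `Y = P i 1 + s η`, with slopes `η(0) = lam i j`, the roots of `lfp M (P i) C`;
* `ρ i j` (`j : Fin (2 * M)`): the other branches over the line `X = P i 0`, at the points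
  `(P i 0, y i j)`, `y i j ≠ P i 1`;
* `τ j` (`j : Fin (3 * M)`): the branches at infinity, with slopes the roots `mu j` of
  `topp (3 M) C`.

PROOF of `exists_br`.  A separable polynomial of degree `m` over an algebraically closed field has
exactly `m` distinct roots (`Polynomial.card_roots...`, `nodup_roots`,
`IsAlgClosed.splits`; see `exists_special_points` in `H13/Mult.lean` for this trick), and its
derivative does not vanish at the roots (`Separable.eval₂_derivative_ne_zero`, or
`Polynomial.separable_def'`).  For `lfp M (P i) C`: `lead_deg`, `lead_sep`.  For `topp (3M) C`: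
`top_deg`, `top_sep`.  For `R` in `HCurve.fibre`: `natDegree (vres (P i 0) C) = 3 M`
(`vres_natDegree`, `top_deg`: the coefficient of `Z^(3M)` of `topp` is nonzero because the degree
is `3 M > 0`), so `natDegree R = 2 M`; a root `y` of `R` has `y ≠ P i 1` (as
`R(P i 1) ≠ 0`) and `(vres C)'(y) = (y - P i 1)^M R'(y) ≠ 0`.
Then `exists_branch_lead`, `exists_branch_simple`, `exists_branch_top` give the power series and
`lift_fin`, `lift_inf` the homomorphisms.  Finally choose everything
(`Classical.choose`/`choose`).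

Status: complete (helper26).
-/

namespace Pool.Agent.H92.RP

open Pool.Agent.H13 Polynomial

variable {k K : Type} [Field k] [Field K] [Algebra k K] [Algebra k[X] K]
  [IsScalarTower k k[X] K] [Algebra (RatFunc k) K] [IsScalarTower k[X] (RatFunc k) K]

/-- the branches of the curve -/
structure Br (M : ℕ) (C : MvPolynomial (Fin 2) k) (P : Fin 9 → Fin 2 → k)
    (φ : MvPolynomial (Fin 2) k →ₐ[k] K) where
  lam : Fin 9 → Fin M → k
  lam_inj : ∀ i, Function.Injective (lam i)
  lam_root : ∀ i j, (lfp M (P i) C).eval (lam i j) = 0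
  lam_simple : ∀ i j, (derivative (lfp M (P i) C)).eval (lam i j) ≠ 0
  η : Fin 9 → Fin M → PowerSeries k
  η_const : ∀ i j, PowerSeries.constantCoeff (η i j) = lam i j
  σ : Fin 9 → Fin M → K →+* LaurentSeries k
  σ_ev : ∀ i j G, σ i j (φ G) = lvP (P i) (η i j) G
  σ_C : ∀ i j c, σ i j (algebraMap k K c) = HahnSeries.C c
  σ_X : ∀ i j, σ i j (algebraMap k[X] K X) = HahnSeries.C (P i 0) + ss k
  y : Fin 9 → Fin (2 * M) → k
  y_inj : ∀ i, Function.Injective (y i)
  y_root : ∀ i j, (vres (P i 0) C).eval (y i j) = 0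
  y_simple : ∀ i j, (derivative (vres (P i 0) C)).eval (y i j) ≠ 0
  y_ne : ∀ i j, y i j ≠ P i 1
  ζ : Fin 9 → Fin (2 * M) → PowerSeries k
  ζ_const : ∀ i j, PowerSeries.constantCoeff (ζ i j) = y i j
  ρ : Fin 9 → Fin (2 * M) → K →+* LaurentSeries k
  ρ_ev : ∀ i j G, ρ i j (φ G) = lvX (P i 0) (ζ i j) G
  ρ_C : ∀ i j c, ρ i j (algebraMap k K c) = HahnSeries.C c
  ρ_X : ∀ i j, ρ i j (algebraMap k[X] K X) = HahnSeries.C (P i 0) + ss k
  mu : Fin (3 * M) → k
  mu_inj : Function.Injective mu
  mu_root : ∀ j, (topp (3 * M) C).eval (mu j) = 0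
  mu_simple : ∀ j, (derivative (topp (3 * M) C)).eval (mu j) ≠ 0
  θ : Fin (3 * M) → PowerSeries k
  θ_const : ∀ j, PowerSeries.constantCoeff (θ j) = mu j
  τ : Fin (3 * M) → K →+* LaurentSeries k
  τ_ev : ∀ j G, τ j (φ G) = lvI (θ j) G
  τ_C : ∀ j c, τ j (algebraMap k K c) = HahnSeries.C c
  τ_X : ∀ j, τ j (algebraMap k[X] K X) = HahnSeries.single (-1) 1

section
variable {k : Type} [Field k]

theorem branches_roots [IsAlgClosed k] (q : k[X]) (m : ℕ) (hm : q.natDegree = m)
    (hs : q.Separable) :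
    ∃ r : Fin m → k, Function.Injective r ∧ (∀ j, q.eval (r j) = 0) ∧
      ∀ j, (derivative q).eval (r j) ≠ 0 := by
  classical
  have hcard : q.roots.toFinset.card = m := by
    have h1 := Polynomial.nodup_roots hs
    rw [Multiset.toFinset_card_of_nodup h1, ← hm]
    exact (Polynomial.splits_iff_card_roots.1 (IsAlgClosed.splits q))
  let e := q.roots.toFinset.equivFinOfCardEq hcard
  have hroot : ∀ j, q.eval ((e.symm j).1) = 0 := by
    intro j
    have h1 : (e.symm j).1 ∈ q.roots := by
      have := (e.symm j).2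
      rwa [Multiset.mem_toFinset] at this
    exact (Polynomial.mem_roots hs.ne_zero).1 h1
  refine ⟨fun j => (e.symm j).1, fun i j hij => e.symm.injective (Subtype.ext hij), hroot, ?_⟩
  intro j h0
  obtain ⟨a, b, hab⟩ := hs
  have h1 := congrArg (Polynomial.eval (e.symm j).1) hab
  rw [eval_add, eval_mul, eval_mul, hroot j, h0, mul_zero, mul_zero, add_zero, eval_one] at h1
  exact zero_ne_one h1

end

theorem exists_br [IsAlgClosed k] {M : ℕ} {f C : MvPolynomial (Fin 2) k}
    {P : Fin 9 → Fin 2 → k} {w : Fin 2 → k} {φ : MvPolynomial (Fin 2) k →ₐ[k] K}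
    (H : HCurve M f C P w) (hφ : IsModel (3 * M) C φ) : Nonempty (Br M C P φ) := by
  have hM := H.M_pos
  -- branches through the points
  choose lam lam_inj lam_root lam_simple using fun i =>
    branches_roots (lfp M (P i) C) M (H.lead_deg i) (H.lead_sep i)
  choose η η_const η_ev using fun i j =>
    exists_branch_lead (P i) M C (H.vanish i) (lam i j) (lam_root i j) (lam_simple i j)
  choose σ σ_ev σ_C σ_X using fun i j => lift_fin hφ (P i 0) _ (η_ev i j)
  -- other branches over the line
  have htop : (topp (3 * M) C).coeff (3 * M) ≠ 0 := by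
    have h2 : (topp (3 * M) C).coeff (topp (3 * M) C).natDegree ≠ 0 := by
      rw [coeff_natDegree, Ne, leadingCoeff_eq_zero]
      intro h
      have h3 := H.top_deg
      rw [h, natDegree_zero] at h3
      omega
    rwa [H.top_deg] at h2
  have hy : ∀ i, ∃ r : Fin (2 * M) → k, Function.Injective r ∧
      (∀ j, (vres (P i 0) C).eval (r j) = 0) ∧
      (∀ j, (derivative (vres (P i 0) C)).eval (r j) ≠ 0) ∧ ∀ j, r j ≠ P i 1 := by
    intro i
    obtain ⟨R, hR, hRs, hRe⟩ := H.fibre i
    have hR0 : R ≠ 0 := hRs.ne_zero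
    have hd := (vres_natDegree (P i 0) (3 * M) C H.deg htop).1
    have hX : (Polynomial.X - Polynomial.C (P i 1)) ^ M ≠ 0 :=
      pow_ne_zero _ (Polynomial.X_sub_C_ne_zero _)
    rw [hR, Polynomial.natDegree_mul hX hR0, Polynomial.natDegree_pow,
      Polynomial.natDegree_X_sub_C, mul_one] at hd
    obtain ⟨r, hr1, hr2, hr3⟩ := branches_roots R (2 * M) (by omega) hRs
    have hne : ∀ j, r j ≠ P i 1 := by
      intro j h
      apply hRe
      rw [← h]
      exact hr2 j
    refine ⟨r, hr1, ?_, ?_, hne⟩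
    · intro j
      rw [hR, eval_mul, hr2, mul_zero]
    · intro j
      rw [hR, derivative_mul, eval_add, eval_mul, hr2, mul_zero, zero_add, eval_mul, eval_pow,
        eval_sub, eval_X, eval_C]
      exact mul_ne_zero (pow_ne_zero _ (sub_ne_zero.2 (hne j))) (hr3 j)
  choose y y_inj y_root y_simple y_ne using hy
  choose ζ ζ_const ζ_ev using fun i j =>
    exists_branch_simple (P i 0) C (y i j) (y_root i j) (y_simple i j)
  choose ρ ρ_ev ρ_C ρ_X using fun i j => lift_fin hφ (P i 0) _ (ζ_ev i j)
  -- branches at infinity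
  obtain ⟨mu, mu_inj, mu_root, mu_simple⟩ :=
    branches_roots (topp (3 * M) C) (3 * M) H.top_deg H.top_sep
  choose θ θ_const θ_ev using fun j =>
    exists_branch_top (3 * M) C H.deg (mu j) (mu_root j) (mu_simple j)
  choose τ τ_ev τ_C τ_X using fun j => lift_inf hφ _ (θ_ev j)
  exact ⟨⟨lam, lam_inj, lam_root, lam_simple, η, η_const, σ, σ_ev, σ_C, σ_X,
    y, y_inj, y_root, y_simple, y_ne, ζ, ζ_const, ρ, ρ_ev, ρ_C, ρ_X,
    mu, mu_inj, mu_root, mu_simple, θ, θ_const, τ, τ_ev, τ_C, τ_X⟩⟩

end Pool.Agent.H92.RP
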