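import Mathlib
import Pool.Agent.H92.RP.Branches

set_option autoImplicit false

/-!
# RP-H6: values of functions at the branches

PROOFS.  `σ_order`: `lev_lead`, `η_const`, `order_single_mul` (with `ℕ`-exponent `N`).
`ρ_order`: `lev_const` and `order_single_mul 0` (note `HahnSeries.single 0 1 = 1`).
`τ_order`: `lev_top`.  The `_lge` versions: `lge_single_mul`, `lge_ofPS`.
`σ_inj`, `ρ_inj`, `τ_inj`: different slopes resp. different values: if `σ i j = σ i j'` then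
evaluate at `φ (X 1)`: `P i 1 + s η i j = P i 1 + s η i j'`, so `η i j = η i j'` and the constant
terms agree.
`br_fibre_inj`: over each line `X = P i 0` the `3 M` homomorphisms
`Sum.elim (σ i) (ρ i) : Fin M ⊕ Fin (2 * M) → _` are distinct (the constant terms of `Y` are
`P i 1` resp. `y i j ≠ P i 1`).
-/

namespace Pool.Agent.H92.RP

open Pool.Agent.H13 Polynomial

variable {k K : Type} [Field k] [Field K] [Algebra k K] [Algebra k[X] K]
  [IsScalarTower k k[X] K] [Algebra (RatFunc k) K] [IsScalarTower k[X] (RatFunc k) K]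
  {M : ℕ} {C : MvPolynomial (Fin 2) k} {P : Fin 9 → Fin 2 → k}
  {φ : MvPolynomial (Fin 2) k →ₐ[k] K} (B : Br M C P φ)

theorem brval_lev_X1 (a b : LaurentSeries k) : lev a b (MvPolynomial.X 1) = b := by
  unfold lev
  rw [MvPolynomial.eval₂Hom_X']
  rfl

theorem brval_ofPS_inj {a b : PowerSeries k}
    (h : HahnSeries.ofPowerSeries ℤ k a = HahnSeries.ofPowerSeries ℤ k b) : a = b :=
  HahnSeries.ofPowerSeries_injective h

theorem brval_single_ne (m : ℤ) : (HahnSeries.single m 1 : LaurentSeries k) ≠ 0 := by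
  intro h
  exact one_ne_zero (HahnSeries.single_eq_zero_iff.mp h)

theorem Br.σ_lge (i : Fin 9) (j : Fin M) (N : ℕ) (G : MvPolynomial (Fin 2) k)
    (hG : G ∈ Iord (P i) N) : lge (N : ℤ) (B.σ i j (φ G)) := by
  obtain ⟨g, -, hg⟩ := lev_lead (P i) N G hG (B.η i j)
  rw [B.σ_ev, hg]
  exact lge_single_mul _ g

theorem Br.σ_order (i : Fin 9) (j : Fin M) (N : ℕ) (G : MvPolynomial (Fin 2) k)
    (hG : G ∈ Iord (P i) N) (h : (lfp N (P i) G).eval (B.lam i j) ≠ 0) :
    B.σ i j (φ G) ≠ 0 ∧ (B.σ i j (φ G)).order = N := by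
  obtain ⟨g, h0, hg⟩ := lev_lead (P i) N G hG (B.η i j)
  rw [B.η_const] at h0
  rw [B.σ_ev, hg]
  exact order_single_mul _ g (by rw [h0]; exact h)

theorem Br.ρ_lge (i : Fin 9) (j : Fin (2 * M)) (G : MvPolynomial (Fin 2) k) :
    lge 0 (B.ρ i j (φ G)) := by
  obtain ⟨g, -, hg⟩ := lev_const (P i 0) G (B.ζ i j)
  rw [B.ρ_ev, hg]
  exact lge_ofPS g

theorem Br.ρ_order (i : Fin 9) (j : Fin (2 * M)) (G : MvPolynomial (Fin 2) k)
    (h : (vres (P i 0) G).eval (B.y i j) ≠ 0) :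
    B.ρ i j (φ G) ≠ 0 ∧ (B.ρ i j (φ G)).order = 0 := by
  obtain ⟨g, h0, hg⟩ := lev_const (P i 0) G (B.ζ i j)
  rw [B.ζ_const] at h0
  have h1 := order_single_mul 0 g (by rw [h0]; exact h)
  rw [HahnSeries.single_zero_one, one_mul] at h1
  rw [B.ρ_ev, hg]
  exact h1

theorem Br.τ_lge (j : Fin (3 * M)) (d : ℕ) (G : MvPolynomial (Fin 2) k) (hG : G ∈ Vd k d) :
    lge (-(d : ℤ)) (B.τ j (φ G)) := by
  obtain ⟨g, -, hg⟩ := lev_top d G hG (B.θ j)
  rw [B.τ_ev, hg]
  exact lge_single_mul _ g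

theorem Br.τ_order (j : Fin (3 * M)) (d : ℕ) (G : MvPolynomial (Fin 2) k) (hG : G ∈ Vd k d)
    (h : (topp d G).eval (B.mu j) ≠ 0) :
    B.τ j (φ G) ≠ 0 ∧ (B.τ j (φ G)).order = -(d : ℤ) := by
  obtain ⟨g, h0, hg⟩ := lev_top d G hG (B.θ j)
  rw [B.θ_const] at h0
  rw [B.τ_ev, hg]
  exact order_single_mul _ g (by rw [h0]; exact h)

theorem Br.τ_inj : Function.Injective B.τ := by
  intro j j' h
  have h1 : B.τ j (φ (MvPolynomial.X 1)) = B.τ j' (φ (MvPolynomial.X 1)) := by rw [h]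
  rw [B.τ_ev, B.τ_ev, brval_lev_X1, brval_lev_X1] at h1
  have h2 := brval_ofPS_inj (mul_left_cancel₀ (brval_single_ne (-1)) h1)
  apply B.mu_inj
  rw [← B.θ_const, ← B.θ_const, h2]

theorem brval_ne (i : Fin 9) (j : Fin M) (j' : Fin (2 * M)) : B.σ i j ≠ B.ρ i j' := by
  intro h
  have h1 : B.σ i j (φ (MvPolynomial.X 1)) = B.ρ i j' (φ (MvPolynomial.X 1)) := by rw [h]
  have hss : ss k = HahnSeries.ofPowerSeries ℤ k PowerSeries.X := HahnSeries.ofPowerSeries_X.symm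
  rw [B.σ_ev, B.ρ_ev, brval_lev_X1, brval_lev_X1, ← HahnSeries.ofPowerSeries_C, hss, ← map_mul,
    ← map_add] at h1
  have h2 := congrArg PowerSeries.constantCoeff (brval_ofPS_inj h1)
  rw [B.ζ_const, map_add, map_mul, PowerSeries.constantCoeff_X, zero_mul, add_zero,
    PowerSeries.constantCoeff_C] at h2
  exact B.y_ne i j' h2.symm

theorem Br.fibre_inj (i : Fin 9) : Function.Injective (Sum.elim (B.σ i) (B.ρ i)) := by
  rintro (j | j) (j' | j') h
  · have h0 : B.σ i j = B.σ i j' := h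
    have h1 : B.σ i j (φ (MvPolynomial.X 1)) = B.σ i j' (φ (MvPolynomial.X 1)) := by rw [h0]
    rw [B.σ_ev, B.σ_ev, brval_lev_X1, brval_lev_X1] at h1
    have h2 := brval_ofPS_inj (mul_left_cancel₀ (brval_single_ne 1) (add_left_cancel h1))
    have h3 : j = j' := by
      apply B.lam_inj i
      rw [← B.η_const, ← B.η_const, h2]
    rw [h3]
  · exact absurd h (brval_ne B i j j')
  · exact absurd (Eq.symm h) (brval_ne B i j' j)
  · have h0 : B.ρ i j = B.ρ i j' := h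
    have h1 : B.ρ i j (φ (MvPolynomial.X 1)) = B.ρ i j' (φ (MvPolynomial.X 1)) := by rw [h0]
    rw [B.ρ_ev, B.ρ_ev, brval_lev_X1, brval_lev_X1] at h1
    have h2 := brval_ofPS_inj h1
    have h3 : j = j' := by
      apply B.y_inj i
      rw [← B.ζ_const, ← B.ζ_const, h2]
    rw [h3]

end Pool.Agent.H92.RP
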