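import Mathlib
import Pool.Agent.H92.RP.Defs

set_option autoImplicit false

/-!
# RP-B1: the finite places of a function field

`K` is a finite extension of `k(X)`, `k` algebraically closed of characteristic `0`, `S` is the
integral closure of `k[X]` in `K`.  For a maximal ideal `p` of `S`, `vfin p` is the normalised
valuation `K → ℤ` (junk value at `0`).

PROOFS.  `vfin p a = - WithZero.log (p.valuation K a)`.
* `vfin_mul`, `vfin_add`: `map_mul`, `Valuation.map_add`, `WithZero.log_mul`, `WithZero.log_le_log`.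
* `vfin_const`: a nonzero constant `c` is the image of a unit of `S`
  (`HeightOneSpectrum.valuation_le_one` for `c` and `c⁻¹`).
* `vfin_finite`: write `a = b / c` with `b, c ∈ S` (`IsFractionRing.div_surjective`); `vfin p b ≠ 0`
  only if `b ∈ p.asIdeal`, and only finitely many primes contain `b ≠ 0` (`Ideal.finite_factors`).
* `vfin_unif`: `HeightOneSpectrum.valuation_exists_uniformizer`.
* `vfin_integral`: `HeightOneSpectrum.valuation_le_one`.
* `exists_denom`: let `a ≠ 0` have `vfin p a ≥ 0` for all `p` with `vfin p (X - x₀) > 0`.  Only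
  finitely many `p` have `vfin p a < 0`, say `p_1, …, p_r`, and for each of them
  `X - x₀ ∉ p_i.asIdeal`.  `p_i ∩ k[X]` is a maximal ideal `(X - x_i)` of `k[X]` (`k` algebraically
  closed; it is nonzero because `S` is integral over `k[X]`), `x_i ≠ x₀`.  Take
  `s = ∏ (X - x_i) ^ N` with `N ≥ - vfin p_i a` for all `i`: then `vfin p (s a) ≥ 0` for all `p`,
  so `s a ∈ S` (`HeightOneSpectrum.mem_integers_of_valuation_le_one`), and `s(x₀) ≠ 0`.
-/

namespace Pool.Agent.H92.RP

open Polynomial IsDedekindDomain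

variable (k K : Type) [Field k] [IsAlgClosed k] [CharZero k] [Field K] [Algebra k K]
  [Algebra k[X] K] [IsScalarTower k k[X] K] [Algebra (RatFunc k) K]
  [IsScalarTower k[X] (RatFunc k) K] [FiniteDimensional (RatFunc k) K]

include k K in
theorem isDedekind_S : IsDedekindDomain (integralClosure k[X] K) :=
  integralClosure.isDedekindDomain k[X] (RatFunc k) K

include k K in
theorem isFractionRing_S : IsFractionRing (integralClosure k[X] K) K :=
  integralClosure.isFractionRing_of_finite_extension (RatFunc k) K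

attribute [local instance] isDedekind_S isFractionRing_S

variable {k K}

/-- normalised valuation at a finite place -/
noncomputable def vfin (p : HeightOneSpectrum (integralClosure k[X] K)) (a : K) : ℤ :=
  - WithZero.log (p.valuation K a)

theorem vfin_mul (p : HeightOneSpectrum (integralClosure k[X] K)) (a b : K) (ha : a ≠ 0)
    (hb : b ≠ 0) : vfin p (a * b) = vfin p a + vfin p b := by
  unfold vfin
  rw [map_mul, WithZero.log_mul ((Valuation.ne_zero_iff _).2 ha) ((Valuation.ne_zero_iff _).2 hb)]
  ring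

theorem vfin_add (p : HeightOneSpectrum (integralClosure k[X] K)) (a b : K) (ha : a ≠ 0)
    (hb : b ≠ 0) (hab : a + b ≠ 0) : min (vfin p a) (vfin p b) ≤ vfin p (a + b) := by
  unfold vfin
  have h1 := (Valuation.ne_zero_iff (p.valuation K)).2 ha
  have h2 := (Valuation.ne_zero_iff (p.valuation K)).2 hb
  have h3 := (Valuation.ne_zero_iff (p.valuation K)).2 hab
  rcases le_max_iff.1 (Valuation.map_add (p.valuation K) a b) with h | h
  · refine min_le_iff.2 (Or.inl ?_)
    have := (WithZero.log_le_log h3 h1).2 h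
    linarith
  · refine min_le_iff.2 (Or.inr ?_)
    have := (WithZero.log_le_log h3 h2).2 h
    linarith

theorem vfin_nonneg_iff (p : HeightOneSpectrum (integralClosure k[X] K)) (a : K) (ha : a ≠ 0) :
    0 ≤ vfin p a ↔ p.valuation K a ≤ 1 := by
  unfold vfin
  have h1 := (Valuation.ne_zero_iff (p.valuation K)).2 ha
  have h2 := WithZero.log_le_log h1 (one_ne_zero : (1 : WithZero (Multiplicative ℤ)) ≠ 0)
  rw [WithZero.log_one] at h2
  rw [← h2]
  constructor <;> intro h <;> linarith

theorem vfin_one (p : HeightOneSpectrum (integralClosure k[X] K)) : vfin p (1 : K) = 0 := by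
  unfold vfin
  rw [map_one, WithZero.log_one, neg_zero]

theorem vfin_pow (p : HeightOneSpectrum (integralClosure k[X] K)) (a : K) (ha : a ≠ 0) (n : ℕ) :
    vfin p (a ^ n) = n * vfin p a := by
  induction n with
  | zero => rw [pow_zero, vfin_one]; simp
  | succ n ih =>
    rw [pow_succ, vfin_mul p _ _ (pow_ne_zero _ ha) ha, ih]
    push_cast
    ring

theorem vfin_integral' (p : HeightOneSpectrum (integralClosure k[X] K)) (a : K)
    (ha : IsIntegral k[X] a) (ha0 : a ≠ 0) : 0 ≤ vfin p a := by
  rw [vfin_nonneg_iff p a ha0]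
  exact p.valuation_le_one (⟨a, ha⟩ : integralClosure k[X] K)

theorem isIntegral_const (c : k) : IsIntegral k[X] (algebraMap k K c) := by
  rw [IsScalarTower.algebraMap_apply k k[X] K]
  exact isIntegral_algebraMap

theorem vfin_const (p : HeightOneSpectrum (integralClosure k[X] K)) (c : k) (hc : c ≠ 0) :
    vfin p (algebraMap k K c) = 0 := by
  have h0 : algebraMap k K c ≠ 0 := by
    rw [Ne, map_eq_zero_iff _ (FaithfulSMul.algebraMap_injective k K)]
    exact hc
  have h1 : algebraMap k K c⁻¹ ≠ 0 := by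
    rw [Ne, map_eq_zero_iff _ (FaithfulSMul.algebraMap_injective k K)]
    exact inv_ne_zero hc
  have h2 := vfin_mul p _ _ h0 h1
  rw [← map_mul, mul_inv_cancel₀ hc, map_one, vfin_one] at h2
  have h3 := vfin_integral' p _ (isIntegral_const c) h0
  have h4 := vfin_integral' p _ (isIntegral_const c⁻¹) h1
  linarith

theorem vfin_finite (a : K) (ha : a ≠ 0) :
    {p : HeightOneSpectrum (integralClosure k[X] K) | vfin p a ≠ 0}.Finite := by
  refine ((HeightOneSpectrum.Support.finite (integralClosure k[X] K) a).union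
    (HeightOneSpectrum.Support.finite (integralClosure k[X] K) a⁻¹)).subset ?_
  intro p hp
  have hp' : vfin p a ≠ 0 := hp
  have h1 := vfin_mul p a a⁻¹ ha (inv_ne_zero ha)
  rw [mul_inv_cancel₀ ha, vfin_one] at h1
  rcases lt_or_gt_of_ne hp' with h | h
  · left
    show 1 < p.valuation K a
    rw [← not_le, ← vfin_nonneg_iff p a ha]
    linarith
  · right
    show 1 < p.valuation K a⁻¹
    rw [← not_le, ← vfin_nonneg_iff p _ (inv_ne_zero ha)]
    linarith

theorem vfin_unif (p : HeightOneSpectrum (integralClosure k[X] K)) :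
    ∃ a : K, a ≠ 0 ∧ vfin p a = 1 := by
  obtain ⟨a, ha⟩ := p.valuation_exists_uniformizer K
  refine ⟨a, ?_, ?_⟩
  · rw [← Valuation.ne_zero_iff (p.valuation K), ha]
    exact WithZero.exp_ne_zero
  · unfold vfin
    rw [ha, WithZero.log_exp]
    ring

theorem vfin_integral (p : HeightOneSpectrum (integralClosure k[X] K)) (a : K)
    (ha : IsIntegral k[X] a) (ha0 : a ≠ 0) : 0 ≤ vfin p a :=
  vfin_integral' p a ha ha0

theorem vfin_pos_iff (p : HeightOneSpectrum (integralClosure k[X] K))
    (a : integralClosure k[X] K) (ha0 : a ≠ 0) : 0 < vfin p (a : K) ↔ a ∈ p.asIdeal := by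
  have hK : (a : K) ≠ 0 := by
    intro h
    exact ha0 (Subtype.ext h)
  have h1 : p.valuation K (a : K) < 1 ↔ a ∈ p.asIdeal := p.valuation_lt_one_iff_mem a
  rw [← h1]
  unfold vfin
  have h2 := (Valuation.ne_zero_iff (p.valuation K)).2 hK
  have h3 := WithZero.log_lt_log h2 (one_ne_zero : (1 : WithZero (Multiplicative ℤ)) ≠ 0)
  rw [WithZero.log_one] at h3
  rw [← h3]
  constructor <;> intro h <;> linarith

/-- a nonzero prime ideal of `k[X]` contains some `X - x` -/
theorem exists_linear_mem (q : Ideal k[X]) [q.IsPrime] :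
    ∀ (n : ℕ) (g : k[X]), g.natDegree ≤ n → g ≠ 0 → g ∈ q → ∃ x : k, X - C x ∈ q := by
  intro n
  induction n with
  | zero =>
    intro g hg hg0 hgq
    exfalso
    rw [Nat.le_zero] at hg
    rw [eq_C_of_natDegree_eq_zero hg] at hgq hg0
    have hc : g.coeff 0 ≠ 0 := by
      intro h
      rw [h, C_0] at hg0
      exact hg0 rfl
    exact Ideal.IsPrime.ne_top' (Ideal.eq_top_of_isUnit_mem q hgq
      (isUnit_C.2 (isUnit_iff_ne_zero.2 hc)))
  | succ n ih =>
    intro g hg hg0 hgq
    by_cases hd : g.natDegree = 0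
    · exact ih g (by omega) hg0 hgq
    · obtain ⟨x, hx⟩ := IsAlgClosed.exists_root g (by
        intro h
        exact hd (natDegree_eq_of_degree_eq_some h))
      obtain ⟨h, hh⟩ := dvd_iff_isRoot.2 hx
      have hh0 : h ≠ 0 := by
        rintro rfl
        rw [mul_zero] at hh
        exact hg0 hh
      rw [hh] at hgq
      rcases (Ideal.IsPrime.mem_or_mem inferInstance hgq) with h1 | h1
      · exact ⟨x, h1⟩
      · refine ih h ?_ hh0 h1
        rw [hh, natDegree_mul (X_sub_C_ne_zero x) hh0, natDegree_X_sub_C] at hg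
        omega

include K in
theorem algebraMap_ne_zero' {s : k[X]} (hs : s ≠ 0) : algebraMap k[X] K s ≠ 0 := by
  rw [IsScalarTower.algebraMap_apply k[X] (RatFunc k) K]
  rw [Ne, map_eq_zero_iff _ (FaithfulSMul.algebraMap_injective (RatFunc k) K),
    map_eq_zero_iff _ (IsFractionRing.injective k[X] (RatFunc k))]
  exact hs

theorem exists_linear_vfin (p : HeightOneSpectrum (integralClosure k[X] K)) :
    ∃ x : k, 0 < vfin p (algebraMap k[X] K (X - C x)) := by
  have hprime : p.asIdeal.IsPrime := p.isPrime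
  obtain ⟨a, hap, ha0⟩ := Submodule.exists_mem_ne_zero_of_ne_bot p.ne_bot
  have hne : Ideal.comap (algebraMap k[X] (integralClosure k[X] K)) p.asIdeal ≠ ⊥ :=
    Ideal.comap_ne_bot_of_integral_mem ha0 hap (Algebra.IsIntegral.isIntegral a)
  obtain ⟨g, hg, hg0⟩ := Submodule.exists_mem_ne_zero_of_ne_bot hne
  have hq : (Ideal.comap (algebraMap k[X] (integralClosure k[X] K)) p.asIdeal).IsPrime :=
    Ideal.IsPrime.comap _
  obtain ⟨x, hx⟩ := exists_linear_mem _ g.natDegree g le_rfl hg0 hg
  refine ⟨x, ?_⟩
  have h1 : algebraMap k[X] (integralClosure k[X] K) (X - C x) ≠ 0 := by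
    intro h
    have h2 : algebraMap k[X] K (X - C x) = 0 := by
      have := congrArg (fun z : integralClosure k[X] K => (z : K)) h
      exact this
    exact algebraMap_ne_zero' (K := K) (X_sub_C_ne_zero x) h2
  exact (vfin_pos_iff p _ h1).2 hx

theorem exists_denom (x₀ : k) (a : K)
    (h : ∀ p : HeightOneSpectrum (integralClosure k[X] K),
      0 < vfin p (algebraMap k[X] K (X - C x₀)) → a ≠ 0 → 0 ≤ vfin p a) :
    ∃ s : k[X], s.eval x₀ ≠ 0 ∧ IsIntegral k[X] (algebraMap k[X] K s * a) := by
  classical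
  by_cases ha : a = 0
  · refine ⟨1, ?_, ?_⟩
    · rw [eval_one]
      exact one_ne_zero
    · rw [ha, mul_zero]
      exact isIntegral_zero
  choose x hx using fun p : HeightOneSpectrum (integralClosure k[X] K) => exists_linear_vfin p
  have hfin : {p : HeightOneSpectrum (integralClosure k[X] K) | vfin p a < 0}.Finite :=
    (vfin_finite a ha).subset fun p hp => ne_of_lt hp
  have hx0 : ∀ p ∈ hfin.toFinset, x p ≠ x₀ := by
    intro p hp hpx
    rw [Set.Finite.mem_toFinset] at hp
    have h1 := hx p
    rw [hpx] at h1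
    have h2 := h p h1 ha
    have hp' : vfin p a < 0 := hp
    linarith
  have hs0 : (∏ p ∈ hfin.toFinset, (X - C (x p)) ^ (-vfin p a).toNat) ≠ 0 :=
    Finset.prod_ne_zero_iff.2 fun p _ => pow_ne_zero _ (X_sub_C_ne_zero _)
  refine ⟨∏ p ∈ hfin.toFinset, (X - C (x p)) ^ (-vfin p a).toNat, ?_, ?_⟩
  · rw [eval_prod, Finset.prod_ne_zero_iff]
    intro p hp
    rw [eval_pow, eval_sub, eval_X, eval_C]
    exact pow_ne_zero _ (sub_ne_zero.2 (hx0 p hp).symm)
  · have key : ∀ q : HeightOneSpectrum (integralClosure k[X] K), q.valuation K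
        (algebraMap k[X] K (∏ p ∈ hfin.toFinset, (X - C (x p)) ^ (-vfin p a).toNat) * a) ≤ 1 := by
      intro q
      have hsK := algebraMap_ne_zero' (K := K) hs0
      rw [← vfin_nonneg_iff q _ (mul_ne_zero hsK ha), vfin_mul q _ _ hsK ha]
      by_cases hq : vfin q a < 0
      · have hqm : q ∈ hfin.toFinset := by
          rw [Set.Finite.mem_toFinset]
          exact hq
        rw [← Finset.mul_prod_erase _ _ hqm, map_mul, map_pow]
        have h1 : algebraMap k[X] K (X - C (x q)) ≠ 0 := algebraMap_ne_zero' (X_sub_C_ne_zero _)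
        have h2 : algebraMap k[X] K (∏ p ∈ hfin.toFinset.erase q,
            (X - C (x p)) ^ (-vfin p a).toNat) ≠ 0 :=
          algebraMap_ne_zero' (Finset.prod_ne_zero_iff.2 fun p _ =>
            pow_ne_zero _ (X_sub_C_ne_zero _))
        rw [vfin_mul q _ _ (pow_ne_zero _ h1) h2, vfin_pow q _ h1]
        have h3 := vfin_integral' q _ (isIntegral_algebraMap (R := k[X]) (A := K)
          (x := ∏ p ∈ hfin.toFinset.erase q, (X - C (x p)) ^ (-vfin p a).toNat)) h2
        have h4 := hx q
        have h5 : (((-vfin q a).toNat : ℕ) : ℤ) = -vfin q a := Int.toNat_of_nonneg (by linarith)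
        rw [h5]
        nlinarith
      · have h3 := vfin_integral' q _ (isIntegral_algebraMap (R := k[X]) (A := K)
          (x := ∏ p ∈ hfin.toFinset, (X - C (x p)) ^ (-vfin p a).toNat)) hsK
        linarith
    obtain ⟨y, hy⟩ := HeightOneSpectrum.mem_integers_of_valuation_le_one K _ key
    rw [← hy]
    exact y.2

end Pool.Agent.H92.RP
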