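import Mathlib
import Pool.Agent.H92.RP.FFin
import Pool.Agent.H92.RP.Laur

set_option autoImplicit false

/-!
# RP-B5: a homomorphism `K → k((s))` over `X ↦ x₀ + s` is a finite place

PROOF.  Let `S = integralClosure k[X] K`.  `σ` maps `k[X]` into `k[[s]]` (`lge 0`), and `k[[s]]` is
integrally closed in `k((s))` (if `b` has negative order `-m`, a monic equation
`b^n + a_1 b^(n-1) + … = 0` with `a_i ∈ k[[s]]` is impossible by orders), so
`σ(S) ⊆ k[[s]]`.  `𝔭 := {a ∈ S | lge 1 (σ a)}` is a prime ideal of `S` (the residue map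
`k[[s]] → k` is a ring homomorphism), it contains `X - x₀ ≠ 0`, so it is a point of
`HeightOneSpectrum S`.  Let `e ≥ 1` be the order of `σ(π)` for `π` with `vfin 𝔭 π = 1`
(`π` can be chosen in `S`).  If `a ∈ K^×` has `vfin 𝔭 a = 0` then `a = b / c` with
`b, c ∈ S \ 𝔭` (`HeightOneSpectrum.exists_primeCompl_mul_eq_or_mul_eq`,
`exists_primeCompl_mul_eq_of_integer`), so `σ a` has order `0`.  For general `a`,
`a π^(-v)` has value `0`, so `order (σ a) = e * vfin 𝔭 a`.  Apply this to `X - x₀`:
`1 = e * vfin 𝔭 (X - x₀)`, so `e = 1`.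

Status: complete (helper26).
-/

namespace Pool.Agent.H92.RP

open Polynomial IsDedekindDomain

variable {k K : Type} [Field k] [IsAlgClosed k] [CharZero k] [Field K] [Algebra k K]
  [Algebra k[X] K] [IsScalarTower k k[X] K] [Algebra (RatFunc k) K]
  [IsScalarTower k[X] (RatFunc k) K] [FiniteDimensional (RatFunc k) K]

attribute [local instance] isDedekind_S isFractionRing_S

section
variable {k K : Type} [Field k] [Field K] [Algebra k K]
  [Algebra k[X] K] [IsScalarTower k k[X] K]

/-- `k[X] → k[[s]]`, `X ↦ x₀ + s` -/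
noncomputable def branchP_psi (x₀ : k) : k[X] →+* PowerSeries k :=
  Polynomial.eval₂RingHom (PowerSeries.C : k →+* PowerSeries k) (PowerSeries.C x₀ + PowerSeries.X)

theorem branchP_comp (σ : K →+* LaurentSeries k) (x₀ : k)
    (hC : ∀ c : k, σ (algebraMap k K c) = HahnSeries.C c)
    (hX : σ (algebraMap k[X] K X) = HahnSeries.C x₀ + ss k) :
    (algebraMap (PowerSeries k) (LaurentSeries k)).comp (branchP_psi x₀) =
      σ.comp (algebraMap k[X] K) := by
  apply Polynomial.ringHom_ext
  · intro c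
    have h1 : algebraMap k[X] K (C c) = algebraMap k K c :=
      (IsScalarTower.algebraMap_apply k k[X] K c).symm
    rw [RingHom.comp_apply, RingHom.comp_apply, h1, hC, branchP_psi, Polynomial.coe_eval₂RingHom,
      Polynomial.eval₂_C]
    exact HahnSeries.ofPowerSeries_C c
  · rw [RingHom.comp_apply, RingHom.comp_apply, hX, branchP_psi, Polynomial.coe_eval₂RingHom,
      Polynomial.eval₂_X, map_add]
    congr 1
    · exact HahnSeries.ofPowerSeries_C x₀
    · exact HahnSeries.ofPowerSeries_X

theorem branchP_range (σ : K →+* LaurentSeries k) (x₀ : k)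
    (hC : ∀ c : k, σ (algebraMap k K c) = HahnSeries.C c)
    (hX : σ (algebraMap k[X] K X) = HahnSeries.C x₀ + ss k)
    (a : K) (ha : IsIntegral k[X] a) :
    ∃ y : PowerSeries k, HahnSeries.ofPowerSeries ℤ k y = σ a := by
  have h1 : IsIntegral (PowerSeries k) (σ a) :=
    IsIntegral.map_of_comp_eq (branchP_psi x₀) σ (branchP_comp σ x₀ hC hX) ha
  exact IsIntegrallyClosed.isIntegral_iff.1 h1

theorem branchP_tau (σ : K →+* LaurentSeries k) (x₀ : k)
    (hC : ∀ c : k, σ (algebraMap k K c) = HahnSeries.C c)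
    (hX : σ (algebraMap k[X] K X) = HahnSeries.C x₀ + ss k) :
    ∃ τ : integralClosure k[X] K →+* PowerSeries k,
      ∀ a, HahnSeries.ofPowerSeries ℤ k (τ a) = σ (a : K) := by
  have hinj : Function.Injective (HahnSeries.ofPowerSeries ℤ k) :=
    HahnSeries.ofPowerSeries_injective
  have hr : ∀ a : integralClosure k[X] K, ∃ y : PowerSeries k,
      HahnSeries.ofPowerSeries ℤ k y = σ (a : K) := fun a =>
    branchP_range σ x₀ hC hX a a.2
  choose f hf using hr
  refine ⟨{ toFun := f, map_one' := ?_, map_mul' := ?_, map_zero' := ?_, map_add' := ?_ }, hf⟩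
  · apply hinj
    rw [hf, map_one]
    exact map_one σ
  · intro a b
    apply hinj
    rw [hf, map_mul, hf, hf]
    exact map_mul σ _ _
  · apply hinj
    rw [hf, map_zero]
    exact map_zero σ
  · intro a b
    apply hinj
    rw [hf, map_add, hf, hf]
    exact map_add σ _ _

end

omit [IsAlgClosed k] [CharZero k] in
theorem branchP_order_unit (g : PowerSeries k) (hg : PowerSeries.constantCoeff g ≠ 0) :
    (HahnSeries.ofPowerSeries ℤ k g : LaurentSeries k).order = 0 := by
  have h := (order_single_mul 0 g hg).2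
  have h1 : (HahnSeries.single (0 : ℤ) (1 : k) : LaurentSeries k) = 1 := rfl
  rwa [h1, one_mul] at h

theorem exists_place_of_branch (σ : K →+* LaurentSeries k) (x₀ : k)
    (hC : ∀ c : k, σ (algebraMap k K c) = HahnSeries.C c)
    (hX : σ (algebraMap k[X] K X) = HahnSeries.C x₀ + ss k) :
    ∃ p : HeightOneSpectrum (integralClosure k[X] K), ∀ a : K, a ≠ 0 →
      vfin p a = (σ a).order := by
  obtain ⟨τ, hτ⟩ := branchP_tau σ x₀ hC hX
  have hσX : σ (algebraMap k[X] K (X - C x₀)) = ss k := by
    have h1 : algebraMap k[X] K (C x₀) = algebraMap k K x₀ :=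
      (IsScalarTower.algebraMap_apply k k[X] K x₀).symm
    rw [map_sub, map_sub, h1, hX, hC]
    ring
  -- the element X - x₀ of S
  set x : integralClosure k[X] K := algebraMap k[X] (integralClosure k[X] K) (X - C x₀) with hx
  have hxK : (x : K) = algebraMap k[X] K (X - C x₀) := rfl
  have hss : (ss k : LaurentSeries k) ≠ 0 := by
    rw [Ne, HahnSeries.single_eq_zero_iff]
    exact one_ne_zero
  have hx0 : x ≠ 0 := by
    intro h
    have h1 : σ (x : K) = 0 := by
      rw [h]
      exact map_zero σ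
    rw [hxK, hσX] at h1
    exact hss h1
  let ρ : integralClosure k[X] K →+* k := (PowerSeries.constantCoeff (R := k)).comp τ
  have hxρ : ρ x = 0 := by
    have h1 : τ x = PowerSeries.X := by
      apply HahnSeries.ofPowerSeries_injective (Γ := ℤ) (R := k)
      rw [hτ, hxK, hσX, HahnSeries.ofPowerSeries_X]
    change PowerSeries.constantCoeff (τ x) = 0
    rw [h1, PowerSeries.constantCoeff_X]
  have hprime : (RingHom.ker ρ).IsPrime := RingHom.ker_isPrime ρ
  have hbot : RingHom.ker ρ ≠ ⊥ := by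
    intro h
    have h1 : x ∈ RingHom.ker ρ := hxρ
    rw [h, Ideal.mem_bot] at h1
    exact hx0 h1
  let p : HeightOneSpectrum (integralClosure k[X] K) := ⟨RingHom.ker ρ, hprime, hbot⟩
  have hpmem : ∀ a : integralClosure k[X] K, a ∈ p.asIdeal ↔ ρ a = 0 := fun a => Iff.rfl
  -- elements of S not in p
  have hS : ∀ a : integralClosure k[X] K, a ∉ p.asIdeal →
      vfin p (a : K) = 0 ∧ (σ (a : K)).order = 0 ∧ (a : K) ≠ 0 := by
    intro a ha
    have ha0 : a ≠ 0 := by
      intro h
      apply ha
      rw [h]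
      exact Ideal.zero_mem _
    have haK : (a : K) ≠ 0 := fun h => ha0 (Subtype.ext h)
    refine ⟨?_, ?_, haK⟩
    · have h1 : 0 ≤ vfin p (a : K) := vfin_integral p a a.2 haK
      have h2 : ¬ 0 < vfin p (a : K) := fun h => ha ((vfin_pos_iff p a ha0).1 h)
      omega
    · rw [← hτ]
      exact branchP_order_unit (τ a) (fun h => ha ((hpmem a).2 h))
  have hσ0 : ∀ a : K, a ≠ 0 → σ a ≠ 0 := fun a ha h => ha ((map_eq_zero σ).1 h)
  have hzero : ∀ a : K, a ≠ 0 → vfin p a = 0 → (σ a).order = 0 := by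
    intro a ha hva
    have hv : p.valuation K a ≠ 0 := (Valuation.ne_zero_iff _).2 ha
    have h1 : p.valuation K a = 1 := by
      have h2 : WithZero.log (p.valuation K a) = 0 := by
        have h3 : - WithZero.log (p.valuation K a) = 0 := hva
        omega
      rw [← WithZero.exp_log hv, h2, WithZero.exp_zero]
    obtain ⟨n, d, hnd⟩ := p.exists_primeCompl_mul_eq_of_integer (K := K) a h1.le
    have hnd' : a * ((d : integralClosure k[X] K) : K) = (n : K) := hnd
    obtain ⟨d1, d2, d3⟩ := hS d d.2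
    have hn0 : n ≠ 0 := by
      intro h
      rw [h] at hnd'
      exact mul_ne_zero ha d3 hnd'
    have hnp : n ∉ p.asIdeal := by
      intro h
      have h2 := (vfin_pos_iff p n hn0).2 h
      rw [← hnd', vfin_mul p _ _ ha d3, hva, d1] at h2
      omega
    obtain ⟨n1, n2, n3⟩ := hS n hnp
    have h3 : (σ a * σ ((d : integralClosure k[X] K) : K)).order = 0 := by
      rw [← map_mul, hnd']
      exact n2
    rw [order_mul' _ _ (hσ0 a ha) (hσ0 _ d3), d2, add_zero] at h3
    exact h3
  let F : Additive Kˣ →+ ℤ := AddMonoidHom.mk' (fun u => vfin p ((Additive.toMul u : Kˣ) : K))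
    (fun u v => vfin_mul p _ _ (Units.ne_zero _) (Units.ne_zero _))
  let G : Additive Kˣ →+ ℤ := AddMonoidHom.mk' (fun u => (σ ((Additive.toMul u : Kˣ) : K)).order)
    (fun u v => by
      have h1 : (σ ((Additive.toMul (u + v) : Kˣ) : K)) =
        σ ((Additive.toMul u : Kˣ) : K) * σ ((Additive.toMul v : Kˣ) : K) := map_mul σ _ _
      rw [h1]
      exact order_mul' _ _ (hσ0 _ (Units.ne_zero _)) (hσ0 _ (Units.ne_zero _)))
  have hFG : ∀ u, F u = 0 → G u = 0 := fun u hu => hzero _ (Units.ne_zero _) hu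
  obtain ⟨π, hπ0, hπ⟩ := vfin_unif p
  let w : Additive Kˣ := Additive.ofMul (Units.mk0 π hπ0)
  have hFw : F w = 1 := hπ
  have hG : ∀ u, G u = F u * G w := by
    intro u
    have h1 : F (u - F u • w) = 0 := by
      rw [map_sub, map_zsmul, hFw]
      simp
    have h2 := hFG _ h1
    rw [map_sub, map_zsmul, smul_eq_mul] at h2
    omega
  have hxK0 : (x : K) ≠ 0 := fun h => hx0 (Subtype.ext h)
  have h1 := hG (Additive.ofMul (Units.mk0 (x : K) hxK0))
  have h2 : G (Additive.ofMul (Units.mk0 (x : K) hxK0)) = 1 := by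
    change (σ (x : K)).order = 1
    rw [hxK, hσX]
    exact HahnSeries.order_single one_ne_zero
  have h3 : 0 < F (Additive.ofMul (Units.mk0 (x : K) hxK0)) :=
    (vfin_pos_iff p x hx0).2 ((hpmem x).2 hxρ)
  rw [h2] at h1
  have h4 : G w = 1 := by
    have h5 := Int.eq_one_or_neg_one_of_mul_eq_one' h1.symm
    rcases h5 with h5 | h5
    · exact h5.2
    · omega
  refine ⟨p, fun a ha => ?_⟩
  have h5 := hG (Additive.ofMul (Units.mk0 a ha))
  rw [h4, mul_one] at h5
  exact h5.symm

end Pool.Agent.H92.RP
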