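import Mathlib
import Pool.Agent.H92.RP.FFin

set_option autoImplicit false

/-!
# RP-B2: the sum of the values at the finite places is the degree of the norm

PROOF.  Both sides are additive in `a ≠ 0` (`vfin_mul`, `vfin_finite`, `finsum_add_distrib`;
`map_mul`, `RatFunc.intDegree_mul`), so writing `a = b / c` with `b, c ∈ S`
(`S = integralClosure k[X] K`) we may assume `a = b ∈ S`.  Then
`Algebra.norm (RatFunc k) b = algebraMap (Algebra.intNorm k[X] S b)` and its `intDegree` is the
`natDegree` of `g := Algebra.intNorm k[X] S b ∈ k[X]`.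
`Ideal.relNorm k[X]` is a multiplicative map from ideals of `S` to ideals of `k[X]`,
`relNorm (span {b}) = span {g}` (`Ideal.relNorm_singleton`).  For a maximal ideal `p` of `S` the
ideal `P = p ∩ k[X]` is maximal, `P = (X - x₀)`, and `relNorm p = P ^ inertiaDeg = P`
(`Ideal.relNorm_eq_pow_of_isMaximal`; the inertia degree is `1` because `S / p` is a finite
extension of `k[X]/P = k`, which is algebraically closed).  Factor
`span {b} = ∏ᶠ p ^ (vfin p b)` (`Ideal.finprod_heightOneSpectrum_factorization`,
`HeightOneSpectrum.intValuation_if_neg`, or use `UniqueFactorizationMonoid` induction on ideals: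
for every nonzero ideal `I`, `relNorm I = span {h}` with
`h.natDegree = ∑ multiplicities`).  Hence `g` is associated to `∏ (X - x_p) ^ (vfin p b)` and
`g.natDegree = ∑ᶠ vfin p b`.
Alternative: `finrank_quotient_span_eq_natDegree_norm` (`dim_k S/(b) = natDegree (norm b)`)
together with the Chinese remainder theorem and `dim_k S/p^e = e`.
-/

namespace Pool.Agent.H92.RP

open Polynomial IsDedekindDomain

variable {k K : Type} [Field k] [IsAlgClosed k] [CharZero k] [Field K] [Algebra k K]
  [Algebra k[X] K] [IsScalarTower k k[X] K] [Algebra (RatFunc k) K]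
  [IsScalarTower k[X] (RatFunc k) K] [FiniteDimensional (RatFunc k) K]

attribute [local instance] isDedekind_S isFractionRing_S

theorem faithful_S : FaithfulSMul k[X] (integralClosure k[X] K) := by
  rw [faithfulSMul_iff_algebraMap_injective]
  intro a b hab
  have h : algebraMap k[X] K a = algebraMap k[X] K b :=
    congrArg (fun z : integralClosure k[X] K => (z : K)) hab
  by_contra hne
  have := algebraMap_ne_zero' (K := K) (sub_ne_zero.2 hne)
  rw [map_sub, h, sub_self] at this
  exact this rfl

theorem torsionFree_S : Module.IsTorsionFree k[X] (integralClosure k[X] K) := by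
  have := faithful_S (k := k) (K := K)
  infer_instance

theorem finite_S : Module.Finite k[X] (integralClosure k[X] K) := by
  have : CharZero (RatFunc k) := by
    exact charZero_of_injective_algebraMap (FaithfulSMul.algebraMap_injective k (RatFunc k))
  exact IsIntegralClosure.finite k[X] (RatFunc k) K (integralClosure k[X] K)

attribute [local instance] torsionFree_S finite_S

/-- the relative norm of a nonzero prime is a linear polynomial -/
theorem relNorm_prime (p : Ideal (integralClosure k[X] K)) (hp : p.IsPrime) (hp0 : p ≠ ⊥) :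
    ∃ x : k, Ideal.relNorm k[X] p = Ideal.span {X - C x} := by
  have hmax : p.IsMaximal := hp.isMaximal hp0
  obtain ⟨a, hap, ha0⟩ := Submodule.exists_mem_ne_zero_of_ne_bot hp0
  have hne : Ideal.comap (algebraMap k[X] (integralClosure k[X] K)) p ≠ ⊥ :=
    Ideal.comap_ne_bot_of_integral_mem ha0 hap (Algebra.IsIntegral.isIntegral a)
  obtain ⟨g, hg, hg0⟩ := Submodule.exists_mem_ne_zero_of_ne_bot hne
  have hq : (Ideal.comap (algebraMap k[X] (integralClosure k[X] K)) p).IsPrime :=
    Ideal.IsPrime.comap _
  obtain ⟨x, hx⟩ := exists_linear_mem _ g.natDegree g le_rfl hg0 hg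
  have hqmax : (Ideal.comap (algebraMap k[X] (integralClosure k[X] K)) p).IsMaximal :=
    hq.isMaximal hne
  have hspan : (Ideal.span {X - C x} : Ideal k[X]).IsMaximal :=
    PrincipalIdealRing.isMaximal_of_irreducible (irreducible_X_sub_C x)
  have heq : Ideal.span {X - C x} = Ideal.comap (algebraMap k[X] (integralClosure k[X] K)) p := by
    refine hspan.eq_of_le hq.ne_top ?_
    rw [Ideal.span_singleton_le_iff_mem]
    exact hx
  have hlies : p.LiesOver (Ideal.span {X - C x} : Ideal k[X]) := ⟨heq⟩
  have hcz : CharZero (FractionRing k[X]) :=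
    charZero_of_injective_algebraMap (FaithfulSMul.algebraMap_injective k (FractionRing k[X]))
  refine ⟨x, ?_⟩
  rw [Ideal.relNorm_eq_pow_of_isMaximal p (Ideal.span {X - C x} : Ideal k[X]),
    Ideal.inertiaDeg_eq_of_isMaximal (Ideal.span {X - C x} : Ideal k[X]) p]
  have hfr : Module.finrank (k[X] ⧸ (Ideal.span {X - C x} : Ideal k[X]))
      ((integralClosure k[X] K) ⧸ p) = 1 := by
    letI : Field (k[X] ⧸ (Ideal.span {X - C x} : Ideal k[X])) := Ideal.Quotient.field _
    letI : Field ((integralClosure k[X] K) ⧸ p) := Ideal.Quotient.field _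
    have hsurj : Function.Surjective (algebraMap k (k[X] ⧸ (Ideal.span {X - C x} : Ideal k[X]))) := by
      intro y
      obtain ⟨f, rfl⟩ := Ideal.Quotient.mk_surjective y
      refine ⟨f.eval x, ?_⟩
      have h1 : algebraMap k (k[X] ⧸ (Ideal.span {X - C x} : Ideal k[X])) (f.eval x) =
        Ideal.Quotient.mk _ (C (f.eval x)) := rfl
      rw [h1, eq_comm, Ideal.Quotient.mk_eq_mk_iff_sub_mem, Ideal.mem_span_singleton]
      exact X_sub_C_dvd_sub_C_eval
    have hint : (algebraMap (k[X] ⧸ (Ideal.span {X - C x} : Ideal k[X]))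
      ((integralClosure k[X] K) ⧸ p)).IsIntegral := by
      exact algebraMap_isIntegral_iff.2 inferInstance
    have hcomp : ((algebraMap (k[X] ⧸ (Ideal.span {X - C x} : Ideal k[X]))
      ((integralClosure k[X] K) ⧸ p)).comp
      (algebraMap k (k[X] ⧸ (Ideal.span {X - C x} : Ideal k[X])))).IsIntegral :=
      RingHom.IsIntegral.trans _ _ (RingHom.isIntegral_of_surjective _ hsurj) hint
    have hbij := IsAlgClosed.ringHom_bijective_of_isIntegral _ hcomp
    have hs : Function.Surjective (algebraMap (k[X] ⧸ (Ideal.span {X - C x} : Ideal k[X]))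
      ((integralClosure k[X] K) ⧸ p)) := by
      intro y
      obtain ⟨z, hz⟩ := hbij.2 y
      exact ⟨algebraMap k (k[X] ⧸ (Ideal.span {X - C x} : Ideal k[X])) z, hz⟩
    rw [finrank_eq_one_iff_of_nonzero' (1 : (integralClosure k[X] K) ⧸ p) one_ne_zero]
    intro w
    obtain ⟨z, hz⟩ := hs w
    exact ⟨z, by rw [← hz, Algebra.smul_def, mul_one]⟩
  rw [hfr, pow_one]

/-- number of prime factors with multiplicity of an ideal -/
noncomputable def degI (I : Ideal (integralClosure k[X] K)) : ℤ :=
  ∑ᶠ p : HeightOneSpectrum (integralClosure k[X] K), FractionalIdeal.count K p (I : FractionalIdeal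
    (nonZeroDivisors (integralClosure k[X] K)) K)

theorem degI_mul (I J : Ideal (integralClosure k[X] K)) (hI : I ≠ 0) (hJ : J ≠ 0) :
    degI (k := k) (K := K) (I * J) = degI (k := k) (K := K) I + degI (k := k) (K := K) J := by
  unfold degI
  rw [← finsum_add_distrib (FractionalIdeal.finite_factors _) (FractionalIdeal.finite_factors _)]
  refine finsum_congr fun p => ?_
  rw [FractionalIdeal.coeIdeal_mul, FractionalIdeal.count_mul K p
    (FractionalIdeal.coeIdeal_ne_zero.2 hI) (FractionalIdeal.coeIdeal_ne_zero.2 hJ)]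

theorem degI_one : degI (k := k) (K := K) 1 = 0 := by
  unfold degI
  rw [finsum_eq_zero_of_forall_eq_zero]
  intro p
  rw [Ideal.one_eq_top, FractionalIdeal.coeIdeal_top, FractionalIdeal.count_one]

theorem degI_prime (p : HeightOneSpectrum (integralClosure k[X] K)) :
    degI (k := k) (K := K) p.asIdeal = 1 := by
  unfold degI
  rw [finsum_eq_single _ p, FractionalIdeal.count_self]
  intro q hq
  exact FractionalIdeal.count_maximal_coprime K q hq.symm

theorem natDegree_relNorm (I : Ideal (integralClosure k[X] K)) (hI : I ≠ 0) :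
    ∀ h : k[X], Ideal.relNorm k[X] I = Ideal.span {h} → (h.natDegree : ℤ) =
      degI (k := k) (K := K) I := by
  induction I using UniqueFactorizationMonoid.induction_on_prime with
  | h₁ => exact absurd rfl hI
  | h₂ J hJ =>
    intro h hh
    rw [Ideal.isUnit_iff.1 hJ, Ideal.relNorm_top, eq_comm, Ideal.span_singleton_eq_top] at hh
    rw [Ideal.isUnit_iff.1 hJ, ← Ideal.one_eq_top, degI_one,
      natDegree_eq_zero_of_isUnit hh]
    rfl
  | h₃ J p hJ hp ih =>
    intro h hh
    have hpP : p.IsPrime := Ideal.isPrime_of_prime hp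
    obtain ⟨x, hx⟩ := relNorm_prime (k := k) (K := K) p hpP hp.ne_zero
    have hg := (IsPrincipalIdealRing.principal (Ideal.relNorm k[X] J)).principal
    obtain ⟨g, hg⟩ := hg
    have hg' : Ideal.relNorm k[X] J = Ideal.span {g} := hg
    have hg0 : g ≠ 0 := by
      rintro rfl
      rw [Ideal.span_singleton_zero, Ideal.relNorm_eq_bot_iff] at hg'
      exact hJ hg'
    rw [map_mul, hx, hg', Ideal.span_singleton_mul_span_singleton,
      Ideal.span_singleton_eq_span_singleton] at hh
    rw [degI_mul p J hp.ne_zero hJ, ← ih hJ g hg', ← natDegree_eq_of_degree_eq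
      (degree_eq_degree_of_associated hh), natDegree_mul (X_sub_C_ne_zero x) hg0,
      natDegree_X_sub_C]
    have h1 := degI_prime (k := k) (K := K) ⟨p, hpP, hp.ne_zero⟩
    rw [show degI (k := k) (K := K) p = 1 from h1]
    push_cast
    ring

theorem vfin_coe (p : HeightOneSpectrum (integralClosure k[X] K))
    (b : integralClosure k[X] K) (hb : b ≠ 0) :
    vfin p (b : K) = FractionalIdeal.count K p ((Ideal.span {b} : Ideal (integralClosure k[X] K)) :
      FractionalIdeal (nonZeroDivisors (integralClosure k[X] K)) K) := by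
  classical
  unfold vfin
  have h1 : p.valuation K (b : K) = p.intValuation b := p.valuation_of_algebraMap b
  rw [h1, p.intValuation_if_neg hb, WithZero.log_exp, neg_neg, FractionalIdeal.count_coe]
  intro h
  exact hb (Ideal.span_singleton_eq_bot.1 h)

theorem finsum_vfin_int (b : integralClosure k[X] K) (hb : b ≠ 0) :
    ∑ᶠ p : HeightOneSpectrum (integralClosure k[X] K), vfin p (b : K) =
      RatFunc.intDegree (Algebra.norm (RatFunc k) (b : K)) := by
  have h1 : Algebra.norm (RatFunc k) (b : K) =
      algebraMap k[X] (RatFunc k) (Algebra.intNorm k[X] (integralClosure k[X] K) b) :=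
    (Algebra.algebraMap_intNorm (A := k[X]) (K := RatFunc k) (L := K)
      (B := integralClosure k[X] K) b).symm
  rw [h1, RatFunc.intDegree_polynomial, natDegree_relNorm (k := k) (K := K) (Ideal.span {b}) ?_ _
    (Ideal.relNorm_singleton k[X] b)]
  · unfold degI
    exact finsum_congr fun p => vfin_coe p b hb
  · intro h
    exact hb (Ideal.span_singleton_eq_bot.1 h)

theorem finsum_vfin (a : K) (ha : a ≠ 0) :
    ∑ᶠ p : HeightOneSpectrum (integralClosure k[X] K), vfin p a =
      RatFunc.intDegree (Algebra.norm (RatFunc k) a) := by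
  obtain ⟨b, c, hc, hbc⟩ := IsFractionRing.div_surjective (A := integralClosure k[X] K) a
  have hc0 : c ≠ 0 := nonZeroDivisors.ne_zero hc
  have hcK : (c : K) ≠ 0 := fun h => hc0 (Subtype.ext h)
  have hac : a * (c : K) = (b : K) := by
    rw [← hbc]
    exact div_mul_cancel₀ _ hcK
  have hb0 : b ≠ 0 := by
    rintro rfl
    have : a * (c : K) = 0 := hac
    exact mul_ne_zero ha hcK this
  have hN : Algebra.norm (RatFunc k) a * Algebra.norm (RatFunc k) (c : K) =
      Algebra.norm (RatFunc k) (b : K) := by
    rw [← map_mul, hac]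
  have h1 := finsum_vfin_int b hb0
  have hNa : Algebra.norm (RatFunc k) a ≠ 0 := Algebra.norm_ne_zero_iff.2 ha
  have hNc : Algebra.norm (RatFunc k) (c : K) ≠ 0 := Algebra.norm_ne_zero_iff.2 hcK
  rw [← hN, RatFunc.intDegree_mul hNa hNc, ← finsum_vfin_int c hc0] at h1
  have h2 : ∑ᶠ p : HeightOneSpectrum (integralClosure k[X] K), vfin p (b : K) =
      ∑ᶠ p : HeightOneSpectrum (integralClosure k[X] K), vfin p a +
      ∑ᶠ p : HeightOneSpectrum (integralClosure k[X] K), vfin p (c : K) := by
    rw [← finsum_add_distrib (vfin_finite a ha) (vfin_finite (c : K) hcK)]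
    refine finsum_congr fun p => ?_
    rw [← hac, vfin_mul p a c ha hcK]
  linarith

end Pool.Agent.H92.RP
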