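import Mathlib
import Pool.Agent.H92.RP.Laur

set_option autoImplicit false

/-!
# RP-B4': homomorphisms from `k(X)` to Laurent series

PROOFS.
* `ratfunc_ext`: two ring homomorphisms `RatFunc k → L` which agree on constants and on `X` are
  equal (`IsFractionRing`/`IsLocalization.ringHom_ext`, `Polynomial.ringHom_ext`).
* `order_inf`: for `σ(X) = s⁻¹` and a polynomial `g ≠ 0` of degree `d`, `σ g` has order `-d`
  (leading term `a_d s^(-d)`); then quotients.
* `denom_ne_zero`: for `σ(X) = x₀ + s`, a polynomial `g` with `g(x₀) ≠ 0` goes to a series of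
  order `0`, and `σ(X - x₀) = s`; write the reduced fraction `g = N / D`; if `D(x₀) = 0` then
  `N(x₀) ≠ 0` (coprime), `σ N` has order `0`, `σ D` has order `≥ 1`, so `σ g` has order `< 0`,
  contradiction with `lge 0`.
* `eq_zero_of_poly`: if `g ∈ k(X)` has no poles at all `x₀ ∈ k` (denominator without zeros, `k`
  algebraically closed) it is a polynomial; if moreover its order at infinity is `≥ 1` it is `0`.
-/

namespace Pool.Agent.H92.RP

variable {k : Type} [Field k]

theorem ratfunc_ext {L : Type} [Field L] (σ τ : RatFunc k →+* L)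
    (hC : ∀ c : k, σ (RatFunc.C c) = τ (RatFunc.C c)) (hX : σ RatFunc.X = τ RatFunc.X) :
    σ = τ := by
  apply IsLocalization.ringHom_ext (nonZeroDivisors (Polynomial k))
  apply Polynomial.ringHom_ext
  · intro c
    simpa using hC c
  · simpa using hX

/-- the coefficients of a polynomial in `s⁻¹` -/
theorem laurR_coeff_inf (σ : RatFunc k →+* LaurentSeries k)
    (hC : ∀ c : k, σ (RatFunc.C c) = HahnSeries.C c)
    (hX : σ RatFunc.X = HahnSeries.single (-1) 1) (p : Polynomial k) (j : ℤ) :
    (σ (algebraMap (Polynomial k) (RatFunc k) p)).coeff j =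
      if j ≤ 0 then p.coeff (-j).toNat else 0 := by
  induction p using Polynomial.induction_on' with
  | add p q hp hq =>
    rw [map_add, map_add, HahnSeries.coeff_add, hp, hq]
    split_ifs
    · rw [Polynomial.coeff_add]
    · rw [add_zero]
  | monomial n a =>
    have h1 : σ (algebraMap (Polynomial k) (RatFunc k) (Polynomial.monomial n a)) =
        HahnSeries.single (-(n : ℤ)) a := by
      rw [← Polynomial.C_mul_X_pow_eq_monomial, map_mul, map_mul, map_pow, map_pow,
        RatFunc.algebraMap_C, RatFunc.algebraMap_X, hC, hX, HahnSeries.single_pow, one_pow,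
        HahnSeries.C_apply, HahnSeries.single_mul_single, zero_add, mul_one]
      congr 1
      simp
    rw [h1, Polynomial.coeff_monomial]
    by_cases hj : j = -(n : ℤ)
    · subst hj
      rw [HahnSeries.coeff_single_same, if_pos (by omega), if_pos (by omega)]
    · rw [HahnSeries.coeff_single_of_ne hj]
      split_ifs with h2 h3
      · omega
      · rfl
      · rfl

theorem laurR_order_inf_poly (σ : RatFunc k →+* LaurentSeries k)
    (hC : ∀ c : k, σ (RatFunc.C c) = HahnSeries.C c)
    (hX : σ RatFunc.X = HahnSeries.single (-1) 1) (p : Polynomial k) (hp : p ≠ 0) :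
    (σ (algebraMap (Polynomial k) (RatFunc k) p)).order = -(p.natDegree : ℤ) := by
  have hne : (σ (algebraMap (Polynomial k) (RatFunc k) p)) ≠ 0 := by
    rw [Ne, map_eq_zero, map_eq_zero_iff _ (RatFunc.algebraMap_injective k)]
    exact hp
  apply le_antisymm
  · apply HahnSeries.order_le_of_coeff_ne_zero
    rw [laurR_coeff_inf σ hC hX, if_pos (by omega)]
    simpa using hp
  · by_contra hlt
    push Not at hlt
    have h1 := HahnSeries.coeff_order_eq_zero.not.mpr hne
    apply h1
    rw [laurR_coeff_inf σ hC hX]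
    split_ifs with h2
    · apply Polynomial.coeff_eq_zero_of_natDegree_lt
      omega
    · rfl

theorem order_inf (σ : RatFunc k →+* LaurentSeries k)
    (hC : ∀ c : k, σ (RatFunc.C c) = HahnSeries.C c)
    (hX : σ RatFunc.X = HahnSeries.single (-1) 1) (g : RatFunc k) (hg : g ≠ 0) :
    (σ g).order = - g.intDegree := by
  have hσ : σ g ≠ 0 := by rwa [Ne, map_eq_zero]
  have hn : g.num ≠ 0 := RatFunc.num_ne_zero hg
  have hd : g.denom ≠ 0 := RatFunc.denom_ne_zero g
  have hσd : σ (algebraMap (Polynomial k) (RatFunc k) g.denom) ≠ 0 := by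
    rw [Ne, map_eq_zero, map_eq_zero_iff _ (RatFunc.algebraMap_injective k)]
    exact hd
  have h1 : g * algebraMap (Polynomial k) (RatFunc k) g.denom =
      algebraMap (Polynomial k) (RatFunc k) g.num := by
    have h0' : algebraMap (Polynomial k) (RatFunc k) g.denom ≠ 0 := by
      rw [Ne, map_eq_zero_iff _ (RatFunc.algebraMap_injective k)]
      exact hd
    exact ((div_eq_iff h0').mp (RatFunc.num_div_denom g)).symm
  have h2 := congrArg (fun z => (σ z).order) h1
  simp only [map_mul] at h2
  rw [order_mul' _ _ hσ hσd, laurR_order_inf_poly σ hC hX _ hd,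
    laurR_order_inf_poly σ hC hX _ hn] at h2
  unfold RatFunc.intDegree
  linarith

/-- substitution of `x₀ + s`, as a power series -/
noncomputable def laurRps (x₀ : k) : Polynomial k →+* PowerSeries k :=
  Polynomial.eval₂RingHom (PowerSeries.C : k →+* PowerSeries k) (PowerSeries.C x₀ + PowerSeries.X)

theorem laurR_ofPS (σ : RatFunc k →+* LaurentSeries k) (x₀ : k)
    (hC : ∀ c : k, σ (RatFunc.C c) = HahnSeries.C c)
    (hX : σ RatFunc.X = HahnSeries.C x₀ + ss k) (p : Polynomial k) :
    σ (algebraMap (Polynomial k) (RatFunc k) p) =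
      HahnSeries.ofPowerSeries ℤ k (laurRps x₀ p) := by
  have h : (σ : RatFunc k →+* LaurentSeries k).comp (algebraMap (Polynomial k) (RatFunc k)) =
      (HahnSeries.ofPowerSeries ℤ k).comp (laurRps x₀) := by
    apply Polynomial.ringHom_ext
    · intro c
      simp [laurRps, hC]
    · simp [laurRps, hX]
  exact RingHom.congr_fun h p

theorem laurR_const (x₀ : k) (p : Polynomial k) :
    PowerSeries.constantCoeff (laurRps x₀ p) = p.eval x₀ := by
  have h : (PowerSeries.constantCoeff (R := k)).comp (laurRps x₀) =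
      Polynomial.evalRingHom x₀ := by
    apply Polynomial.ringHom_ext
    · intro c
      simp [laurRps]
    · simp [laurRps]
  exact RingHom.congr_fun h p

theorem laurR_coeff_zero (x₀ : k) (p : Polynomial k) :
    (HahnSeries.ofPowerSeries ℤ k (laurRps x₀ p)).coeff 0 = p.eval x₀ := by
  have h := HahnSeries.ofPowerSeries_apply_coeff (Γ := ℤ) (laurRps x₀ p) 0
  rw [Nat.cast_zero] at h
  rw [h, ← laurR_const x₀ p, PowerSeries.coeff_zero_eq_constantCoeff_apply]

theorem denom_ne_zero (σ : RatFunc k →+* LaurentSeries k) (x₀ : k)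
    (hC : ∀ c : k, σ (RatFunc.C c) = HahnSeries.C c)
    (hX : σ RatFunc.X = HahnSeries.C x₀ + ss k) (g : RatFunc k) (hg : lge 0 (σ g)) :
    g.denom.eval x₀ ≠ 0 := by
  intro h0
  have hd : g.denom ≠ 0 := RatFunc.denom_ne_zero g
  have h1 : g * algebraMap (Polynomial k) (RatFunc k) g.denom =
      algebraMap (Polynomial k) (RatFunc k) g.num := by
    have h0' : algebraMap (Polynomial k) (RatFunc k) g.denom ≠ 0 := by
      rw [Ne, map_eq_zero_iff _ (RatFunc.algebraMap_injective k)]
      exact hd
    exact ((div_eq_iff h0').mp (RatFunc.num_div_denom g)).symm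
  have h2 := congrArg (fun z => (σ z).coeff 0) h1
  simp only [map_mul] at h2
  rw [laurR_ofPS σ x₀ hC hX g.num, laurR_coeff_zero] at h2
  have hD : lge 1 (σ (algebraMap (Polynomial k) (RatFunc k) g.denom)) := by
    rw [laurR_ofPS σ x₀ hC hX]
    intro i hi
    rcases lt_or_eq_of_le (show i ≤ 0 by omega) with h | h
    · exact lge_ofPS _ i h
    · rw [h, laurR_coeff_zero, h0]
  have h3 := (hg.mul hD) 0 (by norm_num)
  rw [h3] at h2
  obtain ⟨a, b, hab⟩ := RatFunc.isCoprime_num_denom g
  have h4 := congrArg (Polynomial.eval x₀) hab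
  rw [Polynomial.eval_add, Polynomial.eval_mul, Polynomial.eval_mul, ← h2, h0,
    Polynomial.eval_one] at h4
  simp at h4

theorem eq_zero_of_poles [IsAlgClosed k] (g : RatFunc k) (hd : ∀ x₀ : k, g.denom.eval x₀ ≠ 0)
    (hi : g ≠ 0 → g.intDegree < 0) : g = 0 := by
  by_contra hg
  have h1 := hi hg
  have h2 : g.denom.natDegree = 0 := by
    by_contra hne
    have h3 : g.denom.degree ≠ 0 := by
      intro h
      exact hne (Polynomial.natDegree_eq_of_degree_eq_some h)
    obtain ⟨x, hx⟩ := IsAlgClosed.exists_root g.denom h3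
    exact hd x hx
  unfold RatFunc.intDegree at h1
  omega

end Pool.Agent.H92.RP
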