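import Mathlib

set_option autoImplicit false

/-!
# RP-B3: norm and trace as product and sum over all embeddings

`K/F` finite separable of degree `n`, `ι : F → L` a homomorphism of fields, `σ j : K → L`
(`j : Fin n`) distinct homomorphisms extending `ι`.  Then `ι (N a) = ∏ σ_j(a)`,
`ι (Tr a) = ∑ σ_j(a)`.

PROOF.  `letI := ι.toAlgebra`; let `E` be an algebraic closure of `L`, `j : L → E`; the maps
`j ∘ σ_i : K →ₐ[F] E` are `n` distinct elements of `K →ₐ[F] E`, which has exactly
`finrank F K = n` elements (`AlgHom.card`, separability), so `Fin n → (K →ₐ[F] E)` is bijective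
(`Fintype.bijective_iff_injective_and_card`).  Apply `Algebra.norm_eq_prod_embeddings` and
`trace_eq_sum_embeddings` (with the algebraically closed field `E`), reindex, and use injectivity
of `L → E`.
-/

namespace Pool.Agent.H92.RP

theorem norm_trace_embeddings {F K L : Type} [Field F] [Field K] [Field L] [Algebra F K]
    [FiniteDimensional F K] [Algebra.IsSeparable F K] (ι : F →+* L) (n : ℕ)
    (hn : Module.finrank F K = n) (σ : Fin n → K →+* L)
    (hσ : ∀ (j : Fin n) (a : F), σ j (algebraMap F K a) = ι a) (hinj : Function.Injective σ)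
    (a : K) :
    ι (Algebra.norm F a) = ∏ j, σ j a ∧ ι (Algebra.trace F K a) = ∑ j, σ j a := by
  letI : Algebra F L := ι.toAlgebra
  letI : Algebra F (AlgebraicClosure L) := ((algebraMap L (AlgebraicClosure L)).comp ι).toAlgebra
  have hFE : ∀ x : F, algebraMap F (AlgebraicClosure L) x
      = algebraMap L (AlgebraicClosure L) (ι x) := fun x => rfl
  let τ : Fin n → (K →ₐ[F] AlgebraicClosure L) := fun j =>
    { toRingHom := (algebraMap L (AlgebraicClosure L)).comp (σ j)
      commutes' := fun x => by
        change algebraMap L (AlgebraicClosure L) (σ j (algebraMap F K x)) = _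
        rw [hσ, hFE] }
  have hτ : ∀ j x, τ j x = algebraMap L (AlgebraicClosure L) (σ j x) := fun j x => rfl
  have hτinj : Function.Injective τ := by
    intro i j h
    apply hinj
    ext x
    apply (algebraMap L (AlgebraicClosure L)).injective
    rw [← hτ, ← hτ, h]
  have hcard : Fintype.card (K →ₐ[F] AlgebraicClosure L) = n := by
    rw [AlgHom.card F K (AlgebraicClosure L), hn]
  have hbij : Function.Bijective τ := by
    rw [Fintype.bijective_iff_injective_and_card]
    exact ⟨hτinj, by rw [hcard, Fintype.card_fin]⟩
  constructor
  · apply (algebraMap L (AlgebraicClosure L)).injective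
    rw [← hFE, Algebra.norm_eq_prod_embeddings F (AlgebraicClosure L) a, map_prod]
    exact (Fintype.prod_bijective τ hbij _ _ fun j => (hτ j a).symm).symm
  · apply (algebraMap L (AlgebraicClosure L)).injective
    rw [← hFE, trace_eq_sum_embeddings (AlgebraicClosure L) (K := F) (x := a), map_sum]
    exact (Fintype.sum_bijective τ hbij _ _ fun j => (hτ j a).symm).symm

end Pool.Agent.H92.RP
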