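import Mathlib
import Pool.Agent.H92.RP.FProd
import Pool.Agent.H92.RP.NormTr
import Pool.Agent.H92.RP.BranchP
import Pool.Agent.H92.RP.LaurR

set_option autoImplicit false

/-!
# RP-B6: the complete system of places of a function field with `n` places at infinity

`FPl k K n τ` packages everything we need: all places of `K`, where the `n = [K : k(X)]` places at
infinity are given by homomorphisms `τ j : K → k((s))` with `τ j (X) = s⁻¹`.

PROOF of `exists_fpl`.  `ι := HeightOneSpectrum S ⊕ Fin n`, `v (inl p) = vfin p`,
`v (inr j) a = (τ j a).order`.  `mul`, `add`, `const`, `unif` for `inl`: `vfin_*`; for `inr`: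
`order_mul'`, `order_add'`, `order_C`, and for `unif` take `(algebraMap k[X] K X)⁻¹`
(`τ j` of it is `s`, order `1`).  `fin`: `vfin_finite` and finiteness of `Fin n`.
`prod`: the finsum over the sum type is `∑ᶠ vfin p a + ∑ j, (τ j a).order`; the first sum is
`intDegree (norm a)` (`finsum_vfin`); with `ι₀ := (τ 0).comp (algebraMap (RatFunc k) K)` (all
`τ j` agree on `RatFunc k` by `ratfunc_ext`; `n > 0` because `finrank` is positive)
`norm_trace_embeddings` gives `ι₀ (norm a) = ∏ τ j a`, so
`∑ (τ j a).order = (ι₀ (norm a)).order = - intDegree (norm a)` (`order_inf`).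
(`algebraMap k[X] K X = algebraMap (RatFunc k) K RatFunc.X`: scalar tower, `RatFunc.algebraMap_X`;
similarly for constants.)
`branch`: `exists_place_of_branch`.  `integral`: `vfin_integral`.  `denom`: `exists_denom`.
Separability of `K` over `RatFunc k`: characteristic `0`.
-/

namespace Pool.Agent.H92.RP

open Polynomial IsDedekindDomain

/-- All places of the function field `K` of degree `n` over `k(X)`, with `n` places at infinity. -/
structure FPl (k K : Type) [Field k] [Field K] [Algebra k K] [Algebra k[X] K] (n : ℕ)
    (τ : Fin n → K →+* LaurentSeries k) where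
  pl : Places k K
  inf : Fin n → pl.ι
  inf_inj : Function.Injective inf
  v_inf : ∀ j a, a ≠ 0 → pl.v (inf j) a = (τ j a).order
  branch : ∀ (σ : K →+* LaurentSeries k) (x₀ : k),
    (∀ c : k, σ (algebraMap k K c) = HahnSeries.C c) →
    σ (algebraMap k[X] K X) = HahnSeries.C x₀ + ss k →
    ∃ p, p ∉ Set.range inf ∧ ∀ a, a ≠ 0 → pl.v p a = (σ a).order
  integral : ∀ p, p ∉ Set.range inf → ∀ a, IsIntegral k[X] a → pl.ge p 0 a
  denom : ∀ (x₀ : k) (a : K),
    (∀ p, p ∉ Set.range inf → 0 < pl.v p (algebraMap k[X] K (X - C x₀)) → pl.ge p 0 a) →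
    ∃ s : k[X], s.eval x₀ ≠ 0 ∧ IsIntegral k[X] (algebraMap k[X] K s * a)

variable {k K : Type} [Field k] [IsAlgClosed k] [CharZero k] [Field K] [Algebra k K]
  [Algebra k[X] K] [IsScalarTower k k[X] K] [Algebra (RatFunc k) K]
  [IsScalarTower k[X] (RatFunc k) K] [FiniteDimensional (RatFunc k) K]

attribute [local instance] isDedekind_S isFractionRing_S

theorem exists_fpl (n : ℕ) (hn : Module.finrank (RatFunc k) K = n)
    (τ : Fin n → K →+* LaurentSeries k) (hτ : Function.Injective τ)
    (hC : ∀ (j : Fin n) (c : k), τ j (algebraMap k K c) = HahnSeries.C c)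
    (hX : ∀ j : Fin n, τ j (algebraMap k[X] K X) = HahnSeries.single (-1) 1) :
    Nonempty (FPl k K n τ) := by
  classical
  have hne : ∀ (j : Fin n) (a : K), a ≠ 0 → τ j a ≠ 0 := fun j a ha h =>
    ha ((map_eq_zero_iff (τ j) (τ j).injective).1 h)
  have hXalg : algebraMap k[X] K X = algebraMap (RatFunc k) K RatFunc.X := by
    rw [IsScalarTower.algebraMap_apply k[X] (RatFunc k) K, RatFunc.algebraMap_X]
  have hCalg : ∀ c : k, algebraMap k K c = algebraMap (RatFunc k) K (RatFunc.C c) := by
    intro c
    rw [IsScalarTower.algebraMap_apply k k[X] K, IsScalarTower.algebraMap_apply k[X] (RatFunc k) K,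
      Polynomial.algebraMap_eq, RatFunc.algebraMap_C]
  have hX0 : algebraMap k[X] K X ≠ 0 := by
    rw [hXalg]
    intro h
    exact RatFunc.X_ne_zero ((map_eq_zero_iff _ (algebraMap (RatFunc k) K).injective).1 h)
  have hnpos : 0 < n := hn ▸ Module.finrank_pos
  -- the sum over the places at infinity
  have hsum : ∀ a : K, a ≠ 0 →
      ∑ j, (τ j a).order = - RatFunc.intDegree (Algebra.norm (RatFunc k) a) := by
    intro a ha
    set i0 : RatFunc k →+* LaurentSeries k :=
      (τ ⟨0, hnpos⟩).comp (algebraMap (RatFunc k) K) with hi0
    have hi0C : ∀ c : k, i0 (RatFunc.C c) = HahnSeries.C c := by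
      intro c
      rw [hi0, RingHom.comp_apply, ← hCalg, hC]
    have hi0X : i0 RatFunc.X = HahnSeries.single (-1) 1 := by
      rw [hi0, RingHom.comp_apply, ← hXalg, hX]
    have hagree : ∀ (j : Fin n) (g : RatFunc k), τ j (algebraMap (RatFunc k) K g) = i0 g := by
      intro j g
      have h1 : (τ j).comp (algebraMap (RatFunc k) K) = i0 := by
        apply ratfunc_ext
        · intro c
          rw [hi0C, RingHom.comp_apply, ← hCalg, hC]
        · rw [hi0X, RingHom.comp_apply, ← hXalg, hX]
      rw [← h1, RingHom.comp_apply]
    have h2 := (norm_trace_embeddings i0 n hn τ hagree hτ a).1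
    have h3 : Algebra.norm (RatFunc k) a ≠ 0 := by
      rw [Ne, Algebra.norm_eq_zero_iff]
      exact ha
    have h4 := order_inf i0 hi0C hi0X _ h3
    rw [← h4, h2]
    have h5 : ∀ s : Finset (Fin n), (∏ j ∈ s, τ j a).order = ∑ j ∈ s, (τ j a).order := by
      intro s
      induction s using Finset.induction_on with
      | empty =>
        rw [Finset.prod_empty, Finset.sum_empty]
        have := order_C (1 : k)
        rwa [map_one] at this
      | insert j s hj ih =>
        rw [Finset.prod_insert hj, Finset.sum_insert hj, order_mul' _ _ (hne j a ha)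
          (Finset.prod_ne_zero_iff.2 fun i _ => hne i a ha), ih]
    exact (h5 Finset.univ).symm
  let pl : Places k K :=
    { ι := HeightOneSpectrum (integralClosure k[X] K) ⊕ Fin n
      v := fun p a => Sum.elim (fun p => vfin p a) (fun j => (τ j a).order) p
      mul := by
        rintro (p | j) a b ha hb
        · exact vfin_mul p a b ha hb
        · change (τ j (a * b)).order = (τ j a).order + (τ j b).order
          rw [map_mul, order_mul' _ _ (hne j a ha) (hne j b hb)]
      add := by
        rintro (p | j) a b ha hb hab
        · exact vfin_add p a b ha hb hab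
        · change min (τ j a).order (τ j b).order ≤ (τ j (a + b)).order
          rw [map_add]
          apply order_add'
          rw [← map_add]
          exact hne j _ hab
      const := by
        rintro (p | j) c hc
        · exact vfin_const p c hc
        · change (τ j (algebraMap k K c)).order = 0
          rw [hC, order_C]
      fin := by
        intro a ha
        refine ((vfin_finite a ha).image Sum.inl |>.union (Set.finite_range Sum.inr)).subset ?_
        rintro (p | j) hp
        · exact Or.inl ⟨p, hp, rfl⟩
        · exact Or.inr ⟨j, rfl⟩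
      prod := by
        intro a ha
        have hfin : (Function.support fun p : HeightOneSpectrum (integralClosure k[X] K) ⊕ Fin n =>
            Sum.elim (fun p => vfin p a) (fun j => (τ j a).order) p).Finite := by
          refine ((vfin_finite a ha).image Sum.inl |>.union (Set.finite_range Sum.inr)).subset ?_
          rintro (p | j) hp
          · exact Or.inl ⟨p, hp, rfl⟩
          · exact Or.inr ⟨j, rfl⟩
        have h1 : (Set.range (Sum.inl : HeightOneSpectrum (integralClosure k[X] K) →
            HeightOneSpectrum (integralClosure k[X] K) ⊕ Fin n)) ∪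
            (Set.range (Sum.inr : Fin n →
              HeightOneSpectrum (integralClosure k[X] K) ⊕ Fin n)) = Set.univ :=
          Set.range_inl_union_range_inr
        rw [← finsum_mem_univ, ← h1, finsum_mem_union' Set.isCompl_range_inl_range_inr.disjoint
          (hfin.subset Set.inter_subset_right) (hfin.subset Set.inter_subset_right),
          finsum_mem_range Sum.inl_injective, finsum_mem_range Sum.inr_injective]
        simp only [Sum.elim_inl, Sum.elim_inr]
        rw [finsum_vfin a ha, finsum_eq_sum_of_fintype, hsum a ha]
        ring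
      unif := by
        rintro (p | j)
        · exact vfin_unif p
        · refine ⟨(algebraMap k[X] K X)⁻¹, inv_ne_zero hX0, ?_⟩
          change (τ j (algebraMap k[X] K X)⁻¹).order = 1
          have h1 := order_mul' (τ j (algebraMap k[X] K X)) (τ j (algebraMap k[X] K X)⁻¹)
            (hne j _ hX0) (hne j _ (inv_ne_zero hX0))
          rw [← map_mul, mul_inv_cancel₀ hX0, map_one, hX,
            HahnSeries.order_single (one_ne_zero : (1 : k) ≠ 0)] at h1
          have h2 := order_C (1 : k)
          rw [map_one] at h2
          rw [h2] at h1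
          linarith }
  have hinl : ∀ p : HeightOneSpectrum (integralClosure k[X] K),
      (Sum.inl p : pl.ι) ∉ Set.range (fun j : Fin n => (Sum.inr j : pl.ι)) := by
    rintro p ⟨j, hj⟩
    exact Sum.inr_ne_inl hj
  have hsplit : ∀ q : pl.ι, q ∉ Set.range (fun j : Fin n => (Sum.inr j : pl.ι)) →
      ∃ p : HeightOneSpectrum (integralClosure k[X] K), q = Sum.inl p := by
    rintro (p | j) hq
    · exact ⟨p, rfl⟩
    · exact absurd ⟨j, rfl⟩ hq
  refine ⟨{ pl := pl, inf := fun j => Sum.inr j, inf_inj := Sum.inr_injective,
            v_inf := fun j a _ => rfl, branch := ?_, integral := ?_, denom := ?_ }⟩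
  · intro σ x₀ hσC hσX
    obtain ⟨p, hp⟩ := exists_place_of_branch σ x₀ hσC hσX
    exact ⟨Sum.inl p, hinl p, fun a ha => hp a ha⟩
  · intro q hq a ha
    obtain ⟨p, rfl⟩ := hsplit q hq
    intro ha0
    exact vfin_integral p a ha ha0
  · intro x₀ a h
    apply exists_denom x₀ a
    intro p hp
    exact h (Sum.inl p) (hinl p) hp

end Pool.Agent.H92.RP
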