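import Mathlib
import Pool.Agent.H92.RP.Lfp
import Pool.Agent.H92.RP.Model

set_option autoImplicit false

/-!
# RP-R0: an ideal without zeros over the line `X = x₀` contains a polynomial `s(X)`, `s(x₀) ≠ 0`

PROOF of `exists_section`.  Let `A = k[X, Y]`, `Q = A ⧸ I`, a `k[X]`-module via
`aeval (X 0) : k[X] → A`.  It is finitely generated: `C ∈ I` is, up to a nonzero constant, monic of
degree `n` in `Y` (`ht`, `hd`), so `Q` is generated by `1, Y, …, Y^(n-1)`.  The ideal
`J = I + (X - x₀)` has no zeros in `k²` (`hI`), so `J = ⊤` by the Nullstellensatz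
(`MvPolynomial.vanishingIdeal_zeroLocus_eq_radical`; or by hand: `A/(J)` is a quotient of
`k[Y]/(C(x₀, Y))`, where an ideal without common roots is everything, since `k[Y]` is a PID and
`k` is algebraically closed: the generator of the image of `I` in `k[Y]` under `vres x₀` has no
roots, hence is a unit, so there is `G ∈ I` with `vres x₀ G = 1`, i.e. `G = 1 + (X - x₀) B`).
So `(X - x₀) Q = Q`, and by Nakayama
(`Submodule.exists_sub_one_mem_and_smul_eq_zero_of_fg_of_le_smul`) there is `s ∈ k[X]` with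
`s - 1 ∈ (X - x₀)` and `s Q = 0`, i.e. `aeval (X 0) s ∈ I` and `s(x₀) = 1`.

PROOF of `exists_inv`: `exists_section` for `I = span {f, C}`.
-/

namespace Pool.Agent.H92.RP

open Pool.Agent.H13 Polynomial

variable {k : Type} [Field k] [IsAlgClosed k]

theorem naka_monic (n : ℕ) (hn : 0 < n) (C : MvPolynomial (Fin 2) k) (hd : C ∈ Vd k n)
    (ht : (topp n C).natDegree = n) : ∃ (c : k) (F : k[X][X]), F.Monic ∧
      Bivariate.equivMvPolynomial k F = MvPolynomial.C c * C := by
  set E := Bivariate.equivMvPolynomial k with hE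
  set D := E.symm C with hD
  have hdeg : ∀ i j, n < i + j → (D.coeff i).coeff j = 0 := by
    intro i j hij
    rw [hD, hE, model_coeff]
    by_contra h
    have h1 := MvPolynomial.le_totalDegree (MvPolynomial.mem_support_iff.mpr h)
    have h2 : (expo (j, i)).sum (fun _ e => e) = j + i := expo_degree (j, i)
    rw [h2] at h1
    have h3 := mem_Vd.mp hd
    omega
  set c₀ := C.coeff (expo (0, n)) with hc₀
  have hc0 : c₀ ≠ 0 := by
    have h1 : (topp n C).coeff n ≠ 0 := by
      have h2 : (topp n C).coeff (topp n C).natDegree ≠ 0 := by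
        rw [coeff_natDegree, Ne, leadingCoeff_eq_zero]
        intro h
        rw [h, natDegree_zero] at ht
        omega
      rwa [ht] at h2
    have h2 : (topp n C).coeff n = c₀ := by
      unfold topp
      rw [finsetSum_coeff, Finset.sum_eq_single n]
      · rw [coeff_monomial, if_pos rfl, Nat.sub_self]
      · intro b _ hb
        rw [coeff_monomial, if_neg hb]
      · intro h
        exact absurd (Finset.mem_range.mpr (Nat.lt_succ_self n)) h
    rwa [h2] at h1
  have hDn : D.coeff n = Polynomial.C c₀ := by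
    ext j
    rcases Nat.eq_zero_or_pos j with h | h
    · subst h
      rw [coeff_C_zero, hD, hE, model_coeff]
    · rw [hdeg n j (by omega), coeff_C, if_neg h.ne']
  have hDdeg : D.natDegree ≤ n := by
    rw [natDegree_le_iff_coeff_eq_zero]
    intro i hi
    ext j
    rw [hdeg i j (by omega), coeff_zero]
  refine ⟨c₀⁻¹, Polynomial.C (Polynomial.C c₀⁻¹) * D, ?_, ?_⟩
  · refine monic_of_natDegree_le_of_coeff_eq_one n ((natDegree_C_mul_le _ _).trans hDdeg) ?_
    rw [coeff_C_mul, hDn, ← Polynomial.C_mul, inv_mul_cancel₀ hc0, Polynomial.C_1]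
  · rw [map_mul, hD, AlgEquiv.apply_symm_apply, model_aeval, aeval_C, MvPolynomial.algebraMap_eq]

theorem exists_section (n : ℕ) (hn : 0 < n) (C : MvPolynomial (Fin 2) k) (hd : C ∈ Vd k n)
    (ht : (topp n C).natDegree = n) (x₀ : k) (I : Ideal (MvPolynomial (Fin 2) k)) (hC : C ∈ I)
    (hI : ∀ y : k, ∃ G ∈ I, MvPolynomial.eval ![x₀, y] G ≠ 0) :
    ∃ s : k[X], s.eval x₀ ≠ 0 ∧ aeval (MvPolynomial.X 0) s ∈ I := by
  obtain ⟨c, F, hF, hFC⟩ := naka_monic n hn C hd ht
  let ψ : k[X] →+* MvPolynomial (Fin 2) k ⧸ I := (Ideal.Quotient.mk I).comp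
    (aeval (MvPolynomial.X 0 : MvPolynomial (Fin 2) k)).toRingHom
  letI : Algebra k[X] (MvPolynomial (Fin 2) k ⧸ I) := ψ.toAlgebra
  have hψ : ∀ s : k[X], algebraMap k[X] (MvPolynomial (Fin 2) k ⧸ I) s =
      Ideal.Quotient.mk I (aeval (MvPolynomial.X 0) s) := fun s => rfl
  have hX1 : IsIntegral k[X] (Ideal.Quotient.mk I (MvPolynomial.X 1)) := by
    refine ⟨F, hF, ?_⟩
    have h1 := Polynomial.hom_eval₂ F Polynomial.C
      ((Ideal.Quotient.mk I).comp (Bivariate.equivMvPolynomial k).toRingEquiv.toRingHom) X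
    rw [eval₂_C_X] at h1
    have h2 : algebraMap k[X] (MvPolynomial (Fin 2) k ⧸ I) =
        ((Ideal.Quotient.mk I).comp
          (Bivariate.equivMvPolynomial k).toRingEquiv.toRingHom).comp Polynomial.C := by
      refine RingHom.ext fun s => ?_
      rw [hψ, ← model_aeval]
      rfl
    have h3 : Ideal.Quotient.mk I (MvPolynomial.X 1) = ((Ideal.Quotient.mk I).comp
          (Bivariate.equivMvPolynomial k).toRingEquiv.toRingHom) X := by
      have : Bivariate.equivMvPolynomial k X = MvPolynomial.X 1 := by simp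
      rw [← this]
      rfl
    rw [h2, h3, ← h1]
    change Ideal.Quotient.mk I (Bivariate.equivMvPolynomial k F) = 0
    rw [hFC, Ideal.Quotient.eq_zero_iff_mem]
    exact I.mul_mem_left _ hC
  have hint : ∀ p : MvPolynomial (Fin 2) k, IsIntegral k[X] (Ideal.Quotient.mk I p) := by
    intro p
    induction p using MvPolynomial.induction_on with
    | C a =>
      have : Ideal.Quotient.mk I (MvPolynomial.C a) =
          algebraMap k[X] (MvPolynomial (Fin 2) k ⧸ I) (Polynomial.C a) := by
        rw [hψ, aeval_C, MvPolynomial.algebraMap_eq]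
      rw [this]
      exact isIntegral_algebraMap
    | add p q hp hq =>
      rw [map_add]
      exact hp.add hq
    | mul_X p i hp =>
      rw [map_mul]
      refine hp.mul ?_
      fin_cases i
      · have : Ideal.Quotient.mk I (MvPolynomial.X 0) =
            algebraMap k[X] (MvPolynomial (Fin 2) k ⧸ I) X := by
          rw [hψ, aeval_X]
        change IsIntegral k[X] (Ideal.Quotient.mk I (MvPolynomial.X 0))
        rw [this]
        exact isIntegral_algebraMap
      · exact hX1
  have hInt : Algebra.IsIntegral k[X] (MvPolynomial (Fin 2) k ⧸ I) := by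
    refine ⟨fun q => ?_⟩
    obtain ⟨p, rfl⟩ := Ideal.Quotient.mk_surjective q
    exact hint p
  by_contra hcon
  push Not at hcon
  have hP : (Ideal.span {(X - Polynomial.C x₀ : k[X])}).IsMaximal :=
    PrincipalIdealRing.isMaximal_of_irreducible (irreducible_X_sub_C x₀)
  have hle : RingHom.ker (algebraMap k[X] (MvPolynomial (Fin 2) k ⧸ I)) ≤
      Ideal.span {(X - Polynomial.C x₀ : k[X])} := by
    intro s hs
    rw [RingHom.mem_ker, hψ, Ideal.Quotient.eq_zero_iff_mem] at hs
    rw [Ideal.mem_span_singleton, dvd_iff_isRoot]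
    by_contra h
    exact hcon s h hs
  obtain ⟨Q, hQ, hQc⟩ := Ideal.exists_ideal_over_maximal_of_isIntegral _ hle
  have hQ' : (Q.comap (Ideal.Quotient.mk I)).IsMaximal :=
    Ideal.comap_isMaximal_of_surjective _ Ideal.Quotient.mk_surjective
  obtain ⟨x, hx⟩ := MvPolynomial.isMaximal_iff_eq_vanishingIdeal_singleton.mp hQ'
  have hx0 : x 0 = x₀ := by
    have h1 : (X - Polynomial.C x₀ : k[X]) ∈ Q.comap (algebraMap k[X] _) := by
      rw [hQc]
      exact Ideal.mem_span_singleton_self _
    rw [Ideal.mem_comap, hψ] at h1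
    have h2 : (aeval (MvPolynomial.X 0) (X - Polynomial.C x₀) : MvPolynomial (Fin 2) k) ∈
        MvPolynomial.vanishingIdeal k {x} := by
      rw [← hx]
      exact h1
    rw [MvPolynomial.mem_vanishingIdeal_iff] at h2
    have h3 := h2 x rfl
    rw [map_sub, aeval_X, aeval_C, MvPolynomial.algebraMap_eq] at h3
    simp only [map_sub, MvPolynomial.aeval_X, MvPolynomial.aeval_C, Algebra.algebraMap_self,
      RingHom.id_apply] at h3
    exact sub_eq_zero.mp h3
  obtain ⟨G, hG, hGx⟩ := hI (x 1)
  apply hGx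
  have h2 : G ∈ MvPolynomial.vanishingIdeal k {x} := by
    rw [← hx, Ideal.mem_comap, (Ideal.Quotient.eq_zero_iff_mem).mpr hG]
    exact Q.zero_mem
  rw [MvPolynomial.mem_vanishingIdeal_iff] at h2
  have h3 := h2 x rfl
  have h4 : ![x₀, x 1] = x := by
    funext i
    fin_cases i
    · exact hx0.symm
    · rfl
  rw [h4, ← MvPolynomial.coe_aeval_eq_eval]
  exact h3

theorem exists_inv {K : Type} [Field K] [Algebra k K] [Algebra k[X] K]
    [IsScalarTower k k[X] K] [Algebra (RatFunc k) K] [IsScalarTower k[X] (RatFunc k) K]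
    {n : ℕ} (hn : 0 < n) {C f : MvPolynomial (Fin 2) k} {φ : MvPolynomial (Fin 2) k →ₐ[k] K}
    (hd : C ∈ Vd k n) (ht : (topp n C).natDegree = n) (hφ : IsModel n C φ) (x₀ : k)
    (h : ∀ y : k, MvPolynomial.eval ![x₀, y] C = 0 → MvPolynomial.eval ![x₀, y] f ≠ 0) :
    ∃ (s : k[X]) (A : MvPolynomial (Fin 2) k), s.eval x₀ ≠ 0 ∧
      φ A * φ f = algebraMap k[X] K s := by
  obtain ⟨s, hs, hsI⟩ := exists_section n hn C hd ht x₀ (Ideal.span {f, C})
    (Ideal.subset_span (by simp)) (by
      intro y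
      by_cases hy : MvPolynomial.eval ![x₀, y] C = 0
      · exact ⟨f, Ideal.subset_span (by simp), h y hy⟩
      · exact ⟨C, Ideal.subset_span (by simp), hy⟩)
  obtain ⟨A, B, hAB⟩ := Ideal.mem_span_pair.mp hsI
  refine ⟨s, A, hs, ?_⟩
  have e : φ.comp (aeval (MvPolynomial.X 0 : MvPolynomial (Fin 2) k))
      = IsScalarTower.toAlgHom k k[X] K := by
    apply Polynomial.algHom_ext
    rw [AlgHom.comp_apply, aeval_X, hφ.x]
    rfl
  have e1 : φ (aeval (MvPolynomial.X 0) s) = algebraMap k[X] K s := DFunLike.congr_fun e s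
  have e2 : φ C = 0 := (hφ.ker C).mpr dvd_rfl
  rw [← e1, ← hAB, map_add, map_mul, map_mul, e2, mul_zero, add_zero]

end Pool.Agent.H92.RP
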