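import Mathlib
import Pool.Agent.H92.RP.Naka
import Pool.Agent.H92.RP.Lift

set_option autoImplicit false

/-!
# RP-R1: smooth points are normal

If `C` is smooth at all its points on the line `X = x₀` then every element `a ∈ K` integral over
`k[X]` is, up to a factor `s(X)` with `s(x₀) ≠ 0`, a polynomial in `x, y`.

PROOF.  `I := {G | ∃ A, φ G * a = φ A}` is an ideal of `k[X, Y]` containing `C` (`φ C = 0`).  By
`exists_section` it is enough to find for every `y ∈ k` some `G ∈ I` with `G(x₀, y) ≠ 0` (then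
`aeval (X 0) s ∈ I` and `φ (aeval (X 0) s) = algebraMap s`, `phi_aeval`).  If `C(x₀, y) ≠ 0` take
`G = C`.  Otherwise `Q = (x₀, y)` is a smooth point of `C`.

Local ring.  Let `R` be the image of `φ` (a subring of `K`, with fraction field `K` by
`IsModel.surj`), `𝔪 = φ(ker (eval Q))` (a maximal ideal of `R`; well defined as
`C(Q) = 0` and `ker φ = (C)`), `R_Q = {φ A / φ B | B(Q) ≠ 0}` its localisation.
CLAIM: `R_Q` is integrally closed.  Since `a` is integral over `k[X]`, hence over `R_Q`, and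
`K = Frac R_Q`, this gives `a = φ A / φ B` with `B(Q) ≠ 0`, so `B ∈ I`.
Proof of the claim: `C = (X - x₀) A₁ + (Y - y) B₁` (Taylor) with `A₁(Q) = C_X(Q)`,
`B₁(Q) = C_Y(Q)`.  If `C_Y(Q) ≠ 0` then `φ B₁` is a unit of `R_Q` and
`φ(Y - y) = - φ(X - x₀) φ(A₁)/φ(B₁)`, so the maximal ideal of `R_Q`, generated by
`φ(X - x₀), φ(Y - y)`, is generated by `π = φ(X - x₀)`; if `C_X(Q) ≠ 0` it is generated by
`π = φ(Y - y)`.  A noetherian local domain with principal maximal ideal is a discrete valuation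
ring or a field (`IsDiscreteValuationRing.TFAE`, i.e.
`tfae_of_isNoetherianRing_of_isLocalRing_of_isDomain`), hence integrally closed.
(Concretely one may use `Localization.AtPrime` of the prime of `MvPolynomial (Fin 2) k ⧸ (C)` and
embed it in `K` by `IsLocalization.lift`, or prove directly that every nonzero element of `R_Q` is
`unit * π ^ m` (Krull's intersection theorem) and that `a = unit * π^(-m)`, `m > 0`, cannot be
integral over `R_Q`.)
-/

namespace Pool.Agent.H92.RP

open Pool.Agent.H13 Polynomial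

theorem dvr_step {A K : Type} [CommRing A] [IsDomain A] [IsNoetherianRing A] [Field K]
    [Algebra A K] [IsFractionRing A K] (p : Ideal A) [p.IsPrime] (π : A) (hπ : π ∈ p)
    (h : ∀ z ∈ p, ∃ s ∉ p, ∃ b, s * z = π * b) (a : K) (ha : IsIntegral A a) :
    ∃ s ∉ p, ∃ b : A, algebraMap A K s * a = algebraMap A K b := by
  let B := Localization.subalgebra.ofField K _ p.primeCompl_le_nonZeroDivisors
  have _ : IsLocalization p.primeCompl B :=
    Localization.subalgebra.isLocalization_ofField K p.primeCompl _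
  have _ : IsFractionRing B K := Localization.subalgebra.isFractionRing_ofField K p.primeCompl _
  have hloc : IsLocalRing B := IsLocalization.AtPrime.isLocalRing B p
  have _ : IsNoetherianRing B := IsLocalization.isNoetherianRing p.primeCompl B inferInstance
  have hmax : IsLocalRing.maximalIdeal B = Ideal.span {algebraMap A B π} := by
    rw [← IsLocalization.AtPrime.map_eq_maximalIdeal p B]
    apply le_antisymm
    · rw [Ideal.map_le_iff_le_comap]
      intro z hz
      obtain ⟨s, hs, b, hb⟩ := h z hz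
      rw [Ideal.mem_comap, Ideal.mem_span_singleton]
      have hu : IsUnit (algebraMap A B s) := IsLocalization.map_units B (⟨s, hs⟩ : p.primeCompl)
      rw [← hu.dvd_mul_left, ← map_mul, hb, map_mul]
      exact dvd_mul_right _ _
    · rw [Ideal.span_singleton_le_iff_mem]
      exact Ideal.mem_map_of_mem _ hπ
  have hpr : (IsLocalRing.maximalIdeal B).IsPrincipal := ⟨⟨_, hmax⟩⟩
  have hic : IsIntegrallyClosed B := by
    have h43 : (IsLocalRing.maximalIdeal B).IsPrincipal ↔ (IsIntegrallyClosed B ∧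
        ∀ P : Ideal B, P ≠ ⊥ → P.IsPrime → P = IsLocalRing.maximalIdeal B) :=
      (tfae_of_isNoetherianRing_of_isLocalRing_of_isDomain B).out 4 3
    exact (h43.1 hpr).1
  have haB : IsIntegral B a := ha.tower_top
  obtain ⟨x, hx⟩ := IsIntegrallyClosed.isIntegral_iff.1 haB
  obtain ⟨c, s, hs, hcs⟩ := x.2
  have hx' : a = (x : K) := hx.symm
  refine ⟨s, hs, c, ?_⟩
  have hs0 : algebraMap A K s ≠ 0 := by
    intro h0
    have : s = 0 := (IsFractionRing.injective A K) (by rw [h0, map_zero])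
    exact hs (this ▸ p.zero_mem)
  rw [hx', hcs]
  field_simp

theorem taylor_step {k : Type} [Field k] (x₀ y : k) (G : MvPolynomial (Fin 2) k) :
    ∃ A B : MvPolynomial (Fin 2) k, G = MvPolynomial.C (MvPolynomial.eval ![x₀, y] G) +
      (MvPolynomial.X 0 - MvPolynomial.C x₀) * A + (MvPolynomial.X 1 - MvPolynomial.C y) * B := by
  induction G using MvPolynomial.induction_on with
  | C c => exact ⟨0, 0, by simp⟩
  | add G H hG hH =>
    obtain ⟨A, B, h⟩ := hG
    obtain ⟨A', B', h'⟩ := hH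
    refine ⟨A + A', B + B', ?_⟩
    rw [map_add, MvPolynomial.C_add]
    linear_combination h + h'
  | mul_X G i hG =>
    obtain ⟨A, B, h⟩ := hG
    rw [map_mul, MvPolynomial.C_mul]
    fin_cases i
    · refine ⟨A * MvPolynomial.X 0 + MvPolynomial.C (MvPolynomial.eval ![x₀, y] G),
        B * MvPolynomial.X 0, ?_⟩
      simp only [Fin.zero_eta, MvPolynomial.eval_X, Matrix.cons_val_zero]
      linear_combination MvPolynomial.X 0 * h
    · refine ⟨A * MvPolynomial.X 1,
        B * MvPolynomial.X 1 + MvPolynomial.C (MvPolynomial.eval ![x₀, y] G), ?_⟩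
      simp only [Fin.mk_one, MvPolynomial.eval_X, Matrix.cons_val_one, Matrix.cons_val_fin_one]
      linear_combination MvPolynomial.X 1 * h

theorem taylor_deriv {k : Type} [Field k] (x₀ y : k) (G A B : MvPolynomial (Fin 2) k) (c : k)
    (h : G = MvPolynomial.C c +
      (MvPolynomial.X 0 - MvPolynomial.C x₀) * A + (MvPolynomial.X 1 - MvPolynomial.C y) * B) :
    MvPolynomial.eval ![x₀, y] (MvPolynomial.pderiv 0 G) = MvPolynomial.eval ![x₀, y] A ∧
    MvPolynomial.eval ![x₀, y] (MvPolynomial.pderiv 1 G) = MvPolynomial.eval ![x₀, y] B := by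
  rw [h]
  constructor
  · simp [MvPolynomial.pderiv_X, Derivation.leibniz]
  · simp [MvPolynomial.pderiv_X, Derivation.leibniz]

theorem local_step {k : Type} [Field k] {K : Type} [Field K] [Algebra k K] [Algebra k[X] K]
    [IsScalarTower k k[X] K] [Algebra (RatFunc k) K] [IsScalarTower k[X] (RatFunc k) K]
    {n : ℕ} {C : MvPolynomial (Fin 2) k} {φ : MvPolynomial (Fin 2) k →ₐ[k] K}
    (hφ : IsModel n C φ) (x₀ y : k) (hy : MvPolynomial.eval ![x₀, y] C = 0)
    (h : MvPolynomial.eval ![x₀, y] (MvPolynomial.pderiv 0 C) ≠ 0 ∨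
        MvPolynomial.eval ![x₀, y] (MvPolynomial.pderiv 1 C) ≠ 0)
    (a : K) (ha : IsIntegral k[X] a) :
    ∃ G, (∃ A, φ G * a = φ A) ∧ MvPolynomial.eval ![x₀, y] G ≠ 0 := by
  let A : Subring K := (φ : MvPolynomial (Fin 2) k →+* K).range
  have hmem : ∀ G, φ G ∈ A := fun G => ⟨G, rfl⟩
  let f : MvPolynomial (Fin 2) k →+* A := (φ : MvPolynomial (Fin 2) k →+* K).rangeRestrict
  have hfs : Function.Surjective f := (φ : MvPolynomial (Fin 2) k →+* K).rangeRestrict_surjective
  have hfc : ∀ G, ((f G : A) : K) = φ G := fun G => rfl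
  have hf0 : ∀ G, f G = 0 ↔ C ∣ G := by
    intro G
    rw [← hφ.ker G, ← hfc G]
    exact ⟨fun h => by rw [h]; rfl, fun h => Subtype.ext h⟩
  have _ : IsNoetherianRing A := isNoetherianRing_of_surjective _ A f hfs
  have hfr : IsFractionRing A K := by
    rw [IsFractionRing, isLocalization_iff]
    refine ⟨?_, ?_, ?_⟩
    · rintro ⟨z, hz⟩
      have hz0 : z ≠ 0 := nonZeroDivisors.ne_zero hz
      have : (z : K) ≠ 0 := fun h0 => hz0 (Subtype.ext h0)
      exact isUnit_iff_ne_zero.2 this
    · intro z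
      obtain ⟨s, B, hs, hB⟩ := hφ.surj z
      have hs' : f (aeval (MvPolynomial.X 0) s) ≠ 0 := by
        intro h0
        have h1 : φ (aeval (MvPolynomial.X 0) s) = 0 := by rw [← hfc, h0]; rfl
        rw [phi_aeval hφ] at h1
        have h2 : Function.Injective (algebraMap k[X] K) := by
          rw [IsScalarTower.algebraMap_eq k[X] (RatFunc k) K]
          exact (algebraMap (RatFunc k) K).injective.comp (IsFractionRing.injective k[X] (RatFunc k))
        exact hs (h2 (by rw [h1, map_zero]))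
      refine ⟨⟨f B, ⟨f (aeval (MvPolynomial.X 0) s), mem_nonZeroDivisors_of_ne_zero hs'⟩⟩, ?_⟩
      change z * φ (aeval (MvPolynomial.X 0) s) = φ B
      rw [phi_aeval hφ, ← hB, mul_comm]
    · intro x y hxy
      exact ⟨1, by rw [Subtype.ext (show (x : K) = y from hxy)]⟩
  -- the maximal ideal
  have hker : ∀ G, f G = 0 → MvPolynomial.eval ![x₀, y] G = 0 := by
    intro G hG
    obtain ⟨H, rfl⟩ := (hf0 G).1 hG
    rw [map_mul, hy, zero_mul]
  let ε : A →+* k := (RingHom.liftOfSurjective f hfs) ⟨MvPolynomial.eval ![x₀, y], by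
    intro G hG
    exact hker G hG⟩
  have hε : ∀ G, ε (f G) = MvPolynomial.eval ![x₀, y] G := by
    intro G
    exact RingHom.liftOfRightInverse_comp_apply _ _ _ _ _
  have _ : (RingHom.ker ε).IsPrime := RingHom.ker_isPrime ε
  obtain ⟨A₁, B₁, hT⟩ := taylor_step x₀ y C
  have hD := taylor_deriv x₀ y C A₁ B₁ _ hT
  rw [hy, MvPolynomial.C_0, zero_add] at hT
  have hfT : f (MvPolynomial.X 0 - MvPolynomial.C x₀) * f A₁ +
      f (MvPolynomial.X 1 - MvPolynomial.C y) * f B₁ = 0 := by
    rw [← map_mul, ← map_mul, ← map_add, ← hT]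
    exact (hf0 C).2 dvd_rfl
  have haA : IsIntegral A a := by
    obtain ⟨p, hp, hpa⟩ := ha
    let g : k[X] →+* A := (algebraMap k[X] K).codRestrict A (fun s => by
      rw [← phi_aeval hφ s]
      exact hmem _)
    refine ⟨p.map g, hp.map g, ?_⟩
    rw [eval₂_map]
    exact hpa
  have key : ∃ s ∉ RingHom.ker ε, ∃ b : A, algebraMap A K s * a = algebraMap A K b := by
    rcases h with h | h
    · rw [hD.1, ← hε] at h
      refine dvr_step (RingHom.ker ε) (f (MvPolynomial.X 1 - MvPolynomial.C y))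
        (by rw [RingHom.mem_ker, hε]; simp) ?_ a haA
      intro z hz
      obtain ⟨G, rfl⟩ := hfs z
      rw [RingHom.mem_ker, hε] at hz
      obtain ⟨A', B', hG⟩ := taylor_step x₀ y G
      rw [hz, MvPolynomial.C_0, zero_add] at hG
      refine ⟨f A₁, fun h0 => h (by rwa [RingHom.mem_ker] at h0), f A₁ * f B' - f A' * f B₁, ?_⟩
      rw [hG, map_add, map_mul, map_mul]
      linear_combination f A' * hfT
    · rw [hD.2, ← hε] at h
      refine dvr_step (RingHom.ker ε) (f (MvPolynomial.X 0 - MvPolynomial.C x₀))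
        (by rw [RingHom.mem_ker, hε]; simp) ?_ a haA
      intro z hz
      obtain ⟨G, rfl⟩ := hfs z
      rw [RingHom.mem_ker, hε] at hz
      obtain ⟨A', B', hG⟩ := taylor_step x₀ y G
      rw [hz, MvPolynomial.C_0, zero_add] at hG
      refine ⟨f B₁, fun h0 => h (by rwa [RingHom.mem_ker] at h0), f B₁ * f A' - f B' * f A₁, ?_⟩
      rw [hG, map_add, map_mul, map_mul]
      linear_combination f B' * hfT
  obtain ⟨s, hs, b, hsb⟩ := key
  obtain ⟨G, rfl⟩ := hfs s
  obtain ⟨B, rfl⟩ := hfs b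
  exact ⟨G, ⟨B, hsb⟩, fun h0 => hs (by rw [RingHom.mem_ker, hε, h0])⟩

variable {k : Type} [Field k] [IsAlgClosed k]

theorem normal_at {K : Type} [Field K] [Algebra k K] [Algebra k[X] K]
    [IsScalarTower k k[X] K] [Algebra (RatFunc k) K] [IsScalarTower k[X] (RatFunc k) K]
    {n : ℕ} (hn : 0 < n) {C : MvPolynomial (Fin 2) k} {φ : MvPolynomial (Fin 2) k →ₐ[k] K}
    (hd : C ∈ Vd k n) (ht : (topp n C).natDegree = n) (hφ : IsModel n C φ) (x₀ : k)
    (h : ∀ y : k, MvPolynomial.eval ![x₀, y] C = 0 →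
      MvPolynomial.eval ![x₀, y] (MvPolynomial.pderiv 0 C) ≠ 0 ∨
        MvPolynomial.eval ![x₀, y] (MvPolynomial.pderiv 1 C) ≠ 0)
    (a : K) (ha : IsIntegral k[X] a) :
    ∃ (s : k[X]) (A : MvPolynomial (Fin 2) k), s.eval x₀ ≠ 0 ∧
      algebraMap k[X] K s * a = φ A := by
  let I : Ideal (MvPolynomial (Fin 2) k) :=
    { carrier := {G | ∃ A, φ G * a = φ A}
      add_mem' := by
        rintro G H ⟨A, hA⟩ ⟨B, hB⟩
        exact ⟨A + B, by rw [map_add, add_mul, hA, hB, map_add]⟩
      zero_mem' := ⟨0, by simp⟩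
      smul_mem' := by
        rintro G H ⟨A, hA⟩
        exact ⟨G * A, by rw [smul_eq_mul, map_mul, mul_assoc, hA, map_mul]⟩ }
  have hCI : C ∈ I := ⟨0, by rw [(hφ.ker C).2 dvd_rfl, zero_mul, map_zero]⟩
  have hI : ∀ y : k, ∃ G ∈ I, MvPolynomial.eval ![x₀, y] G ≠ 0 := by
    intro y
    by_cases hy : MvPolynomial.eval ![x₀, y] C = 0
    · exact local_step hφ x₀ y hy (h y hy) a ha
    · exact ⟨C, hCI, hy⟩
  obtain ⟨s, hs, hsI⟩ := exists_section n hn C hd ht x₀ I hCI hI
  obtain ⟨A, hA⟩ := hsI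
  exact ⟨s, A, hs, by rw [← phi_aeval hφ s]; exact hA⟩

end Pool.Agent.H92.RP
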