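import Mathlib
import Pool.Agent.H92.RP.Lift

set_option autoImplicit false

/-!
# RP-R2: Euler's formula: `Tr (A / C_Y) ∈ k[X]` for `A ∈ k[x, y]`

PROOF.  Mathlib: `traceForm_dualSubmodule_adjoin` (`Mathlib/RingTheory/DedekindDomain/Different`):
with `A = k[X]`, `K = RatFunc k`, `L = K`, `x = φ (X 1)` (`IsModel.adj`, `IsModel.integral`), the
trace dual of `k[X][y]` is `(F'(y))⁻¹ • k[X][y]`, `F` the minimal polynomial, and
`F'(y) = c φ(C_Y)` with a constant `c ≠ 0` (`IsModel.deriv`).  `φ A ∈ Algebra.adjoin k[X] {y}`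
(image of a polynomial in `X` and `Y`; induction), so `φ A / φ C_Y = c (F'(y))⁻¹ φ A` is in the dual,
and its trace form with `1 ∈ k[X][y]` is in (the image of) `k[X]`
(`LinearMap.BilinForm.mem_dualSubmodule`, `Algebra.traceForm_apply`, `Submodule.mem_one`).
`φ (C_Y) ≠ 0` is not needed (if it is `0` then `φ A / 0 = 0`), but it is true.
Separability of `K` over `RatFunc k`: characteristic `0`.
-/

namespace Pool.Agent.H92.RP

open Pool.Agent.H13 Polynomial

variable {k K : Type} [Field k] [CharZero k] [Field K] [Algebra k K] [Algebra k[X] K]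
  [IsScalarTower k k[X] K] [Algebra (RatFunc k) K] [IsScalarTower k[X] (RatFunc k) K]
  [FiniteDimensional (RatFunc k) K]
  {n : ℕ} {C : MvPolynomial (Fin 2) k} {φ : MvPolynomial (Fin 2) k →ₐ[k] K}

omit [CharZero k] [FiniteDimensional (RatFunc k) K] in
theorem trP_mem (hφ : IsModel n C φ) (A : MvPolynomial (Fin 2) k) :
    φ A ∈ Algebra.adjoin k[X] {φ (MvPolynomial.X 1)} := by
  induction A using MvPolynomial.induction_on with
  | C c =>
    rw [lift_phi_C, IsScalarTower.algebraMap_apply k k[X] K]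
    exact Subalgebra.algebraMap_mem _ _
  | add p q hp hq =>
    rw [map_add]
    exact Subalgebra.add_mem _ hp hq
  | mul_X p i hp =>
    rw [map_mul]
    refine Subalgebra.mul_mem _ hp ?_
    fin_cases i
    · change φ (MvPolynomial.X 0) ∈ _
      rw [hφ.x]
      exact Subalgebra.algebraMap_mem _ _
    · exact Algebra.subset_adjoin rfl

theorem trace_div (hφ : IsModel n C φ) (A : MvPolynomial (Fin 2) k) :
    ∃ g : k[X], Algebra.trace (RatFunc k) K (φ A / φ (MvPolynomial.pderiv 1 C)) =
      algebraMap k[X] (RatFunc k) g := by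
  have hchar : CharZero (RatFunc k) :=
    charZero_of_injective_algebraMap (algebraMap k (RatFunc k)).injective
  have hA : φ A ∈ Algebra.adjoin k[X] {φ (MvPolynomial.X 1)} := trP_mem hφ A
  obtain ⟨c, hc, hd⟩ := hφ.deriv
  have key := traceForm_dualSubmodule_adjoin k[X] (RatFunc k) hφ.adj hφ.integral
  have hmem : φ A / φ (MvPolynomial.pderiv 1 C) ∈ (Algebra.traceForm (RatFunc k) K).dualSubmodule
      (Subalgebra.toSubmodule (Algebra.adjoin k[X] {φ (MvPolynomial.X 1)})) := by
    rw [key, hd]
    have hc' : algebraMap k K c ≠ 0 := by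
      intro h0
      exact hc ((map_eq_zero _).1 h0)
    have e : φ A / φ (MvPolynomial.pderiv 1 C)
        = (algebraMap k K c * φ (MvPolynomial.pderiv 1 C))⁻¹ • (algebraMap k K c * φ A) := by
      rw [smul_eq_mul, mul_inv]
      field_simp
    rw [e]
    refine Submodule.smul_mem_pointwise_smul _ _ _ ?_
    rw [Subalgebra.mem_toSubmodule]
    refine Subalgebra.mul_mem _ ?_ hA
    rw [IsScalarTower.algebraMap_apply k k[X] K]
    exact Subalgebra.algebraMap_mem _ _
  have h1 := (LinearMap.BilinForm.mem_dualSubmodule _).1 hmem 1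
    ((Subalgebra.mem_toSubmodule _).2 (Subalgebra.one_mem _))
  rw [Algebra.traceForm_apply, mul_one] at h1
  obtain ⟨g, hg⟩ := Submodule.mem_one.1 h1
  exact ⟨g, hg.symm⟩

end Pool.Agent.H92.RP
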