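import Mathlib
import Pool.Agent.H92.RP.Normal
import Pool.Agent.H92.RP.TrP
import Pool.Agent.H92.RP.FPl
import Pool.Agent.H92.RP.BrVal

set_option autoImplicit false

/-!
# RP-R3: the trace of `x / (f C_Y)` has no poles over non-special lines

PROOF.  Let `z = x / (φ f * φ C_Y)`.  `C` is smooth at all its points on the line `X = x₀`
(`HCurve.smooth`; the points `P i` are not on this line by `hx₀`).  `F.denom` gives `s₁` with
`s₁(x₀) ≠ 0` and `s₁ x` integral over `k[X]`; `normal_at` gives `s₂` with `s₂ s₁ x = φ A`;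
`exists_inv` (no common zero of `f` and `C` on the line, by `HCurve.fC` and `hx₀`) gives `s₃`, `B`
with `φ B φ f = s₃`.  So `s₁ s₂ s₃ z = φ (A B) / φ C_Y`, whose trace is a polynomial `g`
(`trace_div`), so `Tr z = g / (s₁ s₂ s₃)` (linearity of the trace over `RatFunc k`), and the
denominator of this fraction divides `s₁ s₂ s₃` (`RatFunc.denom_div_dvd`), which does not vanish at
`x₀`.  `φ f ≠ 0`: `C ∤ f`, e.g. since `φ B φ f = s₃ ≠ 0`.
-/

namespace Pool.Agent.H92.RP

open Pool.Agent.H13 Polynomial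

variable {k K : Type} [Field k] [IsAlgClosed k] [CharZero k] [Field K] [Algebra k K]
  [Algebra k[X] K] [IsScalarTower k k[X] K] [Algebra (RatFunc k) K]
  [IsScalarTower k[X] (RatFunc k) K] [FiniteDimensional (RatFunc k) K]
  {M : ℕ} {f C : MvPolynomial (Fin 2) k} {P : Fin 9 → Fin 2 → k} {w : Fin 2 → k}
  {φ : MvPolynomial (Fin 2) k →ₐ[k] K}

theorem trace_regular (H : HCurve M f C P w) (hφ : IsModel (3 * M) C φ) (B : Br M C P φ)
    (F : FPl k K (3 * M) B.τ) (x : K) (x₀ : k) (hx₀ : ∀ i, P i 0 ≠ x₀)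
    (hx : ∀ p, p ∉ Set.range F.inf → 0 < F.pl.v p (algebraMap k[X] K (X - Polynomial.C x₀)) →
      F.pl.ge p 0 x) :
    (Algebra.trace (RatFunc k) K (x / (φ f * φ (MvPolynomial.pderiv 1 C)))).denom.eval x₀ ≠ 0 := by
  have hn : 0 < 3 * M := by have := H.M_pos; omega
  have hne : ∀ (y : k) (i : Fin 9), ![x₀, y] ≠ P i := by
    intro y i h
    apply hx₀ i
    rw [← h]
    rfl
  obtain ⟨s₁, hs₁, hint⟩ := F.denom x₀ x hx
  obtain ⟨s₂, A, hs₂, hA⟩ := normal_at hn H.deg H.top_deg hφ x₀
    (fun y hy => H.smooth _ hy (fun i => hne y i)) _ hint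
  obtain ⟨s₃, B', hs₃, hB⟩ := exists_inv hn H.deg H.top_deg hφ x₀ (f := f) (fun y hy hf => by
    obtain ⟨i, hi⟩ := H.fC _ hf hy
    exact hne y i hi)
  have hinj : Function.Injective (algebraMap k[X] K) := by
    rw [IsScalarTower.algebraMap_eq k[X] (RatFunc k) K]
    exact (algebraMap (RatFunc k) K).injective.comp (IsFractionRing.injective k[X] (RatFunc k))
  have hs₃0 : s₃ ≠ 0 := by
    rintro rfl
    exact hs₃ eval_zero
  have hf0 : φ f ≠ 0 := by
    intro h0
    rw [h0, mul_zero] at hB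
    exact hs₃0 ((map_eq_zero_iff _ hinj).mp hB.symm)
  obtain ⟨g, hg⟩ := trace_div hφ (A * B')
  set z := x / (φ f * φ (MvPolynomial.pderiv 1 C)) with hz
  set t := s₂ * s₁ * s₃ with ht
  have ht0 : t.eval x₀ ≠ 0 := by
    rw [ht, eval_mul, eval_mul]
    exact mul_ne_zero (mul_ne_zero hs₂ hs₁) hs₃
  have hkey : algebraMap k[X] K t * z = φ (A * B') / φ (MvPolynomial.pderiv 1 C) := by
    have h1 : algebraMap k[X] K t * z =
        (algebraMap k[X] K s₂ * (algebraMap k[X] K s₁ * x)) * algebraMap k[X] K s₃ /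
          (φ f * φ (MvPolynomial.pderiv 1 C)) := by
      rw [ht, hz, map_mul, map_mul]
      ring
    rw [h1, hA, ← hB, map_mul]
    have h2 : φ A * (φ B' * φ f) = φ f * (φ A * φ B') := by ring
    rw [h2, mul_div_mul_left _ _ hf0]
  have htr : algebraMap k[X] (RatFunc k) t * Algebra.trace (RatFunc k) K z =
      algebraMap k[X] (RatFunc k) g := by
    have h1 : algebraMap k[X] K t * z = (algebraMap k[X] (RatFunc k) t) • z := by
      rw [IsScalarTower.algebraMap_apply k[X] (RatFunc k) K, Algebra.smul_def]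
    rw [← hg, ← hkey, h1, map_smul, smul_eq_mul]
  have ht1 : t ≠ 0 := by
    intro h
    rw [h, eval_zero] at ht0
    exact ht0 rfl
  have ht2 : algebraMap k[X] (RatFunc k) t ≠ 0 := by
    intro h
    exact ht1 ((map_eq_zero_iff _ (IsFractionRing.injective k[X] (RatFunc k))).mp h)
  have htr2 : Algebra.trace (RatFunc k) K z =
      algebraMap k[X] (RatFunc k) g / algebraMap k[X] (RatFunc k) t := by
    rw [eq_div_iff ht2, mul_comm]
    exact htr
  intro h0
  apply ht0
  have hd : (Algebra.trace (RatFunc k) K z).denom ∣ t := by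
    rw [htr2]
    exact RatFunc.denom_div_dvd g t
  have h1 := eval_dvd (x := x₀) hd
  rw [h0] at h1
  exact zero_dvd_iff.mp h1

end Pool.Agent.H92.RP
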