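import Mathlib
import Pool.Agent.H92.RP.BrVal

set_option autoImplicit false

/-!
# RP-R4: local behaviour of `z = x / (f C_Y)` at the branches

Here `zz φ f C x = x / (φ f * φ C_Y)`.

PROOFS (all from `BrVal.lean` and `Lfp.lean`; `L := lfp M (P i) C`, `lam` its simple roots).
* at `σ i j`: `f ∈ Iord (P i) 1` (`HCurve.fP`) with leading polynomial nonzero at `lam`
  (`HCurve.flead`), so `φ f` has order `1`; `C_Y ∈ Iord (P i) (M - 1)` with leading polynomial
  `L'` (`lfp_pderiv1`), nonzero at `lam`, so `φ C_Y` has order `M - 1`.  So if `x` has order `≥ M`,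
  `z` has order `≥ 0`.
* `res_σ`: at `σ 8 j` write `x = (x - φ (dw w C)) + φ (dw w C)`.  The first summand contributes to
  `z` a series of order `≥ 0`, so `ss * (...)` has constant term `0`.  The second one:
  `dw w C ∈ Iord (P 8) (M - 1)` with leading polynomial `w 0 (M L - Z L') + w 1 L'`
  (`lfp_pderiv0`, `lfp_pderiv1`, `lfp_C_mul`, `lfp_add`), at `lam`: `(w 1 - w 0 lam) L'(lam)`.  By
  `lev_lead` the three series are `s^(M-1) g₁`, `s g₂`, `s^(M-1) g₃` with
  `g₁(0) = (w 1 - w 0 lam) L'(lam)`, `g₂(0) = f_X + f_Y lam` (values at `P 8`, `lfp_one`),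
  `g₃(0) = L'(lam)`, so `ss * φ(dw w C)/(φ f φ C_Y) = g₁ / (g₂ g₃)` has constant term
  `(w 1 - w 0 lam) / (f_X + f_Y lam)`.  From `fw : w 0 f_X + w 1 f_Y = 0`:
  `w 0 (f_X + f_Y lam) = f_Y (w 0 lam - w 1)`, so this is `- w 0 / f_Y`.
* at `ρ i j`: `C_Y` has order `0` (`y_simple`, `vres_pderiv1`), `f` has order `0`: by
  `HCurve.fC` a common zero `(P i 0, y i j)` of `f` and `C` would be some `P i'`, `i' = i` by
  `xinj`, against `y_ne`.
* at `τ j`: `f` has order `-3` (`ftop`), `C_Y` has order `-(3M - 1)` (`topp_pderiv1`,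
  `mu_simple`), so `z` has order `≥ -3M + 3 + 3M - 1 = 2`.
Division of series: `exists_ofPS`, `order_mul'`, or multiply out: `z * φ f * φ C_Y = x`.
-/

namespace Pool.Agent.H92.RP

open Pool.Agent.H13 Polynomial

variable {k K : Type} [Field k] [Field K] [Algebra k K] [Algebra k[X] K]
  [IsScalarTower k k[X] K] [Algebra (RatFunc k) K] [IsScalarTower k[X] (RatFunc k) K]
  {M : ℕ} {f C : MvPolynomial (Fin 2) k} {P : Fin 9 → Fin 2 → k} {w : Fin 2 → k}
  {φ : MvPolynomial (Fin 2) k →ₐ[k] K}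

/-- `z = x / (f C_Y)` -/
noncomputable def zz (φ : MvPolynomial (Fin 2) k →ₐ[k] K) (f C : MvPolynomial (Fin 2) k)
    (x : K) : K :=
  x / (φ f * φ (MvPolynomial.pderiv 1 C))

theorem lge_div {m n : ℤ} {x y : LaurentSeries k} (hx : lge m x) (hy : y ≠ 0)
    (hn : y.order = n) : lge (m - n) (x / y) := by
  by_cases hx0 : x = 0
  · subst hx0
    rw [zero_div]
    exact lge_zero _
  have h0 : x / y ≠ 0 := div_ne_zero hx0 hy
  rw [lge_iff _ _ h0]
  have h1 := order_mul' (x / y) y h0 hy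
  rw [div_mul_cancel₀ _ hy] at h1
  have h2 := (lge_iff _ _ hx0).1 hx
  omega

theorem σ_f (H : HCurve M f C P w) (B : Br M C P φ) (i : Fin 9) (j : Fin M) :
    B.σ i j (φ f) ≠ 0 ∧ (B.σ i j (φ f)).order = 1 := by
  have h := B.σ_order i j 1 f (mem_Iord_one.2 (H.fP i))
    (H.flead i (B.lam i j) (B.lam_root i j))
  exact ⟨h.1, by rw [h.2]; norm_num⟩

theorem CY_mem (H : HCurve M f C P w) (i : Fin 9) :
    MvPolynomial.pderiv 1 C ∈ Iord (P i) (M - 1) :=
  pderiv_mem_Iord' 1 (H.vanish i)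

theorem lfp_CY (H : HCurve M f C P w) (i : Fin 9) :
    lfp (M - 1) (P i) (MvPolynomial.pderiv 1 C) = derivative (lfp M (P i) C) := by
  have h1 : M - 1 + 1 = M := Nat.succ_pred_eq_of_pos H.M_pos
  have h2 : C ∈ Iord (P i) (M - 1 + 1) := by rw [h1]; exact H.vanish i
  rw [lfp_pderiv1 (M - 1) (P i) C h2, h1]

theorem lfp_CX (H : HCurve M f C P w) (i : Fin 9) :
    lfp (M - 1) (P i) (MvPolynomial.pderiv 0 C) =
      Polynomial.C ((M : ℕ) : k) * lfp M (P i) C - X * derivative (lfp M (P i) C) := by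
  have h1 : M - 1 + 1 = M := Nat.succ_pred_eq_of_pos H.M_pos
  have h2 : C ∈ Iord (P i) (M - 1 + 1) := by rw [h1]; exact H.vanish i
  rw [lfp_pderiv0 (M - 1) (P i) C h2, h1]

theorem σ_CY (H : HCurve M f C P w) (B : Br M C P φ) (i : Fin 9) (j : Fin M) :
    B.σ i j (φ (MvPolynomial.pderiv 1 C)) ≠ 0 ∧
      (B.σ i j (φ (MvPolynomial.pderiv 1 C))).order = (M : ℤ) - 1 := by
  have h := B.σ_order i j (M - 1) _ (CY_mem H i)
    (by rw [lfp_CY H i]; exact B.lam_simple i j)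
  refine ⟨h.1, ?_⟩
  rw [h.2]
  have := H.M_pos
  push_cast [Nat.cast_sub (show 1 ≤ M from this)]
  ring

theorem σ_z (H : HCurve M f C P w) (B : Br M C P φ) (i : Fin 9) (j : Fin M) (x : K)
    (hx : lge (M : ℤ) (B.σ i j x)) : lge 0 (B.σ i j (zz φ f C x)) := by
  have h1 := σ_f H B i j
  have h2 := σ_CY H B i j
  have h3 : (B.σ i j (φ f) * B.σ i j (φ (MvPolynomial.pderiv 1 C))).order = (M : ℤ) := by
    rw [order_mul' _ _ h1.1 h2.1, h1.2, h2.2]
    ring
  have h4 := lge_div hx (mul_ne_zero h1.1 h2.1) h3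
  rw [zz, map_div₀, map_mul]
  rwa [sub_self] at h4

theorem σ_res (H : HCurve M f C P w) (B : Br M C P φ) (j : Fin M) (x : K)
    (hx : lge (M : ℤ) (B.σ 8 j (x - φ (dw w C)))) :
    ∃ g : PowerSeries k, PowerSeries.constantCoeff g =
        - w 0 / MvPolynomial.eval (P 8) (MvPolynomial.pderiv 1 f) ∧
      ss k * B.σ 8 j (zz φ f C x) = HahnSeries.ofPowerSeries ℤ k g := by
  have hM := H.M_pos
  have hz := σ_z H B 8 j _ hx
  obtain ⟨g0, hg0⟩ := exists_ofPS 0 _ hz
  have hs0 : (HahnSeries.single (0 : ℤ) (1 : k) : LaurentSeries k) = 1 := rfl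
  rw [hs0, one_mul] at hg0
  -- the three series
  have hdw : dw w C ∈ Iord (P 8) (M - 1) :=
    Ideal.add_mem _ (Ideal.mul_mem_left _ _ (pderiv_mem_Iord' 0 (H.vanish 8)))
      (Ideal.mul_mem_left _ _ (pderiv_mem_Iord' 1 (H.vanish 8)))
  obtain ⟨g1, hc1, hg1⟩ := lev_lead (P 8) (M - 1) (dw w C) hdw (B.η 8 j)
  obtain ⟨g2, hc2, hg2⟩ := lev_lead (P 8) 1 f (mem_Iord_one.2 (H.fP 8)) (B.η 8 j)
  obtain ⟨g3, hc3, hg3⟩ := lev_lead (P 8) (M - 1) (MvPolynomial.pderiv 1 C) (CY_mem H 8) (B.η 8 j)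
  rw [← B.σ_ev] at hg1 hg2 hg3
  rw [B.η_const] at hc1 hc2 hc3
  have hL := B.lam_root 8 j
  have hL' := B.lam_simple 8 j
  set lam := B.lam 8 j with hlam
  set L' := (derivative (lfp M (P 8) C)).eval lam with hL'def
  have c3 : PowerSeries.constantCoeff g3 = L' := by rw [hc3, lfp_CY H 8]
  have c1 : PowerSeries.constantCoeff g1 = (w 1 - w 0 * lam) * L' := by
    rw [hc1, dw, lfp_add, lfp_C_mul, lfp_C_mul, lfp_CY H 8, lfp_CX H 8]
    simp only [eval_add, eval_mul, eval_sub, eval_C, eval_X, hL, mul_zero, zero_sub]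
    rw [← hL'def]
    ring
  have c2 : PowerSeries.constantCoeff g2 = MvPolynomial.eval (P 8) (MvPolynomial.pderiv 0 f) +
      MvPolynomial.eval (P 8) (MvPolynomial.pderiv 1 f) * lam := by
    rw [hc2, lfp_one]
  have c2' : PowerSeries.constantCoeff g2 ≠ 0 := by
    rw [hc2]
    exact H.flead 8 lam hL
  have c3' : PowerSeries.constantCoeff g3 ≠ 0 := by rw [c3]; exact hL'
  have hfw : w 0 * MvPolynomial.eval (P 8) (MvPolynomial.pderiv 0 f) +
      w 1 * MvPolynomial.eval (P 8) (MvPolynomial.pderiv 1 f) = 0 := by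
    have := H.fw
    simpa [dw] using this
  have hinv : g2 * g3 * (g2 * g3)⁻¹ = 1 := by
    apply PowerSeries.mul_inv_cancel
    rw [map_mul]
    exact mul_ne_zero c2' c3'
  refine ⟨PowerSeries.X * g0 + g1 * (g2 * g3)⁻¹, ?_, ?_⟩
  · rw [map_add, map_mul, map_mul, PowerSeries.constantCoeff_X, zero_mul, zero_add,
      PowerSeries.constantCoeff_inv, map_mul, c1, c3, c2]
    rw [c2] at c2'
    have hfY := H.fY
    rw [← div_eq_mul_inv, mul_div_mul_right _ _ hL', div_eq_div_iff c2' hfY]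
    linear_combination hfw
  · have e1 : B.σ 8 j (zz φ f C x) = B.σ 8 j (zz φ f C (x - φ (dw w C))) +
        B.σ 8 j (φ (dw w C)) / (B.σ 8 j (φ f) * B.σ 8 j (φ (MvPolynomial.pderiv 1 C))) := by
      rw [← map_mul, ← map_div₀, ← map_add]
      congr 1
      rw [zz, zz, sub_div, sub_add_cancel]
    rw [e1, mul_add, hg0, hg1, hg2, hg3, map_add, map_mul, map_mul]
    congr 1
    · rw [HahnSeries.ofPowerSeries_X]
    · have hs : (HahnSeries.single (((M - 1 : ℕ) : ℤ)) (1 : k) : LaurentSeries k) ≠ 0 :=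
        HahnSeries.single_ne_zero one_ne_zero
      have hs1 : (HahnSeries.single (((1 : ℕ) : ℤ)) (1 : k) : LaurentSeries k) = ss k := by
        simp
      have hs2 : (ss k) ≠ 0 := HahnSeries.single_ne_zero one_ne_zero
      have hi : HahnSeries.ofPowerSeries ℤ k g2 * HahnSeries.ofPowerSeries ℤ k g3 *
          HahnSeries.ofPowerSeries ℤ k (g2 * g3)⁻¹ = 1 := by
        rw [← map_mul, ← map_mul, hinv, map_one]
      have h2 : HahnSeries.ofPowerSeries ℤ k g2 ≠ 0 := by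
        intro h
        rw [h, zero_mul, zero_mul] at hi
        exact zero_ne_one hi
      have h3 : HahnSeries.ofPowerSeries ℤ k g3 ≠ 0 := by
        intro h
        rw [h, mul_zero, zero_mul] at hi
        exact zero_ne_one hi
      rw [hs1, ← mul_div_assoc, div_eq_iff (by
        exact mul_ne_zero (mul_ne_zero hs2 h2) (mul_ne_zero hs h3))]
      linear_combination (-(ss k * HahnSeries.single (((M - 1 : ℕ) : ℤ)) (1 : k) *
        HahnSeries.ofPowerSeries ℤ k g1)) * hi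

theorem ρ_z (H : HCurve M f C P w) (B : Br M C P φ) (i : Fin 9) (j : Fin (2 * M)) (x : K)
    (hx : lge 0 (B.ρ i j x)) : lge 0 (B.ρ i j (zz φ f C x)) := by
  have h1 := B.ρ_order i j (MvPolynomial.pderiv 1 C) (by
    rw [vres_pderiv1]
    exact B.y_simple i j)
  have h2 := B.ρ_order i j f (by
    rw [vres_eval]
    intro h
    have hC := B.y_root i j
    rw [vres_eval] at hC
    obtain ⟨i', hi'⟩ := H.fC _ h hC
    have h0 : P i 0 = P i' 0 := by
      have := congrFun hi' 0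
      simpa using this
    have h3 : i = i' := H.xinj h0
    subst h3
    have h4 : B.y i j = P i 1 := by
      have := congrFun hi' 1
      simpa using this
    exact B.y_ne i j h4)
  have h3 : (B.ρ i j (φ f) * B.ρ i j (φ (MvPolynomial.pderiv 1 C))).order = (0 : ℤ) := by
    rw [order_mul' _ _ h2.1 h1.1, h2.2, h1.2]
    ring
  have h4 := lge_div hx (mul_ne_zero h2.1 h1.1) h3
  rw [zz, map_div₀, map_mul]
  rwa [sub_self] at h4

theorem τ_z (H : HCurve M f C P w) (B : Br M C P φ) (j : Fin (3 * M)) (x : K)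
    (hx : lge (-(3 * M : ℤ)) (B.τ j x)) : lge 2 (B.τ j (zz φ f C x)) := by
  have hM := H.M_pos
  have hM1 : 3 * M - 1 + 1 = 3 * M := by omega
  have h1 := B.τ_order j (3 * M - 1) (MvPolynomial.pderiv 1 C)
    (pderiv_mem_Vd 1 (3 * M - 1) C (by rw [hM1]; exact H.deg)) (by
      rw [topp_pderiv1, hM1]
      exact B.mu_simple j)
  have h2 := B.τ_order j 3 f H.fdeg (H.ftop _ (B.mu_root j))
  have h3 : (B.τ j (φ f) * B.τ j (φ (MvPolynomial.pderiv 1 C))).order = -(3 * M : ℤ) - 2 := by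
    rw [order_mul' _ _ h2.1 h1.1, h2.2, h1.2]
    have : (((3 * M - 1 : ℕ)) : ℤ) = 3 * (M : ℤ) - 1 := by
      omega
    rw [this]
    push_cast
    ring
  have h4 := lge_div hx (mul_ne_zero h2.1 h1.1) h3
  rw [zz, map_div₀, map_mul]
  have h5 : -(3 * M : ℤ) - (-(3 * M : ℤ) - 2) = 2 := by ring
  rwa [h5] at h4

end Pool.Agent.H92.RP
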