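import Mathlib
import Pool.Agent.H92.RP.ResA
import Pool.Agent.H92.RP.ResLoc

set_option autoImplicit false

/-!
# RP-R5: nonsplitness (residue theorem)

PROOF.  Suppose `x` satisfies all four conditions.  Let `z = zz φ f C x`,
`h := (RatFunc.X - C (P 8 0)) * Tr z ∈ k(X)`.
(1) For `x₀ ∉ {P i 0}`: the places `p ∉ range inf` with `v_p(X - x₀) > 0` are different from all
    `e i j` (there `v(X - x₀) = order (P i 0 - x₀ + s) = 0`), so `h4` and `trace_regular` give
    `(Tr z).denom.eval x₀ ≠ 0`.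
(2) For `x₀ = P i 0`: the `3M` homomorphisms `Sum.elim (σ i) (ρ i)` are distinct
    (`Br.fibre_inj`; reindex `Fin M ⊕ Fin (2 * M) ≃ Fin (3 * M)`), they agree on `RatFunc k`
    (`ratfunc_ext`), so `norm_trace_embeddings` gives
    `ι₀ (Tr z) = ∑ j, σ i j z + ∑ j, ρ i j z`, where `ι₀ : RatFunc k → k((s))`,
    `X ↦ P i 0 + s`.  For `ρ i j`: `F.branch` gives a place `p ∉ range inf` with
    `v_p = order ∘ ρ i j`; `p ≠ e i' j'`: if `i' ≠ i`, `v_p (X - P i 0) = 1` but
    `v_{e i' j'}(X - P i 0) = 0`; if `i' = i`, `φ(Y - P i 1)` has order `0` at `ρ i j`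
    (`Br.ρ_order`, `y_ne`) but its image under `σ i j'` is `s η`, of order `≥ 1` (or zero, but a
    nonzero element of `K` has nonzero image).  So `h4` gives `lge 0 (ρ i j x)` and `ρ_z` gives
    `lge 0 (ρ i j z)`.  For `i ≠ 8` also `lge 0 (σ i j z)` by `h1`, `σ_z`; hence
    `lge 0 (ι₀ (Tr z))` and `denom_ne_zero` gives `(Tr z).denom.eval (P i 0) ≠ 0`.
    For `i = 8`: `ι₀ h = s ι₀ (Tr z) = ∑ j, s σ 8 j z + ∑ j, s ρ 8 j z` is a power series with
    constant term `M * (- w 0 / f_Y)` (`σ_res`), so `lge 0 (ι₀ h)`, `h.denom.eval (P 8 0) ≠ 0`, and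
    `ι₀ h ≠ 0` because `M * w 0 ≠ 0` (characteristic `0`).  So `h ≠ 0`.
(3) So `h.denom` has no zeros at all (the denominator of `h` divides that of `Tr z`, since `h` is a
    polynomial multiple of `Tr z`).
(4) At infinity: `norm_trace_embeddings` for the `τ j` and `τ_z`: `ι_∞ (Tr z)` has `lge 2`, so
    `ι_∞ h` has `lge 1`, and by `order_inf` `intDegree h ≤ -1`.
`eq_zero_of_poles` gives `h = 0`, a contradiction.
-/

namespace Pool.Agent.H92.RP

open Pool.Agent.H13 Polynomial

variable {k K : Type} [Field k] [IsAlgClosed k] [CharZero k] [Field K] [Algebra k K]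
  [Algebra k[X] K] [IsScalarTower k k[X] K] [Algebra (RatFunc k) K]
  [IsScalarTower k[X] (RatFunc k) K] [FiniteDimensional (RatFunc k) K]
  {M : ℕ} {f C : MvPolynomial (Fin 2) k} {P : Fin 9 → Fin 2 → k} {w : Fin 2 → k}
  {φ : MvPolynomial (Fin 2) k →ₐ[k] K}

omit [IsAlgClosed k] [CharZero k] in
theorem ns_ord_lin (c : k) (hc : c ≠ 0) :
    (HahnSeries.C c + ss k : LaurentSeries k) ≠ 0 ∧
      (HahnSeries.C c + ss k : LaurentSeries k).order = 0 := by
  have h := order_single_mul 0 (PowerSeries.C c + PowerSeries.X : PowerSeries k) (by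
    rw [map_add, PowerSeries.constantCoeff_C, PowerSeries.constantCoeff_X, add_zero]
    exact hc)
  have h1 : (HahnSeries.single (0 : ℤ) (1 : k) : LaurentSeries k) = 1 := rfl
  rw [h1, one_mul, map_add, HahnSeries.ofPowerSeries_C, HahnSeries.ofPowerSeries_X] at h
  exact h

omit [IsAlgClosed k] [CharZero k] in
theorem ns_lge_zero (x : LaurentSeries k) (hx : lge 0 x) :
    ∃ g : PowerSeries k, x = HahnSeries.ofPowerSeries ℤ k g := by
  obtain ⟨g, hg⟩ := exists_ofPS 0 x hx
  have h1 : (HahnSeries.single (0 : ℤ) (1 : k) : LaurentSeries k) = 1 := rfl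
  rw [h1, one_mul] at hg
  exact ⟨g, hg⟩

section
variable {k K : Type} [Field k] [Field K] [Algebra k K]
  [Algebra k[X] K] [IsScalarTower k k[X] K] [Algebra (RatFunc k) K]
  [IsScalarTower k[X] (RatFunc k) K]

theorem ns_X : algebraMap (RatFunc k) K RatFunc.X = algebraMap k[X] K X := by
  rw [IsScalarTower.algebraMap_apply k[X] (RatFunc k) K, RatFunc.algebraMap_X]

theorem ns_C (c : k) : algebraMap (RatFunc k) K (RatFunc.C c) = algebraMap k K c := by
  rw [IsScalarTower.algebraMap_apply k k[X] K, IsScalarTower.algebraMap_apply k[X] (RatFunc k) K,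
    Polynomial.algebraMap_eq, RatFunc.algebraMap_C]

theorem ns_C' (c : k) : algebraMap k[X] K (Polynomial.C c) = algebraMap k K c :=
  (IsScalarTower.algebraMap_apply k k[X] K c).symm

theorem ns_lin (σ : K →+* LaurentSeries k) (x₀ x₁ : k)
    (hC : ∀ c : k, σ (algebraMap k K c) = HahnSeries.C c)
    (hX : σ (algebraMap k[X] K X) = HahnSeries.C x₀ + ss k) :
    σ (algebraMap k[X] K (X - Polynomial.C x₁)) = HahnSeries.C (x₀ - x₁) + ss k := by
  rw [map_sub, map_sub, ns_C', hX, hC, map_sub]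
  ring

end

omit [IsAlgClosed k] [CharZero k] [FiniteDimensional (RatFunc k) K] in
/-- the branches `ρ` give places different from all `e i j` -/
theorem ns_rho (B : Br M C P φ) (F : FPl k K (3 * M) B.τ) (e : Fin 9 → Fin M → F.pl.ι)
    (he : ∀ i j a, a ≠ 0 → F.pl.v (e i j) a = (B.σ i j a).order)
    (hxinj : Function.Injective fun i => P i 0)
    (x : K)
    (h4 : ∀ p, p ∉ Set.range F.inf → (∀ i j, p ≠ e i j) → F.pl.ge p 0 x)
    (i : Fin 9) (j : Fin (2 * M)) : lge 0 (B.ρ i j x) := by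
  by_cases hx0 : x = 0
  · rw [hx0, map_zero]
    exact lge_zero _
  obtain ⟨p, hp, hv⟩ := F.branch (B.ρ i j) (P i 0) (B.ρ_C i j) (B.ρ_X i j)
  have hne : ∀ (σ : K →+* LaurentSeries k) (a : K), a ≠ 0 → σ a ≠ 0 := fun σ a ha h =>
    ha ((map_eq_zero_iff σ σ.injective).1 h)
  have hpe : ∀ i' j', p ≠ e i' j' := by
    intro i' j' hpe
    by_cases hi : i' = i
    · subst hi
      -- evaluate at Y - P i 1
      have hr := B.ρ_order i' j (MvPolynomial.X 1 - MvPolynomial.C (P i' 1)) (by
        rw [vres_eval]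
        simp only [map_sub, MvPolynomial.eval_X, MvPolynomial.eval_C]
        exact sub_ne_zero.2 (B.y_ne i' j))
      set a := φ (MvPolynomial.X 1 - MvPolynomial.C (P i' 1)) with ha
      have ha0 : a ≠ 0 := by
        intro h
        apply hr.1
        rw [h, map_zero]
      have h1 := hv a ha0
      have h2 := he i' j' a ha0
      have h3 := B.σ_lge i' j' 1 (MvPolynomial.X 1 - MvPolynomial.C (P i' 1))
        (mem_Iord_one.2 (by simp))
      rw [← ha] at h3
      have h5 := (lge_iff _ _ (hne _ a ha0)).1 h3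
      rw [hpe, h2, hr.2] at h1
      rw [h1] at h5
      norm_num at h5
    · have hn : P i' 0 - P i 0 ≠ 0 := sub_ne_zero.2 fun h => hi (hxinj h)
      have hs := ns_ord_lin _ hn
      rw [← ns_lin (B.σ i' j') (P i' 0) (P i 0) (B.σ_C i' j') (B.σ_X i' j')] at hs
      set a := algebraMap k[X] K (X - Polynomial.C (P i 0)) with ha
      have ha0 : a ≠ 0 := by
        intro h
        apply hs.1
        rw [h, map_zero]
      have h1 := hv a ha0
      have h2 := he i' j' a ha0
      have h3 : B.ρ i j a = ss k := by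
        rw [ha, ns_lin (B.ρ i j) (P i 0) (P i 0) (B.ρ_C i j) (B.ρ_X i j), sub_self, map_zero,
          zero_add]
      rw [hpe, h2, hs.2, h3, HahnSeries.order_single (one_ne_zero : (1 : k) ≠ 0)] at h1
      norm_num at h1
  have h5 := h4 p hp hpe hx0
  rw [hv x hx0] at h5
  exact (lge_iff _ _ (hne _ x hx0)).2 h5

omit [IsAlgClosed k] in
/-- the trace is the sum over the branches over `X = P i 0` -/
theorem ns_trace (hφ : IsModel (3 * M) C φ) (B : Br M C P φ) (i : Fin 9)
    (ι₀ : RatFunc k →+* LaurentSeries k)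
    (hC : ∀ c : k, ι₀ (RatFunc.C c) = HahnSeries.C c)
    (hX : ι₀ RatFunc.X = HahnSeries.C (P i 0) + ss k) (z : K) :
    ι₀ (Algebra.trace (RatFunc k) K z) = ∑ j, B.σ i j z + ∑ j, B.ρ i j z := by
  have hcard : M + 2 * M = 3 * M := by ring
  let q : Fin (3 * M) ≃ Fin M ⊕ Fin (2 * M) := (finSumFinEquiv.trans (finCongr hcard)).symm
  have hag : ∀ (σ : K →+* LaurentSeries k),
      (∀ c : k, σ (algebraMap k K c) = HahnSeries.C c) →
      σ (algebraMap k[X] K X) = HahnSeries.C (P i 0) + ss k →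
      ∀ a : RatFunc k, σ (algebraMap (RatFunc k) K a) = ι₀ a := by
    intro σ h1 h2 a
    have h3 : σ.comp (algebraMap (RatFunc k) K) = ι₀ := by
      apply ratfunc_ext
      · intro c
        rw [RingHom.comp_apply, ns_C, h1, hC]
      · rw [RingHom.comp_apply, ns_X, h2, hX]
    rw [← h3, RingHom.comp_apply]
  have h := (norm_trace_embeddings ι₀ (3 * M) hφ.finrank
    (fun j => Sum.elim (B.σ i) (B.ρ i) (q j)) (by
      intro j a
      rcases hq : q j with j' | j'
      · exact hag (B.σ i j') (B.σ_C i j') (B.σ_X i j') a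
      · exact hag (B.ρ i j') (B.ρ_C i j') (B.ρ_X i j') a)
    ((B.fibre_inj i).comp q.injective) z).2
  rw [h, q.sum_comp (fun s => (Sum.elim (B.σ i) (B.ρ i) s) z), Fintype.sum_sum_type]
  rfl

theorem nonsplit (H : HCurve M f C P w) (hφ : IsModel (3 * M) C φ) (B : Br M C P φ)
    (F : FPl k K (3 * M) B.τ) (e : Fin 9 → Fin M → F.pl.ι)
    (he : ∀ i j a, a ≠ 0 → F.pl.v (e i j) a = (B.σ i j a).order)
    (x : K) (h1 : ∀ i, i ≠ 8 → ∀ j, lge (M : ℤ) (B.σ i j x))
    (h2 : ∀ j, lge (M : ℤ) (B.σ 8 j (x - φ (dw w C))))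
    (h3 : ∀ j, lge (-(3 * M : ℤ)) (B.τ j x))
    (h4 : ∀ p, p ∉ Set.range F.inf → (∀ i j, p ≠ e i j) → F.pl.ge p 0 x) : False := by
  classical
  have hM := H.M_pos
  set z := zz φ f C x with hz
  set T := Algebra.trace (RatFunc k) K z with hT
  set L : k[X] := X - Polynomial.C (P 8 0) with hL
  set h : RatFunc k := algebraMap k[X] (RatFunc k) L * T with hh
  have hdvd : h.denom ∣ T.denom := by
    have := RatFunc.denom_mul_dvd (algebraMap k[X] (RatFunc k) L) T
    rwa [RatFunc.denom_algebraMap, one_mul] at this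
  have hden : ∀ x₀ : k, T.denom.eval x₀ ≠ 0 → h.denom.eval x₀ ≠ 0 := by
    intro x₀ h0 h1
    obtain ⟨r, hr⟩ := hdvd
    apply h0
    rw [hr, eval_mul, h1, zero_mul]
  -- homomorphisms over the special lines
  let ι₀ : Fin 9 → RatFunc k →+* LaurentSeries k := fun i =>
    (B.σ i ⟨0, hM⟩).comp (algebraMap (RatFunc k) K)
  have hιC : ∀ i (c : k), ι₀ i (RatFunc.C c) = HahnSeries.C c := by
    intro i c
    change B.σ i ⟨0, hM⟩ (algebraMap (RatFunc k) K (RatFunc.C c)) = _
    rw [ns_C, B.σ_C]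
  have hιX : ∀ i, ι₀ i RatFunc.X = HahnSeries.C (P i 0) + ss k := by
    intro i
    change B.σ i ⟨0, hM⟩ (algebraMap (RatFunc k) K RatFunc.X) = _
    rw [ns_X, B.σ_X]
  have hρ : ∀ i j, lge 0 (B.ρ i j z) := fun i j =>
    ρ_z H B i j x (ns_rho B F e he H.xinj x h4 i j)
  have htr : ∀ i, ι₀ i T = ∑ j, B.σ i j z + ∑ j, B.ρ i j z := fun i =>
    ns_trace hφ B i (ι₀ i) (hιC i) (hιX i) z
  have hLι : ι₀ 8 (algebraMap k[X] (RatFunc k) L) = ss k := by
    rw [hL, map_sub, map_sub, RatFunc.algebraMap_X, RatFunc.algebraMap_C, hιX, hιC]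
    ring
  -- the value at the line through P 8
  have key : ∃ g : PowerSeries k, PowerSeries.constantCoeff g ≠ 0 ∧
      ι₀ 8 h = HahnSeries.ofPowerSeries ℤ k g := by
    choose g hg1 hg2 using fun j => σ_res H B j x (h2 j)
    choose g' hg' using fun j => ns_lge_zero _ (hρ 8 j)
    refine ⟨∑ j, g j + PowerSeries.X * ∑ j, g' j, ?_, ?_⟩
    · rw [map_add, map_mul, PowerSeries.constantCoeff_X, zero_mul, add_zero, map_sum]
      simp only [hg1, Finset.sum_const, Finset.card_univ, Fintype.card_fin, nsmul_eq_mul]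
      exact mul_ne_zero (Nat.cast_ne_zero.2 hM.ne') (div_ne_zero (neg_ne_zero.2 H.w0) H.fY)
    · rw [hh, map_mul, hLι, htr, mul_add, Finset.mul_sum, map_add, map_sum, map_mul, map_sum,
        HahnSeries.ofPowerSeries_X]
      congr 1
      · exact Finset.sum_congr rfl fun j _ => hg2 j
      · congr 1
        exact Finset.sum_congr rfl fun j _ => hg' j
  obtain ⟨g, hg0, hg⟩ := key
  have hh0 : h ≠ 0 := by
    intro h0
    rw [h0, map_zero] at hg
    apply hg0
    have : g = 0 := by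
      apply HahnSeries.ofPowerSeries_injective (Γ := ℤ) (R := k)
      rw [← hg, map_zero]
    rw [this, map_zero]
  apply hh0
  apply eq_zero_of_poles
  · intro x₀
    by_cases hx₀ : ∃ i, P i 0 = x₀
    · obtain ⟨i, rfl⟩ := hx₀
      by_cases hi : i = 8
      · subst hi
        apply denom_ne_zero (ι₀ 8) (P 8 0) (hιC 8) (hιX 8)
        rw [hg]
        exact lge_ofPS g
      · apply hden
        apply denom_ne_zero (ι₀ i) (P i 0) (hιC i) (hιX i)
        rw [htr]
        exact (lge.sum _ _ _ fun j _ => σ_z H B i j x (h1 i hi j)).add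
          (lge.sum _ _ _ fun j _ => hρ i j)
    · apply hden
      have hx₀' : ∀ i, P i 0 ≠ x₀ := fun i hi => hx₀ ⟨i, hi⟩
      apply trace_regular H hφ B F x x₀ hx₀'
      intro p hp hpos
      apply h4 p hp
      intro i j hpe
      have hs := ns_ord_lin (P i 0 - x₀) (sub_ne_zero.2 (hx₀' i))
      rw [← ns_lin (B.σ i j) (P i 0) x₀ (B.σ_C i j) (B.σ_X i j)] at hs
      have ha0 : algebraMap k[X] K (X - Polynomial.C x₀) ≠ 0 := by
        intro h0
        apply hs.1
        rw [h0, map_zero]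
      rw [hpe, he i j _ ha0, hs.2] at hpos
      exact lt_irrefl _ hpos
  · intro _
    have h3M : 0 < 3 * M := by omega
    let ιn : RatFunc k →+* LaurentSeries k := (B.τ ⟨0, h3M⟩).comp (algebraMap (RatFunc k) K)
    have hC : ∀ (c : k), ιn (RatFunc.C c) = HahnSeries.C c := by
      intro c
      change B.τ ⟨0, h3M⟩ (algebraMap (RatFunc k) K (RatFunc.C c)) = _
      rw [ns_C, B.τ_C]
    have hX : ιn RatFunc.X = HahnSeries.single (-1) 1 := by
      change B.τ ⟨0, h3M⟩ (algebraMap (RatFunc k) K RatFunc.X) = _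
      rw [ns_X, B.τ_X]
    have hag : ∀ (j : Fin (3 * M)) (a : RatFunc k),
        B.τ j (algebraMap (RatFunc k) K a) = ιn a := by
      intro j a
      have h5 : (B.τ j).comp (algebraMap (RatFunc k) K) = ιn := by
        apply ratfunc_ext
        · intro c
          rw [RingHom.comp_apply, ns_C, B.τ_C, hC]
        · rw [RingHom.comp_apply, ns_X, B.τ_X, hX]
      rw [← h5, RingHom.comp_apply]
    have h5 := (norm_trace_embeddings ιn (3 * M) hφ.finrank B.τ hag B.τ_inj z).2
    have h6 : lge 2 (ιn T) := by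
      rw [hT, h5]
      exact lge.sum _ _ _ fun j _ => τ_z H B j x (h3 j)
    have h7 : lge (-1) (ιn (algebraMap k[X] (RatFunc k) L)) := by
      rw [hL, map_sub, map_sub, RatFunc.algebraMap_X, RatFunc.algebraMap_C, hX, hC,
        sub_eq_add_neg]
      refine lge.add ?_ (lge.neg ?_)
      · intro i hi
        exact HahnSeries.coeff_single_of_ne (by omega)
      · intro i hi
        have : (HahnSeries.C (P 8 0) : LaurentSeries k) = HahnSeries.single 0 (P 8 0) := rfl
        rw [this]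
        exact HahnSeries.coeff_single_of_ne (by omega)
    have h8 := h7.mul h6
    rw [← map_mul, ← hh] at h8
    have h9 : ιn h ≠ 0 := fun h0 => hh0 ((map_eq_zero_iff ιn ιn.injective).1 h0)
    have h10 := (lge_iff _ _ h9).1 h8
    rw [order_inf ιn hC hX h hh0] at h10
    omega

end Pool.Agent.H92.RP
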