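import Mathlib
import Pool.Agent.H92.RP.Places

set_option autoImplicit false

/-!
# RP-A1: weighted Gauss valuations

For a place `p`, an integer weight `n` and a nonzero polynomial `t = ∑ c_i W^i ∈ K[W]` put
`gval pl p n t = min_i (v_p(c_i) + n i)` (over the `i` with `c_i ≠ 0`).

PROOFS.
* `le_gval_iff`: unfold; `Finset.le_inf'_iff`.
* `gval_mul`: put `D = gval s`, `E = gval t`.  Every coefficient of `s t` is a sum of products
  `s_i t_j`, `i + j = l`, each of value `≥ D - n i + E - n j = (D + E) - n l` (use `ge.sum`,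
  `ge.mul`), so `D + E ≤ gval (s t)` by `le_gval_iff`.  Conversely let `i₀` be the SMALLEST index
  with `s_{i₀} ≠ 0` and `v(s_{i₀}) + n i₀ = D`, and `j₀` the smallest for `t`.  In
  `(s t)_{i₀+j₀} = ∑ s_i t_j` the term `s_{i₀} t_{j₀}` has value exactly `D + E - n (i₀ + j₀)`, and
  every other term has `i < i₀` or `j < j₀`, hence value `≥ D + E - n(i₀+j₀) + 1`.  By
  `Places.v_add_eq` the coefficient is nonzero with value exactly `D + E - n (i₀ + j₀)`.
* `gval_C`: the support of `C a` is `{0}`.
* `gval_of_le`: if `D ≤ gval` fails for `D + 1`, i.e. exactness: `exists_eq_gval`: some coefficient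
  attains the minimum (`Finset.exists_mem_eq_inf'`).
-/

namespace Pool.Agent.H92.RP

open Polynomial

variable {k K : Type} [Field k] [Field K] [Algebra k K]

/-- weighted Gauss value of a polynomial (`0` for the zero polynomial) -/
noncomputable def gval (pl : Places k K) (p : pl.ι) (n : ℤ) (t : K[X]) : ℤ := by
  classical
  exact if h : t.support.Nonempty then
    t.support.inf' h (fun i => pl.v p (t.coeff i) + n * i) else 0

theorem gval_eq_inf (pl : Places k K) (p : pl.ι) (n : ℤ) (t : K[X]) (h : t.support.Nonempty) :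
    gval pl p n t = t.support.inf' h (fun i => pl.v p (t.coeff i) + n * i) := by
  classical
  unfold gval
  rw [dif_pos h]

theorem le_gval_iff (pl : Places k K) (p : pl.ι) (n D : ℤ) (t : K[X]) (ht : t ≠ 0) :
    D ≤ gval pl p n t ↔ ∀ i : ℕ, pl.ge p (D - n * i) (t.coeff i) := by
  have hne : t.support.Nonempty := Polynomial.support_nonempty.2 ht
  rw [gval_eq_inf pl p n t hne, Finset.le_inf'_iff]
  constructor
  · intro h i hi
    have := h i (Polynomial.mem_support_iff.2 hi)
    linarith
  · intro h i hi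
    have := h i (Polynomial.mem_support_iff.1 hi)
    linarith

theorem exists_eq_gval (pl : Places k K) (p : pl.ι) (n : ℤ) (t : K[X]) (ht : t ≠ 0) :
    ∃ i : ℕ, t.coeff i ≠ 0 ∧ pl.v p (t.coeff i) + n * i = gval pl p n t := by
  have hne : t.support.Nonempty := Polynomial.support_nonempty.2 ht
  rw [gval_eq_inf pl p n t hne]
  obtain ⟨i, hi, h⟩ := Finset.exists_mem_eq_inf' hne (fun i => pl.v p (t.coeff i) + n * (i : ℤ))
  exact ⟨i, Polynomial.mem_support_iff.1 hi, h.symm⟩

/-- the smallest index attaining the Gauss value -/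
theorem exists_min_gval (pl : Places k K) (p : pl.ι) (n : ℤ) (t : K[X]) (ht : t ≠ 0) :
    ∃ i : ℕ, t.coeff i ≠ 0 ∧ pl.v p (t.coeff i) + n * i = gval pl p n t ∧
      ∀ j < i, pl.ge p (gval pl p n t + 1 - n * j) (t.coeff j) := by
  classical
  have hex := exists_eq_gval pl p n t ht
  have hle := (le_gval_iff pl p n (gval pl p n t) t ht).1 le_rfl
  refine ⟨Nat.find hex, (Nat.find_spec hex).1, (Nat.find_spec hex).2, ?_⟩
  intro j hj hj0
  have h1 := Nat.find_min hex hj
  have h2 := hle j hj0
  have h3 : pl.v p (t.coeff j) + n * j ≠ gval pl p n t := fun h => h1 ⟨hj0, h⟩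
  have h4 : gval pl p n t ≤ pl.v p (t.coeff j) + n * j := by linarith
  have h5 := lt_of_le_of_ne h4 (Ne.symm h3)
  linarith [Int.add_one_le_iff.2 h5]

theorem gval_mul (pl : Places k K) (p : pl.ι) (n : ℤ) (s t : K[X]) (hs : s ≠ 0) (ht : t ≠ 0) :
    gval pl p n (s * t) = gval pl p n s + gval pl p n t := by
  have hst : s * t ≠ 0 := mul_ne_zero hs ht
  have hs' := (le_gval_iff pl p n (gval pl p n s) s hs).1 le_rfl
  have ht' := (le_gval_iff pl p n (gval pl p n t) t ht).1 le_rfl
  set D := gval pl p n s with hD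
  set E := gval pl p n t with hE
  apply le_antisymm
  · obtain ⟨i, hi0, hi, hmi⟩ := exists_min_gval pl p n s hs
    obtain ⟨j, hj0, hj, hmj⟩ := exists_min_gval pl p n t ht
    rw [← hD] at hi hmi
    rw [← hE] at hj hmj
    have hmem : (i, j) ∈ Finset.HasAntidiagonal.antidiagonal (i + j) := by simp
    have hco : (s * t).coeff (i + j) = s.coeff i * t.coeff j +
        ∑ x ∈ (Finset.HasAntidiagonal.antidiagonal (i + j)).erase (i, j), s.coeff x.1 * t.coeff x.2 := by
      rw [Polynomial.coeff_mul, ← Finset.add_sum_erase _ _ hmem]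
    have hv : pl.v p (s.coeff i * t.coeff j) = D + E - n * ((i + j : ℕ) : ℤ) := by
      rw [pl.mul p _ _ hi0 hj0]
      push_cast
      linarith
    have hrest : pl.ge p (pl.v p (s.coeff i * t.coeff j) + 1)
        (∑ x ∈ (Finset.HasAntidiagonal.antidiagonal (i + j)).erase (i, j), s.coeff x.1 * t.coeff x.2) := by
      apply Places.ge.sum
      intro x hx
      rw [Finset.mem_erase, Finset.HasAntidiagonal.mem_antidiagonal] at hx
      obtain ⟨hx1, hx2⟩ := hx
      rw [hv]
      have hcast : ((i + j : ℕ) : ℤ) = (x.1 : ℤ) + (x.2 : ℤ) := by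
        rw [← hx2]; push_cast; rfl
      rcases lt_trichotomy x.1 i with h | h | h
      · refine ((hmi x.1 h).mul (ht' x.2)).mono ?_
        rw [hcast]
        ring_nf
        exact le_rfl
      · exfalso
        apply hx1
        have : x.2 = j := by omega
        exact Prod.ext h this
      · have h' : x.2 < j := by omega
        refine ((hs' x.1).mul (hmj x.2 h')).mono ?_
        rw [hcast]
        ring_nf
        exact le_rfl
    obtain ⟨hne, hval⟩ := Places.v_add_eq p _ _ (mul_ne_zero hi0 hj0) hrest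
    rw [← hco] at hne hval
    have h1 := (le_gval_iff pl p n (gval pl p n (s * t)) (s * t) hst).1 le_rfl (i + j) hne
    rw [hval, hv] at h1
    linarith
  · rw [le_gval_iff pl p n _ _ hst]
    intro l
    rw [Polynomial.coeff_mul]
    apply Places.ge.sum
    intro x hx
    rw [Finset.HasAntidiagonal.mem_antidiagonal] at hx
    refine ((hs' x.1).mul (ht' x.2)).mono ?_
    have hcast : (l : ℤ) = (x.1 : ℤ) + (x.2 : ℤ) := by
      rw [← hx]; push_cast; rfl
    rw [hcast]
    ring_nf
    exact le_rfl

theorem gval_C (pl : Places k K) (p : pl.ι) (n : ℤ) (a : K) (ha : a ≠ 0) :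
    gval pl p n (C a) = pl.v p a := by
  have hC : (C a : K[X]) ≠ 0 := Polynomial.C_ne_zero.2 ha
  obtain ⟨i, hi0, hi⟩ := exists_eq_gval pl p n (C a) hC
  have hi1 : i = 0 := by
    by_contra h
    exact hi0 (Polynomial.coeff_C_of_ne_zero h)
  subst hi1
  rw [Polynomial.coeff_C_zero] at hi
  simpa using hi.symm

end Pool.Agent.H92.RP
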