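import Mathlib
import Pool.Agent.H92.RP.Places

set_option autoImplicit false

/-!
# RP-A2: lower bound for the value of a discriminant

If `t = ∑ c_i W^i` has degree `≤ l` (`l ≥ 1`) and `v_p(c_i) ≥ D - n i` for all `i`, then
`v_p(Res_{l, l-1}(t, t')) ≥ (2 l - 1) D - n l²`.

PROOF 1 (weights, no uniformiser needed).  `Polynomial.resultant t t' l (l-1)` is the determinant
of the Sylvester matrix of size `2 l - 1`; expand by Leibniz (`Matrix.det_apply`).  It suffices to
bound each product, and `ge` is stable under sums and signs.  Alternatively: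

PROOF 2 (scaling).  Take `π` with `v_p(π) = 1` (`pl.unif`), `c := π ^ n` (zpow).  The polynomial
`T := C (π ^ (-D)) * t.comp (C c * X)` has coefficients `π^(-D) c_i π^(n i)` of value `≥ 0`.  The
resultant of polynomials with coefficients in the subring `O = {a | ge p 0 a}` (closed under
`+, *, -`, contains the natural numbers) is in `O` (`resultant_map_map` for the inclusion of the
subring, or determinant expansion), and `T'` has coefficients in `O`.  Finally
`Res(T, T') = π^(-D (2l-1)) c^(l²) Res(t, t')`, because `Res_{m,n}` is homogeneous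
(`resultant_C_mul_left/right`), `(t(cW))' = c t'(cW)`, and
`Res_{m,n}(f(cW), g(cW)) = c^(m n) Res_{m,n}(f, g)`
(from `resultant_scaleRoots` or directly from the Sylvester matrix); if the degree of `t` is
smaller than `l` use the weights proof or `resultant_add_left_deg`.  We only need the case
`t.natDegree = l`, which is assumed.
-/

namespace Pool.Agent.H92.RP

open Polynomial

variable {k K : Type} [Field k] [Field K] [Algebra k K]

theorem resB_ge_prod (pl : Places k K) (p : pl.ι) {ι : Type*} (s : Finset ι) (f : ι → K) (w : ι → ℤ)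
    (h : ∀ i ∈ s, pl.ge p (w i) (f i)) : pl.ge p (∑ i ∈ s, w i) (∏ i ∈ s, f i) := by
  classical
  induction s using Finset.induction_on with
  | empty => simpa using Places.ge_one (pl := pl) p
  | insert i s hi ih =>
    rw [Finset.sum_insert hi, Finset.prod_insert hi]
    exact (h i (Finset.mem_insert_self _ _)).mul
      (ih fun j hj => h j (Finset.mem_insert_of_mem hj))

theorem resB_ge_det (pl : Places k K) (p : pl.ι) {N : ℕ} (A : Matrix (Fin N) (Fin N) K)
    (r c : Fin N → ℤ) (h : ∀ i j, pl.ge p (r i + c j) (A i j)) :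
    pl.ge p (∑ i, r i + ∑ j, c j) A.det := by
  rw [Matrix.det_apply]
  refine Places.ge.sum _ _ fun σ _ => ?_
  have h1 : pl.ge p (∑ i, (r (σ i) + c i)) (∏ i, A (σ i) i) :=
    resB_ge_prod pl p Finset.univ _ _ fun i _ => h (σ i) i
  have h2 : ∑ i, (r (σ i) + c i) = ∑ i, r i + ∑ j, c j := by
    rw [Finset.sum_add_distrib, Equiv.sum_comp σ r]
  rw [h2] at h1
  rcases Int.units_eq_one_or (Equiv.Perm.sign σ) with hs | hs
  · rw [hs, one_smul]
    exact h1
  · rw [hs, Units.neg_smul, one_smul]
    exact h1.neg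

theorem resB_sum_lin (a v : ℤ) (m : ℕ) :
    2 * ∑ j : Fin m, (a + v * (j : ℕ)) = 2 * m * a + v * m * (m - 1) := by
  induction m with
  | zero => simp
  | succ m ih =>
    rw [Fin.sum_univ_castSucc, mul_add]
    simp only [Fin.val_castSucc, Fin.val_last]
    rw [ih]
    push_cast
    ring

theorem resB_ge_coeff (pl : Places k K) (p : pl.ι) (n D : ℤ) (t : K[X])
    (h : ∀ i : ℕ, pl.ge p (D - n * i) (t.coeff i)) (i : ℕ) :
    pl.ge p (D - n * (i + 1)) ((derivative t).coeff i) := by
  rw [coeff_derivative]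
  have h1 := h (i + 1)
  have h2 : pl.ge p 0 ((i : K) + 1) := by
    have h3 := Places.ge_algebraMap (pl := pl) p ((i : k) + 1)
    rw [map_add, map_natCast, map_one] at h3
    exact h3
  have h4 := h1.mul h2
  rw [add_zero] at h4
  push_cast at h4
  exact h4

theorem ge_resultant (pl : Places k K) (p : pl.ι) (n D : ℤ) (t : K[X]) (l : ℕ)
    (hl : t.natDegree = l) (hl1 : 1 ≤ l) (h : ∀ i : ℕ, pl.ge p (D - n * i) (t.coeff i)) :
    pl.ge p ((2 * l - 1) * D - n * l ^ 2) (Polynomial.resultant t (derivative t) l (l - 1)) := by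
  clear hl
  let r : Fin (l + (l - 1)) → ℤ := fun i => 0 + (-n) * ((i : ℕ) : ℤ)
  let c : Fin (l + (l - 1)) → ℤ := fun j =>
    Fin.addCases (fun j₁ : Fin l => (D - n) + n * ((j₁ : ℕ) : ℤ))
      (fun j₁ : Fin (l - 1) => D + n * ((j₁ : ℕ) : ℤ)) j
  have hent : ∀ i j, pl.ge p (r i + c j) (sylvester t (derivative t) l (l - 1) i j) := by
    intro i j
    induction j using Fin.addCases with
    | left j₁ =>
      simp only [r, c, sylvester, Matrix.of_apply, Fin.addCases_left]
      split_ifs with hij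
      · have h1 := resB_ge_coeff pl p n D t h ((i : ℕ) - (j₁ : ℕ))
        refine h1.mono (le_of_eq ?_)
        rw [Nat.cast_sub hij.1]
        ring
      · exact Places.ge_zero p _
    | right j₁ =>
      simp only [r, c, sylvester, Matrix.of_apply, Fin.addCases_right]
      split_ifs with hij
      · have h1 := h ((i : ℕ) - (j₁ : ℕ))
        refine h1.mono (le_of_eq ?_)
        rw [Nat.cast_sub hij.1]
        ring
      · exact Places.ge_zero p _
  have hdet := resB_ge_det pl p (sylvester t (derivative t) l (l - 1)) r c hent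
  refine Places.ge.mono (n := ∑ i, r i + ∑ j, c j) hdet (le_of_eq ?_)
  have e1 := resB_sum_lin 0 (-n) (l + (l - 1))
  have e2 := resB_sum_lin (D - n) n l
  have e3 := resB_sum_lin D n (l - 1)
  have e4 : ∑ j, c j = ∑ j₁ : Fin l, ((D - n) + n * ((j₁ : ℕ) : ℤ)) +
      ∑ j₁ : Fin (l - 1), (D + n * ((j₁ : ℕ) : ℤ)) := by
    rw [Fin.sum_univ_add]
    simp only [c, Fin.addCases_left, Fin.addCases_right]
  have e5 : ((l - 1 : ℕ) : ℤ) = l - 1 := by
    rw [Nat.cast_sub hl1]
    simp
  have e6 : ∑ i, r i = ∑ j : Fin (l + (l - 1)), (0 + -n * ((j : ℕ) : ℤ)) := rfl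
  rw [e4, e6]
  push_cast [e5] at e1 e2 e3
  generalize ∑ j : Fin (l + (l - 1)), (0 + -n * ((j : ℕ) : ℤ)) = S1 at *
  generalize ∑ j₁ : Fin l, ((D - n) + n * ((j₁ : ℕ) : ℤ)) = S2 at *
  generalize ∑ j₁ : Fin (l - 1), (D + n * ((j₁ : ℕ) : ℤ)) = S3 at *
  have h7 : 2 * (((2 * l - 1) * D - n * l ^ 2 : ℤ)) = 2 * (S1 + (S2 + S3)) := by
    linear_combination -e1 - e2 - e3
  linarith

end Pool.Agent.H92.RP
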