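import Mathlib
import Pool.Agent.H92.RP.Gauss
import Pool.Agent.H92.RP.ResB

/-!
# RP-A3: the degree bound for sections of symmetric powers of a nonsplit bundle of degree `-1`

`e : J → ι` are finitely many places with frames `u j ∈ K`, weights `n j`, `∑ n j = 1`; there is no
`x ∈ K` with `v(x - u j) ≥ n j` at the places `e j` and `v(x) ≥ 0` elsewhere.  If `s ≠ 0` has
weighted Gauss value `≥ a j` at `e j` (after the translation by `u j`) and coefficients of value
`≥ 0` elsewhere, then `2 ∑ a j ≤ deg s`.

PROOF.  Frames `U p`, `N p` for all `p` (`U (e j) = u j`, `N (e j) = n j`, and `0, 0` elsewhere).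
For `t ≠ 0` put `D(t) = ∑ᶠ p, gval pl p (N p) (taylor (U p) t)`.  The support is finite: outside
the range of `e` the value is `gval pl p 0 t`, which is `0` as soon as all nonzero coefficients of
`t` have value `0` (`exists_eq_gval`, `pl.fin`).
(1) `D(s t) = D(s) + D(t)` (`gval_mul`, `taylor_mul`, `finsum_add_distrib`), `D(C a) = 0`
    (`gval_C`, `taylor_C`, `pl.prod`).
(2) For `t` irreducible, `2 D(t) ≤ deg t`.  Let `l = deg t ≥ 1`.
    `l = 1`: by (1) we may take `t = X - C x`.  `taylor (U p) t = X + C (U p - x)`, so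
    `gval ≤ n_p` always (coefficient of `X` is `1`), with equality iff `v_p(x - U p) ≥ N p` (or
    `x = U p`).  So `D(t) ≤ ∑ N p = 1`, and if `D(t) = 1` all are equalities, so `x` contradicts
    `hns`.  Hence `D(t) ≤ 0`.
    `l ≥ 2` (or any `l`): `R := resultant t t' l (l-1) ≠ 0` because `t` is separable (characteristic
    `0`: `Irreducible.separable`, `resultant_ne_zero`; natDegree of `t'` is `l - 1`).
    `ge_resultant` applied to `taylor (U p) t` (the resultant of `taylor u t` and
    `taylor u t'` is that of `t` and `t'`: `resultant_taylor`, `derivative` commutes with `taylor`)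
    gives `v_p(R) ≥ (2l-1) D_p(t) - N p l²`.  Sum over all `p` (finite supports, `pl.prod`):
    `0 ≥ (2l-1) D(t) - l²`, so `D(t) ≤ l²/(2l-1) < (l+1)/2` for `l ≥ 2`
    (`2 l² < (l+1)(2l-1) = 2l² + l - 1`), so `2 D(t) < l + 1`.
(3) Induction over the factorisation of `s` in `K[X]` into irreducibles (units have `D = 0`):
    `2 D(s) ≤ deg s` (`WfDvdMonoid.induction_on_irreducible` or strong induction on the degree).
(4) `∑ a j ≤ D(s)`: `a j ≤ gval (e j)` by `le_gval_iff` and `0 ≤ gval p` elsewhere.
-/

set_option autoImplicit false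

namespace Pool.Agent.H92.RP

open Polynomial

variable {k K : Type} [Field k] [Field K] [Algebra k K]

/-- the sum of the weighted Gauss values in the frames `U` with the weights `N` -/
noncomputable def DT (pl : Places k K) (U : pl.ι → K) (N : pl.ι → ℤ) (t : K[X]) : ℤ :=
  ∑ᶠ p, gval pl p (N p) (taylor (U p) t)

section DT

variable {pl : Places k K} {U : pl.ι → K} {N : pl.ι → ℤ}

theorem DT_fin (hS : {p | U p ≠ 0 ∨ N p ≠ 0}.Finite) {t : K[X]} (ht : t ≠ 0) :
    (Function.support fun p => gval pl p (N p) (taylor (U p) t)).Finite := by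
  classical
  have hF : (⋃ i ∈ t.support, {p | pl.v p (t.coeff i) ≠ 0}).Finite := by
    refine Set.Finite.biUnion (Finset.finite_toSet _) ?_
    intro i hi
    exact pl.fin _ (mem_support_iff.1 hi)
  refine (hS.union hF).subset ?_
  intro p hp
  by_contra hcon
  rw [Set.mem_union, not_or] at hcon
  obtain ⟨h1, h2⟩ := hcon
  simp only [Set.mem_ofPred_eq, not_or, not_not] at h1
  apply hp
  show gval pl p (N p) (taylor (U p) t) = 0
  rw [h1.1, h1.2, taylor_zero]
  obtain ⟨i, hi, he⟩ := exists_eq_gval pl p 0 t ht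
  rw [← he, zero_mul, add_zero]
  by_contra hv
  exact h2 (Set.mem_biUnion (mem_support_iff.2 hi) hv)

theorem DT_mul (hS : {p | U p ≠ 0 ∨ N p ≠ 0}.Finite) {s t : K[X]} (hs : s ≠ 0) (ht : t ≠ 0) :
    DT pl U N (s * t) = DT pl U N s + DT pl U N t := by
  unfold DT
  rw [← finsum_add_distrib (DT_fin hS hs) (DT_fin hS ht)]
  refine finsum_congr fun p => ?_
  rw [taylor_mul, gval_mul _ _ _ _ _ (fun h => hs ((taylor_eq_zero _ _).1 h))
    (fun h => ht ((taylor_eq_zero _ _).1 h))]

theorem DT_C {a : K} (ha : a ≠ 0) : DT pl U N (C a) = 0 := by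
  unfold DT
  rw [← pl.prod a ha]
  refine finsum_congr fun p => ?_
  rw [taylor_C, gval_C _ _ _ _ ha]

theorem DT_X_sub_C (hS : {p | U p ≠ 0 ∨ N p ≠ 0}.Finite) (hN : ∑ᶠ p, N p = 1)
    (hns : ¬ ∃ x : K, ∀ p, pl.ge p (N p) (x - U p)) (x : K) :
    DT pl U N (X - C x) ≤ 0 := by
  have hne : (X - C x : K[X]) ≠ 0 := X_sub_C_ne_zero x
  have hkey : ∀ p, gval pl p (N p) (taylor (U p) (X - C x)) ≤ N p ∧
      pl.ge p (gval pl p (N p) (taylor (U p) (X - C x))) (x - U p) := by
    intro p
    have hne' : taylor (U p) (X - C x) ≠ 0 := fun h => hne ((taylor_eq_zero _ _).1 h)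
    have h := (le_gval_iff pl p (N p) _ _ hne').1 le_rfl
    have e : taylor (U p) (X - C x) = X + C (U p - x) := by
      rw [map_sub, taylor_X, taylor_C, C_sub]
      ring
    constructor
    · have h1 := h 1
      have e1 : (taylor (U p) (X - C x)).coeff 1 = 1 := by
        rw [e, coeff_add, coeff_X_one, coeff_C_succ, add_zero]
      rw [e1] at h1
      have h2 := h1 one_ne_zero
      rw [Places.v_one] at h2
      push_cast at h2
      linarith
    · have h0 := h 0
      have e0 : (taylor (U p) (X - C x)).coeff 0 = U p - x := by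
        rw [e, coeff_add, coeff_X_zero, coeff_C_zero, zero_add]
      rw [e0] at h0
      have h3 := h0.neg
      rw [neg_sub] at h3
      refine h3.mono ?_
      push_cast
      linarith
  have hNf : (Function.support N).Finite := hS.subset fun p hp => Or.inr hp
  by_contra hlt
  apply hns
  refine ⟨x, fun p => ?_⟩
  have hle : N p - gval pl p (N p) (taylor (U p) (X - C x)) ≤
      ∑ᶠ q, (N q - gval pl q (N q) (taylor (U q) (X - C x))) := by
    refine single_le_finsum p (f := fun q => N q - gval pl q (N q) (taylor (U q) (X - C x)))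
      ?_ ?_
    · refine (hNf.union (DT_fin hS hne)).subset ?_
      intro q hq
      by_contra hcon
      rw [Set.mem_union, not_or, Function.notMem_support, Function.notMem_support] at hcon
      apply hq
      show N q - gval pl q (N q) (taylor (U q) (X - C x)) = 0
      rw [hcon.2, hcon.1]
      rfl
    · intro q
      linarith [(hkey q).1]
  rw [finsum_sub_distrib hNf (DT_fin hS hne), hN] at hle
  change _ ≤ 1 - DT pl U N (X - C x) at hle
  have := (hkey p).1
  refine (hkey p).2.mono ?_
  omega

theorem DT_irreducible [CharZero K] (hS : {p | U p ≠ 0 ∨ N p ≠ 0}.Finite)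
    (hN : ∑ᶠ p, N p = 1) (hns : ¬ ∃ x : K, ∀ p, pl.ge p (N p) (x - U p)) {t : K[X]}
    (ht : Irreducible t) : 2 * DT pl U N t ≤ (t.natDegree : ℤ) := by
  have ht0 : t ≠ 0 := ht.ne_zero
  have hpos : 0 < t.natDegree := Irreducible.natDegree_pos ht
  obtain ⟨l, hl⟩ : ∃ l, t.natDegree = l := ⟨_, rfl⟩
  rw [hl] at hpos ⊢
  rcases Nat.lt_or_ge 1 l with h2 | h2
  · have hd : (derivative t).natDegree = l - 1 := by rw [natDegree_derivative, hl]
    have hR : resultant t (derivative t) l (l - 1) ≠ 0 := by
      have h := resultant_ne_zero t (derivative t) ht.separable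
      rwa [hl, hd] at h
    obtain ⟨R, hRe⟩ : ∃ R, resultant t (derivative t) l (l - 1) = R := ⟨_, rfl⟩
    rw [hRe] at hR
    have hkey : ∀ p, (2 * l - 1) * gval pl p (N p) (taylor (U p) t) - N p * l ^ 2 ≤ pl.v p R := by
      intro p
      have hne' : taylor (U p) t ≠ 0 := fun h => ht0 ((taylor_eq_zero _ _).1 h)
      have h := (le_gval_iff pl p (N p) _ _ hne').1 le_rfl
      have hlT : (taylor (U p) t).natDegree = l := by rw [natDegree_taylor, hl]
      have h3 := ge_resultant pl p (N p) _ (taylor (U p) t) l hlT hpos h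
      have e : resultant (taylor (U p) t) (derivative (taylor (U p) t)) l (l - 1) = R := by
        have h4 := resultant_taylor t (derivative t) (U p)
        rw [natDegree_taylor, natDegree_taylor, hl, hd, hRe] at h4
        have h5 : derivative (taylor (U p) t) = taylor (U p) (derivative t) := by
          rw [taylor_apply, taylor_apply, derivative_comp, derivative_add, derivative_X,
            derivative_C, add_zero, one_mul]
        rw [h5, h4]
      rw [e] at h3
      exact h3 hR
    have hNf : (Function.support N).Finite := hS.subset fun p hp => Or.inr hp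
    have hf1 : (Function.support fun p =>
        (2 * (l : ℤ) - 1) * gval pl p (N p) (taylor (U p) t)).Finite :=
      (DT_fin hS ht0).subset (Function.support_mul_subset_right _ _)
    have hf2 : (Function.support fun p => N p * (l : ℤ) ^ 2).Finite :=
      hNf.subset (Function.support_mul_subset_left _ _)
    have hsum : ∑ᶠ p, ((2 * (l : ℤ) - 1) * gval pl p (N p) (taylor (U p) t) - N p * l ^ 2) ≤
        ∑ᶠ p, pl.v p R := by
      refine finsum_le_finsum' ?_ (pl.fin R hR) hkey
      refine (hf1.union hf2).subset ?_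
      exact Function.support_sub _ _
    rw [pl.prod R hR, finsum_sub_distrib hf1 hf2, ← mul_finsum, ← finsum_mul, hN, one_mul] at hsum
    change (2 * (l : ℤ) - 1) * DT pl U N t - (l : ℤ) ^ 2 ≤ 0 at hsum
    have hl2 : (2 : ℤ) ≤ l := by exact_mod_cast h2
    by_contra hcon
    push Not at hcon
    have h6 : (l : ℤ) + 1 ≤ 2 * DT pl U N t := hcon
    nlinarith
  · have hl1 : l = 1 := by omega
    subst hl1
    obtain ⟨a, b, hab⟩ := exists_eq_X_add_C_of_natDegree_le_one (le_of_eq hl)
    have ha : a ≠ 0 := by
      rintro rfl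
      rw [C_0, zero_mul, zero_add] at hab
      rw [hab, natDegree_C] at hl
      exact zero_ne_one hl
    have e : t = C a * (X - C (-b / a)) := by
      rw [mul_sub, ← C_mul, mul_div_cancel₀ _ ha, C_neg, sub_neg_eq_add]
      exact hab
    rw [e, DT_mul hS (C_ne_zero.2 ha) (X_sub_C_ne_zero _), DT_C ha, zero_add]
    have := DT_X_sub_C hS hN hns (-b / a)
    push_cast
    linarith

theorem DT_le [CharZero K] (hS : {p | U p ≠ 0 ∨ N p ≠ 0}.Finite)
    (hN : ∑ᶠ p, N p = 1) (hns : ¬ ∃ x : K, ∀ p, pl.ge p (N p) (x - U p)) (t : K[X])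
    (ht : t ≠ 0) : 2 * DT pl U N t ≤ (t.natDegree : ℤ) := by
  induction t using WfDvdMonoid.induction_on_irreducible with
  | zero => exact absurd rfl ht
  | unit u hu =>
    obtain ⟨a, ha, rfl⟩ := Polynomial.isUnit_iff.1 hu
    rw [DT_C ha.ne_zero]
    simp
  | mul a i ha hi ih =>
    rw [DT_mul hS hi.ne_zero ha, natDegree_mul hi.ne_zero ha]
    have h1 := DT_irreducible hS hN hns hi
    have h2 := ih ha
    push_cast
    linarith

end DT

theorem T1 [CharZero K] (pl : Places k K) {J : Type} [Fintype J] (e : J → pl.ι)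
    (he : Function.Injective e) (u : J → K) (n a : J → ℤ) (hn : ∑ j, n j = 1)
    (hns : ¬ ∃ x : K, (∀ j, pl.ge (e j) (n j) (x - u j)) ∧ ∀ p, p ∉ Set.range e → pl.ge p 0 x)
    (s : K[X]) (hs : s ≠ 0)
    (h1 : ∀ (j : J) (i : ℕ), pl.ge (e j) (a j - n j * i) ((taylor (u j) s).coeff i))
    (h2 : ∀ p, p ∉ Set.range e → ∀ i : ℕ, pl.ge p 0 (s.coeff i)) :
    2 * ∑ j, a j ≤ (s.natDegree : ℤ) := by
  classical
  have hext : ∀ {M : Type} [AddCommMonoid M] (f : J → M),
      Function.support (Function.extend e f 0) ⊆ Set.range e := by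
    intro M _ f p hp
    by_contra hcon
    apply hp
    rw [Function.extend_apply' _ _ _ hcon]
    rfl
  have hsumext : ∀ f : J → ℤ, ∑ᶠ p, Function.extend e f 0 p = ∑ j, f j := by
    intro f
    rw [finsum_eq_sum_of_support_subset (s := Finset.univ.map ⟨e, he⟩), Finset.sum_map]
    · refine Finset.sum_congr rfl fun j _ => ?_
      exact he.extend_apply f 0 j
    · refine (hext f).trans ?_
      rintro p ⟨j, rfl⟩
      rw [Finset.mem_coe, Finset.mem_map]
      exact ⟨j, Finset.mem_univ _, rfl⟩
  have hS : {p | Function.extend e u 0 p ≠ 0 ∨ Function.extend e n 0 p ≠ 0}.Finite := by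
    refine (Set.finite_range e).subset ?_
    rintro p (hp | hp)
    · exact hext u hp
    · exact hext n hp
  have hN : ∑ᶠ p, Function.extend e n 0 p = 1 := by rw [hsumext, hn]
  have hns' : ¬ ∃ x : K, ∀ p, pl.ge p (Function.extend e n 0 p) (x - Function.extend e u 0 p) := by
    rintro ⟨x, hx⟩
    apply hns
    refine ⟨x, fun j => ?_, fun p hp => ?_⟩
    · have h := hx (e j)
      rwa [he.extend_apply, he.extend_apply] at h
    · have h := hx p
      rw [Function.extend_apply' _ _ _ hp, Function.extend_apply' _ _ _ hp] at h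
      simpa using h
  have hfin := DT_le hS hN hns' s hs
  refine le_trans ?_ hfin
  refine mul_le_mul_of_nonneg_left ?_ (by norm_num)
  rw [← hsumext a]
  refine finsum_le_finsum' ?_ (DT_fin hS hs) ?_
  · exact (Set.finite_range e).subset (hext a)
  · intro p
    have hne' : taylor (Function.extend e u 0 p) s ≠ 0 := fun h => hs ((taylor_eq_zero _ _).1 h)
    show Function.extend e a 0 p ≤ gval pl p (Function.extend e n 0 p)
      (taylor (Function.extend e u 0 p) s)
    rw [le_gval_iff pl p _ _ _ hne']
    intro i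
    by_cases hp : p ∈ Set.range e
    · obtain ⟨j, rfl⟩ := hp
      rw [he.extend_apply, he.extend_apply, he.extend_apply]
      exact h1 j i
    · rw [Function.extend_apply' _ _ _ hp, Function.extend_apply' _ _ _ hp,
        Function.extend_apply' _ _ _ hp]
      have h := h2 p hp i
      simpa using h

end Pool.Agent.H92.RP
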