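import Mathlib
import Pool.Agent.H92.RP.Lfp

set_option autoImplicit false

/-!
# RP-D1: the symbol of a family of curves along `C`

`G = ∑ G_i t^i`, `C` prime.  `j` is the minimum of `i + ord_C (G_i)`.

PROOF of `exists_symbol`.  For a nonzero polynomial `g` let `o(g)` be the largest `e` with
`C^e ∣ g` (finite: total degree; `C` is not a unit); `multiplicity`/`emultiplicity C g`
(`FiniteMultiplicity`: e.g. because the total degree of `C^e` is at least `e`).  Let `j` be the
minimum over the `i` with `G_i ≠ 0` of `i + o(G_i)` (the set is nonempty as `G ≠ 0`;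
`Nat.find` or `sInf`).  For `i ≤ j`, `C^(j-i) ∣ G_i` (trivially if `G_i = 0`); let `H i` be the
quotient.  If `i₀` attains the minimum then `i₀ ≤ j` and `o(G_{i₀}) = j - i₀`, so `C ∤ H i₀`.
`symb_coeff`: the coefficient of `w^(j-i)` (`i ≤ j`) is `φ (H i)`.
`symb_ne_zero`: by `symb_coeff` and `hφ` (kernel of `φ` is `(C)`).
`H_deg`: `totalDegree_mul_of_isDomain` and `C^(j-i) * H i = G_i`; `C` has total degree exactly
`n` (`hC`, `hn`).
-/

namespace Pool.Agent.H92.RP

open Pool.Agent.H13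

variable {k : Type} [Field k]

theorem exists_symbol (C : MvPolynomial (Fin 2) k) (hC : Prime C)
    (G : Polynomial (MvPolynomial (Fin 2) k)) (hG : G ≠ 0) :
    ∃ (j : ℕ) (H : ℕ → MvPolynomial (Fin 2) k),
      (∀ i, i ≤ j → G.coeff i = C ^ (j - i) * H i) ∧ ∃ i, i ≤ j ∧ ¬ C ∣ H i := by
  classical
  have hex : ∃ m : ℕ, ¬ ∀ i, i ≤ m → C ^ (m - i) ∣ G.coeff i := by
    obtain ⟨i0, hi0⟩ : ∃ i0, G.coeff i0 ≠ 0 := by
      by_contra h
      push Not at h
      exact hG (Polynomial.ext fun i => by rw [h i, Polynomial.coeff_zero])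
    obtain ⟨e, he⟩ := FiniteMultiplicity.of_not_isUnit hC.not_unit hi0
    refine ⟨i0 + (e + 1), fun h => he ?_⟩
    have := h i0 (by omega)
    rwa [Nat.add_sub_cancel_left] at this
  have hpos : Nat.find hex ≠ 0 := by
    intro h0
    apply Nat.find_spec hex
    intro i hi
    rw [h0, Nat.zero_sub, pow_zero]
    exact one_dvd _
  obtain ⟨j, hj⟩ := Nat.exists_eq_succ_of_ne_zero hpos
  have hQ : ∀ i, i ≤ j → C ^ (j - i) ∣ G.coeff i := by
    have := Nat.find_min hex (m := j) (by omega)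
    exact not_not.1 this
  have hnQ := Nat.find_spec hex
  rw [hj] at hnQ
  push Not at hnQ
  choose! H hH using hQ
  refine ⟨j, H, hH, ?_⟩
  obtain ⟨i, hi, hnd⟩ := hnQ
  have hij : i ≤ j := by
    by_contra hlt
    apply hnd
    have : j.succ - i = 0 := by omega
    rw [this, pow_zero]
    exact one_dvd _
  refine ⟨i, hij, fun hd => hnd ?_⟩
  obtain ⟨Q, hQ⟩ := hd
  refine ⟨Q, ?_⟩
  rw [hH i hij, hQ]
  have : j.succ - i = (j - i) + 1 := by omega
  rw [this, pow_succ]
  ring

variable {K : Type} [Field K] (φ : MvPolynomial (Fin 2) k →+* K) (j : ℕ)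
  (H : ℕ → MvPolynomial (Fin 2) k)

theorem symb_coeff (i : ℕ) (hi : i ≤ j) : (symb φ j H).coeff (j - i) = φ (H i) := by
  unfold symb
  rw [Polynomial.finsetSum_coeff, Finset.sum_eq_single_of_mem i (Finset.mem_range.2 (by omega))]
  · rw [Polynomial.coeff_monomial, if_pos rfl]
  · intro l hl hne
    rw [Finset.mem_range] at hl
    rw [Polynomial.coeff_monomial, if_neg (by omega)]

theorem symb_coeff_gt (i : ℕ) (hi : j < i) : (symb φ j H).coeff i = 0 := by
  unfold symb
  rw [Polynomial.finsetSum_coeff]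
  refine Finset.sum_eq_zero fun l _ => ?_
  rw [Polynomial.coeff_monomial, if_neg (by omega)]

theorem symb_natDegree : (symb φ j H).natDegree ≤ j := by
  rw [Polynomial.natDegree_le_iff_coeff_eq_zero]
  intro i hi
  exact symb_coeff_gt φ j H i hi

theorem symb_ne_zero (C : MvPolynomial (Fin 2) k) (hφ : ∀ P, φ P = 0 ↔ C ∣ P)
    (h : ∃ i, i ≤ j ∧ ¬ C ∣ H i) : symb φ j H ≠ 0 := by
  obtain ⟨i, hi, hnd⟩ := h
  intro h0
  apply hnd
  rw [← hφ, ← symb_coeff φ j H i hi, h0, Polynomial.coeff_zero]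

theorem H_deg (C : MvPolynomial (Fin 2) k) (n d : ℕ) (hC : C.totalDegree = n) (hC0 : C ≠ 0)
    (g : MvPolynomial (Fin 2) k) (hg : g ∈ Vd k d) (i : ℕ) (H : MvPolynomial (Fin 2) k)
    (hH : g = C ^ i * H) (hH0 : H ≠ 0) : n * i ≤ d ∧ H ∈ Vd k (d - n * i) := by
  have hpow : ∀ m : ℕ, (C ^ m).totalDegree = n * m := by
    intro m
    induction m with
    | zero => simp
    | succ m ih =>
      rw [pow_succ, MvPolynomial.totalDegree_mul_of_isDomain (pow_ne_zero _ hC0) hC0, ih, hC]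
      ring
  rw [mem_Vd, hH, MvPolynomial.totalDegree_mul_of_isDomain (pow_ne_zero _ hC0) hH0, hpow] at hg
  rw [mem_Vd]
  omega

end Pool.Agent.H92.RP
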