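import Mathlib
import Pool.Agent.H92.RP.Symb
import Pool.Agent.H92.RP.Hensel
import Pool.Agent.H92.RP.Lift

set_option autoImplicit false

/-!
# RP-D2: the local condition on the symbol at a branch through a (moving) multiple point

Let `σ : K → k((s))` be a branch `x = P 0 + s`, `y = b` with `b ∈ k[[s]]`, `b(0) = P 1`
(`b = ofPowerSeries β`), and let `G ∈ Imov P w m`: the curves `G(·, t) = 0` pass with multiplicity
`m` through the moving point `P + t w`.  Then all coefficients (in `ω`) of
`σ(symbol)(u + g ω)`, `u = φ(dw w C)`, `g = φ((X - P 0) C_Y)`, are divisible by `s^m`.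

PROOF.  Let `A = k[[s]][ω]` (`Polynomial (PowerSeries k)`) and
`θ : k[X,Y][t] → A[t]` the ring homomorphism which is the identity on constants, `t ↦ t`,
`X ↦ P 0 + s + w_0 t`, `Y ↦ β + (w_1 + s ω) t`
(`Polynomial.eval₂RingHom` of `MvPolynomial.eval₂Hom …` and `X`).
(a) `θ (X - P 0 - w_0 t) = s` and `θ (Y - P 1 - w_1 t) = (β - P 1) + s ω t`, and `β - P 1` is
    divisible by `s`.  So both generators of the ideal go to multiples of `s`, and
    `θ G = s^m G'` for some `G' ∈ A[t]`.
(b) For `F ∈ k[X,Y]` one has `θ F ≡ F(P 0 + s, β) + t (w_0 F_X + (w_1 + s ω) F_Y)(P 0 + s, β)`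
    modulo `t²` (check for `X`, `Y`, constants, sums and products; or use that
    `F ↦ (coefficients of t^0, t^1)` is a ring homomorphism to the dual numbers).  For `F = C` the
    constant term is `σ(φ C) = 0`, so `θ C = t (U + g' ω) + O(t²)` where (in `k((s))`)
    `U = σ(φ(dw w C))`, `g' = s σ(φ C_Y) = σ(φ((X - P 0) C_Y))`.
(c) `G = ∑_{i ≤ j} C^(j-i) (H i) t^i + t^(j+1) (…)`, so the coefficient of `t^j` in `θ G` is
    `∑_{i ≤ j} (U + g' ω)^(j-i) σ(φ(H i)) = (symb φ j H mapped by σ)(U + g' ω)`, a polynomial in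
    `ω` whose coefficient of `ω^c` is `σ( (taylor u (symb)).coeff c ) g'^c`
    (`Polynomial.taylor`, `Polynomial.comp`/`hasseDeriv`; `p(u + g ω)` is
    `(taylor u p)(g ω)`, `taylor_eval`, and the coefficient of `ω^c` in `q(g ω)` is `q_c g^c`).
(d) By (a) it is divisible by `s^m` in `k[[s]]`, i.e. `lge m` (compare in `LaurentSeries k`, in which
    `k[[s]]` embeds: `HahnSeries.ofPowerSeries_injective`).
To keep the two fields apart it may be easier to do everything over `L = LaurentSeries k`:
`θ : k[X,Y][t] → L[ω][t]`, with the observation that its image is contained in the polynomials with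
coefficients in `lge 0`.
-/

namespace Pool.Agent.H92.RP.Th

open Pool.Agent.H13

section theta

variable {k : Type} [Field k]

/-- The substitution `X ↦ a0 + a1 t`, `Y ↦ b0 + b1 t` into `A[t]`, with `k → A`. -/
noncomputable def thF {A : Type} [CommRing A] (ι : k →+* A) (a0 a1 b0 b1 : A) :
    MvPolynomial (Fin 2) k →+* Polynomial A :=
  MvPolynomial.eval₂Hom (Polynomial.C.comp ι)
    ![Polynomial.C a0 + Polynomial.C a1 * Polynomial.X,
      Polynomial.C b0 + Polynomial.C b1 * Polynomial.X]

theorem thF_coeff {A : Type} [CommRing A] (ι : k →+* A) (a0 a1 b0 b1 : A)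
    (F : MvPolynomial (Fin 2) k) :
    (thF ι a0 a1 b0 b1 F).coeff 0 = MvPolynomial.eval₂Hom ι ![a0, b0] F ∧
    (thF ι a0 a1 b0 b1 F).coeff 1 =
      MvPolynomial.eval₂Hom ι ![a0, b0] (MvPolynomial.pderiv 0 F) * a1 +
        MvPolynomial.eval₂Hom ι ![a0, b0] (MvPolynomial.pderiv 1 F) * b1 := by
  induction F using MvPolynomial.induction_on with
  | C a =>
    simp [thF, Polynomial.coeff_C]
  | add p q hp hq =>
    obtain ⟨hp0, hp1⟩ := hp
    obtain ⟨hq0, hq1⟩ := hq
    constructor
    · rw [map_add, Polynomial.coeff_add, hp0, hq0, map_add]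
    · rw [map_add, Polynomial.coeff_add, hp1, hq1]
      simp only [map_add]
      ring
  | mul_X p i hp =>
    obtain ⟨hp0, hp1⟩ := hp
    have hX : thF ι a0 a1 b0 b1 (MvPolynomial.X i) =
        ![Polynomial.C a0 + Polynomial.C a1 * Polynomial.X,
          Polynomial.C b0 + Polynomial.C b1 * Polynomial.X] i := by
      simp [thF]
    constructor
    · rw [map_mul, Polynomial.mul_coeff_zero, hp0, hX, map_mul]
      congr 1
      fin_cases i <;> simp
    · rw [map_mul, Polynomial.mul_coeff_one, hp0, hp1, hX]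
      fin_cases i
      · simp [Polynomial.coeff_X, MvPolynomial.pderiv_X, Derivation.leibniz]
        ring
      · simp [Polynomial.coeff_X, MvPolynomial.pderiv_X, Derivation.leibniz]
        ring

/-- The coefficient of `t^j` of the image of a family. -/
theorem coeff_family {A : Type} [CommRing A] (T : MvPolynomial (Fin 2) k →+* Polynomial A)
    (C : MvPolynomial (Fin 2) k) (hC : (T C).coeff 0 = 0)
    (G : Polynomial (MvPolynomial (Fin 2) k)) (j : ℕ) (H : ℕ → MvPolynomial (Fin 2) k)
    (hH : ∀ i, i ≤ j → G.coeff i = C ^ (j - i) * H i) :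
    (Polynomial.eval₂RingHom T Polynomial.X G).coeff j =
      ∑ i ∈ Finset.range (j + 1), (T C).coeff 1 ^ (j - i) * (T (H i)).coeff 0 := by
  rw [Polynomial.coe_eval₂RingHom,
    Polynomial.eval₂_eq_sum_range' T (n := G.natDegree + (j + 1)) (by omega),
    Polynomial.finsetSum_coeff]
  simp only [Polynomial.coeff_mul_X_pow']
  have hsub : Finset.range (j + 1) ⊆ Finset.range (G.natDegree + (j + 1)) :=
    Finset.range_subset_range.2 (by omega)
  rw [← Finset.sum_subset hsub (by
    intro i _ hi
    rw [Finset.mem_range] at hi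
    rw [if_neg (by omega)])]
  apply Finset.sum_congr rfl
  intro i hi
  rw [Finset.mem_range] at hi
  rw [if_pos (by omega), hH i (by omega)]
  obtain ⟨Q, hQ⟩ : (Polynomial.X : Polynomial A) ∣ T C := Polynomial.X_dvd_iff.2 hC
  have h1 : (T C).coeff 1 = Q.coeff 0 := by
    rw [hQ, Polynomial.coeff_X_mul]
  rw [h1, map_mul, map_pow, hQ, mul_pow, mul_assoc, mul_comm (Polynomial.X ^ (j - i)),
    Polynomial.coeff_mul_X_pow', if_pos le_rfl, Nat.sub_self, Polynomial.mul_coeff_zero,
    Polynomial.coeff_zero_eq_eval_zero (Q ^ (j - i)), Polynomial.eval_pow,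
    ← Polynomial.coeff_zero_eq_eval_zero]

theorem comp_coeff {K : Type} [CommRing K] (u g : K) (p : Polynomial K) (c : ℕ) :
    (p.comp (Polynomial.C u + Polynomial.C g * Polynomial.X)).coeff c =
      (Polynomial.taylor u p).coeff c * g ^ c := by
  have h : p.comp (Polynomial.C u + Polynomial.C g * Polynomial.X) =
      (Polynomial.taylor u p).comp (Polynomial.C g * Polynomial.X) := by
    rw [Polynomial.taylor_apply, Polynomial.comp_assoc]
    congr 1
    simp [add_comm]
  rw [h, Polynomial.comp_C_mul_X_coeff]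

theorem Imov_image {A : Type} [CommRing A] (T : MvPolynomial (Fin 2) k →+* Polynomial A)
    (P w : Fin 2 → k) (s : Polynomial A)
    (h0 : s ∣ T (MvPolynomial.X 0 - MvPolynomial.C (P 0)) -
      T (MvPolynomial.C (w 0)) * Polynomial.X)
    (h1 : s ∣ T (MvPolynomial.X 1 - MvPolynomial.C (P 1)) -
      T (MvPolynomial.C (w 1)) * Polynomial.X) (m : ℕ)
    (G : Polynomial (MvPolynomial (Fin 2) k)) (hG : G ∈ Imov P w m) :
    s ^ m ∣ Polynomial.eval₂RingHom T Polynomial.X G := by
  have h2 : Ideal.map (Polynomial.eval₂RingHom T Polynomial.X) (Imov P w m) ≤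
      Ideal.span {s ^ m} := by
    rw [Imov, Ideal.map_pow, Ideal.map_span, ← Ideal.span_singleton_pow]
    apply Ideal.pow_right_mono
    rw [Ideal.span_le]
    rintro _ ⟨x, hx, rfl⟩
    rw [SetLike.mem_coe, Ideal.mem_span_singleton]
    rcases hx with rfl | rfl
    · simpa [Polynomial.eval₂_sub, Polynomial.eval₂_mul] using h0
    · simpa [Polynomial.eval₂_sub, Polynomial.eval₂_mul] using h1
  rw [← Ideal.mem_span_singleton]
  exact h2 (Ideal.mem_map_of_mem _ hG)

theorem map_eval₂Hom {R S : Type} [CommRing R] [CommRing S] (f : R →+* S) (ι : k →+* R)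
    (a b : R) (F : MvPolynomial (Fin 2) k) :
    f (MvPolynomial.eval₂Hom ι ![a, b] F) = MvPolynomial.eval₂Hom (f.comp ι) ![f a, f b] F := by
  have : f.comp (MvPolynomial.eval₂Hom ι ![a, b]) =
      MvPolynomial.eval₂Hom (f.comp ι) ![f a, f b] := by
    apply MvPolynomial.ringHom_ext
    · intro r; simp
    · intro i; fin_cases i <;> simp
  exact congrArg (fun g => g F) this

theorem lge_pow_mul (m : ℕ) (a : PowerSeries k) (h : PowerSeries.X ^ m ∣ a) :
    lge (m : ℤ) (HahnSeries.ofPowerSeries ℤ k a) := by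
  intro i hi
  rcases lt_or_ge i 0 with h0 | h0
  · exact HahnSeries.embDomain_of_notMem_range (by
      rintro ⟨n, hn⟩
      simp at hn
      omega)
  · obtain ⟨n, rfl⟩ := Int.eq_ofNat_of_zero_le h0
    rw [HahnSeries.ofPowerSeries_apply_coeff]
    exact PowerSeries.X_pow_dvd_iff.1 h n (by exact_mod_cast hi)

end theta

end Pool.Agent.H92.RP.Th

namespace Pool.Agent.H92.RP

open Pool.Agent.H13 Th


variable {k K : Type} [Field k] [Field K] [Algebra k K]

theorem branch_cond {C : MvPolynomial (Fin 2) k} (φ : MvPolynomial (Fin 2) k →ₐ[k] K)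
    (hφ : φ C = 0) (P w : Fin 2 → k) (σ : K →+* LaurentSeries k) (β : PowerSeries k)
    (hβ : PowerSeries.constantCoeff β = P 1)
    (hσ : ∀ G, σ (φ G) =
      lev (HahnSeries.C (P 0) + ss k) (HahnSeries.ofPowerSeries ℤ k β) G)
    (G : Polynomial (MvPolynomial (Fin 2) k)) (m : ℕ) (hG : G ∈ Imov P w m) (j : ℕ)
    (H : ℕ → MvPolynomial (Fin 2) k) (hH : ∀ i, i ≤ j → G.coeff i = C ^ (j - i) * H i) (c : ℕ) :
    lge (m : ℤ) (σ ((Polynomial.taylor (φ (dw w C)) (symb (φ : MvPolynomial (Fin 2) k →+* K) j H)).coeff c *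
      (φ ((MvPolynomial.X 0 - MvPolynomial.C (P 0)) * MvPolynomial.pderiv 1 C)) ^ c)) := by
  classical
  set f := HahnSeries.ofPowerSeries ℤ k with hf
  let a : PowerSeries k := PowerSeries.C (P 0) + PowerSeries.X
  -- evaluation in the power series
  let ev : MvPolynomial (Fin 2) k →+* PowerSeries k :=
    MvPolynomial.eval₂Hom (PowerSeries.C) ![a, β]
  have hev : ∀ F, f (ev F) = σ (φ F) := by
    intro F
    rw [hσ, map_eval₂Hom]
    unfold lev
    congr 2
    · ext r
      simp [hf]
    · congr 1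
      simp [a, hf]
  have hevC : ev C = 0 := by
    apply HahnSeries.ofPowerSeries_injective (Γ := ℤ) (R := k)
    change f (ev C) = f 0
    rw [hev, hφ, map_zero, map_zero]
  -- the substitution
  let ι : k →+* Polynomial (PowerSeries k) := Polynomial.C.comp PowerSeries.C
  let a0 : Polynomial (PowerSeries k) := Polynomial.C a
  let a1 : Polynomial (PowerSeries k) := Polynomial.C (PowerSeries.C (w 0))
  let b0 : Polynomial (PowerSeries k) := Polynomial.C β
  let b1 : Polynomial (PowerSeries k) := Polynomial.C (PowerSeries.C (w 1)) +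
    Polynomial.C PowerSeries.X * Polynomial.X
  let T := thF ι a0 a1 b0 b1
  have hT0 : ∀ F, (T F).coeff 0 = Polynomial.C (ev F) := by
    intro F
    rw [(thF_coeff ι a0 a1 b0 b1 F).1, map_eval₂Hom]
  have hT1 : (T C).coeff 1 = Polynomial.C (ev (dw w C)) +
      Polynomial.C (ev ((MvPolynomial.X 0 - MvPolynomial.C (P 0)) * MvPolynomial.pderiv 1 C)) *
        Polynomial.X := by
    have e0 : ∀ F, MvPolynomial.eval₂Hom ι ![a0, b0] F = Polynomial.C (ev F) := by
      intro F
      rw [map_eval₂Hom]
    have e1 : ev (MvPolynomial.X 0) = a := by simp [ev]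
    have e2 : ∀ r, ev (MvPolynomial.C r) = PowerSeries.C r := by intro r; simp [ev]
    rw [(thF_coeff ι a0 a1 b0 b1 C).2, e0, e0, dw, map_add, map_mul, map_mul, map_mul, map_sub,
      e1, e2, e2, e2]
    simp only [a1, b1, a, map_add, map_mul, map_sub]
    ring
  have hdvd : (Polynomial.C (Polynomial.C (PowerSeries.X : PowerSeries k))) ^ m ∣
      Polynomial.eval₂RingHom T Polynomial.X G := by
    have hT : ∀ i, T (MvPolynomial.X i) = ![Polynomial.C a0 + Polynomial.C a1 * Polynomial.X,
          Polynomial.C b0 + Polynomial.C b1 * Polynomial.X] i := by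
      intro i; simp [T, thF]
    have hTC : ∀ r, T (MvPolynomial.C r) = Polynomial.C (ι r) := by
      intro r; simp [T, thF]
    apply Imov_image T P w _ _ _ m G hG
    · refine ⟨1, ?_⟩
      rw [map_sub, hT, hTC, hTC]
      simp only [a0, a1, a, ι, Matrix.cons_val_zero, RingHom.comp_apply, map_add]
      ring
    · obtain ⟨β', hβ'⟩ : PowerSeries.X ∣ β - PowerSeries.C (P 1) := by
        rw [PowerSeries.X_dvd_iff, map_sub, hβ]
        simp
      have hβ2 : β = PowerSeries.C (P 1) + PowerSeries.X * β' := by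
        rw [← hβ']; ring
      refine ⟨Polynomial.C (Polynomial.C β') + Polynomial.C Polynomial.X * Polynomial.X, ?_⟩
      rw [map_sub, hT, hTC, hTC]
      change Polynomial.C b0 + Polynomial.C b1 * Polynomial.X - _ - _ = _
      simp only [b0, b1, ι, RingHom.comp_apply, map_add]
      rw [hβ2]
      simp only [map_add, map_mul]
      ring
  -- the coefficient of `t^j`
  have hco := coeff_family T C (by rw [hT0, hevC, map_zero]) G j H hH
  have hco2 : (Polynomial.C (PowerSeries.X : PowerSeries k)) ^ m ∣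
      (Polynomial.eval₂RingHom T Polynomial.X G).coeff j := by
    obtain ⟨Q, hQ⟩ := hdvd
    rw [hQ, ← Polynomial.C_pow, ← Polynomial.C_pow, Polynomial.coeff_C_mul, Polynomial.C_pow]
    exact dvd_mul_right _ _
  rw [hco, hT1] at hco2
  simp only [hT0] at hco2
  -- coefficient of `ω^c`
  have hco3 : (PowerSeries.X : PowerSeries k) ^ m ∣
      (∑ i ∈ Finset.range (j + 1), (Polynomial.C (ev (dw w C)) +
      Polynomial.C (ev ((MvPolynomial.X 0 - MvPolynomial.C (P 0)) * MvPolynomial.pderiv 1 C)) *
        Polynomial.X) ^ (j - i) * Polynomial.C (ev (H i))).coeff c := by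
    obtain ⟨Q, hQ⟩ := hco2
    rw [hQ, ← Polynomial.C_pow, Polynomial.coeff_C_mul]
    exact dvd_mul_right _ _
  have h4 := lge_pow_mul m _ hco3
  rw [← hf] at h4
  -- identify
  have h5 : σ ((Polynomial.taylor (φ (dw w C))
      (symb (φ : MvPolynomial (Fin 2) k →+* K) j H)).coeff c *
      (φ ((MvPolynomial.X 0 - MvPolynomial.C (P 0)) * MvPolynomial.pderiv 1 C)) ^ c) =
      f ((∑ i ∈ Finset.range (j + 1), (Polynomial.C (ev (dw w C)) +
      Polynomial.C (ev ((MvPolynomial.X 0 - MvPolynomial.C (P 0)) * MvPolynomial.pderiv 1 C)) *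
        Polynomial.X) ^ (j - i) * Polynomial.C (ev (H i))).coeff c) := by
    rw [← comp_coeff, ← Polynomial.coeff_map, ← Polynomial.coeff_map]
    congr 1
    rw [Polynomial.map_comp, symb, Polynomial.map_sum, Polynomial.map_sum,
      Polynomial.sum_comp]
    apply Finset.sum_congr rfl
    intro i _
    simp only [Polynomial.map_mul, Polynomial.map_pow, Polynomial.map_add, Polynomial.map_C,
      Polynomial.map_X, Polynomial.map_monomial, Polynomial.monomial_comp, hev]
    rw [mul_comm]
    rfl
  rw [h5]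
  exact h4

end Pool.Agent.H92.RP
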