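import Mathlib
import Pool.Agent.H92.RP.T1
import Pool.Agent.H92.RP.Theta
import Pool.Agent.H92.RP.Nonsplit

set_option autoImplicit false

/-!
# RP-L: the letter theorem

Let `C` be as in `HCurve`, `q` a further point of `C`, smooth with `C_Y(q) ≠ 0`, not on `f`, not
over any `P i 0`.  Let `G = ∑ G_i t^i` be a family of curves of degree `≤ d` with multiplicity
`≥ m i` at `P i` (`i < 8`), `≥ m 8` at the moving point `P 8 + t w` and `≥ mq` at `q`, `G_0 ≠ 0`.
Then `C^j ∣ G_0` for some `j ≥ 2 (M ∑ m i + mq - 3 M d)`.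

PROOF.  `exists_symbol` gives `j`, `H`; in particular `C^j ∣ G_0` (`i = 0`).  Let `K`, `φ` be the
model (`exists_model`, degree `3M`), `B` the branches (`exists_br`), `F` the places (`exists_fpl`
with `τ = B.τ`, `Br.τ_inj`), `e i j` places with `v = order ∘ B.σ i j` (`F.branch`), and for `q` the
branch `κ : K → k((s))`, `X = q 0 + s`, `Y = β`, `β(0) = q 1` (`exists_branch_simple` as
`vres (q 0) C` has the simple root `q 1`, `vres_pderiv1`; `lift_fin`), with place `p_q`.
Apply `T1` to `s = symb φ j H` (nonzero by `symb_ne_zero`, degree `≤ j`), with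
`J = (Fin 9 × Fin M) ⊕ Unit ⊕ Fin (3 M)`:
* frames `u = φ (dw w C)` at the places `e 8 j`, and `0` at all others;
* weights `n = M` at `e i j`, `1` at `p_q`, `- 3M` at `inf j`; `∑ n = 9 M² + 1 - 9 M² = 1`;
* bounds `a = m i` at `e i j`, `mq` at `p_q`, `- d` at `inf j`.
Injectivity of the family of places: `e i j` for different `i`: `v(X - P i 0)` is `1` resp. `0`
(`xinj`); for the same `i` and different `j`: `v(φ(Y - P i 1 - lam i j (X - P i 0)))` is `≥ 2`
(`Br.σ_lge` is not enough; use `lev_lead`/direct: it is `s (η - lam)`) at `e i j` and equal to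
`1` at `e i j'` (`Br.σ_order` with leading polynomial `Z - lam i j`); `p_q ≠ e i j`:
`v(X - q 0)`; places `∉ range inf` by `F.branch`, `F.inf_inj`.
* `h1` at `e i j` (`i ≠ 8`): `branch_cond` with `w = 0` (then `dw 0 C = 0`, `u = 0`), with
  `β = P i 1 + s η i j` (`Br.σ_ev`, as power series), `g = φ((X - P i 0) C_Y)` of order
  `1 + (M - 1) = M` (`σ_CY`), gives `v(coeff_c) + c M ≥ m i`.  At `e 8 j`: the same with `w`.
  At `p_q`: `w = 0`, `g` of order `1 + 0`.
  At `inf j`: `H i ∈ Vd (d - 3 M (j - i))` or `H i = 0` (`H_deg`; total degree of `C` is `3M`), so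
  `v(φ (H i)) ≥ -(d - 3M(j-i))` (`Br.τ_lge`), and `u = 0`.
* `h2`: the coefficients `φ (H i)` are integral over `k[X]` (`phi_integral`, `F.integral`).
* `hns`: if `x` is as there, then `nonsplit` gives a contradiction: `v ≥ n` translates to
  `lge n (σ …)`.
Conclusion `2 (∑_i M m i + mq - 3 M d) ≤ deg s ≤ j`.
-/

namespace Pool.Agent.H92.RP.Let

open Pool.Agent.H13

variable {k : Type} [Field k]

theorem order_ss : (ss k : LaurentSeries k) ≠ 0 ∧ (ss k : LaurentSeries k).order = 1 := by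
  simp

theorem order_C_add_ss (c : k) (h : c ≠ 0) :
    (HahnSeries.C c + ss k : LaurentSeries k) ≠ 0 ∧
      (HahnSeries.C c + ss k : LaurentSeries k).order = 0 := by
  have := order_single_mul (k := k) 0 (PowerSeries.C c + PowerSeries.X) (by simpa using h)
  have h2 : (HahnSeries.single 0 1 * HahnSeries.ofPowerSeries ℤ k
      (PowerSeries.C c + PowerSeries.X) : LaurentSeries k) = HahnSeries.C c + ss k := by
    rw [map_add, HahnSeries.ofPowerSeries_C, HahnSeries.ofPowerSeries_X]
    have : (HahnSeries.single 0 1 : LaurentSeries k) = 1 := rfl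
    rw [this, one_mul]
  rwa [h2] at this

theorem lev_X0 (a b : LaurentSeries k) (c : k) :
    lev a b (MvPolynomial.X 0 - MvPolynomial.C c) = a - HahnSeries.C c := by
  simp [lev]

theorem dw_zero (C : MvPolynomial (Fin 2) k) : dw 0 C = 0 := by
  simp [dw]

theorem order_pow' (a : LaurentSeries k) (ha : a ≠ 0) (n : ℕ) :
    (a ^ n).order = n * a.order := by
  induction n with
  | zero => simp
  | succ n ih =>
    rw [pow_succ, order_mul' _ _ (pow_ne_zero _ ha) ha, ih]
    push_cast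
    ring

theorem gcond {K : Type} [Field K] (σ : K →+* LaurentSeries k) (a g : K) (ha : a ≠ 0)
    (hg : σ g ≠ 0) (N m : ℤ) (hN : (σ g).order = N) (c : ℕ) (h : lge m (σ (a * g ^ c))) :
    m - N * c ≤ (σ a).order := by
  have ha' : σ a ≠ 0 := (map_ne_zero σ).2 ha
  rw [map_mul, map_pow, lge_iff _ _ (mul_ne_zero ha' (pow_ne_zero _ hg)),
    order_mul' _ _ ha' (pow_ne_zero _ hg), order_pow' _ hg, hN] at h
  linarith

theorem totalDegree_eq {n : ℕ} (hn : 0 < n) (C : MvPolynomial (Fin 2) k) (h : C ∈ Vd k n)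
    (ht : (topp n C).natDegree = n) : C.totalDegree = n := by
  apply le_antisymm (mem_Vd.1 h)
  have h1 : (topp n C).coeff n ≠ 0 := by
    have h2 : topp n C ≠ 0 := by
      intro h0
      rw [h0, Polynomial.natDegree_zero] at ht
      omega
    have := Polynomial.leadingCoeff_ne_zero.2 h2
    rwa [Polynomial.leadingCoeff, ht] at this
  rw [topp_coeff n C n le_rfl] at h1
  have h3 := MvPolynomial.le_totalDegree (MvPolynomial.mem_support_iff.2 h1)
  have h4 : ((expo (n - n, n)).sum fun _ e => e) = n := by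
    have := expo_degree (n - n, n)
    rw [Finsupp.degree_eq_sum, Fin.sum_univ_two] at this
    rw [Finsupp.sum_fintype _ _ (by simp), Fin.sum_univ_two]
    rw [this]
    simp
  omega

/-- Linear function vanishing on the branch with slope `l`. -/
noncomputable def lin (P : Fin 2 → k) (l : k) : MvPolynomial (Fin 2) k :=
  MvPolynomial.X 1 - MvPolynomial.C (P 1) -
    MvPolynomial.C l * (MvPolynomial.X 0 - MvPolynomial.C (P 0))

theorem lvP_lin (P : Fin 2 → k) (l : k) (η : PowerSeries k) :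
    lvP P η (lin P l) = HahnSeries.single 1 1 *
      HahnSeries.ofPowerSeries ℤ k (η - PowerSeries.C l) := by
  simp only [lvP, lev, lin, map_sub, map_mul, MvPolynomial.coe_eval₂Hom, MvPolynomial.eval₂_X,
    MvPolynomial.eval₂_C, Matrix.cons_val_zero, Matrix.cons_val_one, HahnSeries.ofPowerSeries_C]
  ring

end Pool.Agent.H92.RP.Let

namespace Pool.Agent.H92.RP

open Pool.Agent.H13 Let

variable {k : Type} [Field k] [IsAlgClosed k] [CharZero k]

theorem letter {M : ℕ} {f C : MvPolynomial (Fin 2) k} {P : Fin 9 → Fin 2 → k} {w : Fin 2 → k}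
    (H : HCurve M f C P w) (q : Fin 2 → k) (hq : MvPolynomial.eval q C = 0)
    (hqY : MvPolynomial.eval q (MvPolynomial.pderiv 1 C) ≠ 0) (hqP : ∀ i, P i 0 ≠ q 0)
    (G : Polynomial (MvPolynomial (Fin 2) k)) (hG : G.coeff 0 ≠ 0) (d : ℕ)
    (hd : ∀ i, G.coeff i ∈ Vd k d) (m : Fin 9 → ℕ) (mq : ℕ)
    (h1 : ∀ i, i ≠ 8 → G ∈ Imov (P i) 0 (m i)) (h2 : G ∈ Imov (P 8) w (m 8))
    (h3 : G ∈ Imov q 0 mq) :
    ∃ j : ℕ, C ^ j ∣ G.coeff 0 ∧ 2 * ((M : ℤ) * ∑ i, (m i : ℤ) + mq - 3 * M * d) ≤ j := by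
  classical
  have hMpos := H.M_pos
  have hG0 : G ≠ 0 := by
    rintro rfl
    simp at hG
  obtain ⟨j, Hs, hHs, hHn⟩ := exists_symbol C H.prime G hG0
  refine ⟨j, ⟨Hs 0, by simpa using hHs 0 (Nat.zero_le _)⟩, ?_⟩
  obtain ⟨K, iF, iA, iX, iT, iR, iS, iD, φ, hφ⟩ :=
    exists_model (3 * M) (by omega) C H.deg H.top_deg H.prime
  obtain ⟨B⟩ := exists_br H hφ
  obtain ⟨F⟩ := exists_fpl (3 * M) hφ.finrank B.τ B.τ_inj B.τ_C B.τ_X
  have : CharZero K := charZero_of_injective_algebraMap (algebraMap k K).injective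
  have hφC : φ C = 0 := (hφ.ker C).2 dvd_rfl
  -- the places at the nine points
  have hbr : ∀ i j, ∃ p, p ∉ Set.range F.inf ∧ ∀ a, a ≠ 0 → F.pl.v p a = (B.σ i j a).order :=
    fun i j => F.branch (B.σ i j) (P i 0) (B.σ_C i j) (B.σ_X i j)
  choose e he_inf he using hbr
  -- the place at `q`
  have hqv : (![q 0, q 1] : Fin 2 → k) = q := by
    ext i
    fin_cases i <;> rfl
  obtain ⟨ηq, hηq, hηC⟩ := exists_branch_simple (q 0) C (q 1)
    (by rw [vres_eval, hqv]; exact hq)
    (by rw [← vres_pderiv1, vres_eval, hqv]; exact hqY)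
  obtain ⟨κ, hκ, hκC, hκX⟩ := lift_fin hφ (q 0) _ hηC
  obtain ⟨pq, hpq_inf, hpq⟩ := F.branch κ (q 0) hκC hκX
  -- values of simple functions
  have hσX : ∀ i j c, B.σ i j (φ (MvPolynomial.X 0 - MvPolynomial.C c)) =
      HahnSeries.C (P i 0 - c) + ss k := by
    intro i j c
    rw [B.σ_ev, lev_X0, map_sub]
    ring
  have hκX' : ∀ c, κ (φ (MvPolynomial.X 0 - MvPolynomial.C c)) =
      HahnSeries.C (q 0 - c) + ss k := by
    intro c
    rw [hκ, lev_X0, map_sub]
    ring
  have hφX : ∀ c, φ (MvPolynomial.X 0 - MvPolynomial.C c) ≠ 0 := by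
    intro c h0
    have h4 := hσX 0 ⟨0, hMpos⟩ c
    rw [h0, map_zero] at h4
    by_cases hc : P 0 0 - c = 0
    · rw [hc, map_zero, zero_add] at h4
      exact order_ss.1 h4.symm
    · exact (order_C_add_ss _ hc).1 h4.symm
  have hvσ : ∀ i j c, P i 0 ≠ c →
      F.pl.v (e i j) (φ (MvPolynomial.X 0 - MvPolynomial.C c)) = 0 := by
    intro i j c hc
    rw [he i j _ (hφX c), hσX]
    exact (order_C_add_ss _ (sub_ne_zero.2 hc)).2
  have hvσ1 : ∀ i j, F.pl.v (e i j) (φ (MvPolynomial.X 0 - MvPolynomial.C (P i 0))) = 1 := by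
    intro i j
    rw [he i j _ (hφX _), hσX, sub_self, map_zero, zero_add]
    exact order_ss.2
  have hvq1 : F.pl.v pq (φ (MvPolynomial.X 0 - MvPolynomial.C (q 0))) = 1 := by
    rw [hpq _ (hφX _), hκX', sub_self, map_zero, zero_add]
    exact order_ss.2
  -- injectivity
  have e_inj : ∀ i j i' j', e i j = e i' j' → i = i' ∧ j = j' := by
    intro i j i' j' hee
    have hii : i = i' := by
      by_contra hne
      have h5 := hvσ1 i j
      rw [hee, hvσ i' j' (P i 0) (fun h => hne (H.xinj h.symm))] at h5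
      exact absurd h5 (by norm_num)
    subst hii
    refine ⟨rfl, ?_⟩
    by_contra hne
    have hl : B.lam i j' - B.lam i j ≠ 0 := sub_ne_zero.2 fun h => hne (B.lam_inj i h.symm)
    have h6 := order_single_mul (k := k) 1 (B.η i j' - PowerSeries.C (B.lam i j))
      (by rw [map_sub, B.η_const]; simpa using hl)
    have h7 : B.σ i j' (φ (lin (P i) (B.lam i j))) = HahnSeries.single 1 1 *
        HahnSeries.ofPowerSeries ℤ k (B.η i j' - PowerSeries.C (B.lam i j)) := by
      rw [B.σ_ev, lvP_lin]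
    have h8 : φ (lin (P i) (B.lam i j)) ≠ 0 := by
      intro h0
      rw [h0, map_zero] at h7
      exact h6.1 h7.symm
    have h9 : F.pl.v (e i j') (φ (lin (P i) (B.lam i j))) = 1 := by
      rw [he _ _ _ h8, h7]
      exact h6.2
    have h10 : B.σ i j (φ (lin (P i) (B.lam i j))) = HahnSeries.single 1 1 *
        HahnSeries.ofPowerSeries ℤ k (B.η i j - PowerSeries.C (B.lam i j)) := by
      rw [B.σ_ev, lvP_lin]
    obtain ⟨u, hu⟩ : PowerSeries.X ∣ B.η i j - PowerSeries.C (B.lam i j) := by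
      rw [PowerSeries.X_dvd_iff, map_sub, B.η_const]
      simp
    have h11 : lge 2 (B.σ i j (φ (lin (P i) (B.lam i j)))) := by
      rw [h10, hu, map_mul, HahnSeries.ofPowerSeries_X, ← mul_assoc, HahnSeries.single_mul_single,
        one_mul]
      exact lge_single_mul 2 u
    have h12 := (lge_iff _ _ ((map_ne_zero (B.σ i j)).2 h8)).1 h11
    rw [← he _ _ _ h8, hee, h9] at h12
    norm_num at h12
  have q_ne : ∀ i j, e i j ≠ pq := by
    intro i j h
    have h5 := hvσ i j (q 0) (hqP i)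
    rw [h, hvq1] at h5
    exact absurd h5 (by norm_num)
  let eJ : (Fin 9 × Fin M) ⊕ Unit ⊕ Fin (3 * M) → F.pl.ι :=
    Sum.elim (fun x => e x.1 x.2) (Sum.elim (fun _ => pq) F.inf)
  have heJ : Function.Injective eJ := by
    rintro (⟨i, j⟩ | (_ | j)) (⟨i', j'⟩ | (_ | j')) h
    · obtain ⟨rfl, rfl⟩ := e_inj _ _ _ _ h
      rfl
    · exact absurd h (q_ne _ _)
    · exact absurd ⟨j', h.symm⟩ (he_inf i j)
    · exact absurd h.symm (q_ne _ _)
    · rfl
    · exact absurd ⟨j', h.symm⟩ hpq_inf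
    · exact absurd ⟨j, h⟩ (he_inf i' j')
    · exact absurd ⟨j, h⟩ hpq_inf
    · rw [F.inf_inj h]
  let uJ : (Fin 9 × Fin M) ⊕ Unit ⊕ Fin (3 * M) → K :=
    Sum.elim (fun x => if x.1 = 8 then φ (dw w C) else 0) (fun _ => 0)
  let nJ : (Fin 9 × Fin M) ⊕ Unit ⊕ Fin (3 * M) → ℤ :=
    Sum.elim (fun _ => (M : ℤ)) (Sum.elim (fun _ => 1) (fun _ => -(3 * M : ℤ)))
  let aJ : (Fin 9 × Fin M) ⊕ Unit ⊕ Fin (3 * M) → ℤ :=
    Sum.elim (fun x => (m x.1 : ℤ)) (Sum.elim (fun _ => (mq : ℤ)) (fun _ => -(d : ℤ)))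
  have hn : ∑ x, nJ x = 1 := by
    simp only [nJ, Fintype.sum_sum_type, Sum.elim_inl, Sum.elim_inr, Finset.sum_const,
      Finset.card_univ, Fintype.card_prod, Fintype.card_fin, Fintype.card_unit, nsmul_eq_mul]
    push_cast
    ring
  have ha : ∑ x, aJ x = (M : ℤ) * ∑ i, (m i : ℤ) + mq - 3 * M * d := by
    simp only [aJ, Fintype.sum_sum_type, Sum.elim_inl, Sum.elim_inr, Finset.sum_const,
      Finset.card_univ, Fintype.card_fin, Fintype.card_unit, nsmul_eq_mul,
      Fintype.sum_prod_type]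
    rw [← Finset.mul_sum]
    push_cast
    ring
  set s := symb (φ : MvPolynomial (Fin 2) k →+* K) j Hs with hs_def
  have hs0 : s ≠ 0 := symb_ne_zero _ j Hs C (fun P => hφ.ker P) hHn
  have hsdeg : s.natDegree ≤ j := symb_natDegree _ j Hs
  have hscoeff : ∀ i, i ≤ j → s.coeff i = φ (Hs (j - i)) := by
    intro i hi
    have h4 := symb_coeff (φ : MvPolynomial (Fin 2) k →+* K) j Hs (j - i) (by omega)
    rw [show j - (j - i) = i by omega] at h4
    exact h4
  have hT := T1 F.pl eJ heJ uJ nJ aJ hn ?_ s hs0 ?_ ?_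
  · rw [ha] at hT
    have : (s.natDegree : ℤ) ≤ j := by exact_mod_cast hsdeg
    linarith
  · -- nonsplit
    rintro ⟨x, hx1, hx2⟩
    apply nonsplit H hφ B F e he x
    · intro i hi j
      by_cases hx0 : x = 0
      · rw [hx0, map_zero]; exact lge_zero _
      have h4 : F.pl.ge (e i j) (M : ℤ) (x - uJ (Sum.inl (i, j))) := hx1 (Sum.inl (i, j))
      simp only [uJ, Sum.elim_inl, if_neg hi, sub_zero] at h4
      rw [lge_iff _ _ ((map_ne_zero _).2 hx0), ← he _ _ _ hx0]
      exact h4 hx0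
    · intro j
      have h4 : F.pl.ge (e 8 j) (M : ℤ) (x - uJ (Sum.inl (8, j))) := hx1 (Sum.inl (8, j))
      simp only [uJ, Sum.elim_inl, if_true] at h4
      by_cases hx0 : x - φ (dw w C) = 0
      · rw [hx0, map_zero]; exact lge_zero _
      rw [lge_iff _ _ ((map_ne_zero _).2 hx0), ← he _ _ _ hx0]
      exact h4 hx0
    · intro j
      by_cases hx0 : x = 0
      · rw [hx0, map_zero]; exact lge_zero _
      have h4 : F.pl.ge (F.inf j) (-(3 * M : ℤ)) (x - uJ (Sum.inr (Sum.inr j))) :=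
        hx1 (Sum.inr (Sum.inr j))
      simp only [uJ, Sum.elim_inr, sub_zero] at h4
      rw [lge_iff _ _ ((map_ne_zero _).2 hx0), ← F.v_inf _ _ hx0]
      exact h4 hx0
    · intro p hp1 hp2
      by_cases hpq' : p = pq
      · subst hpq'
        have h4 : F.pl.ge p 1 (x - uJ (Sum.inr (Sum.inl ()))) := hx1 (Sum.inr (Sum.inl ()))
        simp only [uJ, Sum.elim_inr, sub_zero] at h4
        exact h4.mono (by norm_num)
      · apply hx2
        rintro ⟨(⟨i, j⟩ | (_ | j)), h⟩
        · exact hp2 i j h.symm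
        · exact hpq' h.symm
        · exact hp1 ⟨j, h⟩
  · -- local conditions
    rintro (⟨i, jj⟩ | (_ | jj)) c
    · -- at the nine points
      intro hne
      set W : Fin 2 → k := if i = 8 then w else 0 with hW
      have hu : uJ (Sum.inl (i, jj)) = φ (dw W C) := by
        simp only [uJ, Sum.elim_inl, hW]
        split_ifs with h
        · rfl
        · rw [dw_zero, map_zero]
      have hGi : G ∈ Imov (P i) W (m i) := by
        rw [hW]
        split_ifs with h
        · rw [h]; exact h2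
        · exact h1 i h
      have hβ : HahnSeries.ofPowerSeries ℤ k (PowerSeries.C (P i 1) + PowerSeries.X * B.η i jj) =
          HahnSeries.C (P i 1) + ss k * HahnSeries.ofPowerSeries ℤ k (B.η i jj) := by
        rw [map_add, map_mul, HahnSeries.ofPowerSeries_C, HahnSeries.ofPowerSeries_X]
      have h4 := branch_cond φ hφC (P i) W (B.σ i jj)
        (PowerSeries.C (P i 1) + PowerSeries.X * B.η i jj) (by simp)
        (by intro G'; rw [B.σ_ev, hβ]) G (m i) hGi j Hs hHs c
      rw [hu] at hne ⊢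
      have h5 := σ_CY H B i jj
      have h6 : B.σ i jj (φ ((MvPolynomial.X 0 - MvPolynomial.C (P i 0)) *
          MvPolynomial.pderiv 1 C)) ≠ 0 ∧ (B.σ i jj (φ ((MvPolynomial.X 0 -
            MvPolynomial.C (P i 0)) * MvPolynomial.pderiv 1 C))).order = (M : ℤ) := by
        rw [map_mul, map_mul, hσX, sub_self, map_zero, zero_add]
        refine ⟨mul_ne_zero order_ss.1 h5.1, ?_⟩
        rw [order_mul' _ _ order_ss.1 h5.1, order_ss.2, h5.2]
        ring
      have h7 := gcond (B.σ i jj) _ _ hne h6.1 _ _ h6.2 c h4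
      change (m i : ℤ) - (M : ℤ) * c ≤ F.pl.v (e i jj) _
      rw [he _ _ _ hne]
      exact h7
    · -- at `q`
      intro hne
      have hu : uJ (Sum.inr (Sum.inl ())) = φ (dw 0 C) := by
        simp only [uJ, Sum.elim_inr]
        rw [dw_zero, map_zero]
      have h4 := branch_cond φ hφC q 0 κ ηq hηq hκ G mq h3 j Hs hHs c
      rw [hu] at hne ⊢
      obtain ⟨g, hg, hg2⟩ := lev_const (q 0) (MvPolynomial.pderiv 1 C) ηq
      rw [hηq, vres_eval, hqv] at hg
      have h5 := order_single_mul (k := k) 0 g (by rw [hg]; exact hqY)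
      have hs1 : (HahnSeries.single 0 1 : LaurentSeries k) = 1 := rfl
      rw [hs1, one_mul] at h5
      have h6 : κ (φ ((MvPolynomial.X 0 - MvPolynomial.C (q 0)) *
          MvPolynomial.pderiv 1 C)) ≠ 0 ∧ (κ (φ ((MvPolynomial.X 0 -
            MvPolynomial.C (q 0)) * MvPolynomial.pderiv 1 C))).order = (1 : ℤ) := by
        rw [map_mul, map_mul, hκX', sub_self, map_zero, zero_add, hκ, hg2]
        refine ⟨mul_ne_zero order_ss.1 h5.1, ?_⟩
        rw [order_mul' _ _ order_ss.1 h5.1, order_ss.2, h5.2]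
        norm_num
      have h7 := gcond κ _ _ hne h6.1 _ _ h6.2 c h4
      change (mq : ℤ) - 1 * c ≤ F.pl.v pq _
      rw [hpq _ hne]
      exact h7
    · -- at infinity
      have hu : uJ (Sum.inr (Sum.inr jj)) = 0 := rfl
      rw [hu, Polynomial.taylor_zero]
      by_cases hc : c ≤ j
      · rw [hscoeff c hc]
        intro hne
        change -(d : ℤ) - -(3 * M : ℤ) * c ≤ F.pl.v (F.inf jj) _
        rw [F.v_inf _ _ hne]
        have hH0 : Hs (j - c) ≠ 0 := by
          intro h0
          rw [h0, map_zero] at hne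
          exact hne rfl
        have hHc := hHs (j - c) (by omega)
        rw [show j - (j - c) = c by omega] at hHc
        obtain ⟨h8, h9⟩ := H_deg C (3 * M) d (totalDegree_eq (by omega) C H.deg H.top_deg)
          H.prime.ne_zero _ (hd (j - c)) c (Hs (j - c)) hHc hH0
        have h10 := (lge_iff _ _ ((map_ne_zero _).2 hne)).1 (B.τ_lge jj _ _ h9)
        have h11 : ((d - 3 * M * c : ℕ) : ℤ) = (d : ℤ) - 3 * M * c := by
          rw [Nat.cast_sub h8]
          push_cast
          ring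
        rw [h11] at h10
        linarith
      · rw [symb_coeff_gt _ j Hs c (by omega)]
        exact Places.ge_zero _ _
  · -- elsewhere
    intro p hp i
    have hp1 : p ∉ Set.range F.inf := by
      rintro ⟨jj, h⟩
      exact hp ⟨Sum.inr (Sum.inr jj), h⟩
    by_cases hi : i ≤ j
    · rw [hscoeff i hi]
      exact F.integral p hp1 _ (phi_integral hφ _)
    · rw [symb_coeff_gt _ j Hs i (by omega)]
      exact Places.ge_zero _ _

end Pool.Agent.H92.RP
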