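import Mathlib
import Pool.Agent.H92.RP.Letter
import Pool.Agent.H92.RP.Clear
import Pool.Agent.H92.RP.GenPt

set_option autoImplicit false

/-!
# RP-G5: the reflection principle for several letters

Points over `k₁`: `pts i = bp (PP v i)` for `i < 9`, generic points `q i` for `i ≥ 9`; only `P 8`
moves, with velocity `ww` (tangent to the cubic).  Letters: a set `S` of indices `≥ 9`; for `l ∈ S`
the curve `C_l = CC c M (tauq c M (q l))` of class `(3M; M^9; 1 at l)`.

PROOF.  `clear_denoms` gives `G`, `G_0 := G.coeff 0 ≠ 0`.  For `l ∈ S` the theorem `letter`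
(`hcurve`, `gp_τ`, `gp_zero`, `gp_pderiv`, `gp_x`) gives `j l` with `C_l^(j l) ∣ G_0` and
`2 (M ∑_{i<9} m i + m l - 3 M d) ≤ j l`; put `j l = 0` for `l ∉ S`.  The `C_l` are primes, pairwise
not associated (`C_l(q l') ≠ 0 = C_{l'}(q l')`, `gp_other`), so the product of the `C_l^(j l)` divides
`G_0` (`Finset.prod_dvd_of_isRelPrime` or induction): `G_0 = Π * G'`.
Degrees: `totalDegree C_l = 3M` (`≤` by `CC_deg`, and `topp (3M)` is nonzero), so
`3 M ∑ j ≤ d` and `totalDegree G' ≤ d - 3 M ∑ j`.
Multiplicities: `G_0 ∈ Iord (pts i) (m i)` (`coeff_zero_mem`); `mult (pts i) C_l = M` for `i < 9`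
(`CC_van`, `CC_lead`: the leading polynomial has degree `M > 0`, so is nonzero); for `i ≥ 9`,
`mult (pts i) C_l` is `1` if `i = l` (`gp_zero`, `gp_pderiv`, `pderiv_mem_Iord`) and `0` if `i ≠ l`
(`gp_other`).  So (`mult_mul`, `mult_pow`) `mult (pts i) G' ≥ m i - M ∑ j` resp. `m i - j i`
(natural subtraction).
-/

namespace Pool.Agent.H92.RP

open Pool.Agent.H13

variable {k k₁ : Type} [Field k] [IsAlgClosed k] [CharZero k] [Field k₁] [IsAlgClosed k₁]
  [CharZero k₁] [Algebra k k₁] {M : ℕ} {v : Fin 10 → k} {c : MvPolynomial (Fin 2) k} {κ : k}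
  {n : ℕ}

/-- the points: special for `i < 9`, generic for `i ≥ 9` -/
noncomputable def pts (v : Fin 10 → k) (q : Fin n → Fin 2 → k₁) (i : Fin n) : Fin 2 → k₁ :=
  if h : (i : ℕ) < 9 then bp k₁ (PP v ⟨i, by omega⟩) else q i

/-- the velocities: only the ninth point moves -/
noncomputable def vel (k₁ : Type) [Field k₁] [Algebra k k₁] (n : ℕ) (v : Fin 10 → k)
    (i : Fin n) : Fin 2 → k₁ :=
  if (i : ℕ) = 8 then ww k₁ v else 0

omit [CharZero k] [IsAlgClosed k] [CharZero k₁] [IsAlgClosed k₁] in
/-- an additive function on products of powers -/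
theorem rpstep_add {R : Type} [CommRing R] [IsDomain R] (μ : R → ℕ)
    (hμ : ∀ f g, f ≠ 0 → g ≠ 0 → μ (f * g) = μ f + μ g) {ι : Type} (S : Finset ι) (f : ι → R)
    (hf : ∀ l ∈ S, f l ≠ 0) (j : ι → ℕ) :
    ∏ l ∈ S, f l ^ j l ≠ 0 ∧ μ (∏ l ∈ S, f l ^ j l) = ∑ l ∈ S, j l * μ (f l) := by
  classical
  have h1 : μ 1 = 0 := by
    have := hμ 1 1 one_ne_zero one_ne_zero
    rw [mul_one] at this
    omega
  have hp : ∀ (g : R), g ≠ 0 → ∀ n : ℕ, μ (g ^ n) = n * μ g := by
    intro g hg n
    induction n with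
    | zero => simp [h1]
    | succ n ih => rw [pow_succ, hμ _ _ (pow_ne_zero _ hg) hg, ih]; ring
  induction S using Finset.induction_on with
  | empty => simp [h1]
  | insert a s ha ih =>
    have ih' := ih (fun l hl => hf l (Finset.mem_insert_of_mem hl))
    have ha' := hf a (Finset.mem_insert_self a s)
    rw [Finset.prod_insert ha, Finset.sum_insert ha, hμ _ _ (pow_ne_zero _ ha') ih'.1, ih'.2,
      hp _ ha']
    exact ⟨mul_ne_zero (pow_ne_zero _ ha') ih'.1, rfl⟩

theorem rp_step (D : PenData M v c κ) (hn : 9 ≤ n) (q : Fin n → Fin 2 → k₁)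
    (hq : IsGeneric (k := k) q) (S : Finset (Fin n)) (hS : ∀ l ∈ S, 9 ≤ (l : ℕ)) (d : ℕ)
    (m : Fin n → ℕ) (h : HasCurve (movP (pts v q) (vel k₁ n v)) d m) :
    ∃ j : Fin n → ℕ, (∀ l, l ∉ S → j l = 0) ∧
      (∀ l ∈ S, 2 * ((M : ℤ) * ∑ i : Fin 9, (m (Fin.castLE hn i) : ℤ) + m l - 3 * M * d) ≤ j l) ∧
      3 * M * ∑ l, j l ≤ d ∧
      HasCurve (pts v q) (d - 3 * M * ∑ l, j l)
        (fun i => if (i : ℕ) < 9 then m i - M * ∑ l, j l else m i - j i) := by
  classical
  obtain ⟨G, hG0, hGd, hGm⟩ := clear_denoms (pts v q) (vel k₁ n v) d m h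
  set C : Fin n → MvPolynomial (Fin 2) k₁ := fun l => CC k₁ c M (tauq c M (q l)) with hC
  have hH : ∀ l, HCurve M (f₀ k₁) (C l) (fun i : Fin 9 => bp k₁ (PP v i.castSucc)) (ww k₁ v) :=
    fun l => hcurve D _ (gp_τ D q hq l)
  have hprime : ∀ l, Prime (C l) := fun l => (hH l).prime
  have hCne : ∀ l, C l ≠ 0 := fun l => (hprime l).ne_zero
  have hM : 0 < M ∨ n = 0 := by
    rcases Nat.eq_zero_or_pos n with h0 | h0
    · exact Or.inr h0
    · exact Or.inl (hH ⟨0, h0⟩).M_pos
  have hM : 0 < M := by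
    rcases hM with h0 | h0
    · exact h0
    · omega
  -- points
  have hpts9 : ∀ i : Fin 9, pts v q (Fin.castLE hn i) = bp k₁ (PP v i.castSucc) := by
    intro i
    unfold pts
    have hi : ((Fin.castLE hn i : Fin n) : ℕ) < 9 := by simp
    rw [dif_pos hi]
    congr 2
  have hptsq : ∀ l : Fin n, 9 ≤ (l : ℕ) → pts v q l = q l := by
    intro l hl
    unfold pts
    rw [dif_neg (by omega)]
  have hex : ∀ l : Fin n, ∃ j : ℕ, (l ∉ S → j = 0) ∧ (l ∈ S → C l ^ j ∣ G.coeff 0 ∧
      2 * ((M : ℤ) * ∑ i : Fin 9, (m (Fin.castLE hn i) : ℤ) + m l - 3 * M * d) ≤ j) := by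
    intro l
    by_cases hl : l ∈ S
    · obtain ⟨j, hj1, hj2⟩ := letter (hH l) (q l) (gp_zero q hq l) (gp_pderiv D q hq l)
        (gp_x v q hq l) G hG0 d hGd (fun i => m (Fin.castLE hn i)) (m l)
        (by
          intro i hi
          have h1 := hGm (Fin.castLE hn i)
          rw [hpts9 i] at h1
          have h2 : vel k₁ n v (Fin.castLE hn i) = 0 := by
            unfold vel
            rw [if_neg]
            intro h3
            apply hi
            apply Fin.ext
            simpa using h3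
          rwa [h2] at h1)
        (by
          have h1 := hGm (Fin.castLE hn 8)
          rw [hpts9 8] at h1
          have h2 : vel k₁ n v (Fin.castLE hn 8) = ww k₁ v := by
            unfold vel
            rw [if_pos]
            rfl
          rwa [h2] at h1)
        (by
          have h1 := hGm l
          rw [hptsq l (hS l hl)] at h1
          have h2 : vel k₁ n v l = 0 := by
            unfold vel
            rw [if_neg]
            have := hS l hl
            omega
          rwa [h2] at h1)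
      exact ⟨j, fun h3 => absurd hl h3, fun _ => ⟨hj1, hj2⟩⟩
    · exact ⟨0, fun _ => rfl, fun h3 => absurd h3 hl⟩
  choose j hj0 hj1 using hex
  -- values of the curves
  have hdeg : ∀ l, (C l).totalDegree = 3 * M := by
    intro l
    apply le_antisymm
    · exact mem_Vd.1 (hH l).deg
    · have h1 := (hH l).top_deg
      have h2 : (topp (3 * M) (C l)).coeff (3 * M) ≠ 0 := by
        have h3 : topp (3 * M) (C l) ≠ 0 := by
          intro h4
          rw [h4, Polynomial.natDegree_zero] at h1
          omega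
        have h4 := Polynomial.leadingCoeff_ne_zero.2 h3
        rwa [Polynomial.leadingCoeff, h1] at h4
      rw [topp_coeff (3 * M) (C l) (3 * M) le_rfl] at h2
      have h5 := MvPolynomial.le_totalDegree (MvPolynomial.mem_support_iff.2 h2)
      have h6 : ((expo (3 * M - 3 * M, 3 * M)).sum fun _ e => e) = 3 * M := by
        have h7 : ((expo (3 * M - 3 * M, 3 * M)).sum fun _ e => e) =
            (expo (3 * M - 3 * M, 3 * M)).degree := rfl
        rw [h7, expo_degree]
        omega
      rwa [h6] at h5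
  have hmult9 : ∀ l (i : Fin n), (i : ℕ) < 9 → mult (pts v q i) (C l) = M := by
    intro l i hi
    have hi' : i = Fin.castLE hn ⟨i, hi⟩ := by
      apply Fin.ext
      rfl
    rw [hi', hpts9]
    have h1 := (hH l).vanish ⟨i, hi⟩
    have h2 := (hH l).lead_deg ⟨i, hi⟩
    have h3 : C l ∉ Iord (bp k₁ (PP v (Fin.castSucc ⟨i, hi⟩))) (M + 1) := by
      rw [← lfp_eq_zero_iff M _ _ h1]
      intro h4
      rw [h4, Polynomial.natDegree_zero] at h2
      omega
    rw [mem_Iord_iff_le_mult (hCne l)] at h1 h3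
    omega
  have hmultq : ∀ l (i : Fin n), 9 ≤ (i : ℕ) → mult (pts v q i) (C l) = if i = l then 1 else 0 := by
    intro l i hi
    rw [hptsq i hi]
    split_ifs with hil
    · subst hil
      have h1 : C i ∈ Iord (q i) 1 := mem_Iord_one.2 (gp_zero q hq i)
      have h3 : C i ∉ Iord (q i) (1 + 1) := by
        intro h4
        have h5 := pderiv_mem_Iord 1 h4
        rw [mem_Iord_one] at h5
        exact gp_pderiv D q hq i h5
      rw [mem_Iord_iff_le_mult (hCne i)] at h1 h3
      omega
    · have h3 : C l ∉ Iord (q i) 1 := by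
        rw [mem_Iord_one]
        exact gp_other D q hq l i (fun h => hil h.symm)
      rw [mem_Iord_iff_le_mult (hCne l)] at h3
      omega
  -- the product divides
  have hdvd : ∏ l ∈ S, C l ^ j l ∣ G.coeff 0 := by
    apply Finset.prod_dvd_of_isRelPrime
    · intro a ha b hb hab
      have h1 : IsRelPrime (C a) (C b) := by
        rw [(hprime a).irreducible.isRelPrime_iff_not_dvd]
        rintro ⟨E, hE⟩
        have h2 := gp_other D q hq b a (Ne.symm hab)
        apply h2
        change MvPolynomial.eval (q a) (C b) = 0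
        rw [hE, map_mul]
        have h3 : MvPolynomial.eval (q a) (C a) = 0 := gp_zero q hq a
        rw [h3, zero_mul]
      exact h1.pow
    · intro l hl
      exact (hj1 l hl).1
  obtain ⟨G', hG'⟩ := hdvd
  have hprodne := (rpstep_add (fun f => f.totalDegree)
    (fun f g hf hg => MvPolynomial.totalDegree_mul_of_isDomain hf hg) S C (fun l _ => hCne l) j)
  have hG'ne : G' ≠ 0 := by
    rintro rfl
    rw [mul_zero] at hG'
    exact hG0 hG'
  have hsum : ∑ l ∈ S, j l = ∑ l, j l := by
    apply Finset.sum_subset (Finset.subset_univ S)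
    intro l _ hl
    exact hj0 l hl
  have htot : 3 * M * ∑ l, j l + G'.totalDegree ≤ d := by
    have h1 : (G.coeff 0).totalDegree ≤ d := mem_Vd.1 (hGd 0)
    rw [hG', MvPolynomial.totalDegree_mul_of_isDomain hprodne.1 hG'ne] at h1
    have h2 : (∏ l ∈ S, C l ^ j l).totalDegree = 3 * M * ∑ l, j l := by
      rw [hprodne.2, ← hsum, Finset.mul_sum]
      refine Finset.sum_congr rfl fun l _ => ?_
      rw [hdeg]
      ring
    rw [h2] at h1
    exact h1
  refine ⟨j, hj0, fun l hl => (hj1 l hl).2, by omega, G', hG'ne, by omega, ?_⟩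
  intro i
  have h1 : G.coeff 0 ∈ Iord (pts v q i) (m i) := coeff_zero_mem _ _ _ _ (hGm i)
  rw [mem_Iord_iff_le_mult hG0, hG', mult_mul hprodne.1 hG'ne] at h1
  have h2 := (rpstep_add (fun f => mult (pts v q i) f)
    (fun f g hf hg => mult_mul hf hg) S C (fun l _ => hCne l) j).2
  rw [h2] at h1
  rw [mem_Iord_iff_le_mult hG'ne]
  beta_reduce
  split_ifs with hi
  · have h3 : ∑ l ∈ S, j l * mult (pts v q i) (C l) = M * ∑ l, j l := by
      rw [← hsum, Finset.mul_sum]
      refine Finset.sum_congr rfl fun l _ => ?_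
      rw [hmult9 l i hi]
      ring
    rw [h3] at h1
    omega
  · have h3 : ∑ l ∈ S, j l * mult (pts v q i) (C l) = j i := by
      have h4 : ∀ l ∈ S, j l * mult (pts v q i) (C l) = if i = l then j l else 0 := by
        intro l _
        rw [hmultq l i (by omega)]
        split_ifs <;> simp
      rw [Finset.sum_congr rfl h4, Finset.sum_ite_eq]
      split_ifs with h5
      · rfl
      · exact (hj0 i h5).symm
    rw [h3] at h1
    omega

end Pool.Agent.H92.RP
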