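import Mathlib
import Pool.Agent.H92.RP.NumA
import Pool.Agent.H92.RP.RPstep
import Pool.Agent.H92.RP.NodNef

set_option autoImplicit false

/-!
# RP-G6b: the final inequality at the special points

(Notation as in `NumA.lean`: `k = kk y`, `a_l = la M S k l`.)
PROOF of `ineq_final`.  `rp_step` gives `j`; put `J = ∑ j l`.  `spec_generic` (with
`P i = PP v i` for `i < 10`, anything else for `i ≥ 10`; note `pts v q` is of the form used there)
and forgetting the points `i ≥ 10` gives `HasCurve (PP v) (d - 3MJ) m'`, `m' i = m i - M J`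
(`i < 9`), `m' 9 = m 9 - j 9`.  `nodal_nef` for `y0`: `∑ y0_i m'_i ≤ y0.1 (d - 3MJ)`.  As
`y0_i ≥ 0` and `m'_i ≥ m i - M J` (real subtraction), this gives
`∑_{i<9} y0_i m_i + k m_9 + (M J k - k j_9) ≤ y0.1 d`, using
`3 M J y0.1 - M J ∑_{i<9} y0_i - k j_9 = M J k - k j_9 = ∑_{l ∈ S} j_l a_l`.
Finally `y.1 d - ∑ y.2 i m_i = y0.1 d - ∑_{i<9} y0_i m_i - k m_9 + 2 ∑_{l ∈ S} a_l (3 M d -
M ∑_{i<9} m_i - m_l) ≥ ∑_{l ∈ S} a_l (j_l - 2 (M ∑ m_i + m_l - 3 M d)) ≥ 0`.
-/

namespace Pool.Agent.H92.RP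

open Pool.Agent.H13

theorem num_arith {r : ℕ} (M d : ℕ) (hM : 1 ≤ M) (S : Finset (Fin (10 + r)))
    (hS : ∀ l ∈ S, 9 ≤ (l : ℕ)) (y : ℝ × (Fin (10 + r) → ℝ))
    (hy : InL (by omega) M S y) (hp : y ∈ Pos (10 + r)) (m j : Fin (10 + r) → ℕ)
    (hj0 : ∀ l, l ∉ S → j l = 0)
    (hj : ∀ l ∈ S, 2 * ((M : ℤ) * ∑ i : Fin 9, (m (Fin.castLE (by omega) i) : ℤ) + m l -
      3 * M * d) ≤ j l)
    (hd : 3 * M * ∑ l, j l ≤ d)
    (hnef : ∀ (d0 : ℝ) (m0 : Fin 10 → ℝ), 0 ≤ d0 → ∑ i, m0 i = 3 * d0 →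
      ∑ i, m0 i ^ 2 ≤ d0 ^ 2 → ∑ i : Fin 10, m0 i *
        (((if (i : ℕ) < 9 then m (Fin.castLE (by omega) i) - M * ∑ l, j l
          else m (Fin.castLE (by omega) i) - j (Fin.castLE (by omega) i) : ℕ)) : ℝ) ≤
        d0 * ((d - 3 * M * ∑ l, j l : ℕ) : ℝ)) :
    ∑ i, y.2 i * m i ≤ y.1 * d := by
  obtain ⟨d0, m0, hd0, hs, hq, hm0, hm9, hy1, hy2⟩ := y0_facts (by omega) M hM S hS y hy hp
  have hk := kk_nonneg (by omega : 9 ≤ 10 + r) y hp
  set k := kk (by omega : 9 ≤ 10 + r) y with hkk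
  set A := ∑ i, la M S k i with hA
  have hn := hnef d0 m0 hd0 hs hq
  set J := ∑ l, j l with hJ
  have hM1 : (1 : ℝ) ≤ M := by exact_mod_cast hM
  -- the letters
  have hla0 : ∀ l, 0 ≤ la M S k l := by
    intro l
    rw [la]
    split_ifs
    · exact mul_nonneg (by linarith) hk
    · exact mul_nonneg (by linarith) hk
    · exact le_refl _
  have hlaj : ∑ l, la M S k l * j l = M * k * J - k * j ⟨9, by omega⟩ := by
    have e : ∀ l, la M S k l * j l = M * k * j l - if l = ⟨9, by omega⟩ then k * j l else 0 := by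
      intro l
      by_cases hl : l ∈ S
      · rw [la, if_pos hl]
        by_cases h9 : (l : ℕ) = 9
        · have : l = ⟨9, by omega⟩ := Fin.ext h9
          rw [if_pos h9, if_pos this]
          ring
        · have : l ≠ ⟨9, by omega⟩ := fun h => h9 (by rw [h])
          rw [if_neg h9, if_neg this]
          ring
      · rw [la, if_neg hl, hj0 l hl]
        split_ifs <;> simp
    rw [Finset.sum_congr rfl fun l _ => e l, Finset.sum_sub_distrib, ← Finset.mul_sum, hJ]
    simp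
  -- the inequality for the letters
  have hlet : ∑ l, la M S k l * (2 * (M * ∑ i : Fin 9, (m (Fin.castLE (by omega) i) : ℝ) + m l -
      3 * M * d)) ≤ ∑ l, la M S k l * j l := by
    apply Finset.sum_le_sum
    intro l _
    by_cases hl : l ∈ S
    · apply mul_le_mul_of_nonneg_left _ (hla0 l)
      have := hj l hl
      have h2 : ((2 * ((M : ℤ) * ∑ i : Fin 9, (m (Fin.castLE (by omega) i) : ℤ) + m l -
        3 * M * d) : ℤ) : ℝ) ≤ ((j l : ℤ) : ℝ) := by exact_mod_cast this
      push_cast at h2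
      exact h2
    · rw [la, if_neg hl]
      simp
  -- the left-hand side
  have hlhs : ∑ i, y.2 i * m i = ∑ i : Fin 9, m0 i.castSucc * m (Fin.castLE (by omega) i) +
      k * m ⟨9, by omega⟩ + 2 * M * A * ∑ i : Fin 9, (m (Fin.castLE (by omega) i) : ℝ) +
      2 * ∑ l, la M S k l * m l := by
    rw [numA_sum_split (fun i => y.2 i * m i), numA_sum_split (fun l => la M S k l * m l)]
    have e0 : ∑ i : Fin 9, la M S k (Fin.castLE (by omega : 9 ≤ 10 + r) i) *
        m (Fin.castLE (by omega : 9 ≤ 10 + r) i) = 0 := by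
      apply Finset.sum_eq_zero
      intro i _
      have : Fin.castLE (by omega : 9 ≤ 10 + r) i ∉ S := by
        intro hcon
        have := hS _ hcon
        simp at this
        omega
      rw [la, if_neg this, zero_mul]
    have e1 : ∑ i : Fin 9, y.2 (Fin.castLE (by omega) i) * m (Fin.castLE (by omega) i) =
        ∑ i : Fin 9, m0 i.castSucc * m (Fin.castLE (by omega) i) +
        2 * M * A * ∑ i : Fin 9, (m (Fin.castLE (by omega) i) : ℝ) := by
      rw [Finset.mul_sum, ← Finset.sum_add_distrib]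
      apply Finset.sum_congr rfl
      intro i _
      rw [hy2 i]
      ring
    have e2 : ∀ i : Fin r, y.2 (Fin.natAdd 10 i) * m (Fin.natAdd 10 i) =
        2 * (la M S k (Fin.natAdd 10 i) * m (Fin.natAdd 10 i)) := by
      intro i
      have hne : ((Fin.natAdd 10 i : Fin (10 + r)) : ℕ) ≠ 9 := by
        simp
        omega
      rw [hy (Fin.natAdd 10 i) (by simp; omega), wt, la, if_neg hne, if_neg hne]
      split_ifs <;> ring
    have e3 : y.2 ⟨9, by omega⟩ * m ⟨9, by omega⟩ = k * m ⟨9, by omega⟩ +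
        2 * (la M S k ⟨9, by omega⟩ * m ⟨9, by omega⟩) := by
      rw [hy ⟨9, by omega⟩ (by simp), wt, la, if_pos rfl, if_pos rfl]
      split_ifs <;> ring
    rw [e0, e1, Finset.sum_congr rfl fun i _ => e2 i, ← Finset.mul_sum, e3]
    ring
  -- the nodal inequality
  have hnod : ∑ i : Fin 9, m0 i.castSucc * m (Fin.castLE (by omega) i) + k * m ⟨9, by omega⟩ +
      (M * k * J - k * j ⟨9, by omega⟩) ≤ d0 * d := by
    rw [Fin.sum_univ_castSucc] at hn hs
    have h9 : m0 (Fin.last 9) = k := hm9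
    rw [h9] at hn hs
    have c1 : ((d - 3 * M * J : ℕ) : ℝ) = d - 3 * M * J := by
      rw [Nat.cast_sub hd]
      push_cast
      ring
    rw [c1] at hn
    have c2 : ∀ i : Fin 9, m0 i.castSucc * m (Fin.castLE (by omega) i) -
        M * J * m0 i.castSucc ≤ m0 i.castSucc *
        (((if ((i.castSucc : Fin 10) : ℕ) < 9 then m (Fin.castLE (by omega) i.castSucc) - M * J
          else m (Fin.castLE (by omega) i.castSucc) - j (Fin.castLE (by omega) i.castSucc) : ℕ)) :
            ℝ) := by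
      intro i
      have hi : ((i.castSucc : Fin 10) : ℕ) < 9 := by simp
      rw [if_pos hi]
      have c3 : ((m (Fin.castLE (by omega : 9 ≤ 10 + r) i) : ℝ) - M * J) ≤
          ((m (Fin.castLE (by omega : 10 ≤ 10 + r) i.castSucc) - M * J : ℕ) : ℝ) := by
        have c4 : (m (Fin.castLE (by omega : 9 ≤ 10 + r) i)) ≤
          (m (Fin.castLE (by omega : 10 ≤ 10 + r) i.castSucc) - M * J) + M * J := by
          have : m (Fin.castLE (by omega : 9 ≤ 10 + r) i) =
            m (Fin.castLE (by omega : 10 ≤ 10 + r) i.castSucc) := rfl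
          omega
        have c5 : ((m (Fin.castLE (by omega : 9 ≤ 10 + r) i) : ℕ) : ℝ) ≤
          (((m (Fin.castLE (by omega : 10 ≤ 10 + r) i.castSucc) - M * J) + M * J : ℕ) : ℝ) :=
          Nat.cast_le.2 c4
        push_cast at c5
        linarith
      have := mul_le_mul_of_nonneg_left c3 (hm0 i.castSucc)
      linarith
    have c6 := Finset.sum_le_sum (s := Finset.univ) fun i _ => c2 i
    rw [Finset.sum_sub_distrib, ← Finset.mul_sum] at c6
    have c7 : k * m ⟨9, by omega⟩ - k * j ⟨9, by omega⟩ ≤ k *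
        (((if ((Fin.last 9 : Fin 10) : ℕ) < 9 then m (Fin.castLE (by omega) (Fin.last 9)) - M * J
          else m (Fin.castLE (by omega) (Fin.last 9)) - j (Fin.castLE (by omega) (Fin.last 9)) :
            ℕ)) : ℝ) := by
      have hi : ¬ ((Fin.last 9 : Fin 10) : ℕ) < 9 := by simp
      rw [if_neg hi, ← mul_sub]
      apply mul_le_mul_of_nonneg_left _ hk
      have c4 : m ⟨9, by omega⟩ ≤ (m (Fin.castLE (by omega : 10 ≤ 10 + r) (Fin.last 9)) -
          j (Fin.castLE (by omega : 10 ≤ 10 + r) (Fin.last 9))) + j ⟨9, by omega⟩ := by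
        have e : m ⟨9, by omega⟩ = m (Fin.castLE (by omega : 10 ≤ 10 + r) (Fin.last 9)) := rfl
        have e' : j ⟨9, by omega⟩ = j (Fin.castLE (by omega : 10 ≤ 10 + r) (Fin.last 9)) := rfl
        omega
      have c5 : (m ⟨9, by omega⟩ : ℝ) ≤
          (((m (Fin.castLE (by omega : 10 ≤ 10 + r) (Fin.last 9)) -
            j (Fin.castLE (by omega : 10 ≤ 10 + r) (Fin.last 9))) + j ⟨9, by omega⟩ : ℕ) : ℝ) :=
        Nat.cast_le.2 c4
      push_cast at c5 ⊢
      linarith
    have c8 : ∑ i : Fin 9, m0 i.castSucc = 3 * d0 - k := by linarith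
    rw [c8] at c6
    have c9 := (add_le_add c6 c7).trans hn
    have c10 : (M : ℝ) * J * (3 * d0 - k) = 3 * (M * J * d0) - M * k * J := by ring
    rw [c10] at c9
    have c11 : d0 * ((d : ℝ) - 3 * M * J) = d0 * d - 3 * (M * J * d0) := by ring
    rw [c11] at c9
    linarith
  have e6 : ∑ l, la M S k l * (2 * (M * ∑ i : Fin 9, (m (Fin.castLE (by omega) i) : ℝ) + m l -
      3 * M * d)) = 2 * M * A * ∑ i : Fin 9, (m (Fin.castLE (by omega) i) : ℝ) +
      2 * ∑ l, la M S k l * m l - 6 * M * A * d := by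
    rw [hA]
    have : ∀ l, la M S k l * (2 * (M * ∑ i : Fin 9, (m (Fin.castLE (by omega) i) : ℝ) + m l -
      3 * M * d)) = (2 * M * ∑ i : Fin 9, (m (Fin.castLE (by omega) i) : ℝ)) * la M S k l +
        2 * (la M S k l * m l) - (6 * M * d) * la M S k l := by
      intro l
      ring
    rw [Finset.sum_congr rfl fun l _ => this l, Finset.sum_sub_distrib, Finset.sum_add_distrib,
      ← Finset.mul_sum, ← Finset.mul_sum, ← Finset.mul_sum]
    ring
  rw [hlhs, hy1]
  rw [e6, hlaj] at hlet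
  have e7 : (d0 + 6 * M * A) * d = d0 * d + 6 * M * A * d := by ring
  rw [e7]
  linarith

theorem ineq_final {k k₁ : Type} [Field k] [IsAlgClosed k] [CharZero k] [Field k₁]
    [IsAlgClosed k₁] [CharZero k₁] [Algebra k k₁] {M : ℕ} {v : Fin 10 → k}
    {c : MvPolynomial (Fin 2) k} {κ : k} {n : ℕ} (D : PenData M v c κ) (hn : 10 ≤ n)
    (q : Fin n → Fin 2 → k₁) (hq : IsGeneric (k := k) q) (S : Finset (Fin n))
    (hS : ∀ l ∈ S, 9 ≤ (l : ℕ)) (d : ℕ) (m : Fin n → ℕ)
    (h : HasCurve (movP (pts v q) (vel k₁ n v)) d m) (y : ℝ × (Fin n → ℝ))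
    (hy : InL (by omega) M S y) (hp : y ∈ Pos n) :
    ∑ i, y.2 i * m i ≤ y.1 * d := by
  obtain ⟨j, hj0, hj, hd, hc⟩ := rp_step D (by omega) q hq S hS d m h
  obtain ⟨r, rfl⟩ := Nat.exists_eq_add_of_le hn
  set P : Fin (10 + r) → Fin 2 → k := fun i =>
    if h : (i : ℕ) < 10 then PP v ⟨i, h⟩ else 0 with hP
  have hpts : pts v q = fun i : Fin (10 + r) => if (i : ℕ) < 9 then bp k₁ (P i) else q i := by
    funext i
    rw [pts]
    split_ifs with h9
    · have h10 : (i : ℕ) < 10 := by omega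
      rw [hP]
      simp only [h10, dif_pos]
    · rfl
  rw [hpts] at hc
  have hs := spec_generic q hq P _ _ hc
  obtain ⟨F, hF0, hFd, hFm⟩ := hs
  apply num_arith M d D.V.M_pos S hS y hy hp m j hj0 hj hd
  intro d0 m0 h0 hsum hsq
  refine nodal_nef D.V d0 m0 h0 hsum hsq _ _ ⟨F, hF0, hFd, ?_⟩
  intro i
  have := hFm (Fin.castLE (by omega) i)
  have e : P (Fin.castLE (by omega) i) = PP v i := by
    rw [hP]
    simp
  rw [e] at this
  exact this

end Pool.Agent.H92.RP
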