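import Mathlib
import Pool.Agent.H92.RP.Num
import Pool.Agent.H13.Frozen

set_option autoImplicit false

/-!
# RP: from the inequality at the special points to very general points (one subspace)
-/

namespace Pool.Agent.H92.RP

open Pool.Agent.H13 MvPolynomial

variable {n : ℕ}

theorem kk_add (hn : 9 ≤ n) (x y : ℝ × (Fin n → ℝ)) : kk hn (x + y) = kk hn x + kk hn y := by
  simp only [kk, Prod.fst_add, Prod.snd_add, Pi.add_apply, Finset.sum_add_distrib]
  ring

theorem kk_smul (hn : 9 ≤ n) (c : ℝ) (y : ℝ × (Fin n → ℝ)) : kk hn (c • y) = c * kk hn y := by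
  simp only [kk, Prod.smul_fst, Prod.smul_snd, Pi.smul_apply, smul_eq_mul, ← Finset.mul_sum]
  ring

/-- the linear subspace -/
def LL (hn : 9 ≤ n) (M : ℕ) (S : Finset (Fin n)) : Submodule ℝ (ℝ × (Fin n → ℝ)) where
  carrier := {y | InL hn M S y}
  add_mem' := by
    intro x y hx hy i hi
    rw [kk_add, mul_add, Prod.snd_add, Pi.add_apply, hx i hi, hy i hi]
  zero_mem' := by
    intro i hi
    simp [kk]
  smul_mem' := by
    intro c y hy i hi
    rw [kk_smul, Prod.smul_snd, Pi.smul_apply, smul_eq_mul, hy i hi]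
    ring

theorem mem_LL (hn : 9 ≤ n) (M : ℕ) (S : Finset (Fin n)) (y : ℝ × (Fin n → ℝ)) :
    y ∈ LL hn M S ↔ InL hn M S y := Iff.rfl

/-- the multiplicities are nonnegative -/
theorem nonneg_of_InL (hn : 10 ≤ n) (M : ℕ) (hM : 1 ≤ M) (S : Finset (Fin n))
    (hS : ∀ l ∈ S, 9 ≤ (l : ℕ)) (y : ℝ × (Fin n → ℝ))
    (hy : InL (by omega) M S y) (hp : y ∈ Pos n) (i : Fin n) : 0 ≤ y.2 i := by
  have hk := kk_nonneg (by omega : 9 ≤ n) y hp
  have hM' : (1 : ℝ) ≤ M := by exact_mod_cast hM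
  by_cases hi : (i : ℕ) < 9
  · obtain ⟨d0, m0, h0, -, -, h3, -, -, h5⟩ := y0_facts hn M hM S hS y hy hp
    have h6 := h5 ⟨i, hi⟩
    have e : Fin.castLE (by omega : 9 ≤ n) ⟨(i : ℕ), hi⟩ = i := by
      apply Fin.ext; rfl
    rw [e] at h6
    rw [h6]
    have h7 : 0 ≤ ∑ j, la M S (kk (by omega : 9 ≤ n) y) j := by
      refine Finset.sum_nonneg fun j _ => ?_
      unfold la
      split_ifs
      · exact mul_nonneg (by linarith) hk
      · exact mul_nonneg (by linarith) hk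
      · exact le_rfl
    have h8 := h3 (Fin.castSucc ⟨(i : ℕ), hi⟩)
    have h9 : 0 ≤ 2 * (M : ℝ) * ∑ j, la M S (kk (by omega : 9 ≤ n) y) j :=
      mul_nonneg (by linarith) h7
    linarith
  · rw [hy i (by omega)]
    refine mul_nonneg ?_ hk
    unfold wt
    split_ifs <;> linarith

theorem exists_special (M : ℕ) (hM : 1 ≤ M) (n : ℕ) (hn : 10 ≤ n) :
    ∃ (K : Type) (_ : Field K) (P : Fin n → Fin 2 → K), ∀ S : Finset (Fin n),
      (∀ l ∈ S, 9 ≤ (l : ℕ)) → ∀ (d : ℕ) (m : Fin n → ℕ), HasCurve P d m →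
      ∀ y : ℝ × (Fin n → ℝ), InL (by omega) M S y → y ∈ Pos n →
        ∑ i, y.2 i * m i ≤ y.1 * d := by
  obtain ⟨v, V⟩ := exists_vdata (k := ℂ) M hM
  obtain ⟨c, hc1, hc2, κ, hκ, hc3⟩ := exists_pencil V
  have D : PenData M v c κ := ⟨V, hc1, hc2, hκ, hc3⟩
  obtain ⟨k₁, i1, i2, i3, q, hq⟩ := exists_generic ℂ n
  haveI : CharZero k₁ := charZero_of_injective_algebraMap (algebraMap ℂ k₁).injective
  refine ⟨RatFunc k₁, inferInstance, movP (pts v q) (vel k₁ n v), ?_⟩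
  intro S hS d m h y hy hp
  exact ineq_final D hn q hq S hS d m h y hy hp

/-- Classes of the positive cone in the subspaces are nef. -/
theorem nefL (M : ℕ) (hM : 1 ≤ M) (n : ℕ) (hn : 10 ≤ n) :
    VeryGeneral n (fun p => ∀ S : Finset (Fin n), (∀ l ∈ S, 9 ≤ (l : ℕ)) →
      ∀ y : ℝ × (Fin n → ℝ), InL (by omega) M S y → y ∈ Pos n →
      ∀ v ∈ moriCone p, 0 ≤ BB y v) := by
  obtain ⟨K, iK, P, hP⟩ := exists_special M hM n hn
  obtain ⟨f, hf0, hf⟩ := transfer_all (le_refl n) P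
  refine ⟨f, hf0, fun p hp S hS y hy hpos v hv => ?_⟩
  refine BB_nonneg_closure _ (curveClasses p) ?_ v hv
  intro w hw
  rcases curveClasses_sub p hw with ⟨d, m, hc, rfl⟩ | ⟨i, rfl⟩
  · have h3 := hP S hS d m (hf p hp d m (by simpa using hc)) y hy hpos
    simp only [BB]
    linarith
  · simp only [BB, Pi.single_apply, mul_ite, mul_neg, mul_one, mul_zero,
      Finset.sum_ite_eq', Finset.mem_univ, if_true]
    have := nonneg_of_InL hn M hM S hS y hy hpos i
    linarith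

end Pool.Agent.H92.RP
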