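import Mathlib
import Pool.Agent.H92.RP.FinalA

set_option autoImplicit false

/-!
# RP: the equivalences on one subspace
-/

namespace Pool.Agent.H92.RP

open Pool.Agent.H13 MvPolynomial

variable {n : ℕ}

/-- splitting off the first nine coordinates -/
theorem sum_split (hn : 9 ≤ n) (g : Fin n → ℝ) :
    ∑ i, g i = ∑ i : Fin 9, g (Fin.castLE hn i) + ∑ i : Fin n, if 9 ≤ (i : ℕ) then g i else 0 := by
  have h := sum_castLE hn (fun i => if 9 ≤ (i : ℕ) then 0 else g i) (fun i hi => by simp [hi])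
  have h2 : ∑ i : Fin 9, (if 9 ≤ ((Fin.castLE hn i : Fin n) : ℕ) then 0 else g (Fin.castLE hn i)) =
      ∑ i : Fin 9, g (Fin.castLE hn i) := by
    refine Finset.sum_congr rfl fun i _ => ?_
    rw [if_neg]
    simp
  rw [← h2, ← h, ← Finset.sum_add_distrib]
  refine Finset.sum_congr rfl fun i _ => ?_
  split_ifs <;> simp

/-- the class with `k = 3` -/
noncomputable def big (M : ℕ) (S : Finset (Fin n)) : ℝ × (Fin n → ℝ) :=
  (10 + 6 * M * ∑ i, la M S 3 i,
    fun i => if (i : ℕ) < 9 then 3 + 2 * M * ∑ i, la M S 3 i else wt M S i * 3)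

theorem big_kk (hn : 9 ≤ n) (M : ℕ) (S : Finset (Fin n)) : kk hn (big M S) = 3 := by
  have h : ∀ i : Fin 9, (big M S : ℝ × (Fin n → ℝ)).2 (Fin.castLE hn i) =
      3 + 2 * M * ∑ i, la M S 3 i := by
    intro i
    simp only [big]
    rw [if_pos]
    simp
  simp only [kk, h, Finset.sum_const, Finset.card_univ, Fintype.card_fin, nsmul_eq_mul]
  simp only [big]
  push_cast
  ring

theorem big_InL (hn : 9 ≤ n) (M : ℕ) (S : Finset (Fin n)) : InL hn M S (big M S) := by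
  intro i hi
  rw [big_kk]
  simp only [big]
  rw [if_neg (by omega)]

theorem sum_wt_sq (hn : 10 ≤ n) (M : ℕ) (S : Finset (Fin n)) (hS : ∀ l ∈ S, 9 ≤ (l : ℕ))
    (k : ℝ) : (∑ i : Fin n, if 9 ≤ (i : ℕ) then (wt M S i * k) ^ 2 else 0) =
      k ^ 2 + 4 * (M * k) * ∑ i, la M S k i := by
  have key : ∀ i : Fin n, (if 9 ≤ (i : ℕ) then (wt M S i * k) ^ 2 else 0) =
      (if i = ⟨9, by omega⟩ then k ^ 2 else 0) + 4 * (M * k) * la M S k i := by
    intro i
    by_cases h9 : (i : ℕ) = 9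
    · have : i = ⟨9, by omega⟩ := Fin.ext h9
      rw [if_pos (by omega), if_pos this]
      unfold wt la
      rw [if_pos h9, if_pos h9]
      split_ifs <;> ring
    · have hne : i ≠ ⟨9, by omega⟩ := fun h => h9 (by rw [h])
      rw [if_neg hne]
      unfold wt la
      rw [if_neg h9, if_neg h9]
      by_cases hiS : i ∈ S
      · have := hS i hiS
        rw [if_pos this, if_pos hiS, if_pos hiS]
        ring
      · rw [if_neg hiS, if_neg hiS]
        split_ifs <;> ring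
  rw [Finset.sum_congr rfl fun i _ => key i, Finset.sum_add_distrib, ← Finset.mul_sum]
  simp

theorem big_sq (hn : 10 ≤ n) (M : ℕ) (S : Finset (Fin n)) (hS : ∀ l ∈ S, 9 ≤ (l : ℕ)) :
    BB (big M S : ℝ × (Fin n → ℝ)) (big M S) = 10 := by
  have hn9 : 9 ≤ n := by omega
  have e : ∀ i : Fin n, (big M S : ℝ × (Fin n → ℝ)).2 i * (big M S : ℝ × (Fin n → ℝ)).2 i =
      ((big M S : ℝ × (Fin n → ℝ)).2 i) ^ 2 := fun i => by ring
  simp only [BB, e]
  rw [sum_split hn9]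
  have h1 : ∀ i : Fin 9, (big M S : ℝ × (Fin n → ℝ)).2 (Fin.castLE hn9 i) =
      3 + 2 * M * ∑ i, la M S 3 i := by
    intro i
    simp only [big]
    rw [if_pos]
    simp
  have h2 : (∑ i : Fin n, if 9 ≤ (i : ℕ) then (big M S : ℝ × (Fin n → ℝ)).2 i ^ 2 else 0) =
      ∑ i : Fin n, if 9 ≤ (i : ℕ) then (wt M S i * 3) ^ 2 else 0 := by
    refine Finset.sum_congr rfl fun i _ => ?_
    split_ifs with h
    · rw [big_InL hn9 M S i h, big_kk]
    · rfl
  rw [h2, sum_wt_sq hn M S hS]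
  simp only [h1, Finset.sum_const, Finset.card_univ, Fintype.card_fin, nsmul_eq_mul]
  simp only [big]
  push_cast
  ring

theorem la_nonneg (M : ℕ) (hM : 1 ≤ M) (S : Finset (Fin n)) (k : ℝ) (hk : 0 ≤ k) (i : Fin n) :
    0 ≤ la M S k i := by
  have hM' : (1 : ℝ) ≤ M := by exact_mod_cast hM
  unfold la
  split_ifs
  · exact mul_nonneg (by linarith) hk
  · exact mul_nonneg (by linarith) hk
  · exact le_rfl

theorem big_pos (M : ℕ) (hM : 1 ≤ M) (S : Finset (Fin n)) :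
    0 < (big M S : ℝ × (Fin n → ℝ)).1 := by
  have h : 0 ≤ ∑ i, la M S (3 : ℝ) i :=
    Finset.sum_nonneg fun i _ => la_nonneg M hM S 3 (by norm_num) i
  simp only [big]
  have h2 : 0 ≤ 6 * (M : ℝ) * ∑ i, la M S (3 : ℝ) i :=
    mul_nonneg (by positivity) h
  linarith

/-- `K · y` on the subspace -/
theorem K_InL (hn : 10 ≤ n) (M : ℕ) (S : Finset (Fin n)) (hS : ∀ l ∈ S, 9 ≤ (l : ℕ))
    (y : ℝ × (Fin n → ℝ)) (hy : InL (by omega) M S y) :
    -3 * y.1 + ∑ i, y.2 i =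
      2 * (M * S.card - (if (⟨9, by omega⟩ : Fin n) ∈ S then 1 else 0)) *
        kk (by omega : 9 ≤ n) y := by
  have hn9 : 9 ≤ n := by omega
  rw [sum_split hn9]
  have h2 : (∑ i : Fin n, if 9 ≤ (i : ℕ) then y.2 i else 0) =
      ∑ i : Fin n, ((if i = ⟨9, by omega⟩ then kk hn9 y else 0) +
        ((if i ∈ S then 2 * M * kk hn9 y else 0) +
          (if i = ⟨9, by omega⟩ then
            (if (⟨9, by omega⟩ : Fin n) ∈ S then - 2 * kk hn9 y else 0) else 0))) := by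
    refine Finset.sum_congr rfl fun i _ => ?_
    by_cases h9 : (i : ℕ) = 9
    · have : i = ⟨9, by omega⟩ := Fin.ext h9
      rw [if_pos (by omega), if_pos this, if_pos this, hy i (by omega)]
      unfold wt
      rw [if_pos h9, this]
      split_ifs <;> ring
    · have hne : i ≠ ⟨9, by omega⟩ := fun h => h9 (by rw [h])
      rw [if_neg hne, if_neg hne]
      by_cases hi : 9 ≤ (i : ℕ)
      · rw [if_pos hi, hy i hi]
        unfold wt
        rw [if_neg h9]
        split_ifs <;> ring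
      · rw [if_neg hi, if_neg (fun h => hi (hS i h))]
        ring
  rw [h2, Finset.sum_add_distrib, Finset.sum_add_distrib]
  simp only [Finset.sum_ite_eq', Finset.mem_univ, if_true]
  rw [← Finset.sum_filter, Finset.filter_mem_eq_inter, Finset.univ_inter, Finset.sum_const,
    nsmul_eq_mul]
  have h3 : -3 * y.1 + ∑ i : Fin 9, y.2 (Fin.castLE hn9 i) = - kk hn9 y := by
    simp only [kk]; ring
  have h4 : ∀ a b : ℝ, -3 * y.1 + (∑ i : Fin 9, y.2 (Fin.castLE hn9 i) + (kk hn9 y + (a + b))) =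
      a + b := by
    intro a b
    linear_combination h3
  rw [h4]
  split_ifs <;> ring

theorem thm_one (M : ℕ) (hM : 1 ≤ M) (n : ℕ) (hn : 10 ≤ n) :
    VeryGeneral n (fun p => ∀ S : Finset (Fin n), (∀ l ∈ S, 9 ≤ (l : ℕ)) →
      ∀ y : ℝ × (Fin n → ℝ), InL (by omega) M S y →
      ((y ∈ moriCone p ↔ y ∈ expectedCone p) ∧
        (y ∈ moriCone p ↔ 0 ≤ y.1 ∧ ∑ i, y.2 i ^ 2 ≤ y.1 ^ 2) ∧
        (y ∈ moriCone p ↔ ∀ v ∈ moriCone p, 0 ≤ y.1 * v.1 - ∑ i, y.2 i * v.2 i))) := by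
  obtain ⟨f, hf0, hf⟩ := nefL M hM n hn
  refine ⟨f, hf0, fun p hp S hS y hyL => ?_⟩
  have hn9 : 9 ≤ n := by omega
  have hsep : y ∉ Pos n → ∃ x ∈ LL hn9 M S, x ∈ Pos n ∧ BB x y < 0 := fun h =>
    separateL (LL hn9 M S) _ (big_InL hn9 M S) (big_pos M hM S)
      (by rw [big_sq hn M S hS]; norm_num) y hyL h
  have hnef : ∀ x ∈ LL hn9 M S, x ∈ Pos n → ∀ v ∈ moriCone p, 0 ≤ BB x v :=
    fun x hx hxp v hv => hf p hp S hS x hx hxp v hv
  have h1 : y ∈ moriCone p → y ∈ Pos n := by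
    intro hy
    by_contra hneg
    obtain ⟨x, hxL, hx, hlt⟩ := hsep hneg
    have := hnef x hxL hx y hy
    linarith
  have h2 : y ∈ Pos n → y ∈ expectedCone p := fun hy =>
    subset_closure (Submodule.subset_span (Or.inr hy))
  have h3 : y ∈ expectedCone p → y ∈ moriCone p := fun hy => expected_subset_mori p hy
  have h4 : y ∈ Pos n → ∀ v ∈ moriCone p, 0 ≤ y.1 * v.1 - ∑ i, y.2 i * v.2 i :=
    fun hy v hv => hnef y hyL hy v hv
  have h5 : (∀ v ∈ moriCone p, 0 ≤ y.1 * v.1 - ∑ i, y.2 i * v.2 i) → y ∈ Pos n := by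
    intro hnef'
    by_contra hneg
    obtain ⟨x, hxL, hx, hlt⟩ := hsep hneg
    have h6 : 0 ≤ BB y x := hnef' x (pos_subset_mori p hx)
    rw [BB_comm] at h6
    linarith
  exact ⟨⟨fun hy => h2 (h1 hy), h3⟩, ⟨h1, fun hy => h3 (h2 hy)⟩,
    ⟨fun hy => h4 (h1 hy), fun hy => h3 (h2 (h5 hy))⟩⟩

end Pool.Agent.H92.RP
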